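import Pool.Agent.TBF.Stmts

/-!
# Three-body Bose gases (MP_80dc41_mp), the four-body problem: module PLS, the family
-/

set_option autoImplicit false

open MeasureTheory Filter Topology
open scoped ContDiff

namespace Pool.Agent.TBF

open Pool.Agent.TBG Pool.Agent.TBL

/-- PLS: the family -/
theorem pls_proof (hPRF : Pool.Agent.TBL.Stmt_PRF) (hSCA : Pool.Agent.TBL.Stmt_SCA)
    (hLSU : Pool.Agent.TBG.Stmt_LSU) : Stmt_PLS := by
  intro lam h0 h1
  obtain ⟨_, _, _, _, _, _, _, hP, _, _, _, _⟩ := hPRF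
  obtain ⟨hs, hw, _⟩ := hSCA
  have hq : ∀ z : E × E, 0 ≤ QQ z := fun z => by unfold QQ; positivity
  have hphi : ∀ z, 0 < phi0 z ∧ phi0 z ≤ 1 / 8 := fun z =>
    ⟨(hP (QQ z) (hq z)).1, (hP (QQ z) (hq z)).2.1⟩
  have hpl : pl lam = fun z => 0 + lam * phi0 z := by
    funext z
    simp [pl]
  have hL : ∀ z, Lap (pl lam) z = lam * Lap phi0 z := by
    intro z
    rw [hpl]
    exact (hLSU.2 phi0 0 lam hs.smooth z).1
  have hG : ∀ z, gsq (pl lam) z = lam ^ 2 * gsq phi0 z := by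
    intro z
    rw [hpl]
    exact (hLSU.2 phi0 0 lam hs.smooth z).2
  have hgs : ∀ z, 0 ≤ gsq phi0 z := fun z => by unfold gsq; positivity
  have hww : ∀ z, ww (pl lam) z = lam * W1 (QQ z) := by
    intro z
    rw [← hw z]
    unfold ww
    rw [hL z]
    ring
  have e : ∀ z, pl lam z = lam * phi0 z := fun z => by rw [hpl]; ring
  refine ⟨?_, hww, ?_, hphi⟩
  · refine ⟨?_, ?_, ?_, ?_, ?_, ?_, ?_, ?_, ?_⟩
    · rw [hpl]
      exact contDiff_const.add (contDiff_const.mul hs.smooth)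
    · intro x y
      rw [e, e, hs.sy1]
    · intro x y
      rw [e, e, hs.sy2]
    · intro z
      rw [e]
      have := hphi z
      nlinarith
    · obtain ⟨c, hc, hb⟩ := hs.low
      refine ⟨lam * c, by positivity, fun z => ?_⟩
      rw [e]
      have := mul_le_mul_of_nonneg_left (hb z) h0.le
      calc lam * c ≤ lam * ((1 + ‖z‖) ^ 4 * phi0 z) := this
        _ = _ := by ring
    · obtain ⟨C, hb⟩ := hs.upp
      refine ⟨lam * C, fun z => ?_⟩
      rw [e]
      have := mul_le_mul_of_nonneg_left (hb z) h0.le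
      calc (1 + ‖z‖) ^ 4 * (lam * phi0 z) = lam * ((1 + ‖z‖) ^ 4 * phi0 z) := by ring
        _ ≤ lam * C := this
    · obtain ⟨C, hb⟩ := hs.grad
      refine ⟨lam ^ 2 * C, fun z => ?_⟩
      rw [hG]
      have := mul_le_mul_of_nonneg_left (hb z) (sq_nonneg lam)
      calc (1 + ‖z‖) ^ 10 * (lam ^ 2 * gsq phi0 z) = lam ^ 2 * ((1 + ‖z‖) ^ 10 * gsq phi0 z) := by
            ring
        _ ≤ lam ^ 2 * C := this
    · intro z
      rw [hL]
      exact mul_nonpos_of_nonneg_of_nonpos h0.le (hs.sup z)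
    · obtain ⟨R, hR⟩ := hs.supp
      refine ⟨R, fun z hz => ?_⟩
      rw [hL, hR z hz, mul_zero]
  · intro z
    unfold VV
    rw [hww (z.1, z.2), e (z.1, z.2)]
    rfl

end Pool.Agent.TBF
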