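import Pool.Agent.TBF.EXP
import Pool.Agent.TBA.Stmts
import Pool.Agent.TBC.Stmts

/-!
# Three-body Bose gases (MP_80dc41_mp): the outputs of the parts A and C in the form used by the conclusion
-/

set_option autoImplicit false

open MeasureTheory Filter Topology
open scoped ContDiff

namespace Pool.Agent.TBF

open Pool.Agent.TBG Pool.Agent.TBL

theorem exiE_of (hA : Pool.Agent.TBA.Stmt_OUTA) : ExiE := by
  intro lam h0 h1 ρ hρ
  obtain ⟨e, he⟩ := hA lam 1 h0 h1 one_pos ρ hρ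
  refine ⟨e, ?_⟩
  have h : (fun z : E × E => pl lam ((1 : ℝ)⁻¹ • z)) = pl lam := by
    funext z
    rw [inv_one, one_smul]
  rwa [h] at he

theorem uppE_of (hC : Pool.Agent.TBC.Stmt_GSF) (hO : Stmt_OB1) (hP : Stmt_PLS) : UppE := by
  intro lam B' h0 h1 hB
  have hS := (hP lam h0 h1).1
  obtain ⟨ξ, hξ, hs, -, hg⟩ := hO (pl lam) hS ((B' - b4 (pl lam)) / 2) (by linarith)
  exact hC (pl lam) ξ B' hS hξ hs (by linarith)

end Pool.Agent.TBF
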