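import Pool.Agent.TBF.ESC

/-!
# Three-body Bose gases (MP_80dc41_mp): from the sharp bounds of the energy to the expansion, and to two potentials
with the same scattering energy and different constants of second order
-/

set_option autoImplicit false

open MeasureTheory Filter Topology
open scoped ContDiff

namespace Pool.Agent.TBF

open Pool.Agent.TBG Pool.Agent.TBL

/-- existence of the thermodynamic limit for the family -/
def ExiE : Prop := ∀ lam : ℝ, 0 < lam → lam ≤ 1 → ∀ ρ : ℝ, 0 < ρ → ∃ e : ℝ, IsE3B (VV (pl lam)) ρ e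

/-- the sharp upper bound for the family -/
def UppE : Prop := ∀ lam B' : ℝ, 0 < lam → lam ≤ 1 → b4 (pl lam) < B' → ∃ ρ₀ : ℝ, 0 < ρ₀ ∧
  ∀ ρ, 0 < ρ → ρ < ρ₀ → ∀ᶠ p in thermo ρ, E0 (VV (pl lam)) p.1 p.2 / p.2 ^ 3 ≤
    1 / 6 * ρ ^ 3 * (∫ z, ww (pl lam) z) + 1 / 24 * ρ ^ 4 * B'

/-- the sharp lower bound for the family -/
def LowE : Prop := ∀ lam B' : ℝ, 0 < lam → lam ≤ 1 → B' < b4 (pl lam) → ∃ ρ₀ : ℝ, 0 < ρ₀ ∧
  ∀ ρ, 0 < ρ → ρ < ρ₀ → ∀ᶠ p in thermo ρ,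
    1 / 6 * ρ ^ 3 * (∫ z, ww (pl lam) z) + 1 / 24 * ρ ^ 4 * B' ≤ E0 (VV (pl lam)) p.1 p.2 / p.2 ^ 3

/-- the expansion, with the constant `B / (4 b)`, from the sharp bounds -/
theorem exp_of_bounds (hT : Stmt_THE) (V : E → E → ℝ) (b B : ℝ) (hb : 0 < b) (hV : bM V = b)
    (hA : ∀ ρ : ℝ, 0 < ρ → ∃ e : ℝ, IsE3B V ρ e)
    (hU : ∀ B' : ℝ, B < B' → ∃ ρ₀ : ℝ, 0 < ρ₀ ∧ ∀ ρ, 0 < ρ → ρ < ρ₀ → ∀ᶠ p in thermo ρ,
      E0 V p.1 p.2 / p.2 ^ 3 ≤ 1 / 6 * ρ ^ 3 * b + 1 / 24 * ρ ^ 4 * B')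
    (hL : ∀ B' : ℝ, B' < B → ∃ ρ₀ : ℝ, 0 < ρ₀ ∧ ∀ ρ, 0 < ρ → ρ < ρ₀ → ∀ᶠ p in thermo ρ,
      1 / 6 * ρ ^ 3 * b + 1 / 24 * ρ ^ 4 * B' ≤ E0 V p.1 p.2 / p.2 ^ 3) :
    HasExpansion V (B / (4 * b)) := by
  choose! e he using hA
  refine ⟨e, he, ?_⟩
  rw [hV, tendsto_order]
  constructor
  · intro a ha
    rw [lt_div_iff₀ (by positivity)] at ha
    obtain ⟨B', h1, h2⟩ := exists_between ha
    obtain ⟨ρ₀, hρ₀, h3⟩ := hL B' h2
    filter_upwards [Ioo_mem_nhdsGT hρ₀] with ρ hρ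
    obtain ⟨h4, h5⟩ := hρ
    have hne : (thermo ρ).NeBot := (hT ρ h4).1
    have h6 : 1 / 6 * ρ ^ 3 * b + 1 / 24 * ρ ^ 4 * B' ≤ e ρ := ge_of_tendsto (he ρ h4) (h3 ρ h4 h5)
    have h7 : 0 < 1 / 6 * ρ ^ 3 * b := by positivity
    have h8 : 0 < 1 / 24 * ρ ^ 4 := by positivity
    have h9 : 1 / 24 * ρ ^ 4 * (a * (4 * b)) < 1 / 24 * ρ ^ 4 * B' := mul_lt_mul_of_pos_left h1 h8
    rw [lt_div_iff₀ h4, lt_sub_iff_add_lt, lt_div_iff₀ h7]
    nlinarith [h6, h9]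
  · intro a ha
    rw [gt_iff_lt, div_lt_iff₀ (by positivity)] at ha
    obtain ⟨B', h1, h2⟩ := exists_between ha
    obtain ⟨ρ₀, hρ₀, h3⟩ := hU B' h1
    filter_upwards [Ioo_mem_nhdsGT hρ₀] with ρ hρ
    obtain ⟨h4, h5⟩ := hρ
    have hne : (thermo ρ).NeBot := (hT ρ h4).1
    have h6 : e ρ ≤ 1 / 6 * ρ ^ 3 * b + 1 / 24 * ρ ^ 4 * B' := le_of_tendsto (he ρ h4) (h3 ρ h4 h5)
    have h7 : 0 < 1 / 6 * ρ ^ 3 * b := by positivity
    have h8 : 0 < 1 / 24 * ρ ^ 4 := by positivity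
    have h9 : 1 / 24 * ρ ^ 4 * B' < 1 / 24 * ρ ^ 4 * (a * (4 * b)) := mul_lt_mul_of_pos_left h2 h8
    rw [div_lt_iff₀ h4, sub_lt_iff_lt_add, div_lt_iff₀ h7]
    nlinarith [h6, h9]

/-- the expansion of the family -/
theorem exp_family (hT : Stmt_THE) (hB : Stmt_BME) (hP : Stmt_PLS) (hA : ExiE) (hU : UppE) (hL : LowE)
    (lam : ℝ) (h0 : 0 < lam) (h1 : lam ≤ 1) (hw : 0 < ∫ z, ww (pl lam) z) :
    HasExpansion (VV (pl lam)) (b4 (pl lam) / (4 * ∫ z, ww (pl lam) z)) :=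
  exp_of_bounds hT _ _ _ hw (hB _ (hP lam h0 h1).1) (hA lam h0 h1) (fun B' h => hU lam B' h0 h1 h)
    (fun B' h => hL lam B' h0 h1 h)

/-- the total charge of the family -/
theorem ww_family (hAD : Stmt_ADM) (hP : Stmt_PLS) (hPRF : Pool.Agent.TBL.Stmt_PRF) :
    ∃ w : ℝ, 0 < w ∧ ∀ lam : ℝ, 0 < lam → lam ≤ 1 → ∫ z, ww (pl lam) z = lam * w := by
  refine ⟨∫ z, W1 (QQ z), ?_, fun lam h0 h1 => ?_⟩
  · have hP1 := hP 1 one_pos le_rfl
    obtain ⟨-, -, hc, hs, -, -, -⟩ := hAD _ hP1.1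
    have hF : ww (pl 1) = fun z => W1 (QQ z) := funext fun z => by rw [hP1.2.1 z, one_mul]
    rw [hF] at hc hs
    have hn : ∀ z : E × E, 0 ≤ W1 (QQ z) := fun z => (hPRF.2.2.1 _).1
    have hi : Integrable (fun z : E × E => W1 (QQ z)) := hc.integrable_of_hasCompactSupport hs
    rw [integral_pos_iff_support_of_nonneg hn hi]
    have h2 : ((volume : Measure E).prod (volume : Measure E)).IsOpenPosMeasure :=
      MeasureTheory.Measure.prod.instIsOpenPosMeasure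
    have h4 : (volume : Measure (E × E)).IsOpenPosMeasure := h2
    have hQ0 : QQ (0 : E × E) = 0 := by simp [QQ]
    exact hc.isOpen_support.measure_pos volume ⟨0, by
      rw [Function.mem_support, hQ0]
      exact ne_of_gt (hPRF.2.2.2.1 0 (by norm_num))⟩
  · rw [← integral_const_mul]
    exact integral_congr_ae (Eventually.of_forall fun z => (hP lam h0 h1).2.1 z)

/-- each member of the family, rescaled so that the scattering energy is `b` -/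
theorem exp_scaled (hT : Stmt_THE) (hB : Stmt_BME) (hLTR : Stmt_LTR) (hSCL : Stmt_SCL) (hAD : Stmt_ADM)
    (hP : Stmt_PLS) (hA : ExiE) (hU : UppE) (hL : LowE) (lam w b : ℝ) (h0 : 0 < lam) (h1 : lam ≤ 1) (_hb : 0 < b)
    (hw : 0 < w) (hI : ∫ z, ww (pl lam) z = lam * w) (r : ℝ) (hr : 0 < r) (hrb : r ^ 4 * (lam * w) = b) :
    ∃ V : E → E → ℝ, Admissible V ∧ bM V = b ∧ HasExpansion V (r ^ 3 * (b4 (pl lam) / (4 * (lam * w)))) := by
  have hS := (hP lam h0 h1).1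
  obtain ⟨hS', hI', -⟩ := hSCL (pl lam) r hr hS
  have hbV : bM (VV (fun z => pl lam (r⁻¹ • z))) = b := by rw [hB _ hS', hI', hI, hrb]
  refine ⟨VV (fun z => pl lam (r⁻¹ • z)), (hAD _ hS').1, hbV, ?_⟩
  have hV : ∀ x y, VV (fun z => pl lam (r⁻¹ • z)) x y = (r ^ 2)⁻¹ * VV (pl lam) (r⁻¹ • x) (r⁻¹ • y) := by
    intro x y
    unfold VV
    have h2 := ((hLTR (pl lam) hS.smooth).2.1 r⁻¹ (x, y)).1
    unfold ww
    have h3 : r⁻¹ • (x, y) = (r⁻¹ • x, r⁻¹ • y) := rfl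
    simp only [h2, h3]
    ring
  have hw' : 0 < ∫ z, ww (pl lam) z := by rw [hI]; positivity
  have h4 := exp_family hT hB hP hA hU hL lam h0 h1 hw'
  rw [hI] at h4
  refine hasExpansion_scale _ _ r _ hr hV ?_ h4
  rw [hbV, hB _ hS, hI, hrb]

/-- the constants of second order of the admissible potentials with `b_M(V) = b` accumulate at `0` from below -/
theorem exp_small (hT : Stmt_THE) (hB : Stmt_BME) (hLTR : Stmt_LTR) (hSCL : Stmt_SCL) (hAD : Stmt_ADM)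
    (hP : Stmt_PLS) (hPRF : Pool.Agent.TBL.Stmt_PRF) (hO : Stmt_OB3) (hA : ExiE) (hU : UppE) (hL : LowE)
    (b : ℝ) (hb : 0 < b) (ε : ℝ) (hε : 0 < ε) :
    ∃ (V : E → E → ℝ) (C : ℝ), Admissible V ∧ bM V = b ∧ HasExpansion V C ∧ -ε < C ∧ C < 0 := by
  obtain ⟨w, hw, hI⟩ := ww_family hAD hP hPRF
  obtain ⟨K, hK, hO⟩ := hO
  set B := B40 phi0 with hB0
  -- the scale `r` of the parameter `lam = b / (w r⁴)`
  have hlim : Tendsto (fun r : ℝ => b * |B| / (4 * w ^ 2) * r⁻¹) atTop (𝓝 0) := by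
    have := tendsto_inv_atTop_zero.const_mul (b * |B| / (4 * w ^ 2))
    rwa [mul_zero] at this
  have hev : ∀ᶠ r : ℝ in atTop, b * |B| / (4 * w ^ 2) * r⁻¹ < ε := hlim.eventually_lt_const hε
  have hev2 : ∀ᶠ r : ℝ in atTop, b / w ≤ r ^ 4 := by
    have := (tendsto_pow_atTop (α := ℝ) (n := 4) (by norm_num)).eventually_ge_atTop (b / w)
    exact this
  obtain ⟨r, h1, h2, h3⟩ := (hev.and (hev2.and (eventually_gt_atTop 0))).exists
  set lam := b / (w * r ^ 4) with hlam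
  have h0 : 0 < lam := by positivity
  have hl1 : lam ≤ 1 := by
    rw [hlam, div_le_one (by positivity)]
    rwa [div_le_iff₀' hw] at h2
  have hrb : r ^ 4 * (lam * w) = b := by
    rw [hlam]
    field_simp
  obtain ⟨V, hV, hVb, hE⟩ := exp_scaled hT hB hLTR hSCL hAD hP hA hU hL lam w b h0 hl1 hb hw
    (hI lam h0 hl1) r h3 hrb
  obtain ⟨h4, -, h5⟩ := hO lam h0 hl1
  refine ⟨V, _, hV, hVb, hE, ?_, ?_⟩
  · have h6 : -(lam ^ 2 * |B|) ≤ b4 (pl lam) := by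
      have : lam ^ 2 * B ≤ lam ^ 2 * |B| := mul_le_mul_of_nonneg_left (le_abs_self B) (by positivity)
      linarith
    have h7 : r ^ 3 * (-(lam ^ 2 * |B|) / (4 * (lam * w))) ≤ r ^ 3 * (b4 (pl lam) / (4 * (lam * w))) := by
      apply mul_le_mul_of_nonneg_left _ (by positivity)
      exact div_le_div_of_nonneg_right h6 (by positivity)
    have h8 : r ^ 3 * (-(lam ^ 2 * |B|) / (4 * (lam * w))) = -(b * |B| / (4 * w ^ 2) * r⁻¹) := by
      rw [hlam]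
      field_simp
    linarith
  · have h6 : b4 (pl lam) / (4 * (lam * w)) < 0 := div_neg_of_neg_of_pos h5 (by positivity)
    exact mul_neg_of_pos_of_neg (by positivity) h6

/-- two potentials with the same scattering energy and different constants of second order -/
theorem exp_two (hT : Stmt_THE) (hB : Stmt_BME) (hLTR : Stmt_LTR) (hSCL : Stmt_SCL) (hAD : Stmt_ADM)
    (hP : Stmt_PLS) (hPRF : Pool.Agent.TBL.Stmt_PRF) (hO : Stmt_OB3) (hA : ExiE) (hU : UppE) (hL : LowE)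
    (b : ℝ) (hb : 0 < b) : ∃ (V₁ V₂ : E → E → ℝ) (C₁ C₂ : ℝ), Admissible V₁ ∧ Admissible V₂ ∧ bM V₁ = b ∧
      bM V₂ = b ∧ HasExpansion V₁ C₁ ∧ HasExpansion V₂ C₂ ∧ C₁ ≠ C₂ := by
  obtain ⟨V₁, C₁, h1, h2, h3, -, h5⟩ := exp_small hT hB hLTR hSCL hAD hP hPRF hO hA hU hL b hb 1 one_pos
  obtain ⟨V₂, C₂, g1, g2, g3, g4, -⟩ := exp_small hT hB hLTR hSCL hAD hP hPRF hO hA hU hL b hb (-C₁) (by linarith)
  refine ⟨V₁, V₂, C₁, C₂, h1, g1, h2, g2, h3, g3, fun h => ?_⟩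
  rw [neg_neg, h] at g4
  exact lt_irrefl _ g4

end Pool.Agent.TBF
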