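import Pool.Agent.TBF.Stmts

set_option autoImplicit false

open MeasureTheory Filter Topology
open scoped ContDiff

namespace Pool.Agent.TBF

open Pool.Agent.TBG Pool.Agent.TBL

namespace ALG_

theorem dv_smooth {F : W4 → ℝ} (hF : ContDiff ℝ ∞ F) (v : W4) : ContDiff ℝ ∞ (dv v F) := by
  have h1 : ContDiff ℝ ∞ (fderiv ℝ F) := hF.fderiv_right (by simp)
  exact h1.clm_apply contDiff_const

theorem dif {F : W4 → ℝ} (hF : ContDiff ℝ ∞ F) (p : W4) : DifferentiableAt ℝ F p :=
  hF.differentiable (by simp) p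

theorem dv_add {F G : W4 → ℝ} (hF : ContDiff ℝ ∞ F) (hG : ContDiff ℝ ∞ G) (v p : W4) :
    dv v (fun p => F p + G p) p = dv v F p + dv v G p := by
  unfold dv
  rw [fderiv_fun_add (dif hF p) (dif hG p)]
  rfl

theorem dv_mul {F G : W4 → ℝ} (hF : ContDiff ℝ ∞ F) (hG : ContDiff ℝ ∞ G) (v p : W4) :
    dv v (fun p => F p * G p) p = dv v F p * G p + F p * dv v G p := by
  unfold dv
  rw [fderiv_fun_mul (dif hF p) (dif hG p)]
  simp only [_root_.add_apply, _root_.smul_apply, smul_eq_mul]
  ring

theorem dv_comp {F : W4 → ℝ} (hF : ContDiff ℝ ∞ F) {m : ℝ → ℝ} (hm : ContDiff ℝ ∞ m)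
    (v p : W4) : dv v (fun p => m (F p)) p = deriv m (F p) * dv v F p := by
  unfold dv
  have h1 : HasDerivAt m (deriv m (F p)) (F p) :=
    (hm.differentiable (by simp) (F p)).hasDerivAt
  have h2 := h1.comp_hasFDerivAt p (dif hF p).hasFDerivAt
  have h3 : (fun p => m (F p)) = m ∘ F := rfl
  rw [h3, h2.fderiv]
  simp

end ALG_

open ALG_ in
theorem alg_proof : Stmt_ALG := by
  intro F G hF hG
  have hc : ∀ {H : W4 → ℝ}, ContDiff ℝ ∞ H → ∀ v, Continuous (dv v H) :=
    fun hH v => (dv_smooth hH v).continuous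
  have hexp : ∀ p, gsq4 (fun p => F p + G p) p = gsq4 F p + 2 * gdt F G p + gsq4 G p := by
    intro p
    simp only [gsq4, gdt, Finset.mul_sum, ← Finset.sum_add_distrib]
    refine Finset.sum_congr rfl fun m _ => Finset.sum_congr rfl fun c _ => ?_
    rw [dv_add hF hG]
    ring
  have habs : ∀ p, |gdt F G p| ≤ (gsq4 F p + gsq4 G p) / 2 := by
    intro p
    have e : (gsq4 F p + gsq4 G p) / 2 =
        ∑ m : Fin 4, ∑ c : Fin 3, ((dv (d4 m c) F p) ^ 2 + (dv (d4 m c) G p) ^ 2) / 2 := by
      simp only [gsq4, Finset.sum_div, ← Finset.sum_add_distrib, add_div]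
    rw [e]
    unfold gdt
    refine (Finset.abs_sum_le_sum_abs _ _).trans (Finset.sum_le_sum fun m _ => ?_)
    refine (Finset.abs_sum_le_sum_abs _ _).trans (Finset.sum_le_sum fun c _ => ?_)
    rw [abs_le]
    constructor
    · nlinarith [sq_nonneg (dv (d4 m c) F p + dv (d4 m c) G p)]
    · nlinarith [sq_nonneg (dv (d4 m c) F p - dv (d4 m c) G p)]
  refine ⟨?_, ?_, ?_, dv_smooth hF, ?_, dv_add hF hG, ?_, dv_mul hF hG, hexp, ?_, habs, ?_, ?_⟩
  · unfold gdt
    exact continuous_finsetSum _ fun m _ => continuous_finsetSum _ fun c _ =>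
      (hc hF _).mul (hc hG _)
  · unfold gsq4
    exact continuous_finsetSum _ fun m _ => continuous_finsetSum _ fun c _ =>
      (hc hF _).pow 2
  · unfold Lap4
    exact continuous_finsetSum _ fun m _ => continuous_finsetSum _ fun c _ =>
      hc (dv_smooth hF _) _
  · intro p
    refine ⟨?_, ?_, ?_⟩
    · unfold gsq4 gdt
      refine Finset.sum_congr rfl fun m _ => Finset.sum_congr rfl fun c _ => ?_
      ring
    · unfold gdt
      refine Finset.sum_congr rfl fun m _ => Finset.sum_congr rfl fun c _ => ?_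
      ring
    · exact Finset.sum_nonneg fun m _ => Finset.sum_nonneg fun c _ => sq_nonneg _
  · intro v p a
    constructor
    · have h := dv_mul (contDiff_const (c := a)) hF v p
      rw [h]
      have : dv v (fun _ : W4 => a) p = 0 := by
        unfold dv
        simp
      rw [this]
      ring
    · have h := dv_add (contDiff_const (c := a)) hF v p
      rw [h]
      have : dv v (fun _ : W4 => a) p = 0 := by
        unfold dv
        simp
      rw [this]
      ring
  · intro p
    rw [hexp p]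
    have h1 := habs p
    have h2 := le_abs_self (gdt F G p)
    linarith
  · intro m c p
    unfold gsq4
    refine le_trans ?_ (Finset.single_le_sum (f := fun m => ∑ c, (dv (d4 m c) F p) ^ 2)
      (fun m _ => Finset.sum_nonneg fun c _ => sq_nonneg _) (Finset.mem_univ m))
    exact Finset.single_le_sum (f := fun c => (dv (d4 m c) F p) ^ 2)
      (fun c _ => sq_nonneg _) (Finset.mem_univ c)
  · intro m hm p
    unfold gsq4
    rw [Finset.mul_sum]
    refine Finset.sum_congr rfl fun i _ => ?_
    rw [Finset.mul_sum]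
    refine Finset.sum_congr rfl fun c _ => ?_
    rw [dv_comp hF hm]
    ring

end Pool.Agent.TBF
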