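import Pool.Agent.TBF.Stmts

set_option autoImplicit false

open MeasureTheory Filter Topology
open scoped ContDiff

namespace Pool.Agent.TBF

open Pool.Agent.TBG Pool.Agent.TBL

namespace B20_

theorem bd_of (F : W4 → ℝ) (h : TF F) : ∃ C : ℝ, 0 ≤ C ∧ ∀ p : W4, (1 + ‖p‖) ^ 8 * |F p| ≤ C := by
  have hc : Continuous (fun p : W4 => (1 + ‖p‖) ^ 8 * F p) := by
    have := h.1.continuous
    fun_prop
  have hs : HasCompactSupport (fun p : W4 => (1 + ‖p‖) ^ 8 * F p) := h.2.mul_left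
  obtain ⟨C, hC⟩ := hc.bounded_above_of_compact_support hs
  refine ⟨C, (norm_nonneg _).trans (hC 0), fun p => ?_⟩
  have := hC p
  rwa [Real.norm_eq_abs, abs_mul, abs_of_nonneg (by positivity : (0 : ℝ) ≤ (1 + ‖p‖) ^ 8)] at this

theorem bd_of' (F : W4 → ℝ) (h : TF F) : ∃ C : ℝ, 0 ≤ C ∧ ∀ p : W4, |F p| ≤ C := by
  obtain ⟨C, hC⟩ := h.1.continuous.bounded_above_of_compact_support h.2
  exact ⟨C, (norm_nonneg _).trans (hC 0), fun p => by simpa [Real.norm_eq_abs] using hC p⟩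

theorem unif (Y : Fin 4 → Fin 3 → W4 → ℝ) (h : ∀ m c, TF (Y m c)) :
    ∃ C : ℝ, 0 ≤ C ∧ ∀ m c (p : W4), (1 + ‖p‖) ^ 8 * |Y m c p| ≤ C := by
  choose C hC0 hC using fun m c => bd_of (Y m c) (h m c)
  refine ⟨∑ m, ∑ c, C m c, Finset.sum_nonneg (fun m _ => Finset.sum_nonneg (fun c _ => hC0 m c)), ?_⟩
  intro m c p
  refine (hC m c p).trans ?_
  refine (Finset.single_le_sum (f := fun c => C m c) (fun c _ => hC0 m c) (Finset.mem_univ c)).trans ?_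
  exact Finset.single_le_sum (f := fun m => ∑ c, C m c)
    (fun m _ => Finset.sum_nonneg (fun c _ => hC0 m c)) (Finset.mem_univ m)

theorem young (δ x y : ℝ) (hδ : 0 < δ) : (x + y) ^ 2 ≤ (1 + δ) * x ^ 2 + (1 + 1 / δ) * y ^ 2 := by
  have h : 0 ≤ (δ * x - y) ^ 2 / δ := by positivity
  have e : (1 + δ) * x ^ 2 + (1 + 1 / δ) * y ^ 2 - (x + y) ^ 2 = (δ * x - y) ^ 2 / δ := by
    field_simp
    ring
  linarith

theorem int_sq (Y : Fin 4 → Fin 3 → W4 → ℝ) (h : ∀ m c, TF (Y m c)) :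
    Integrable (fun p : W4 => ∑ m, ∑ c, (Y m c p) ^ 2) := by
  refine integrable_finsetSum _ (fun m _ => integrable_finsetSum _ (fun c _ => ?_))
  have hc : Continuous (fun p : W4 => (Y m c p) ^ 2) := (h m c).1.continuous.pow 2
  refine hc.integrable_of_hasCompactSupport ?_
  have : (fun p : W4 => (Y m c p) ^ 2) = fun p => Y m c p * Y m c p := by funext p; ring
  rw [this]
  exact (h m c).2.mul_left

/-- the sum of the fields -/
theorem int_le (Y : Fin 4 → Fin 3 → W4 → ℝ) (h : ∀ m c, TF (Y m c)) (A : W4 → ℝ) (δ : ℝ) (hδ : 0 < δ)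
    (hX : ∀ m c (p : W4), |Xr m c p| ≤ 2 * ‖p‖) (hA : Integrable (fun p : W4 => ‖p‖ ^ 2 * A p ^ 2)) :
    (∫ p, ∑ m, ∑ c, (Y m c p + Xr m c p * A p) ^ 2) ≤
      (∫ p, ∑ m, ∑ c, (Y m c p) ^ 2) + δ * (∫ p, ∑ m, ∑ c, (Y m c p) ^ 2)
        + (1 + 1 / δ) * (48 * ∫ p : W4, ‖p‖ ^ 2 * A p ^ 2) := by
  have hI := int_sq Y h
  have hG : Integrable (fun p : W4 => (1 + δ) * (∑ m, ∑ c, (Y m c p) ^ 2) +
      (1 + 1 / δ) * (48 * (‖p‖ ^ 2 * A p ^ 2))) :=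
    (hI.const_mul _).add ((hA.const_mul 48).const_mul _)
  have hle : (∫ p, ∑ m, ∑ c, (Y m c p + Xr m c p * A p) ^ 2) ≤
      ∫ p : W4, ((1 + δ) * (∑ m, ∑ c, (Y m c p) ^ 2) + (1 + 1 / δ) * (48 * (‖p‖ ^ 2 * A p ^ 2))) := by
    refine integral_mono_of_nonneg (ae_of_all _ (fun p => ?_)) hG (ae_of_all _ (fun p => ?_))
    · exact Finset.sum_nonneg (fun m _ => Finset.sum_nonneg (fun c _ => sq_nonneg _))
    · have h1 : ∀ m c, (Y m c p + Xr m c p * A p) ^ 2 ≤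
          (1 + δ) * (Y m c p) ^ 2 + (1 + 1 / δ) * (4 * (‖p‖ ^ 2 * A p ^ 2)) := by
        intro m c
        refine (young δ _ _ hδ).trans ?_
        have hX2 : (Xr m c p) ^ 2 ≤ (2 * ‖p‖) ^ 2 := by
          rw [← sq_abs (Xr m c p)]
          exact pow_le_pow_left₀ (abs_nonneg _) (hX m c p) 2
        have : (Xr m c p * A p) ^ 2 ≤ 4 * (‖p‖ ^ 2 * A p ^ 2) := by
          rw [mul_pow]
          nlinarith [mul_le_mul_of_nonneg_right hX2 (sq_nonneg (A p))]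
        have hδ' : 0 ≤ 1 + 1 / δ := by positivity
        linarith [mul_le_mul_of_nonneg_left this hδ']
      calc (∑ m, ∑ c, (Y m c p + Xr m c p * A p) ^ 2)
          ≤ ∑ m : Fin 4, ∑ c : Fin 3, ((1 + δ) * (Y m c p) ^ 2 + (1 + 1 / δ) * (4 * (‖p‖ ^ 2 * A p ^ 2))) :=
            Finset.sum_le_sum (fun m _ => Finset.sum_le_sum (fun c _ => h1 m c))
        _ = (1 + δ) * (∑ m, ∑ c, (Y m c p) ^ 2) + (1 + 1 / δ) * (48 * (‖p‖ ^ 2 * A p ^ 2)) := by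
            simp only [Finset.sum_add_distrib, ← Finset.mul_sum, Finset.sum_const, Finset.card_univ,
              Fintype.card_fin, nsmul_eq_mul]
            push_cast
            ring
  refine hle.trans (le_of_eq ?_)
  rw [integral_add (hI.const_mul _) ((hA.const_mul 48).const_mul _), integral_const_mul, integral_const_mul,
    integral_const_mul]
  ring

end B20_

open B20_ in
theorem b20_proof (h1 : Stmt_ALG) (h2 : Stmt_B2A) (h3 : Stmt_B2C) (h4 : Stmt_RAD) (h5 : Stmt_TR1)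
    (h6 : Stmt_TR2) (h7 : Stmt_TR3) : Stmt_B20 := by
  intro φ hφ hD ε hε
  obtain ⟨Y0, u0, hDL, hb⟩ := h2 φ hφ hD (ε / 4) (by positivity)
  set A0 : ℝ := ∫ p, ∑ m, ∑ c, (Y0 m c p) ^ 2 with hA0
  have hA0n : 0 ≤ A0 := integral_nonneg (fun p =>
    Finset.sum_nonneg (fun m _ => Finset.sum_nonneg (fun c _ => sq_nonneg _)))
  set δ : ℝ := ε / (8 * (A0 + 1)) with hδ
  have hδ0 : 0 < δ := by positivity
  have hδA : δ * A0 ≤ ε / 8 := by
    rw [hδ, div_mul_eq_mul_div, div_le_div_iff₀ (by positivity) (by positivity)]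
    nlinarith
  set ε' : ℝ := min (ε / 4) (ε / 8 / ((1 + 1 / δ) * 4)) with hε'
  have hε'0 : 0 < ε' := lt_min (by positivity) (by positivity)
  have hε'1 : ε' ≤ ε / 4 := min_le_left _ _
  have hε'2 : (1 + 1 / δ) * (4 * ε') ≤ ε / 8 := by
    have : ε' ≤ ε / 8 / ((1 + 1 / δ) * 4) := min_le_right _ _
    rw [le_div_iff₀ (by positivity)] at this
    linarith
  obtain ⟨r, Y', u', g, hr, hY', hu', hg, hsY, hsg, hdv, hg2, hY2, hbe⟩ := h3 φ hφ Y0 u0 ε' hDL hε'0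
  have hr0 : 0 < r := by linarith
  obtain ⟨⟨CT, hCT⟩, hT2⟩ := h6 r g hr0 hg hsg
  obtain ⟨C1, hC10, hC1⟩ := unif Y' hY'
  obtain ⟨Cg, hCg0, hCg⟩ := bd_of' g hg
  have hlim := h7 φ hφ g hg
  have hev : ∀ᶠ Λ : ℝ in atTop, |∫ p, Ph φ p * ((Λ ^ 9)⁻¹ * g (Λ⁻¹ • p))| < ε / 16 := by
    have := (Metric.tendsto_nhds.1 hlim) (ε / 16) (by positivity)
    filter_upwards [this] with Λ hΛ
    simpa [Real.dist_eq] using hΛ
  obtain ⟨Λ0, hΛ0⟩ := eventually_atTop.1 hev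
  refine ⟨u', 4 * r * max 1 Λ0, C1 + 2 * CT + (4 * r) ^ 9 * Cg, hu', by positivity, ?_⟩
  intro l hl
  set Λ : ℝ := l / (4 * r) with hΛ
  have h4r : 0 < 4 * r := by positivity
  have hΛm : max 1 Λ0 ≤ Λ := by
    rw [hΛ, le_div_iff₀ h4r]; linarith
  have hΛ1 : 1 ≤ Λ := (le_max_left _ _).trans hΛm
  have hΛp : 0 < Λ := by linarith
  have hlr : 4 * r * Λ = l := by rw [hΛ]; field_simp
  have hl0 : 0 < l := by rw [← hlr]; positivity
  have hlr' : 4 * r ≤ l := by rw [← hlr]; nlinarith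
  have hCT0 : 0 ≤ CT := by
    have := hCT Λ hΛ1 0
    simpa using this
  obtain ⟨hAs, hAe⟩ := h5 Λ g hΛ1 hg.1
  obtain ⟨hAz, hAi, hAb⟩ := hT2 Λ hΛ1
  obtain ⟨_, hXs, hXb, hXd⟩ := h4
  refine ⟨fun m c p => Y' m c p + Xr m c p * Ag Λ g p, fun p => (Λ ^ 9)⁻¹ * g (Λ⁻¹ • p), ?_, ?_⟩
  · refine ⟨?_, ?_, ?_, ?_, ?_, ?_, ?_⟩
    · intro m c
      exact (hY' m c).1.add ((hXs m c).mul hAs)
    · exact contDiff_const.mul (hg.1.comp (contDiff_const_smul _))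
    · intro m c p hp
      show Y' m c p + Xr m c p * Ag Λ g p = 0
      rw [hsY m c p (lt_of_le_of_lt hlr' hp), hAz p (by rw [hlr]; exact hp)]
      simp
    · intro p hp
      show (Λ ^ 9)⁻¹ * g (Λ⁻¹ • p) = 0
      rw [hsg (Λ⁻¹ • p) (Or.inr ?_), mul_zero]
      rw [norm_smul, Real.norm_of_nonneg (by positivity), inv_mul_eq_div, lt_div_iff₀ hΛp, hlr]
      exact hp
    · intro p
      have hsplit : dvg (fun m c p => Y' m c p + Xr m c p * Ag Λ g p) p =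
          dvg Y' p + dvg (fun m c p => Xr m c p * Ag Λ g p) p := by
        unfold dvg
        rw [← Finset.sum_add_distrib]
        refine Finset.sum_congr rfl (fun m _ => ?_)
        rw [← Finset.sum_add_distrib]
        refine Finset.sum_congr rfl (fun c _ => ?_)
        exact (h1 (Y' m c) (fun p => Xr m c p * Ag Λ g p) (hY' m c).1
          ((hXs m c).mul hAs)).2.2.2.2.2.1 (d4 m c) p
      rw [hsplit, hdv p, hXd (Ag Λ g) hAs p, hAe p]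
      ring
    · intro m c p
      show (1 + ‖p‖) ^ 8 * |Y' m c p + Xr m c p * Ag Λ g p| ≤ _
      have e1 := hC1 m c p
      have e2 := hCT Λ hΛ1 p
      have e3 : |Xr m c p * Ag Λ g p| ≤ 2 * (‖p‖ * |Ag Λ g p|) := by
        rw [abs_mul]
        calc |Xr m c p| * |Ag Λ g p| ≤ (2 * ‖p‖) * |Ag Λ g p| :=
              mul_le_mul_of_nonneg_right (hXb m c p) (abs_nonneg _)
          _ = _ := by ring
      have e4 : (1 + ‖p‖) ^ 8 * |Y' m c p + Xr m c p * Ag Λ g p| ≤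
          (1 + ‖p‖) ^ 8 * (|Y' m c p| + 2 * (‖p‖ * |Ag Λ g p|)) := by
        refine mul_le_mul_of_nonneg_left ((abs_add_le _ _).trans ?_) (by positivity)
        linarith
      have e5 : 0 ≤ (4 * r) ^ 9 * Cg := by positivity
      have e6 : (1 + ‖p‖) ^ 8 * (|Y' m c p| + 2 * (‖p‖ * |Ag Λ g p|)) =
          (1 + ‖p‖) ^ 8 * |Y' m c p| + 2 * ((1 + ‖p‖) ^ 8 * (‖p‖ * |Ag Λ g p|)) := by ring
      linarith
    · intro p
      show l ^ 9 * |(Λ ^ 9)⁻¹ * g (Λ⁻¹ • p)| ≤ _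
      rw [abs_mul, abs_of_pos (by positivity : 0 < (Λ ^ 9)⁻¹)]
      have e1 : l ^ 9 * ((Λ ^ 9)⁻¹ * |g (Λ⁻¹ • p)|) = (4 * r) ^ 9 * |g (Λ⁻¹ • p)| := by
        rw [← hlr, mul_pow]
        field_simp
      rw [e1]
      have e2 := mul_le_mul_of_nonneg_left (hCg (Λ⁻¹ • p)) (by positivity : 0 ≤ (4 * r) ^ 9)
      linarith
  · have hint := int_le Y' hY' (Ag Λ g) δ hδ0 hXb hAi
    have hsmall := hΛ0 Λ ((le_max_right _ _).trans hΛm)
    have hY'0 : 0 ≤ ∫ p, ∑ m, ∑ c, (Y' m c p) ^ 2 := integral_nonneg (fun p =>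
      Finset.sum_nonneg (fun m _ => Finset.sum_nonneg (fun c _ => sq_nonneg _)))
    have e1 : δ * (∫ p, ∑ m, ∑ c, (Y' m c p) ^ 2) ≤ ε / 8 :=
      (mul_le_mul_of_nonneg_left hY2 hδ0.le).trans hδA
    have e2 : (1 + 1 / δ) * (48 * ∫ p : W4, ‖p‖ ^ 2 * Ag Λ g p ^ 2) ≤ ε / 8 := by
      have : 48 * ∫ p : W4, ‖p‖ ^ 2 * Ag Λ g p ^ 2 ≤ 4 * ε' := by linarith
      exact (mul_le_mul_of_nonneg_left this (by positivity)).trans hε'2
    have e3 := (abs_lt.1 hsmall).1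
    have e4 : be2 φ Y' u' (fun _ => 0) = - (∫ p, ∑ m, ∑ c, (Y' m c p) ^ 2)
        - (∫ p, ∑ m, Vm φ m p * (u' m p) ^ 2)
        - 2 * (∫ p, ∑ m, Vm φ m p * u' m p * Pq φ m p) - B40 φ := by
      unfold be2; simp
    have e5 : be2 φ (fun m c p => Y' m c p + Xr m c p * Ag Λ g p) u'
        (fun p => (Λ ^ 9)⁻¹ * g (Λ⁻¹ • p)) =
        - (∫ p, ∑ m, ∑ c, (Y' m c p + Xr m c p * Ag Λ g p) ^ 2) - (∫ p, ∑ m, Vm φ m p * (u' m p) ^ 2)
        - 2 * (∫ p, ∑ m, Vm φ m p * u' m p * Pq φ m p) - B40 φ +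
        2 * ∫ p, Ph φ p * ((Λ ^ 9)⁻¹ * g (Λ⁻¹ • p)) := rfl
    rw [e5]
    rw [e4] at hbe
    linarith

end Pool.Agent.TBF
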