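import Pool.Agent.TBF.Stmts

/-!
# B2A: smooth dual data in `L²`
-/

set_option autoImplicit false

open MeasureTheory Filter Topology
open scoped ContDiff

namespace Pool.Agent.TBF

open Pool.Agent.TBG Pool.Agent.TBL

namespace B2A_

theorem mo4_mono {a b : ℝ} {ρ : W4 → ℝ} (h : Mo4 a ρ) (hab : a ≤ b) : Mo4 b ρ where
  smooth := h.smooth
  nonneg := h.nonneg
  supp := fun x hx => h.supp x (lt_of_le_of_lt hab hx)
  cpt := h.cpt
  one := h.one

/-- minimum of four positive numbers -/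
theorem min4 (δ : Fin 4 → ℝ) (h : ∀ m, 0 < δ m ∧ δ m ≤ 1) :
    ∃ d : ℝ, 0 < d ∧ d ≤ 1 ∧ ∀ m, d ≤ δ m := by
  refine ⟨min (min (δ 0) (δ 1)) (min (δ 2) (δ 3)), ?_, ?_, ?_⟩
  · exact lt_min (lt_min (h 0).1 (h 1).1) (lt_min (h 2).1 (h 3).1)
  · exact ((min_le_left _ _).trans (min_le_left _ _)).trans (h 0).2
  · intro m
    fin_cases m
    · exact (min_le_left _ _).trans (min_le_left _ _)
    · exact (min_le_left _ _).trans (min_le_right _ _)
    · exact (min_le_right _ _).trans (min_le_left _ _)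
    · exact (min_le_right _ _).trans (min_le_right _ _)

end B2A_

open B2A_ in
theorem b2a_proof (hRLP : Stmt_RLP) (hSCB : Stmt_SCB) (_hDER : Stmt_DER) (_hDIT : Stmt_DIT)
    (hHSP : Stmt_HSP) (hMOE : Stmt_MOE) (hMOL : Stmt_MOL) (hMOD : Stmt_MOD) (hMOJ : Stmt_MOJ)
    (hMPC : Stmt_MPC) (hYQS : Stmt_YQS) : Stmt_B2A := by
  intro φ hS hD ε hε
  obtain ⟨-, -, -, -, -, -, -, hT, -, hn, -, -⟩ := hRLP
  obtain ⟨B, hB, -, -, hV, -, hVs, -⟩ := hSCB φ hS
  obtain ⟨Y0, q, hY0, hq, hid, hIJ, hpair⟩ := hHSP φ hS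
  choose T hTm using hT
  -- the potentials
  have hVm0 : ∀ m p, 0 ≤ Vm φ m p := fun m p => (hV (pm m p)).1
  have hVmB : ∀ m p, Vm φ m p ≤ B := by
    intro m p
    refine (hV (pm m p)).2.trans ?_
    have h1 : (1 : ℝ) ≤ (1 + ‖pm m p‖) ^ 20 := one_le_pow₀ (by linarith [norm_nonneg (pm m p)])
    have h2 : ((1 + ‖pm m p‖) ^ 20)⁻¹ ≤ 1 := inv_le_one_of_one_le₀ h1
    nlinarith
  have hVms : ∀ m, ContDiff ℝ ∞ (Vm φ m) := by
    intro m
    have h1 : Vm φ m = (fun z : E × E => VV φ z.1 z.2) ∘ T m := by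
      funext p
      unfold Vm
      simp only [Function.comp_apply, hTm]
    rw [h1]
    exact hVs.comp (T m).contDiff
  have hVmm : ∀ m, Measurable (Vm φ m) := fun m => (hVms m).continuous.measurable
  -- the product
  obtain ⟨M, hM⟩ : ∃ M : Fin 4 → W4 → ℝ, ∀ m, M m = fun p => Real.sqrt (Vm φ m p) * q m p :=
    ⟨_, fun _ => rfl⟩
  have hML : ∀ m, MemLp (M m) 2 volume := by
    intro m
    rw [hM m]
    refine MemLp.of_le_mul (c := Real.sqrt B) (hq m).2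
      (((hVmm m).sqrt.mul (hq m).1).aestronglyMeasurable) ?_
    refine Eventually.of_forall fun p => ?_
    rw [norm_mul, Real.norm_of_nonneg (Real.sqrt_nonneg _)]
    exact mul_le_mul_of_nonneg_right (Real.sqrt_le_sqrt (hVmB m p)) (norm_nonneg _)
  have hMS : MemLp (fun p => ∑ m, M m p) 2 volume := memLp_finsetSum _ fun m _ => hML m
  -- `IJ` is nonnegative
  have hIJ0 : 0 ≤ IJ φ := by
    rw [← hIJ]
    refine add_nonneg ?_ ?_
    · exact Finset.sum_nonneg fun m _ => Finset.sum_nonneg fun c _ =>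
        integral_nonneg fun p => sq_nonneg _
    · exact Finset.sum_nonneg fun m _ => integral_nonneg fun p => sq_nonneg _
  -- the parameters
  obtain ⟨d, hd, hd2⟩ : ∃ d : ℝ, 0 < d ∧ d * IJ φ ≤ ε / 2 := by
    refine ⟨ε / (2 * (IJ φ + 1)), by positivity, ?_⟩
    rw [div_mul_eq_mul_div, div_le_div_iff₀ (by positivity) (by norm_num)]
    nlinarith
  choose δ hδ0 hδ1 hδ using fun m => hMPC φ hS m (q m) (hq m).1 (hq m).2 (ε / 32) (by linarith)
  obtain ⟨d₁, hd₁, hd₁1, hd₁δ⟩ := min4 δ fun m => ⟨hδ0 m, hδ1 m⟩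
  obtain ⟨κ, hκ⟩ : ∃ κ : ℝ, κ = 1 + d₁ / 2 := ⟨_, rfl⟩
  have hκ1 : 1 < κ := by linarith
  have hκ2 : κ ≤ 2 := by linarith
  have hκ0 : 0 < κ := by linarith
  obtain ⟨e, c, he, hc, hDl⟩ := hD κ hκ1 d hd
  obtain ⟨ρ, hρ⟩ := hMOE (min (e / 2) d₁) (lt_min (by linarith) hd₁)
  have hρs : ∀ h, ρ h ≠ 0 → 2 * ‖h‖ ≤ e := by
    intro h hh
    by_contra hcon
    push Not at hcon
    exact hh (hρ.supp h (lt_of_le_of_lt (min_le_left _ _) (by linarith)))
  have hpl : ∀ m (x h : W4), pm m (κ • (x - h)) = κ • (pm m x - pm m h) := by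
    intro m x h
    rw [← hTm, ← hTm, ← hTm, map_smul, map_sub]
  have hDm : ∀ m (x h : W4), ρ h ≠ 0 → Vm φ m (κ • (x - h)) ≤ (1 + d) * Vm φ m x ∧
      (Vm φ m (κ • (x - h)) ≠ 0 → c ≤ Vm φ m x) := by
    intro m x h hh
    have h1 := hDl (pm m x) (pm m h) ((hn m h).trans (hρs h hh))
    unfold Vm
    rw [hpl]
    exact h1
  have hκ9 : (κ ^ 9)⁻¹ ≤ 1 := inv_le_one_of_one_le₀ (one_le_pow₀ hκ1.le)
  -- the data
  obtain ⟨Y, hY⟩ : ∃ Y : Fin 4 → Fin 3 → W4 → ℝ, ∀ m c, Y m c = mo κ ρ (Y0 m c) :=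
    ⟨_, fun _ _ => rfl⟩
  obtain ⟨N, hN⟩ : ∃ N : Fin 4 → W4 → ℝ, ∀ m, N m = fun x => κ * mo κ ρ (M m) x :=
    ⟨_, fun _ => rfl⟩
  have hNs : ∀ m, ContDiff ℝ ∞ (N m) := by
    intro m
    rw [hN m]
    exact contDiff_const.mul (hMOL κ _ ρ (M m) hκ0 hρ (hML m)).1
  have hNc : ∀ m x, N m x ≠ 0 → c ≤ Vm φ m x := by
    intro m x hx
    by_contra hcon
    apply hx
    rw [hN m]
    have h1 := (hMOL κ _ ρ (M m) hκ0 hρ (hML m)).2.2.2 x (by
      intro h hh
      by_contra h2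
      have h3 : Vm φ m (κ • (x - h)) ≠ 0 := by
        intro h4
        apply h2
        rw [hM m]
        simp only [h4, Real.sqrt_zero, zero_mul]
      exact hcon ((hDm m x h hh).2 h3))
    simp only [h1, mul_zero]
  obtain ⟨u, hu⟩ : ∃ u : Fin 4 → W4 → ℝ, ∀ m, u m = fun x => N m x / Vm φ m x :=
    ⟨_, fun _ => rfl⟩
  have hus : ∀ m, ContDiff ℝ ∞ (u m) ∧ ∀ x, Vm φ m x * u m x = N m x := by
    intro m
    rw [hu m]
    exact hYQS (Vm φ m) (N m) c (hVms m) (hNs m) hc (hNc m)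
  -- bounds of the squares
  have hYsq : ∀ m c, Integrable (fun p => Y m c p ^ 2) ∧
      ∫ p, Y m c p ^ 2 ≤ ∫ p, Y0 m c p ^ 2 := by
    intro m c
    obtain ⟨h1, h2⟩ := (hMOJ κ _ ρ hκ0 hρ).1 (Y0 m c) (hY0 m c).2
    rw [hY m c]
    refine ⟨h1, h2.trans ?_⟩
    have h3 : 0 ≤ ∫ p, Y0 m c p ^ 2 := integral_nonneg fun p => sq_nonneg _
    nlinarith
  have husq : ∀ m, Integrable (fun p => Vm φ m p * u m p ^ 2) ∧
      ∫ p, Vm φ m p * u m p ^ 2 ≤ (1 + d) * ∫ p, q m p ^ 2 := by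
    intro m
    obtain ⟨G, hG1, hG2, hG3, hG4⟩ := (hMOJ κ _ ρ hκ0 hρ).2 (Vm φ m) (q m) d B (hq m).2 (hq m).1
      (hVmm m) (fun x => ⟨hVm0 m x, hVmB m x⟩) hd.le (fun x h hh => (hDm m x h hh).1)
    have h1 : ∀ p, Vm φ m p * u m p ^ 2 ≤ κ ^ 2 * (1 + d) * G p := by
      intro p
      rcases (hVm0 m p).eq_or_lt with h0 | h0
      · rw [← h0, zero_mul]
        have := hG2 p
        positivity
      · have h2 := (hus m).2 p
        have h3 := hG3 p
        rw [← hM m] at h3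
        have h4 : N m p ^ 2 = κ ^ 2 * mo κ ρ (M m) p ^ 2 := by
          rw [hN m]
          ring
        have h5 : Vm φ m p * (Vm φ m p * u m p ^ 2) ≤ Vm φ m p * (κ ^ 2 * (1 + d) * G p) := by
          have h6 : Vm φ m p * (Vm φ m p * u m p ^ 2) = N m p ^ 2 := by
            rw [← h2]
            ring
          rw [h6, h4]
          have h7 : 0 ≤ κ ^ 2 := sq_nonneg κ
          nlinarith
        exact le_of_mul_le_mul_left h5 h0
    have h0 : ∀ p, 0 ≤ Vm φ m p * u m p ^ 2 := fun p => mul_nonneg (hVm0 m p) (sq_nonneg _)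
    have h2 : Integrable (fun p => κ ^ 2 * (1 + d) * G p) := hG1.const_mul _
    have h3 : Integrable (fun p => Vm φ m p * u m p ^ 2) := by
      refine h2.mono' ?_ (Eventually.of_forall fun p => ?_)
      · exact ((hVms m).continuous.mul ((hus m).1.continuous.pow 2)).aestronglyMeasurable
      · rw [Real.norm_of_nonneg (h0 p)]
        exact h1 p
    refine ⟨h3, ?_⟩
    have h4 : ∫ p, Vm φ m p * u m p ^ 2 ≤ ∫ p, κ ^ 2 * (1 + d) * G p :=
      integral_mono h3 h2 h1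
    rw [integral_const_mul, hG4] at h4
    refine h4.trans ?_
    have h5 : 0 ≤ ∫ p, q m p ^ 2 := integral_nonneg fun p => sq_nonneg _
    have h6 : κ ^ 2 * (κ ^ 9)⁻¹ ≤ 1 := by
      rw [← div_eq_mul_inv, div_le_one (by positivity)]
      exact pow_le_pow_right₀ hκ1.le (by norm_num)
    calc κ ^ 2 * (1 + d) * ((κ ^ 9)⁻¹ * ∫ p, q m p ^ 2)
        = (κ ^ 2 * (κ ^ 9)⁻¹) * ((1 + d) * ∫ p, q m p ^ 2) := by ring
      _ ≤ 1 * ((1 + d) * ∫ p, q m p ^ 2) := by
          apply mul_le_mul_of_nonneg_right h6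
          positivity
      _ = (1 + d) * ∫ p, q m p ^ 2 := one_mul _
  -- the pairing
  have hprd : ∀ m, Integrable (fun p => Vm φ m p * u m p * Pq φ m p) ∧
      ∫ p, Vm φ m p * u m p * Pq φ m p ≤
        κ * ((∫ p, (Real.sqrt (Vm φ m p) * q m p) * Pq φ m p) + ε / 32) := by
    intro m
    have hκδ : κ < 1 + δ m := by
      have := hd₁δ m
      linarith
    obtain ⟨h1, h2⟩ := hδ m κ ρ hκ1 hκδ (mo4_mono hρ ((min_le_right _ _).trans (hd₁δ m)))
    rw [← hM m] at h1 h2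
    have h3 : (fun p => Vm φ m p * u m p * Pq φ m p) =
        fun p => κ * (mo κ ρ (M m) p * Pq φ m p) := by
      funext p
      rw [(hus m).2 p, hN m]
      ring
    rw [h3]
    refine ⟨h1.const_mul _, ?_⟩
    rw [integral_const_mul]
    have h4 := (abs_le.1 h2).2
    exact mul_le_mul_of_nonneg_left (by linarith) hκ0.le
  -- the equation
  have heqn : ∀ p, dvg Y p = ∑ m, Vm φ m p * u m p := by
    intro p
    have h1 : ∀ η, TF η → (∑ m, ∑ c, ∫ p, Y0 m c p * dv (d4 m c) η p) +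
        ∫ p, (∑ m, M m p) * η p = 0 := by
      intro η hη
      have h2 : ∫ p, (∑ m, M m p) * η p = ∑ m, ∫ p, (Real.sqrt (Vm φ m p) * q m p) * η p := by
        have h3 : ∀ m ∈ (Finset.univ : Finset (Fin 4)), Integrable (fun p => M m p * η p) := by
          intro m _
          have h4 : MemLp η 2 volume := hη.1.continuous.memLp_of_hasCompactSupport hη.2
          exact MemLp.integrable_mul (hML m) h4
        rw [← integral_finsetSum _ fun m hm => by
          have := h3 m hm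
          rw [hM m] at this
          exact this]
        congr 1
        funext p
        rw [Finset.sum_mul]
        refine Finset.sum_congr rfl fun m _ => ?_
        rw [hM m]
      rw [h2]
      exact hid η hη
    have h2 := hMOD κ _ ρ (fun p => ∑ m, M m p) Y0 hκ0 hρ (fun m c => (hY0 m c).2) hMS h1 p
    have h3 : (fun m c => mo κ ρ (Y0 m c)) = Y := by
      funext m c
      rw [hY m c]
    rw [h3] at h2
    rw [h2]
    have h4 : mo κ ρ (fun p => ∑ m, M m p) p = ∑ m, mo κ ρ (M m) p := by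
      unfold mo
      rw [← integral_finsetSum _ fun m _ => (hMOL κ _ ρ (M m) hκ0 hρ (hML m)).2.2.1 p]
      congr 1
      funext h
      rw [Finset.mul_sum]
    rw [h4, Finset.mul_sum]
    refine Finset.sum_congr rfl fun m _ => ?_
    rw [(hus m).2 p, hN m]
  refine ⟨Y, u, ?_, ?_⟩
  · exact ⟨fun m c => by rw [hY m c]; exact (hMOL κ _ ρ (Y0 m c) hκ0 hρ (hY0 m c).2).1,
      fun m => (hus m).1, fun m c => (hYsq m c).1, fun m => (husq m).1, fun m => (hprd m).1, heqn⟩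
  · have e1 : ∫ p, ∑ m, ∑ c, (Y m c p) ^ 2 = ∑ m, ∑ c, ∫ p, Y m c p ^ 2 := by
      rw [integral_finsetSum _ fun m _ => integrable_finsetSum _ fun c _ => (hYsq m c).1]
      exact Finset.sum_congr rfl fun m _ => integral_finsetSum _ fun c _ => (hYsq m c).1
    have e2 : ∫ p, ∑ m, Vm φ m p * (u m p) ^ 2 = ∑ m, ∫ p, Vm φ m p * u m p ^ 2 :=
      integral_finsetSum _ fun m _ => (husq m).1
    have e3 : ∫ p, ∑ m, Vm φ m p * u m p * Pq φ m p = ∑ m, ∫ p, Vm φ m p * u m p * Pq φ m p :=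
      integral_finsetSum _ fun m _ => (hprd m).1
    have e4 : ∫ p, Ph φ p * (fun _ : W4 => (0 : ℝ)) p = 0 := by simp
    have b1 : ∑ m, ∑ c, ∫ p, Y m c p ^ 2 ≤ ∑ m, ∑ c, ∫ p, Y0 m c p ^ 2 :=
      Finset.sum_le_sum fun m _ => Finset.sum_le_sum fun c _ => (hYsq m c).2
    have b2 : ∑ m, ∫ p, Vm φ m p * u m p ^ 2 ≤ (1 + d) * ∑ m, ∫ p, q m p ^ 2 := by
      rw [Finset.mul_sum]
      exact Finset.sum_le_sum fun m _ => (husq m).2
    have b3 : ∑ m, ∫ p, Vm φ m p * u m p * Pq φ m p ≤ κ * (- IJ φ + ε / 8) := by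
      have h1 : ∑ m, ∫ p, Vm φ m p * u m p * Pq φ m p ≤
          ∑ m : Fin 4, κ * ((∫ p, (Real.sqrt (Vm φ m p) * q m p) * Pq φ m p) + ε / 32) :=
        Finset.sum_le_sum fun m _ => (hprd m).2
      rw [← Finset.mul_sum, Finset.sum_add_distrib, hpair] at h1
      simp only [Finset.sum_const, Finset.card_univ, Fintype.card_fin, nsmul_eq_mul] at h1
      refine h1.trans (le_of_eq ?_)
      push_cast
      ring
    have b4' : b4 φ = IJ φ - B40 φ := rfl
    have b5 : 0 ≤ ∑ m, ∑ c, ∫ p, Y0 m c p ^ 2 :=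
      Finset.sum_nonneg fun m _ => Finset.sum_nonneg fun c _ =>
        integral_nonneg fun p => sq_nonneg _
    unfold be2
    rw [e1, e2, e3, e4, b4']
    have h1 : κ * (- IJ φ + ε / 8) ≤ - IJ φ + ε / 4 := by nlinarith
    nlinarith
end Pool.Agent.TBF
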