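import Pool.Agent.TBF.Stmts

/-!
# B2C: cutoff of the dual data
-/

set_option autoImplicit false

open MeasureTheory Filter Topology
open scoped ContDiff

namespace Pool.Agent.TBF

open Pool.Agent.TBG Pool.Agent.TBL

namespace B2C_

/-- the error of the cutoff -/
noncomputable def gErr (r : ℝ) (Y : Fin 4 → Fin 3 → W4 → ℝ) (p : W4) : ℝ :=
  - ∑ m, ∑ c, dv (d4 m c) (chi r) p * Y m c p

/-- Cauchy-Schwarz for 12 terms -/
theorem cs (x y : Fin 4 → Fin 3 → ℝ) (B : ℝ) (hx : ∀ m c, |x m c| ≤ B) :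
    (∑ m, ∑ c, x m c * y m c) ^ 2 ≤ 12 * B ^ 2 * ∑ m, ∑ c, y m c ^ 2 := by
  have h1 : (∑ m, ∑ c, x m c * y m c) ^ 2 ≤ 4 * ∑ m, (∑ c, x m c * y m c) ^ 2 := by
    have := sq_sum_le_card_mul_sum_sq (s := (Finset.univ : Finset (Fin 4)))
      (f := fun m => ∑ c, x m c * y m c)
    simpa using this
  have h2 : ∀ m, (∑ c, x m c * y m c) ^ 2 ≤ 3 * ∑ c, (x m c * y m c) ^ 2 := by
    intro m
    have := sq_sum_le_card_mul_sum_sq (s := (Finset.univ : Finset (Fin 3)))
      (f := fun c => x m c * y m c)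
    simpa using this
  have h3 : ∀ m c, (x m c * y m c) ^ 2 ≤ B ^ 2 * y m c ^ 2 := by
    intro m c
    rw [mul_pow]
    refine mul_le_mul_of_nonneg_right ?_ (sq_nonneg _)
    rw [← sq_abs]
    exact pow_le_pow_left₀ (abs_nonneg _) (hx m c) 2
  calc (∑ m, ∑ c, x m c * y m c) ^ 2 ≤ 4 * ∑ m, (∑ c, x m c * y m c) ^ 2 := h1
    _ ≤ 4 * ∑ m, (3 * ∑ c, (x m c * y m c) ^ 2) := by
        refine mul_le_mul_of_nonneg_left (Finset.sum_le_sum fun m _ => h2 m) (by norm_num)
    _ ≤ 4 * ∑ m, (3 * ∑ c, B ^ 2 * y m c ^ 2) := by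
        refine mul_le_mul_of_nonneg_left (Finset.sum_le_sum fun m _ => ?_) (by norm_num)
        exact mul_le_mul_of_nonneg_left (Finset.sum_le_sum fun c _ => h3 m c) (by norm_num)
    _ = 12 * B ^ 2 * ∑ m, ∑ c, y m c ^ 2 := by
        simp only [← Finset.mul_sum]
        ring

end B2C_

open B2C_

theorem b2c_proof (_hRLP : Stmt_RLP) (_hDER : Stmt_DER) (hALG : Stmt_ALG) (hSCB : Stmt_SCB)
    (hCHI : Stmt_CHI) (_hDIT : Stmt_DIT) : Stmt_B2C := by
  intro φ hφ Y u ε hD hε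
  obtain ⟨C, hC, hchi⟩ := hCHI
  obtain ⟨K, hK, -, -, hV, -, -, -, -, -, -⟩ := hSCB φ hφ
  have hV0 : ∀ m p, 0 ≤ Vm φ m p := fun m p => (hV (pm m p)).1
  have hr1 : ∀ n : ℕ, (1 : ℝ) ≤ (n : ℝ) + 1 := fun n => by
    have := Nat.cast_nonneg (α := ℝ) n
    linarith
  -- smoothness of the cutoff error
  have smg : ∀ r : ℝ, 1 ≤ r → ContDiff ℝ ∞ (gErr r Y) := by
    intro r hr
    have hT := (hchi r hr).1
    refine ContDiff.neg (ContDiff.sum fun m _ => ContDiff.sum fun c _ => ?_)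
    have h1 : ContDiff ℝ ∞ (dv (d4 m c) (chi r)) :=
      (hALG (chi r) (chi r) hT.1 hT.1).2.2.2.1 (d4 m c)
    exact h1.mul (hD.smY m c)
  have gzero : ∀ r : ℝ, 1 ≤ r → ∀ p : W4, ‖p‖ < r ∨ 4 * r < ‖p‖ → gErr r Y p = 0 := by
    intro r hr p hp
    have h1 := (hchi r hr).2.2.2.2.2.2
    unfold gErr
    rw [neg_eq_zero]
    refine Finset.sum_eq_zero fun m _ => Finset.sum_eq_zero fun c _ => ?_
    rw [h1 m c p hp, zero_mul]
  have gbound : ∀ r : ℝ, 1 ≤ r → ∀ p : W4,
      ‖p‖ ^ 2 * gErr r Y p ^ 2 ≤ 12 * C ^ 2 * ∑ m, ∑ c, Y m c p ^ 2 := by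
    intro r hr p
    have h1 := (hchi r hr).2.2.2.2.2.1
    have h2 : ∀ m c, |‖p‖ * dv (d4 m c) (chi r) p| ≤ C := by
      intro m c
      rw [abs_mul, abs_norm]
      refine le_trans ?_ (h1 m c p)
      refine mul_le_mul_of_nonneg_right ?_ (abs_nonneg _)
      linarith [norm_nonneg p]
    have h3 := cs (fun m c => ‖p‖ * dv (d4 m c) (chi r) p) (fun m c => Y m c p) C h2
    refine le_trans (le_of_eq ?_) h3
    unfold gErr
    rw [neg_sq, ← mul_pow]
    congr 1
    rw [Finset.mul_sum]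
    refine Finset.sum_congr rfl fun m _ => ?_
    rw [Finset.mul_sum]
    refine Finset.sum_congr rfl fun c _ => ?_
    ring
  have intY : Integrable (fun p => ∑ m, ∑ c, Y m c p ^ 2) :=
    integrable_finsetSum _ fun m _ => integrable_finsetSum _ fun c _ => hD.inY m c
  have intU : Integrable (fun p => ∑ m, Vm φ m p * u m p ^ 2) :=
    integrable_finsetSum _ fun m _ => hD.inu m
  have intP : Integrable (fun p => ∑ m, Vm φ m p * u m p * Pq φ m p) :=
    integrable_finsetSum _ fun m _ => hD.inp m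
  -- first limit
  have T1 : Tendsto (fun n : ℕ => ∫ p : W4, ‖p‖ ^ 2 * gErr ((n : ℝ) + 1) Y p ^ 2) atTop (𝓝 0) := by
    have h1 : (0 : ℝ) = ∫ _ : W4, (0 : ℝ) := by simp
    rw [h1]
    refine tendsto_integral_of_dominated_convergence
      (fun p => 12 * C ^ 2 * ∑ m, ∑ c, Y m c p ^ 2) ?_ (intY.const_mul _) ?_ ?_
    · intro n
      have hc : Continuous (fun p : W4 => ‖p‖ ^ 2 * gErr ((n : ℝ) + 1) Y p ^ 2) :=
        (continuous_norm.pow 2).mul ((smg _ (hr1 n)).continuous.pow 2)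
      exact hc.aestronglyMeasurable
    · intro n
      refine Eventually.of_forall fun p => ?_
      rw [Real.norm_eq_abs, abs_of_nonneg (by positivity)]
      exact gbound _ (hr1 n) p
    · refine Eventually.of_forall fun p => ?_
      refine tendsto_const_nhds.congr' ?_
      obtain ⟨N, hN⟩ := exists_nat_gt ‖p‖
      filter_upwards [eventually_ge_atTop N] with n hn
      have hn' : (N : ℝ) ≤ n := by exact_mod_cast hn
      rw [gzero _ (hr1 n) p (Or.inl (by linarith))]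
      ring
  -- second limit
  have T2 : Tendsto (fun n : ℕ => ∫ p : W4, ∑ m, Vm φ m p * (chi ((n : ℝ) + 1) p * u m p) *
      Pq φ m p) atTop (𝓝 (∫ p, ∑ m, Vm φ m p * u m p * Pq φ m p)) := by
    have hfac : ∀ (r : ℝ) (p : W4), ∑ m, Vm φ m p * (chi r p * u m p) * Pq φ m p =
        chi r p * ∑ m, Vm φ m p * u m p * Pq φ m p := by
      intro r p
      rw [Finset.mul_sum]
      refine Finset.sum_congr rfl fun m _ => ?_
      ring
    simp only [hfac]
    refine tendsto_integral_of_dominated_convergence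
      (fun p => |∑ m, Vm φ m p * u m p * Pq φ m p|) ?_ intP.abs ?_ ?_
    · intro n
      exact (hchi _ (hr1 n)).1.1.continuous.aestronglyMeasurable.mul intP.aestronglyMeasurable
    · intro n
      refine Eventually.of_forall fun p => ?_
      obtain ⟨c0, c1⟩ := (hchi _ (hr1 n)).2.2.1 p
      rw [Real.norm_eq_abs, abs_mul, abs_of_nonneg c0]
      exact mul_le_of_le_one_left (abs_nonneg _) c1
    · refine Eventually.of_forall fun p => ?_
      refine tendsto_const_nhds.congr' ?_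
      obtain ⟨N, hN⟩ := exists_nat_gt ‖p‖
      filter_upwards [eventually_ge_atTop N] with n hn
      have hn' : (N : ℝ) ≤ n := by exact_mod_cast hn
      rw [(hchi _ (hr1 n)).2.2.2.1 p (by linarith), one_mul]
  have e1 : ∀ᶠ n : ℕ in atTop, ∫ p : W4, ‖p‖ ^ 2 * gErr ((n : ℝ) + 1) Y p ^ 2 < ε :=
    T1.eventually (gt_mem_nhds hε)
  have e2 : ∀ᶠ n : ℕ in atTop, ∫ p : W4, ∑ m, Vm φ m p * (chi ((n : ℝ) + 1) p * u m p) *
      Pq φ m p < (∫ p, ∑ m, Vm φ m p * u m p * Pq φ m p) + ε / 2 :=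
    T2.eventually (gt_mem_nhds (by linarith))
  obtain ⟨n, h1, h2⟩ := (e1.and e2).exists
  set r : ℝ := (n : ℝ) + 1 with hr
  have hr' : 1 ≤ r := hr1 n
  obtain ⟨hT, -, h01, hone, hfar, hdc, -⟩ := hchi r hr'
  refine ⟨r, fun m c p => chi r p * Y m c p, fun m p => chi r p * u m p, gErr r Y, hr',
    fun m c => ⟨hT.1.mul (hD.smY m c), hT.2.mul_right⟩,
    fun m => ⟨hT.1.mul (hD.smu m), hT.2.mul_right⟩, ⟨smg r hr', ?_⟩, ?_, gzero r hr', ?_, h1.le,
    ?_, ?_⟩
  · refine HasCompactSupport.intro (isCompact_closedBall (0 : W4) (4 * r)) fun p hp => ?_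
    refine gzero r hr' p (Or.inr ?_)
    rw [Metric.mem_closedBall, dist_zero_right, not_le] at hp
    exact hp
  · intro m c p hp
    simp only
    rw [hfar p hp.le, zero_mul]
  · intro p
    have h3 : ∀ m c, dv (d4 m c) (fun p => chi r p * Y m c p) p =
        dv (d4 m c) (chi r) p * Y m c p + chi r p * dv (d4 m c) (Y m c) p := fun m c =>
      (hALG (chi r) (Y m c) hT.1 (hD.smY m c)).2.2.2.2.2.2.2.1 (d4 m c) p
    unfold dvg
    simp only [h3, Finset.sum_add_distrib, ← Finset.mul_sum]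
    have h4 := hD.eqn p
    unfold dvg at h4
    rw [h4]
    unfold gErr
    have h5 : ∑ m, Vm φ m p * (chi r p * u m p) = chi r p * ∑ m, Vm φ m p * u m p := by
      rw [Finset.mul_sum]
      refine Finset.sum_congr rfl fun m _ => ?_
      ring
    rw [h5]
    ring
  · have hle : ∀ p, ∑ m, ∑ c, (chi r p * Y m c p) ^ 2 ≤ ∑ m, ∑ c, Y m c p ^ 2 := by
      intro p
      refine Finset.sum_le_sum fun m _ => Finset.sum_le_sum fun c _ => ?_
      rw [mul_pow]
      exact mul_le_of_le_one_left (sq_nonneg _) (pow_le_one₀ (h01 p).1 (h01 p).2)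
    exact integral_mono_of_nonneg (Eventually.of_forall fun p => by
      show 0 ≤ ∑ m, ∑ c, (chi r p * Y m c p) ^ 2
      positivity) intY (Eventually.of_forall hle)
  · have hle : ∀ p, ∑ m, ∑ c, (chi r p * Y m c p) ^ 2 ≤ ∑ m, ∑ c, Y m c p ^ 2 := by
      intro p
      refine Finset.sum_le_sum fun m _ => Finset.sum_le_sum fun c _ => ?_
      rw [mul_pow]
      exact mul_le_of_le_one_left (sq_nonneg _) (pow_le_one₀ (h01 p).1 (h01 p).2)
    have i1 : ∫ p, ∑ m, ∑ c, (chi r p * Y m c p) ^ 2 ≤ ∫ p, ∑ m, ∑ c, Y m c p ^ 2 :=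
      integral_mono_of_nonneg (Eventually.of_forall fun p => by
        show 0 ≤ ∑ m, ∑ c, (chi r p * Y m c p) ^ 2
        positivity) intY (Eventually.of_forall hle)
    have i2 : ∫ p, ∑ m, Vm φ m p * (chi r p * u m p) ^ 2 ≤ ∫ p, ∑ m, Vm φ m p * u m p ^ 2 := by
      refine integral_mono_of_nonneg (Eventually.of_forall fun p => ?_) intU
        (Eventually.of_forall fun p => ?_)
      · exact Finset.sum_nonneg fun m _ => mul_nonneg (hV0 m p) (sq_nonneg _)
      · refine Finset.sum_le_sum fun m _ => ?_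
        refine mul_le_mul_of_nonneg_left ?_ (hV0 m p)
        rw [mul_pow]
        exact mul_le_of_le_one_left (sq_nonneg _) (pow_le_one₀ (h01 p).1 (h01 p).2)
    unfold be2
    simp only [mul_zero, integral_zero, add_zero]
    linarith

end Pool.Agent.TBF
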