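import Pool.Agent.TBF.Stmts

set_option autoImplicit false

open MeasureTheory Filter Topology
open scoped ContDiff

namespace Pool.Agent.TBF

open Pool.Agent.TBG Pool.Agent.TBL

namespace B3P_

theorem pl_one : pl 1 = phi0 := by
  funext z
  simp [pl]

end B3P_

theorem b3p_proof (hRLP : Stmt_RLP) (hSCB : Stmt_SCB) (_hSDW : Stmt_SDW) (hDIT : Stmt_DIT) (hPLS : Stmt_PLS)
    (hPRF : Pool.Agent.TBL.Stmt_PRF) (hSCA : Pool.Agent.TBL.Stmt_SCA) : Stmt_B3P := by
  obtain ⟨hS, hw, _⟩ := hSCA
  have hpos : ∀ z, 0 < phi0 z := fun z => ((hPLS 1 one_pos le_rfl).2.2.2 z).1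
  have hW : ∀ s, 0 ≤ W1 s := fun s => (hPRF.2.2.1 s).1
  have hwn : ∀ z, 0 ≤ ww phi0 z := fun z => by rw [hw]; exact hW _
  have hT := hRLP.2.2.2.2.2.2.2.1
  obtain ⟨C, _, _, _, _, _, _, hwc, _⟩ := hSCB phi0 hS
  have hpc : ∀ m : Fin 4, Continuous (fun p : W4 => pm m p) := by
    intro m
    obtain ⟨T, hT'⟩ := hT m
    have : (fun p : W4 => pm m p) = fun p => T p := funext fun p => (hT' p).symm
    rw [this]
    exact T.continuous
  have hp0 : ∀ m : Fin 4, pm m (0 : W4) = 0 := by
    intro m
    obtain ⟨T, hT'⟩ := hT m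
    rw [← hT', map_zero]
  have hPq : ∀ (m : Fin 4) (p : W4), 0 < Pq phi0 m p := by
    intro m p
    unfold Pq
    refine Finset.sum_pos (fun j _ => hpos _) ?_
    fin_cases m
    · exact ⟨1, by decide⟩
    · exact ⟨0, by decide⟩
    · exact ⟨0, by decide⟩
    · exact ⟨0, by decide⟩
  set F : W4 → ℝ := fun p => ∑ m, ww phi0 (pm m p) * Pq phi0 m p with hF
  have hFn : ∀ p, 0 ≤ F p := fun p =>
    Finset.sum_nonneg (fun m _ => mul_nonneg (hwn _) (hPq m p).le)
  have hFc : Continuous F := by
    refine continuous_finsetSum _ (fun m _ => ?_)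
    refine (hwc.continuous.comp (hpc m)).mul ?_
    unfold Pq
    exact continuous_finsetSum _ (fun j _ => hS.smooth.continuous.comp (hpc j))
  have hFi : Integrable F := by
    refine integrable_finsetSum _ (fun m _ => ?_)
    have : (fun p : W4 => ww phi0 (pm m p) * Pq phi0 m p) =
        fun p => ∑ j ∈ Finset.univ.erase m, ww phi0 (pm m p) * phi0 (pm j p) := by
      funext p
      unfold Pq
      rw [Finset.mul_sum]
    rw [this]
    refine integrable_finsetSum _ (fun j hj => ?_)
    exact ((hDIT phi0 hS).2.2 m j (Finset.ne_of_mem_erase hj).symm).2.1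
  have hQ0 : QQ (0 : E × E) = 0 := by simp [QQ]
  have hF0 : 0 < F 0 := by
    refine Finset.sum_pos (fun m _ => ?_) ⟨0, Finset.mem_univ _⟩
    refine mul_pos ?_ (hPq m 0)
    rw [hp0, hw, hQ0]
    exact hPRF.2.2.2.1 0 (by norm_num)
  constructor
  · unfold B40
    change 0 < ∫ p, F p
    rw [integral_pos_iff_support_of_nonneg hFn hFi]
    have h2 : ((volume : Measure E).prod (volume : Measure E)).IsOpenPosMeasure :=
      MeasureTheory.Measure.prod.instIsOpenPosMeasure
    have h3 : ((volume : Measure E).prod ((volume : Measure E).prod (volume : Measure E))).IsOpenPosMeasure :=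
      MeasureTheory.Measure.prod.instIsOpenPosMeasure
    have h4 : (volume : Measure W4).IsOpenPosMeasure := h3
    exact hFc.isOpen_support.measure_pos volume ⟨0, ne_of_gt hF0⟩
  · intro lam h0 h1
    have hwl : ∀ z, ww (pl lam) z = lam * ww phi0 z := by
      intro z
      rw [(hPLS lam h0 h1).2.1 z, hw]
    have hkey : ∀ p : W4, (∑ m, ww (pl lam) (pm m p) * Pq (pl lam) m p) = lam ^ 2 * F p := by
      intro p
      rw [hF]
      simp only []
      rw [Finset.mul_sum]
      refine Finset.sum_congr rfl (fun m _ => ?_)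
      rw [hwl]
      unfold Pq pl
      rw [← Finset.mul_sum]
      ring
    unfold B40
    simp_rw [hkey]
    exact integral_const_mul _ _

end Pool.Agent.TBF
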