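import Pool.Agent.TBF.Stmts

/-!
# Three-body Bose gases (MP_80dc41_mp), four-body problem: module BFM, the two forms of the value
-/

set_option autoImplicit false

open MeasureTheory Filter Topology
open scoped ContDiff

namespace Pool.Agent.TBF

open Pool.Agent.TBG Pool.Agent.TBL

namespace BFM_

theorem haar2 : (volume : Measure (E × E)).IsAddHaarMeasure :=
  inferInstanceAs ((volume : Measure E).prod (volume : Measure E)).IsAddHaarMeasure

theorem haar3 : (volume : Measure W4).IsAddHaarMeasure := by
  haveI := haar2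
  exact Measure.prod.instIsAddHaarMeasure (volume : Measure E) (volume : Measure (E × E))

theorem ibp {f g : W4 → ℝ} (v : W4) (hf : ContDiff ℝ 1 f) (hg : ContDiff ℝ 1 g)
    (hc : HasCompactSupport f) :
    ∫ x, f x * dv v g x = - ∫ x, dv v f x * g x := by
  haveI := haar3
  have hcf : Continuous (fun x => fderiv ℝ f x v) :=
    (hf.continuous_fderiv (by norm_num)).clm_apply continuous_const
  have hcg : Continuous (fun x => fderiv ℝ g x v) :=
    (hg.continuous_fderiv (by norm_num)).clm_apply continuous_const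
  have hcs : HasCompactSupport (fun x => fderiv ℝ f x v) := hc.fderiv_apply (𝕜 := ℝ) v
  unfold dv
  refine integral_mul_fderiv_eq_neg_fderiv_mul_of_integrable ?_ ?_ ?_ ?_ ?_
  · exact (hcf.mul hg.continuous).integrable_of_hasCompactSupport hcs.mul_right
  · exact (hf.continuous.mul hcg).integrable_of_hasCompactSupport hc.mul_right
  · exact (hf.continuous.mul hg.continuous).integrable_of_hasCompactSupport hc.mul_right
  · intro x _
    exact hf.differentiable (by norm_num) x
  · intro x _
    exact hg.differentiable (by norm_num) x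

theorem cf_cont (i : Fin 4) : Continuous (fun p : W4 => cf p i) := by
  fin_cases i
  · exact continuous_const
  · show Continuous (fun p : W4 => -p.1)
    fun_prop
  · show Continuous (fun p : W4 => -p.2.1)
    fun_prop
  · show Continuous (fun p : W4 => -p.2.2)
    fun_prop

theorem rl_cont {f : W4 → Fin 4 → E} (h : ∀ i, Continuous (fun p => f p i)) :
    Continuous (fun p => rl (f p)) := by
  unfold rl
  have h0 := h 0
  have h1 := h 1
  have h2 := h 2
  have h3 := h 3
  fun_prop

/-- the order of the particles in `ym` -/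
def ord (m : Fin 4) : Fin 4 → Fin 4 := ![m.succAbove 0, m.succAbove 1, m.succAbove 2, m]

theorem ord_inj (m : Fin 4) : Function.Injective (ord m) := by
  unfold ord
  revert m
  decide

noncomputable def tau (m : Fin 4) : Equiv.Perm (Fin 4) :=
  Equiv.ofBijective (ord m) (Finite.injective_iff_bijective.1 (ord_inj m))

theorem ym_eq (y : W4 → ℝ) (m : Fin 4) (p : W4) : ym y m p = y (Pm (tau m) p) := by
  unfold ym Pm
  congr 1

theorem ym_cont {y : W4 → ℝ} (hy : Continuous y) (m : Fin 4) : Continuous (ym y m) := by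
  have : ym y m = fun p => y (Pm (tau m) p) := funext fun p => ym_eq y m p
  rw [this]
  refine hy.comp ?_
  unfold Pm
  exact rl_cont fun i => cf_cont _

theorem ym_supp (hR : Stmt_RLP) {y : W4 → ℝ} (hy : HasCompactSupport y) (m : Fin 4) :
    HasCompactSupport (ym y m) := by
  obtain ⟨R, hR'⟩ := hy.isCompact.isBounded.subset_closedBall 0
  refine HasCompactSupport.intro (isCompact_closedBall (0 : W4) (2 * R)) fun p hp => ?_
  rw [ym_eq]
  by_contra h
  have h1 : Pm (tau m) p ∈ tsupport y := subset_tsupport y h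
  have h2 := hR' h1
  rw [mem_closedBall_zero_iff] at h2
  apply hp
  rw [mem_closedBall_zero_iff]
  have := (hR.2.2.2.2.2.2.2.2.2.2.2 (tau m) p).2
  linarith

end BFM_

open BFM_ in
theorem bfm_proof (hRLP : Stmt_RLP) (hDER : Stmt_DER) (hALG : Stmt_ALG) (hSCB : Stmt_SCB)
    (hDIT : Stmt_DIT) (_hIBT : Stmt_IBT) (hIBD : Stmt_IBD) : Stmt_BFM := by
  intro φ hφ y l C Y g _hl hy hD
  obtain ⟨C0, _, _, _, _, _, hVs, hws, hVw, _, _⟩ := hSCB φ hφ
  -- continuity and supports
  have cu : ∀ m, Continuous (ym y m) := fun m => ym_cont hy.1.continuous m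
  have su : ∀ m, HasCompactSupport (ym y m) := fun m => ym_supp hRLP hy.2 m
  have sY : ∀ m c, HasCompactSupport (Y m c) := fun m c =>
    HasCompactSupport.intro (isCompact_closedBall (0 : W4) l) fun p hp => by
      apply hD.spY m c p
      rw [mem_closedBall_zero_iff, not_le] at hp
      exact hp
  have sg : HasCompactSupport g :=
    HasCompactSupport.intro (isCompact_closedBall (0 : W4) l) fun p hp => by
      apply hD.spg p
      rw [mem_closedBall_zero_iff, not_le] at hp
      exact hp
  have cpm : ∀ m : Fin 4, Continuous (fun p : W4 => pm m p) := by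
    intro m
    unfold pm
    exact ((cf_cont _).sub (cf_cont _)).prodMk ((cf_cont _).sub (cf_cont _))
  have cV : ∀ m, Continuous (fun p => Vm φ m p) := fun m => hVs.continuous.comp (cpm m)
  have cw : ∀ m, Continuous (fun p => ww φ (pm m p)) := fun m => hws.continuous.comp (cpm m)
  have cφ : ∀ m, ContDiff ℝ ∞ (fun p : W4 => φ (pm m p)) := fun m => (hDER φ m hφ.smooth).1
  have cPh : ContDiff ℝ ∞ (Ph φ) := by
    unfold Ph
    exact ContDiff.sum fun m _ => cφ m
  have cPq : ∀ m, Continuous (Pq φ m) := by
    intro m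
    unfold Pq
    exact continuous_finsetSum _ fun j _ => (cφ j).continuous
  -- sums
  have iVu : ∀ m, Integrable (fun p => Vm φ m p * ym y m p) := fun m =>
    ((cV m).mul (cu m)).integrable_of_hasCompactSupport (su m).mul_left
  have iS : Integrable (fun p => ∑ m, Vm φ m p * ym y m p) :=
    integrable_finsetSum _ fun m _ => iVu m
  have ig : Integrable g := hD.smg.continuous.integrable_of_hasCompactSupport sg
  have iPhS : Integrable (fun p => Ph φ p * ∑ m, Vm φ m p * ym y m p) := by
    have : (fun p => Ph φ p * ∑ m, Vm φ m p * ym y m p) =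
        fun p => ∑ m, Ph φ p * (Vm φ m p * ym y m p) := by
      funext p; rw [Finset.mul_sum]
    rw [this]
    refine integrable_finsetSum _ fun m _ => ?_
    exact (cPh.continuous.mul ((cV m).mul (cu m))).integrable_of_hasCompactSupport
      ((su m).mul_left.mul_left)
  have iPhg : Integrable (fun p => Ph φ p * g p) :=
    (cPh.continuous.mul hD.smg.continuous).integrable_of_hasCompactSupport sg.mul_left
  have cdY : ∀ m c, Continuous (fun p => dv (d4 m c) (Y m c) p) := fun m c =>
    ((hD.smY m c).continuous_fderiv (by simp)).clm_apply continuous_const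
  have sdY : ∀ m c, HasCompactSupport (fun p => dv (d4 m c) (Y m c) p) := fun m c =>
    (sY m c).fderiv_apply (𝕜 := ℝ) (d4 m c)
  have Y1 : ∀ m c, ContDiff ℝ 1 (Y m c) := fun m c => (hD.smY m c).of_le (by simp)
  have Ph1 : ContDiff ℝ 1 (Ph φ) := cPh.of_le (by simp)
  -- F1
  have F1 : ∫ p, dvg Y p = 0 := by
    unfold dvg
    rw [integral_finsetSum _ fun m _ => integrable_finsetSum _ fun c _ =>
      (cdY m c).integrable_of_hasCompactSupport (sdY m c)]
    refine Finset.sum_eq_zero fun m _ => ?_
    rw [integral_finsetSum _ fun c _ =>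
      (cdY m c).integrable_of_hasCompactSupport (sdY m c)]
    refine Finset.sum_eq_zero fun c _ => ?_
    have h := ibp (d4 m c) (Y1 m c) (g := fun _ => (1 : ℝ)) contDiff_const (sY m c)
    have h0 : ∀ x : W4, dv (d4 m c) (fun _ : W4 => (1 : ℝ)) x = 0 := by
      intro x
      simp [dv]
    simp only [h0, mul_zero, mul_one, integral_zero] at h
    linarith
  -- F2
  have iPd : ∀ m c, Integrable (fun p => dv (d4 m c) (Ph φ) p * Y m c p) := fun m c =>
    (((Ph1.continuous_fderiv (by norm_num)).clm_apply continuous_const).mul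
      (hD.smY m c).continuous).integrable_of_hasCompactSupport (sY m c).mul_left
  have iPdY : ∀ m c, Integrable (fun p => Ph φ p * dv (d4 m c) (Y m c) p) := fun m c =>
    (cPh.continuous.mul (cdY m c)).integrable_of_hasCompactSupport (sdY m c).mul_left
  have F2 : ∫ p, ∑ m, ∑ c, dv (d4 m c) (Ph φ) p * Y m c p = - ∫ p, Ph φ p * dvg Y p := by
    have e : (fun p => Ph φ p * dvg Y p) =
        fun p => ∑ m, ∑ c, Ph φ p * dv (d4 m c) (Y m c) p := by
      funext p
      unfold dvg
      simp only [Finset.mul_sum]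
    rw [e]
    rw [integral_finsetSum _ fun m _ => integrable_finsetSum _ fun c _ => iPd m c]
    rw [integral_finsetSum _ fun m _ => integrable_finsetSum _ fun c _ => iPdY m c]
    rw [← Finset.sum_neg_distrib]
    refine Finset.sum_congr rfl fun m _ => ?_
    rw [integral_finsetSum _ fun c _ => iPd m c, integral_finsetSum _ fun c _ => iPdY m c]
    rw [← Finset.sum_neg_distrib]
    refine Finset.sum_congr rfl fun c _ => ?_
    have h := ibp (d4 m c) (Y1 m c) Ph1 (sY m c)
    have e1 : ∫ p, dv (d4 m c) (Ph φ) p * Y m c p = ∫ p, Y m c p * dv (d4 m c) (Ph φ) p := by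
      congr 1; funext p; ring
    have e2 : ∫ p, Ph φ p * dv (d4 m c) (Y m c) p = ∫ p, dv (d4 m c) (Y m c) p * Ph φ p := by
      congr 1; funext p; ring
    rw [e1, e2, h]
  have F2' : ∫ p, ∑ m, ∑ c, dv (d4 m c) (Ph φ) p * Y m c p =
      -(∫ p, Ph φ p * ∑ m, Vm φ m p * ym y m p) + ∫ p, Ph φ p * g p := by
    rw [F2]
    have : (fun p => Ph φ p * dvg Y p) =
        fun p => Ph φ p * (∑ m, Vm φ m p * ym y m p) - Ph φ p * g p := by
      funext p
      rw [hD.eqn p, mul_sub]
    rw [this, integral_sub iPhS iPhg]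
    ring
  -- F3
  have F3 : ∫ p, g p = ∫ p, ∑ m, Vm φ m p * ym y m p := by
    have : (fun p => dvg Y p) = fun p => (∑ m, Vm φ m p * ym y m p) - g p := by
      funext p; exact hD.eqn p
    rw [this, integral_sub iS ig] at F1
    linarith
  -- F4
  have F4 : ∫ p, ∑ m, ∑ j ∈ Finset.univ.erase m, gdt (fun p => φ (pm m p))
      (fun p => φ (pm j p)) p = B40 φ := by
    rw [(hIBD φ hφ).2.2]
    have hi : ∀ m : Fin 4, ∀ j ∈ Finset.univ.erase m,
        Integrable (gdt (fun p => φ (pm m p)) (fun p => φ (pm j p))) := fun m j hj =>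
      ((hDIT φ hφ).2.2 m j (Finset.ne_of_mem_erase hj).symm).1
    rw [integral_finsetSum _ fun m _ => integrable_finsetSum _ fun j hj => hi m j hj]
    refine Finset.sum_congr rfl fun m _ => ?_
    rw [integral_finsetSum _ fun j hj => hi m j hj]
  -- F5
  have F5 : ∫ p, ∑ m, ww φ (pm m p) * ym y m p =
      (∫ p, ∑ m, Vm φ m p * ym y m p) - (∫ p, Ph φ p * ∑ m, Vm φ m p * ym y m p) +
        ∫ p, ∑ m, Vm φ m p * ym y m p * Pq φ m p := by
    have iq : Integrable (fun p => ∑ m, Vm φ m p * ym y m p * Pq φ m p) := by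
      refine integrable_finsetSum _ fun m _ => ?_
      exact (((cV m).mul (cu m)).mul (cPq m)).integrable_of_hasCompactSupport
        ((su m).mul_left.mul_right)
    rw [← integral_sub iS iPhS]
    have i2 : Integrable (fun p => (∑ m, Vm φ m p * ym y m p) -
        Ph φ p * ∑ m, Vm φ m p * ym y m p) := iS.sub iPhS
    rw [← integral_add i2 iq]
    congr 1
    funext p
    rw [Finset.mul_sum, ← Finset.sum_sub_distrib, ← Finset.sum_add_distrib]
    refine Finset.sum_congr rfl fun m _ => ?_
    have h1 : ww φ (pm m p) = Vm φ m p * (1 - φ (pm m p)) := (hVw (pm m p)).symm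
    have h2 : Ph φ p = φ (pm m p) + Pq φ m p := by
      unfold Ph Pq
      exact (Finset.add_sum_erase Finset.univ (fun j => φ (pm j p)) (Finset.mem_univ m)).symm
    rw [h1, h2]
    ring
  unfold bet be2
  rw [F4, F2', F5, F3]
  ring

end Pool.Agent.TBF
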