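import Pool.Agent.TBF.Stmts

/-!
# Three-body Bose gases (MP_80dc41_mp), the four-body problem: module CHI, cutoffs
-/

set_option autoImplicit false

open MeasureTheory Filter Topology
open scoped ContDiff

namespace Pool.Agent.TBF

open Pool.Agent.TBG Pool.Agent.TBL

namespace CHI_

theorem th_smooth : ContDiff ℝ ∞ th := by
  unfold th
  have h1 : ContDiff ℝ ∞ (fun s : ℝ => s - 1) := contDiff_id.sub contDiff_const
  have h2 : ContDiff ℝ ∞ Real.smoothTransition := Real.smoothTransition.contDiff (n := ⊤)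
  exact contDiff_const.sub (h2.comp h1)

theorem th_one {s : ℝ} (h : s ≤ 1) : th s = 1 := by
  unfold th
  rw [Real.smoothTransition.zero_of_nonpos (by linarith)]
  ring

theorem th_zero {s : ℝ} (h : 2 ≤ s) : th s = 0 := by
  unfold th
  rw [Real.smoothTransition.one_of_one_le (by linarith)]
  ring

theorem th_nonneg (s : ℝ) : 0 ≤ th s := by
  have := Real.smoothTransition.le_one (s - 1)
  unfold th
  linarith

theorem th_le (s : ℝ) : th s ≤ 1 := by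
  have := Real.smoothTransition.nonneg (s - 1)
  unfold th
  linarith

theorem th_bdd : ∃ C : ℝ, 0 ≤ C ∧ ∀ t : ℝ, |deriv th t| ≤ C := by
  have hc : Continuous (deriv th) := th_smooth.continuous_deriv (by simp)
  obtain ⟨x, _, hx⟩ := (isCompact_Icc (a := (1 : ℝ)) (b := 2)).exists_isMaxOn
    ⟨1, by norm_num⟩ hc.abs.continuousOn
  refine ⟨|deriv th x|, abs_nonneg _, fun t => ?_⟩
  by_cases ht : t ∈ Set.Icc (1 : ℝ) 2
  · exact hx ht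
  · have h0 : deriv th t = 0 := by
      by_cases h1 : t < 1
      · have e : th =ᶠ[𝓝 t] fun _ => (1 : ℝ) := by
          filter_upwards [Iio_mem_nhds h1] with v hv
          exact th_one (le_of_lt hv)
        rw [e.deriv_eq]; simp
      · have h2 : 2 < t := by
          by_contra h
          exact ht ⟨not_lt.1 h1, not_lt.1 h⟩
        have e : th =ᶠ[𝓝 t] fun _ => (0 : ℝ) := by
          filter_upwards [Ioi_mem_nhds h2] with v hv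
          exact th_zero (le_of_lt hv)
        rw [e.deriv_eq]; simp
    rw [h0, abs_zero]
    exact abs_nonneg _

/-! ### the quadratic form -/

theorem n1 (p : W4) : ‖p.1‖ ≤ ‖p‖ := norm_fst_le p
theorem n2 (p : W4) : ‖p.2.1‖ ≤ ‖p‖ := (norm_fst_le p.2).trans (norm_snd_le p)
theorem n3 (p : W4) : ‖p.2.2‖ ≤ ‖p‖ := (norm_snd_le p.2).trans (norm_snd_le p)

theorem sq_sub_le (a b : E) : ‖a - b‖ ^ 2 ≤ 2 * (‖a‖ ^ 2 + ‖b‖ ^ 2) := by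
  have h1 := norm_sub_le a b
  have h2 : ‖a - b‖ ^ 2 ≤ (‖a‖ + ‖b‖) ^ 2 := pow_le_pow_left₀ (norm_nonneg _) h1 2
  nlinarith [sq_nonneg (‖a‖ - ‖b‖)]

theorem sq_le_of (a b : E) : ‖a‖ ^ 2 ≤ 2 * (‖b‖ ^ 2 + ‖a - b‖ ^ 2) := by
  have h1 : ‖a‖ ≤ ‖b‖ + ‖a - b‖ := by
    have := norm_add_le b (a - b)
    rwa [add_sub_cancel] at this
  have h2 : ‖a‖ ^ 2 ≤ (‖b‖ + ‖a - b‖) ^ 2 := pow_le_pow_left₀ (norm_nonneg _) h1 2
  nlinarith [sq_nonneg (‖b‖ - ‖a - b‖)]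

theorem Q4_le (p : W4) : Q4 p ≤ 15 / 4 * ‖p‖ ^ 2 := by
  have h1 : ‖p.1‖ ^ 2 ≤ ‖p‖ ^ 2 := pow_le_pow_left₀ (norm_nonneg _) (n1 p) 2
  have h2 : ‖p.2.1‖ ^ 2 ≤ ‖p‖ ^ 2 := pow_le_pow_left₀ (norm_nonneg _) (n2 p) 2
  have h3 : ‖p.2.2‖ ^ 2 ≤ ‖p‖ ^ 2 := pow_le_pow_left₀ (norm_nonneg _) (n3 p) 2
  have h4 := sq_sub_le p.1 p.2.1
  have h5 := sq_sub_le p.1 p.2.2
  have h6 := sq_sub_le p.2.1 p.2.2
  unfold Q4
  linarith

theorem le_Q4 (p : W4) : ‖p‖ ^ 2 ≤ 2 * Q4 p := by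
  have key : ∀ t : ℝ, 0 ≤ t → t ^ 2 ≤ 2 * Q4 p → True := fun _ _ _ => trivial
  have a1 : ‖p.1‖ ^ 2 ≤ 2 * Q4 p := by
    have h1 := sq_le_of p.1 p.2.1
    have h2 := sq_le_of p.1 p.2.2
    unfold Q4
    nlinarith [sq_nonneg ‖p.2.1 - p.2.2‖]
  have a2 : ‖p.2.1‖ ^ 2 ≤ 2 * Q4 p := by
    have h1 := sq_le_of p.2.1 p.1
    have h2 := sq_le_of p.2.1 p.2.2
    rw [norm_sub_rev p.2.1 p.1] at h1
    unfold Q4
    nlinarith [sq_nonneg ‖p.1 - p.2.2‖]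
  have a3 : ‖p.2.2‖ ^ 2 ≤ 2 * Q4 p := by
    have h1 := sq_le_of p.2.2 p.1
    have h2 := sq_le_of p.2.2 p.2.1
    rw [norm_sub_rev p.2.2 p.1] at h1
    rw [norm_sub_rev p.2.2 p.2.1] at h2
    unfold Q4
    nlinarith [sq_nonneg ‖p.1 - p.2.1‖]
  have h : ‖p‖ = max ‖p.1‖ (max ‖p.2.1‖ ‖p.2.2‖) := rfl
  rw [h]
  rcases max_choice ‖p.1‖ (max ‖p.2.1‖ ‖p.2.2‖) with h1 | h1
  · rw [h1]; exact a1
  · rw [h1]
    rcases max_choice ‖p.2.1‖ ‖p.2.2‖ with h2 | h2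
    · rw [h2]; exact a2
    · rw [h2]; exact a3

theorem Q4_rl (X : Fin 4 → E) : Q4 (rl X) = (∑ i, ∑ j, ‖X i - X j‖ ^ 2) / 8 := by
  unfold Q4 rl
  simp only [Fin.sum_univ_four, sub_self, norm_zero]
  have e1 : X 0 - X 1 - (X 0 - X 2) = X 2 - X 1 := by abel
  have e2 : X 0 - X 1 - (X 0 - X 3) = X 3 - X 1 := by abel
  have e3 : X 0 - X 2 - (X 0 - X 3) = X 3 - X 2 := by abel
  rw [e1, e2, e3, norm_sub_rev (X 1) (X 0), norm_sub_rev (X 2) (X 0), norm_sub_rev (X 3) (X 0),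
    norm_sub_rev (X 1) (X 2), norm_sub_rev (X 1) (X 3), norm_sub_rev (X 2) (X 3)]
  rw [norm_sub_rev (X 0) (X 1), norm_sub_rev (X 0) (X 2), norm_sub_rev (X 0) (X 3)]
  ring

theorem Q4_sym (hRLP : Stmt_RLP) (σ : Equiv.Perm (Fin 4)) (p : W4) : Q4 (Pm σ p) = Q4 p := by
  obtain ⟨h1, _, _, h4, _⟩ := hRLP
  have e1 : Pm σ p = rl (fun i => cf p (σ i)) := rfl
  have e2 : Q4 p = Q4 (rl (cf p)) := by rw [h1]
  rw [e1, e2, Q4_rl, Q4_rl]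
  congr 1
  rw [Equiv.sum_comp σ (fun i => ∑ j, ‖cf p i - cf p (σ j)‖ ^ 2)]
  refine Finset.sum_congr rfl (fun i _ => ?_)
  exact Equiv.sum_comp σ (fun j => ‖cf p i - cf p j‖ ^ 2)

/-! ### derivatives -/

noncomputable def T1 : W4 →L[ℝ] E := ContinuousLinearMap.fst ℝ E (E × E)
noncomputable def T2 : W4 →L[ℝ] E :=
  (ContinuousLinearMap.fst ℝ E E).comp (ContinuousLinearMap.snd ℝ E (E × E))
noncomputable def T3 : W4 →L[ℝ] E :=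
  (ContinuousLinearMap.snd ℝ E E).comp (ContinuousLinearMap.snd ℝ E (E × E))

theorem bd (T : W4 →L[ℝ] E) (hT : ∀ q, ‖T q‖ ≤ 2 * ‖q‖) (p : W4) :
    ∃ L : W4 →L[ℝ] ℝ, HasFDerivAt (fun q => ‖T q‖ ^ 2) L p ∧ ∀ v, |L v| ≤ 8 * ‖p‖ * ‖v‖ := by
  have h := (T.hasFDerivAt (x := p)).norm_sq
  refine ⟨_, h, fun v => ?_⟩
  have e : ((2 : ℕ) • (innerSL ℝ (T p)).comp T) v = 2 * inner ℝ (T p) (T v) := by
    simp
  have e2 : |2 * inner ℝ (T p) (T v)| ≤ 8 * ‖p‖ * ‖v‖ := by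
    rw [abs_mul, abs_of_pos (by norm_num : (0 : ℝ) < 2)]
    have h1 := abs_real_inner_le_norm (T p) (T v)
    have h2 := hT p
    have h3 := hT v
    have h4 : ‖T p‖ * ‖T v‖ ≤ (2 * ‖p‖) * (2 * ‖v‖) :=
      mul_le_mul h2 h3 (norm_nonneg _) (by positivity)
    linarith
  rw [← e] at e2
  exact e2

theorem Q4_deriv (p : W4) :
    ∃ L : W4 →L[ℝ] ℝ, HasFDerivAt Q4 L p ∧ ∀ v, |L v| ≤ 12 * ‖p‖ * ‖v‖ := by
  have b1 : ∀ q : W4, ‖T1 q‖ ≤ 2 * ‖q‖ := fun q => by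
    have := n1 q; have h := norm_nonneg q
    show ‖q.1‖ ≤ _; linarith
  have b2 : ∀ q : W4, ‖T2 q‖ ≤ 2 * ‖q‖ := fun q => by
    have := n2 q; have h := norm_nonneg q
    show ‖q.2.1‖ ≤ _; linarith
  have b3 : ∀ q : W4, ‖T3 q‖ ≤ 2 * ‖q‖ := fun q => by
    have := n3 q; have h := norm_nonneg q
    show ‖q.2.2‖ ≤ _; linarith
  have b4 : ∀ q : W4, ‖(T1 - T2) q‖ ≤ 2 * ‖q‖ := fun q => by
    have h := norm_sub_le q.1 q.2.1
    have := n1 q; have := n2 q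
    show ‖q.1 - q.2.1‖ ≤ _; linarith
  have b5 : ∀ q : W4, ‖(T1 - T3) q‖ ≤ 2 * ‖q‖ := fun q => by
    have h := norm_sub_le q.1 q.2.2
    have := n1 q; have := n3 q
    show ‖q.1 - q.2.2‖ ≤ _; linarith
  have b6 : ∀ q : W4, ‖(T2 - T3) q‖ ≤ 2 * ‖q‖ := fun q => by
    have h := norm_sub_le q.2.1 q.2.2
    have := n2 q; have := n3 q
    show ‖q.2.1 - q.2.2‖ ≤ _; linarith
  obtain ⟨L1, h1, c1⟩ := bd T1 b1 p
  obtain ⟨L2, h2, c2⟩ := bd T2 b2 p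
  obtain ⟨L3, h3, c3⟩ := bd T3 b3 p
  obtain ⟨L4, h4, c4⟩ := bd (T1 - T2) b4 p
  obtain ⟨L5, h5, c5⟩ := bd (T1 - T3) b5 p
  obtain ⟨L6, h6, c6⟩ := bd (T2 - T3) b6 p
  refine ⟨(4 : ℝ)⁻¹ • (L1 + L2 + L3 + L4 + L5 + L6), ?_, fun v => ?_⟩
  · have h7 := ((((((h1.add h2).add h3).add h4).add h5).add h6).const_smul (4 : ℝ)⁻¹)
    have e : Q4 = (fun q : W4 => (4 : ℝ)⁻¹ • (‖T1 q‖ ^ 2 + ‖T2 q‖ ^ 2 + ‖T3 q‖ ^ 2 +
        ‖(T1 - T2) q‖ ^ 2 + ‖(T1 - T3) q‖ ^ 2 + ‖(T2 - T3) q‖ ^ 2)) := by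
      funext q
      show (‖q.1‖ ^ 2 + ‖q.2.1‖ ^ 2 + ‖q.2.2‖ ^ 2 + ‖q.1 - q.2.1‖ ^ 2 + ‖q.1 - q.2.2‖ ^ 2 +
        ‖q.2.1 - q.2.2‖ ^ 2) / 4 = (4 : ℝ)⁻¹ * (‖q.1‖ ^ 2 + ‖q.2.1‖ ^ 2 + ‖q.2.2‖ ^ 2 +
        ‖q.1 - q.2.1‖ ^ 2 + ‖q.1 - q.2.2‖ ^ 2 + ‖q.2.1 - q.2.2‖ ^ 2)
      ring
    rw [e]
    exact h7
  · have e : ((4 : ℝ)⁻¹ • (L1 + L2 + L3 + L4 + L5 + L6)) v =
        (4 : ℝ)⁻¹ * (L1 v + L2 v + L3 v + L4 v + L5 v + L6 v) := rfl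
    rw [e, abs_mul, abs_of_pos (by norm_num : (0 : ℝ) < (4 : ℝ)⁻¹)]
    have d1 := c1 v
    have d2 := c2 v
    have d3 := c3 v
    have d4 := c4 v
    have d5 := c5 v
    have d6 := c6 v
    have t : |L1 v + L2 v + L3 v + L4 v + L5 v + L6 v| ≤ 48 * ‖p‖ * ‖v‖ := by
      refine (abs_add_le _ _).trans ?_
      have t1 := abs_add_le (L1 v + L2 v + L3 v + L4 v) (L5 v)
      have t2 := abs_add_le (L1 v + L2 v + L3 v) (L4 v)
      have t3 := abs_add_le (L1 v + L2 v) (L3 v)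
      have t4 := abs_add_le (L1 v) (L2 v)
      linarith
    linarith

theorem Q4_smooth : ContDiff ℝ ∞ Q4 := by
  have e : Q4 = (fun q : W4 => (‖T1 q‖ ^ 2 + ‖T2 q‖ ^ 2 + ‖T3 q‖ ^ 2 +
      ‖(T1 - T2) q‖ ^ 2 + ‖(T1 - T3) q‖ ^ 2 + ‖(T2 - T3) q‖ ^ 2) / 4) := rfl
  rw [e]
  have h : ∀ T : W4 →L[ℝ] E, ContDiff ℝ ∞ (fun q : W4 => ‖T q‖ ^ 2) :=
    fun T => T.contDiff.norm_sq ℝ
  exact ((((((h T1).add (h T2)).add (h T3)).add (h _)).add (h _)).add (h _)).div_const 4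

theorem chi_smooth (r : ℝ) : ContDiff ℝ ∞ (chi r) :=
  th_smooth.comp (Q4_smooth.div_const _)

theorem chi_one {r : ℝ} (hr : 1 ≤ r) {p : W4} (hp : ‖p‖ ≤ r) : chi r p = 1 := by
  refine th_one ?_
  rw [div_le_one (by positivity)]
  have h1 := Q4_le p
  have h2 : ‖p‖ ^ 2 ≤ r ^ 2 := pow_le_pow_left₀ (norm_nonneg _) hp 2
  nlinarith

theorem chi_zero {r : ℝ} (hr : 1 ≤ r) {p : W4} (hp : 4 * r ≤ ‖p‖) : chi r p = 0 := by
  refine th_zero ?_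
  rw [le_div_iff₀ (by positivity)]
  have h1 := le_Q4 p
  have h2 : (4 * r) ^ 2 ≤ ‖p‖ ^ 2 := pow_le_pow_left₀ (by linarith) hp 2
  nlinarith

theorem dv_zero {r : ℝ} (hr : 1 ≤ r) (v : W4) {p : W4} (hp : ‖p‖ < r ∨ 4 * r < ‖p‖) :
    dv v (chi r) p = 0 := by
  unfold dv
  rcases hp with hp | hp
  · have e : chi r =ᶠ[𝓝 p] fun _ => (1 : ℝ) := by
      have hn : {q : W4 | ‖q‖ < r} ∈ 𝓝 p :=
        (isOpen_lt continuous_norm continuous_const).mem_nhds hp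
      filter_upwards [hn] with q hq
      exact chi_one hr (le_of_lt hq)
    rw [e.fderiv_eq]
    simp
  · have e : chi r =ᶠ[𝓝 p] fun _ => (0 : ℝ) := by
      have hn : {q : W4 | 4 * r < ‖q‖} ∈ 𝓝 p :=
        (isOpen_lt continuous_const continuous_norm).mem_nhds hp
      filter_upwards [hn] with q hq
      exact chi_zero hr (le_of_lt hq)
    rw [e.fderiv_eq]
    simp

theorem dv_bound {r C1 : ℝ} (hr : 1 ≤ r) (hC1 : 0 ≤ C1) (hC : ∀ t, |deriv th t| ≤ C1) (v : W4)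
    (p : W4) : (1 + ‖p‖) * |dv v (chi r) p| ≤ 60 * C1 * ‖v‖ := by
  by_cases hp : 4 * r < ‖p‖
  · rw [dv_zero hr v (Or.inr hp), abs_zero, mul_zero]
    positivity
  · have hp' : ‖p‖ ≤ 4 * r := not_lt.1 hp
    obtain ⟨L, hL, hb⟩ := Q4_deriv p
    have h1 : HasFDerivAt (fun q => Q4 q / (4 * r ^ 2)) ((4 * r ^ 2)⁻¹ • L) p := by
      have h2 := hL.const_smul ((4 * r ^ 2)⁻¹)
      have e : (fun q => Q4 q / (4 * r ^ 2)) = fun q => ((4 * r ^ 2)⁻¹) • Q4 q := by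
        funext q
        rw [smul_eq_mul, div_eq_inv_mul]
      rw [e]
      exact h2
    have h3 : HasDerivAt th (deriv th (Q4 p / (4 * r ^ 2))) (Q4 p / (4 * r ^ 2)) :=
      (th_smooth.differentiable (by simp) _).hasDerivAt
    have h4 := h3.comp_hasFDerivAt p h1
    have h5 : dv v (chi r) p = deriv th (Q4 p / (4 * r ^ 2)) * ((4 * r ^ 2)⁻¹ * L v) := by
      unfold dv
      have e : fderiv ℝ (chi r) p = _ := h4.fderiv
      rw [e]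
      rfl
    rw [h5, abs_mul, abs_mul, abs_of_pos (by positivity : (0 : ℝ) < (4 * r ^ 2)⁻¹)]
    have h6 := hC (Q4 p / (4 * r ^ 2))
    have h7 := hb v
    have hr2 : (0 : ℝ) < 4 * r ^ 2 := by positivity
    have h8 : (4 * r ^ 2)⁻¹ * |L v| ≤ (4 * r ^ 2)⁻¹ * (12 * ‖p‖ * ‖v‖) :=
      mul_le_mul_of_nonneg_left h7 (by positivity)
    have h9 : |deriv th (Q4 p / (4 * r ^ 2))| * ((4 * r ^ 2)⁻¹ * |L v|) ≤
        C1 * ((4 * r ^ 2)⁻¹ * (12 * ‖p‖ * ‖v‖)) :=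
      mul_le_mul h6 h8 (by positivity) hC1
    have h10 : (1 + ‖p‖) * (C1 * ((4 * r ^ 2)⁻¹ * (12 * ‖p‖ * ‖v‖))) ≤ 60 * C1 * ‖v‖ := by
      have e1 : (1 + ‖p‖) * (C1 * ((4 * r ^ 2)⁻¹ * (12 * ‖p‖ * ‖v‖))) =
          ((1 + ‖p‖) * ‖p‖ * 3 / r ^ 2) * (C1 * ‖v‖) := by
        field_simp
        ring
      have e2 : (1 + ‖p‖) * ‖p‖ * 3 / r ^ 2 ≤ 60 := by
        rw [div_le_iff₀ (by positivity)]
        have q1 : 1 + ‖p‖ ≤ 5 * r := by linarith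
        have q2 : (1 + ‖p‖) * ‖p‖ ≤ (5 * r) * (4 * r) :=
          mul_le_mul q1 hp' (norm_nonneg _) (by positivity)
        nlinarith
      rw [e1]
      calc ((1 + ‖p‖) * ‖p‖ * 3 / r ^ 2) * (C1 * ‖v‖) ≤ 60 * (C1 * ‖v‖) :=
            mul_le_mul_of_nonneg_right e2 (by positivity)
        _ = 60 * C1 * ‖v‖ := by ring
    exact (mul_le_mul_of_nonneg_left h9 (by positivity)).trans h10

end CHI_

open CHI_

/-- CHI: cutoffs -/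
theorem chi_proof (hRLP : Stmt_RLP) : Stmt_CHI := by
  obtain ⟨C1, hC1, hC⟩ := th_bdd
  let S : ℝ := ∑ m : Fin 4, ∑ c : Fin 3, ‖d4 m c‖
  have hS : ∀ m c, ‖d4 m c‖ ≤ S := by
    intro m c
    have h1 : ‖d4 m c‖ ≤ ∑ c' : Fin 3, ‖d4 m c'‖ :=
      Finset.single_le_sum (f := fun c' => ‖d4 m c'‖) (fun _ _ => norm_nonneg _)
        (Finset.mem_univ c)
    have h2 : ∑ c' : Fin 3, ‖d4 m c'‖ ≤ S :=
      Finset.single_le_sum (f := fun m' => ∑ c' : Fin 3, ‖d4 m' c'‖)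
        (fun _ _ => Finset.sum_nonneg (fun _ _ => norm_nonneg _)) (Finset.mem_univ m)
    exact h1.trans h2
  have hS0 : 0 ≤ S := (norm_nonneg _).trans (hS 0 0)
  refine ⟨60 * C1 * S + 1, by positivity, fun r hr => ?_⟩
  refine ⟨⟨chi_smooth r, ?_⟩, ?_, ?_, ?_, ?_, ?_, ?_⟩
  · refine HasCompactSupport.intro (isCompact_closedBall (0 : W4) (4 * r)) (fun p hp => ?_)
    rw [Metric.mem_closedBall, dist_zero_right, not_le] at hp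
    exact chi_zero hr hp.le
  · intro σ p
    unfold chi
    rw [Q4_sym hRLP]
  · intro p
    exact ⟨th_nonneg _, th_le _⟩
  · intro p hp
    exact chi_one hr hp
  · intro p hp
    exact chi_zero hr hp
  · intro m c p
    have h1 := dv_bound hr hC1 hC (d4 m c) p
    have h2 : 60 * C1 * ‖d4 m c‖ ≤ 60 * C1 * S :=
      mul_le_mul_of_nonneg_left (hS m c) (by positivity)
    linarith
  · intro m c p hp
    exact dv_zero hr (d4 m c) hp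

end Pool.Agent.TBF
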