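import Pool.Agent.TBF.Stmts

set_option autoImplicit false

open MeasureTheory Filter Topology
open scoped ContDiff

namespace Pool.Agent.TBF

open Pool.Agent.TBG Pool.Agent.TBL

namespace DCL_

theorem bd (hS : Continuous Sd) (hp : ∀ p, 0 < Sd p) (F : W4 → ℝ) (hF : Continuous F)
    (hc : HasCompactSupport F) : ∃ C : ℝ, 0 ≤ C ∧ ∀ p, |F p| ≤ C * Sd p := by
  have h1 : Continuous (fun p => F p / Sd p) := hF.div hS (fun p => (hp p).ne')
  have h2 : HasCompactSupport (fun p => F p / Sd p) := by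
    have : (fun p => F p / Sd p) = fun p => F p * (Sd p)⁻¹ := by funext p; rw [div_eq_mul_inv]
    rw [this]
    exact hc.mul_right
  obtain ⟨C, hC⟩ := h1.bounded_above_of_compact_support h2
  refine ⟨C, (norm_nonneg _).trans (hC 0), fun p => ?_⟩
  have := hC p
  rw [Real.norm_eq_abs, abs_div, abs_of_pos (hp p), div_le_iff₀ (hp p)] at this
  exact this

theorem cptdv (η : W4 → ℝ) (h : TF η) (v : W4) : HasCompactSupport (dv v η) := by
  have h1 : HasCompactSupport (fderiv ℝ η) := h.2.fderiv (𝕜 := ℝ)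
  have h2 : dv v η = fun p => (fun L : W4 →L[ℝ] ℝ => L v) (fderiv ℝ η p) := by
    funext p; rfl
  rw [h2]
  exact h1.comp_left (g := fun L : W4 →L[ℝ] ℝ => L v) (by simp)

theorem unif {F : Fin 4 → Fin 3 → W4 → ℝ} {S : W4 → ℝ}
    (h : ∀ m c, ∃ C : ℝ, 0 ≤ C ∧ ∀ p, |F m c p| ≤ C * S p) (hS : ∀ p, 0 < S p) :
    ∃ C : ℝ, ∀ m c p, |F m c p| ≤ C * S p := by
  choose C hC0 hC using h
  refine ⟨∑ m, ∑ c, C m c, fun m c p => (hC m c p).trans ?_⟩
  refine mul_le_mul_of_nonneg_right ?_ (hS p).le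
  refine (Finset.single_le_sum (f := fun c => C m c) (fun c _ => hC0 m c) (Finset.mem_univ c)).trans ?_
  exact Finset.single_le_sum (f := fun m => ∑ c, C m c)
    (fun m _ => Finset.sum_nonneg (fun c _ => hC0 m c)) (Finset.mem_univ m)

end DCL_

open DCL_ in
theorem dcl_proof (h1 : Stmt_ALG) (h2 : Stmt_SDW) : Stmt_DCL := by
  have hSc : Continuous Sd := h2.1
  have hSp : ∀ p, 0 < Sd p := fun p => (h2.2.2.1 p).1
  refine ⟨?_, ?_, ?_⟩
  · intro η hη
    refine ⟨hη.1, ?_, ?_⟩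
    · obtain ⟨C, _, hC⟩ := bd hSc hSp η hη.1.continuous hη.2
      exact ⟨C, hC⟩
    · refine unif (fun m c => bd hSc hSp (dv (d4 m c) η) ?_ (cptdv η hη _)) hSp
      exact ((h1 η η hη.1 hη.1).2.2.2.1 (d4 m c)).continuous
  · intro η ζ hη hζ
    refine ⟨hη.smooth.add hζ.smooth, ?_, ?_⟩
    · obtain ⟨C1, hC1⟩ := hη.b0
      obtain ⟨C2, hC2⟩ := hζ.b0
      refine ⟨C1 + C2, fun p => ?_⟩
      show |η p + ζ p| ≤ _
      rw [add_mul]
      exact (abs_add_le _ _).trans (add_le_add (hC1 p) (hC2 p))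
    · obtain ⟨C1, hC1⟩ := hη.b1
      obtain ⟨C2, hC2⟩ := hζ.b1
      refine ⟨C1 + C2, fun m c p => ?_⟩
      rw [(h1 η ζ hη.smooth hζ.smooth).2.2.2.2.2.1 (d4 m c) p, add_mul]
      exact (abs_add_le _ _).trans (add_le_add (hC1 m c p) (hC2 m c p))
  · intro χ ζ B hζ hχ hb hb'
    have hB : 0 ≤ B := (abs_nonneg _).trans (hb 0)
    refine ⟨hχ.mul hζ.smooth, ?_, ?_⟩
    · obtain ⟨C, hC⟩ := hζ.b0
      refine ⟨B * C, fun p => ?_⟩
      show |χ p * ζ p| ≤ _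
      rw [abs_mul, mul_assoc]
      exact mul_le_mul (hb p) (hC p) (abs_nonneg _) hB
    · obtain ⟨C, hC⟩ := hζ.b0
      obtain ⟨C', hC'⟩ := hζ.b1
      refine ⟨B * C + B * C', fun m c p => ?_⟩
      rw [(h1 χ ζ hχ hζ.smooth).2.2.2.2.2.2.2.1 (d4 m c) p, add_mul]
      refine (abs_add_le _ _).trans (add_le_add ?_ ?_)
      · rw [abs_mul, mul_assoc]
        exact mul_le_mul (hb' m c p) (hC p) (abs_nonneg _) hB
      · rw [abs_mul, mul_assoc]
        exact mul_le_mul (hb p) (hC' m c p) (abs_nonneg _) hB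

end Pool.Agent.TBF
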