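import Pool.Agent.TBF.Stmts

/-!
TBF DER: derivatives of functions of triples
-/

set_option autoImplicit false

open MeasureTheory Filter Topology
open scoped ContDiff

namespace Pool.Agent.TBF

open Pool.Agent.TBG Pool.Agent.TBL

namespace DER_

theorem chain (T : W4 →L[ℝ] E × E) (u : E × E → ℝ) (hu : ContDiff ℝ ∞ u) (v p : W4) :
    dv v (fun p => u (T p)) p = dv (T v) u (T p) := by
  unfold dv
  have h1 : DifferentiableAt ℝ u (T p) := (hu.differentiable (by simp)) (T p)
  have h2 := (h1.hasFDerivAt.comp p T.hasFDerivAt).fderiv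
  have h3 : fderiv ℝ (fun p => u (T p)) p = (fderiv ℝ u (T p)).comp T := h2
  rw [h3]
  rfl

theorem smooth (u : E × E → ℝ) (hu : ContDiff ℝ ∞ u) (v : E × E) : ContDiff ℝ ∞ (dv v u) := by
  unfold dv
  exact (hu.fderiv_right (m := ∞) (by simp)).clm_apply contDiff_const

end DER_

open DER_

theorem der_proof (hRLP : Stmt_RLP) (hRLD : Stmt_RLD) : Stmt_DER := by
  intro u m hu
  obtain ⟨T, hT⟩ := hRLP.2.2.2.2.2.2.2.1 m
  obtain ⟨hD0, hDk, -⟩ := hRLD
  have hf : (fun p => u (pm m p)) = fun p => u (T p) := by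
    funext p
    rw [hT]
  have h1 : ∀ (w : E × E → ℝ), ContDiff ℝ ∞ w → ∀ c p, dv (d4 m c) (fun p => w (pm m p)) p = 0 := by
    intro w hw c p
    have hf : (fun p => w (pm m p)) = fun p => w (T p) := by
      funext p
      rw [hT]
    rw [hf, chain T w hw, hT, hD0]
    unfold dv
    exact map_zero _
  have h2 : ∀ (w : E × E → ℝ), ContDiff ℝ ∞ w → ∀ (k c : Fin 3) p,
      dv (d4 (m.succAbove k) c) (fun p => w (pm m p)) p = dv (dr k c) w (pm m p) := by
    intro w hw k c p
    have hf : (fun p => w (pm m p)) = fun p => w (T p) := by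
      funext p
      rw [hT]
    rw [hf, chain T w hw, hT, hT, hDk]
  refine ⟨?_, h1 u hu, h2 u hu, ?_, ?_⟩
  · rw [hf]
    exact hu.comp T.contDiff
  · intro p
    unfold gsq4 gsq
    rw [Fin.sum_univ_succAbove _ m]
    simp_rw [h1 u hu, h2 u hu]
    simp
  · intro p
    unfold Lap4 Lap
    rw [Fin.sum_univ_succAbove _ m]
    have e1 : ∀ c, dv (d4 m c) (dv (d4 m c) fun p => u (pm m p)) p = 0 := by
      intro c
      have : (dv (d4 m c) fun p => u (pm m p)) = fun _ => 0 := by
        funext q
        exact h1 u hu c q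
      rw [this]
      simp [dv]
    have e2 : ∀ k c, dv (d4 (m.succAbove k) c) (dv (d4 (m.succAbove k) c) fun p => u (pm m p)) p =
        dv (dr k c) (dv (dr k c) u) (pm m p) := by
      intro k c
      have : (dv (d4 (m.succAbove k) c) fun p => u (pm m p)) =
          fun p => (dv (dr k c) u) (pm m p) := by
        funext q
        exact h2 u hu k c q
      rw [this]
      exact h2 _ (smooth u hu _) k c p
    simp_rw [e1, e2]
    simp

end Pool.Agent.TBF
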