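import Pool.Agent.TBF.Stmts
import Pool.Agent.TBL.PRF

/-!
Squad TBF, module DIL: the potentials of the family decrease along rays.
-/

set_option autoImplicit false

open MeasureTheory Filter Topology
open scoped ContDiff

namespace Pool.Agent.TBF

open Pool.Agent.TBG Pool.Agent.TBL

namespace DIL_

/-- the profile of the potential -/
noncomputable def vp (lam s : ℝ) : ℝ := lam * W1 s / (1 - lam * P1 s)

theorem nsq (τ : ℝ) (hτ : 0 < τ) (a b : E) :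
    ‖a + b‖ ^ 2 ≤ (1 + τ) * ‖a‖ ^ 2 + (1 + 1 / τ) * ‖b‖ ^ 2 := by
  have h1 := norm_add_le a b
  have h2 : ‖a + b‖ ^ 2 ≤ (‖a‖ + ‖b‖) ^ 2 := pow_le_pow_left₀ (norm_nonneg _) h1 2
  have h3 : 2 * ‖a‖ * ‖b‖ ≤ τ * ‖a‖ ^ 2 + 1 / τ * ‖b‖ ^ 2 := by
    have h4 : 0 ≤ (τ * ‖a‖ - ‖b‖) ^ 2 / τ := by positivity
    have h5 : (τ * ‖a‖ - ‖b‖) ^ 2 / τ = τ * ‖a‖ ^ 2 - 2 * ‖a‖ * ‖b‖ + 1 / τ * ‖b‖ ^ 2 := by
      field_simp
      ring
    linarith
  nlinarith

theorem QQ_add (τ : ℝ) (hτ : 0 < τ) (a b : E × E) :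
    QQ (a + b) ≤ (1 + τ) * QQ a + (1 + 1 / τ) * QQ b := by
  unfold QQ
  have h1 := nsq τ hτ a.1 b.1
  have h2 := nsq τ hτ a.2 b.2
  have h3 := nsq τ hτ (a.1 - a.2) (b.1 - b.2)
  have e1 : (a + b).1 = a.1 + b.1 := rfl
  have e2 : (a + b).2 = a.2 + b.2 := rfl
  have e3 : (a + b).1 - (a + b).2 = (a.1 - a.2) + (b.1 - b.2) := by
    rw [e1, e2]
    abel
  rw [e3, e1, e2]
  have e4 : (1 + τ) * ((‖a.1‖ ^ 2 + ‖a.2‖ ^ 2 + ‖a.1 - a.2‖ ^ 2) / 3) +
      (1 + 1 / τ) * ((‖b.1‖ ^ 2 + ‖b.2‖ ^ 2 + ‖b.1 - b.2‖ ^ 2) / 3) =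
      (((1 + τ) * ‖a.1‖ ^ 2 + (1 + 1 / τ) * ‖b.1‖ ^ 2) + ((1 + τ) * ‖a.2‖ ^ 2 +
        (1 + 1 / τ) * ‖b.2‖ ^ 2) + ((1 + τ) * ‖a.1 - a.2‖ ^ 2 + (1 + 1 / τ) * ‖b.1 - b.2‖ ^ 2)) / 3 := by
    ring
  rw [e4]
  linarith

theorem QQ_nonneg (z : E × E) : 0 ≤ QQ z := by
  unfold QQ
  positivity

theorem QQ_le (z : E × E) : QQ z ≤ 2 * ‖z‖ ^ 2 := by
  unfold QQ
  have h1 : ‖z.1‖ ≤ ‖z‖ := norm_fst_le z
  have h2 : ‖z.2‖ ≤ ‖z‖ := norm_snd_le z
  have h3 : ‖z.1 - z.2‖ ≤ 2 * ‖z‖ := (norm_sub_le _ _).trans (by linarith)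
  have g1 : ‖z.1‖ ^ 2 ≤ ‖z‖ ^ 2 := pow_le_pow_left₀ (norm_nonneg _) h1 2
  have g2 : ‖z.2‖ ^ 2 ≤ ‖z‖ ^ 2 := pow_le_pow_left₀ (norm_nonneg _) h2 2
  have g3 : ‖z.1 - z.2‖ ^ 2 ≤ (2 * ‖z‖) ^ 2 := pow_le_pow_left₀ (norm_nonneg _) h3 2
  nlinarith

theorem QQ_smul (κ : ℝ) (z : E × E) : QQ (κ • z) = κ ^ 2 * QQ z := by
  unfold QQ
  have e1 : (κ • z).1 = κ • z.1 := rfl
  have e2 : (κ • z).2 = κ • z.2 := rfl
  rw [e1, e2, ← smul_sub, norm_smul, norm_smul, norm_smul, mul_pow, mul_pow, mul_pow,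
    Real.norm_eq_abs, sq_abs]
  ring

end DIL_

open DIL_ in
theorem dil_proof (hPLS : Stmt_PLS) (hPRF : Pool.Agent.TBL.Stmt_PRF) : Stmt_DIL := by
  intro lam hl hl1
  obtain ⟨hW1s, hP1s, hW1b, hW1p, hW1z, hW1a, -, hP1b, -⟩ := hPRF
  have hP1a : Antitone P1 := Pool.Agent.TBL.PRF_.P1_anti
  have hV : ∀ z : E × E, VV (pl lam) z.1 z.2 = vp lam (QQ z) := fun z => by
    rw [(hPLS lam hl hl1).2.2.1 z]
    rfl
  have hden : ∀ s, 0 ≤ s → 0 < 1 - lam * P1 s := fun s hs => by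
    obtain ⟨h1, h2, -⟩ := hP1b s hs
    nlinarith
  have hanti : ∀ s t, 0 ≤ s → s ≤ t → vp lam t ≤ vp lam s := by
    intro s t hs hst
    unfold vp
    have h1 := hW1a hst
    have h2 := hP1a hst
    have h3 := hden s hs
    have h4 := (hW1b s).1
    refine div_le_div₀ (mul_nonneg hl.le h4) (mul_le_mul_of_nonneg_left h1 hl.le) h3 ?_
    have := mul_le_mul_of_nonneg_left h2 hl.le
    linarith
  have hnn : ∀ s, 0 ≤ s → 0 ≤ vp lam s := fun s hs =>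
    div_nonneg (mul_nonneg hl.le (hW1b s).1) (hden s hs).le
  have hpos : ∀ s, 0 ≤ s → s < 1 → 0 < vp lam s := fun s hs h1 =>
    div_pos (mul_pos hl (hW1p s h1)) (hden s hs)
  have hzero : ∀ s, 1 ≤ s → vp lam s = 0 := fun s hs => by
    unfold vp
    rw [hW1z s hs]
    simp
  have hcont : ContinuousAt (vp lam) 0 := by
    unfold vp
    exact (continuousAt_const.mul hW1s.continuous.continuousAt).div
      (continuousAt_const.sub (continuousAt_const.mul hP1s.continuous.continuousAt))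
      (hden 0 le_rfl).ne'
  intro κ hκ δ hδ
  have h0 : 0 < vp lam 0 := hpos 0 le_rfl (by norm_num)
  -- near `0` the potential is almost constant
  obtain ⟨s0, hs0, hs⟩ : ∃ s0 : ℝ, 0 < s0 ∧ ∀ s, 0 ≤ s → s < s0 → vp lam 0 ≤ (1 + δ) * vp lam s := by
    have h1 : ContinuousAt (fun s => (1 + δ) * vp lam s) 0 := continuousAt_const.mul hcont
    have h2 : vp lam 0 < (1 + δ) * vp lam 0 := by nlinarith
    have h3 := h1.eventually (lt_mem_nhds h2)
    obtain ⟨e, he, hball⟩ := Metric.eventually_nhds_iff.1 h3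
    refine ⟨e, he, fun s hs hse => ?_⟩
    have : dist s 0 < e := by
      rw [Real.dist_eq, sub_zero, abs_of_nonneg hs]
      exact hse
    exact (hball this).le
  set τ : ℝ := (κ ^ 2 - 1) / 2 with hτd
  have hκ2 : 1 < κ ^ 2 := by nlinarith
  have hτ : 0 < τ := by rw [hτd]; linarith
  set A : ℝ := 1 + 1 / τ with hA
  have hA0 : 0 < A := by positivity
  set K : ℝ := (1 + (1 + τ) / τ) * A with hK
  have hK0 : 0 < K := by positivity
  set θ0 : ℝ := (1 + τ) / κ ^ 2 with hθ0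
  have hθ0a : θ0 < 1 := by
    rw [hθ0, div_lt_one (by positivity), hτd]
    linarith
  have hθ0b : 0 < θ0 := by positivity
  obtain ⟨ε, hε, hε1, hε2⟩ : ∃ ε : ℝ, 0 < ε ∧ K * (2 * ε ^ 2) < s0 ∧ A * (2 * ε ^ 2) < (1 - θ0) / 2 := by
    have h1 : Tendsto (fun ε : ℝ => K * (2 * ε ^ 2)) (𝓝[>] 0) (𝓝 (K * (2 * 0 ^ 2))) :=
      ((continuous_const.mul (continuous_const.mul (continuous_pow 2))).tendsto 0).mono_left
        nhdsWithin_le_nhds
    have h2 : Tendsto (fun ε : ℝ => A * (2 * ε ^ 2)) (𝓝[>] 0) (𝓝 (A * (2 * 0 ^ 2))) :=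
      ((continuous_const.mul (continuous_const.mul (continuous_pow 2))).tendsto 0).mono_left
        nhdsWithin_le_nhds
    have e1 := h1.eventually (gt_mem_nhds (show K * (2 * 0 ^ 2) < s0 by simpa using hs0))
    have e2 := h2.eventually (gt_mem_nhds (show A * (2 * 0 ^ 2) < (1 - θ0) / 2 by
      have : 0 < (1 - θ0) / 2 := by linarith
      simpa using this))
    obtain ⟨ε, ⟨he1, he2⟩, he3⟩ := ((e1.and e2).and self_mem_nhdsWithin).exists
    exact ⟨ε, he3, he1, he2⟩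
  set θ : ℝ := (1 + θ0) / 2 with hθ
  have hθ1 : θ < 1 := by rw [hθ]; linarith
  have hθ2 : 0 ≤ θ := by rw [hθ]; linarith
  refine ⟨ε, vp lam θ, hε, hpos θ hθ2 hθ1, fun z h hh => ?_⟩
  simp only [hV]
  rw [QQ_smul]
  have hq : QQ z ≤ (1 + τ) * QQ (z - h) + A * QQ h := by
    have := QQ_add τ hτ (z - h) h
    rwa [sub_add_cancel] at this
  have hqh : QQ h ≤ 2 * ε ^ 2 := (QQ_le h).trans (by
    have := pow_le_pow_left₀ (norm_nonneg h) hh 2
    linarith)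
  have hq0 := QQ_nonneg (z - h)
  have hz0 := QQ_nonneg z
  have hh0 := QQ_nonneg h
  constructor
  · rcases le_or_gt (QQ z) (κ ^ 2 * QQ (z - h)) with hle | hlt
    · have h1 := hanti _ _ hz0 hle
      have h2 := hnn _ hz0
      nlinarith
    · have h1 : τ * QQ (z - h) < A * QQ h := by
        have e : κ ^ 2 = 1 + 2 * τ := by rw [hτd]; ring
        rw [e] at hlt
        linarith
      have h2 : QQ (z - h) ≤ A * QQ h / τ := by
        rw [le_div_iff₀ hτ]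
        linarith
      have h3 : QQ z ≤ K * QQ h := by
        have : (1 + τ) * QQ (z - h) ≤ (1 + τ) * (A * QQ h / τ) :=
          mul_le_mul_of_nonneg_left h2 (by linarith)
        have e : K * QQ h = (1 + τ) * (A * QQ h / τ) + A * QQ h := by
          rw [hK]
          field_simp
          ring
        linarith
      have h4 : QQ z < s0 := by
        have : K * QQ h ≤ K * (2 * ε ^ 2) := mul_le_mul_of_nonneg_left hqh hK0.le
        linarith
      have h5 := hs _ hz0 h4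
      have h6 := hanti 0 (κ ^ 2 * QQ (z - h)) le_rfl (by positivity)
      linarith
  · intro hne
    have h1 : κ ^ 2 * QQ (z - h) < 1 := by
      by_contra hcon
      exact hne (hzero _ (not_lt.1 hcon))
    have h2 : QQ (z - h) < 1 / κ ^ 2 := by
      rw [lt_div_iff₀ (by positivity)]
      linarith
    have h3 : (1 + τ) * QQ (z - h) ≤ θ0 := by
      rw [hθ0]
      have := mul_le_mul_of_nonneg_left h2.le (show 0 ≤ 1 + τ by linarith)
      calc (1 + τ) * QQ (z - h) ≤ (1 + τ) * (1 / κ ^ 2) := this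
        _ = (1 + τ) / κ ^ 2 := by ring
    have h4 : A * QQ h ≤ (1 - θ0) / 2 := by
      have : A * QQ h ≤ A * (2 * ε ^ 2) := mul_le_mul_of_nonneg_left hqh hA0.le
      linarith
    have h5 : QQ z ≤ θ := by
      rw [hθ]
      linarith
    exact hanti _ _ hz0 h5

end Pool.Agent.TBF
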