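import Pool.Agent.TBF.Stmts

/-!
Module DIT: integrability of all integrands of the four-body problem.
-/

set_option autoImplicit false

open MeasureTheory Filter Topology
open scoped ContDiff

namespace Pool.Agent.TBF

open Pool.Agent.TBG Pool.Agent.TBL

namespace DIT_

/-- weight of a triple -/
noncomputable def A (k : ℕ) (m : Fin 4) (p : W4) : ℝ := ((1 + ‖pm m p‖) ^ k)⁻¹

theorem A_pos (k : ℕ) (m : Fin 4) (p : W4) : 0 < A k m p := by
  unfold A
  positivity

theorem A_le (k : ℕ) (m : Fin 4) (p : W4) : A k m p ≤ 1 := by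
  unfold A
  have h : (1 : ℝ) ≤ (1 + ‖pm m p‖) ^ k := one_le_pow₀ (by linarith [norm_nonneg (pm m p)])
  exact inv_le_one_of_one_le₀ h

/-- integrability by a bound -/
theorem int_of {F W : W4 → ℝ} (hF : Continuous F) (hW : Integrable W) (K : ℝ)
    (h : ∀ p, |F p| ≤ K * W p) : Integrable F :=
  (hW.const_mul K).mono' hF.aestronglyMeasurable
    (Eventually.of_forall fun p => by rw [Real.norm_eq_abs]; exact h p)

theorem sum_bound {F : Fin 4 → Fin 3 → ℝ} {B : ℝ} (h : ∀ m c, |F m c| ≤ B) :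
    |∑ m, ∑ c, F m c| ≤ 12 * B := by
  calc |∑ m, ∑ c, F m c| ≤ ∑ m, |∑ c, F m c| := Finset.abs_sum_le_sum_abs _ _
    _ ≤ ∑ m : Fin 4, ∑ c : Fin 3, |F m c| :=
        Finset.sum_le_sum fun m _ => Finset.abs_sum_le_sum_abs _ _
    _ ≤ ∑ m : Fin 4, ∑ c : Fin 3, B :=
        Finset.sum_le_sum fun m _ => Finset.sum_le_sum fun c _ => h m c
    _ = 12 * B := by
        simp only [Finset.sum_const, Finset.card_univ, Fintype.card_fin, nsmul_eq_mul]
        push_cast
        ring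

theorem nn_of {K W : ℝ} {x : ℝ} (hW : 0 < W) (h : |x| ≤ K * W) : 0 ≤ K := by
  by_contra hK
  have h1 : K * W < 0 := mul_neg_of_neg_of_pos (not_le.1 hK) hW
  linarith [abs_nonneg x]

end DIT_

open DIT_ in
theorem dit_proof (_hRLP : Stmt_RLP) (_hPMV : Stmt_PMV) (hDER : Stmt_DER) (hALG : Stmt_ALG)
    (hSCB : Stmt_SCB) (hSDW : Stmt_SDW) : Stmt_DIT := by
  intro φ hφ
  obtain ⟨C, hC, hb, hdb, hVb, hwb, hVs, hws, -, -, -⟩ := hSCB φ hφ
  obtain ⟨-, -, hSpos, iSd2, iSe, iSd5, iSd20, hprod, i204⟩ := hSDW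
  -- smoothness
  have sφ : ∀ m, ContDiff ℝ ∞ (fun p => φ (pm m p)) := fun m => (hDER φ m hφ.smooth).1
  have sV : ∀ m, ContDiff ℝ ∞ (Vm φ m) := fun m =>
    (hDER (fun z : E × E => VV φ z.1 z.2) m hVs).1
  have sw : ∀ m, ContDiff ℝ ∞ (fun p => ww φ (pm m p)) := fun m => (hDER (ww φ) m hws).1
  have sPh : ContDiff ℝ ∞ (Ph φ) := ContDiff.sum fun m _ => sφ m
  have sPq : ∀ m, ContDiff ℝ ∞ (Pq φ m) := fun m => ContDiff.sum fun j _ => sφ j
  have sdv : ∀ F : W4 → ℝ, ContDiff ℝ ∞ F → ∀ v, Continuous (dv v F) := fun F hF v =>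
    ((hALG F F hF hF).2.2.2.1 v).continuous
  have cgdt : ∀ F G : W4 → ℝ, ContDiff ℝ ∞ F → ContDiff ℝ ∞ G → Continuous (gdt F G) :=
    fun F G hF hG => (hALG F G hF hG).1
  have cgsq : ∀ F : W4 → ℝ, ContDiff ℝ ∞ F → Continuous (gsq4 F) :=
    fun F hF => (hALG F F hF hF).2.1
  -- bounds
  have bφ : ∀ m p, |φ (pm m p)| ≤ C * A 4 m p := fun m p => by
    rw [abs_of_pos (hb (pm m p)).1]
    exact (hb (pm m p)).2
  have bV : ∀ m p, 0 ≤ Vm φ m p ∧ Vm φ m p ≤ C * A 20 m p := fun m p => hVb (pm m p)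
  have bw : ∀ m p, |ww φ (pm m p)| ≤ C * A 20 m p := fun m p => by
    rw [abs_of_nonneg (hwb (pm m p)).1]
    exact (hwb (pm m p)).2
  have bdφ : ∀ m i c p, |dv (d4 i c) (fun p => φ (pm m p)) p| ≤ C * A 5 m p := by
    intro m i c p
    by_cases him : i = m
    · rw [him, (hDER φ m hφ.smooth).2.1 c p, abs_zero]
      exact (mul_pos hC (A_pos 5 m p)).le
    · obtain ⟨k, hk⟩ := Fin.exists_succAbove_eq him
      rw [← hk, (hDER φ m hφ.smooth).2.2.1 k c p]
      exact hdb k c (pm m p)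
  have dPh : ∀ i c p, dv (d4 i c) (Ph φ) p = ∑ m, dv (d4 i c) (fun p => φ (pm m p)) p := by
    intro i c p
    have h1 : HasFDerivAt (Ph φ) (∑ m, fderiv ℝ (fun p => φ (pm m p)) p) p := by
      have h2 := HasFDerivAt.fun_sum (u := Finset.univ) (A := fun m p => φ (pm m p))
        (A' := fun m => fderiv ℝ (fun p => φ (pm m p)) p) (x := p)
        (fun m _ => ((sφ m).differentiable (by simp) p).hasFDerivAt)
      exact h2
    unfold dv
    rw [h1.fderiv]
    simp
  have bdPh : ∀ i c p, |dv (d4 i c) (Ph φ) p| ≤ C * ∑ m, A 5 m p := by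
    intro i c p
    rw [dPh, Finset.mul_sum]
    exact (Finset.abs_sum_le_sum_abs _ _).trans (Finset.sum_le_sum fun m _ => bdφ m i c p)
  have hPq : ∀ m p, 0 ≤ Pq φ m p ∧ Pq φ m p ≤ C * ∑ j ∈ Finset.univ.erase m, A 4 j p := by
    intro m p
    constructor
    · exact Finset.sum_nonneg fun j _ => (hb (pm j p)).1.le
    · unfold Pq
      rw [Finset.mul_sum]
      exact Finset.sum_le_sum fun j _ => (hb (pm j p)).2
  have hPq3 : ∀ m p, Pq φ m p ≤ 3 * C := by
    intro m p
    refine (hPq m p).2.trans ?_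
    have h1 : ∑ j ∈ Finset.univ.erase m, A 4 j p ≤ 3 := by
      calc ∑ j ∈ Finset.univ.erase m, A 4 j p ≤ ∑ j ∈ Finset.univ.erase m, (1 : ℝ) :=
            Finset.sum_le_sum fun j _ => A_le 4 j p
        _ = 3 := by
            rw [Finset.sum_const, Finset.card_erase_of_mem (Finset.mem_univ m), Finset.card_univ,
              Fintype.card_fin]
            norm_num
    nlinarith
  -- integrable weights
  have iS5 : Integrable (fun p => Sd p * ∑ m, A 5 m p) := by
    have h1 : (fun p => Sd p * ∑ m, A 5 m p) = fun p => ∑ m, Sd p * A 5 m p := by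
      funext p
      rw [Finset.mul_sum]
    rw [h1]
    exact integrable_finsetSum _ fun m _ => iSd5 m
  have iVP : ∀ m, Integrable (fun p => Vm φ m p * Pq φ m p ^ 2) := by
    intro m
    have hW : Integrable (fun p => ∑ j ∈ Finset.univ.erase m, A 20 m p * A 4 j p) :=
      integrable_finsetSum _ fun j hj => i204 m j (Finset.ne_of_mem_erase hj).symm
    refine int_of ((sV m).continuous.mul ((sPq m).continuous.pow 2)) hW (3 * C ^ 3) fun p => ?_
    have h1 := bV m p
    have h2 := hPq m p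
    have h3 := hPq3 m p
    have h4 : 0 ≤ ∑ j ∈ Finset.univ.erase m, A 4 j p :=
      Finset.sum_nonneg fun j _ => (A_pos 4 j p).le
    rw [abs_of_nonneg (mul_nonneg h1.1 (sq_nonneg _))]
    calc Vm φ m p * Pq φ m p ^ 2 ≤ (C * A 20 m p) *
          ((3 * C) * (C * ∑ j ∈ Finset.univ.erase m, A 4 j p)) := by
          refine mul_le_mul h1.2 ?_ (sq_nonneg _) (mul_pos hC (A_pos 20 m p)).le
          rw [sq]
          exact mul_le_mul h3 h2.2 h2.1 (by positivity)
      _ = 3 * C ^ 3 * ∑ j ∈ Finset.univ.erase m, A 20 m p * A 4 j p := by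
          rw [← Finset.mul_sum]
          ring
  refine ⟨fun η hη => ?_, iVP, fun m j hmj => ?_⟩
  · obtain ⟨C0, h0⟩ := hη.b0
    obtain ⟨C1, h1⟩ := hη.b1
    have hC0 : 0 ≤ C0 := nn_of (hSpos 0).1 (h0 0)
    have hC1 : 0 ≤ C1 := nn_of (hSpos 0).1 (h1 0 0 0)
    have hη2 : ∀ p, η p ^ 2 ≤ C0 ^ 2 * Sd p ^ 2 := fun p => by
      rw [← sq_abs, ← mul_pow]
      exact pow_le_pow_left₀ (abs_nonneg _) (h0 p) 2
    have iη2 : Integrable (fun p => η p ^ 2) :=
      int_of (hη.smooth.continuous.pow 2) iSd2 (C0 ^ 2) fun p => by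
        rw [abs_of_nonneg (sq_nonneg _)]
        exact hη2 p
    have iVη : ∀ m, Integrable (fun p => Vm φ m p * η p ^ 2) := fun m =>
      int_of ((sV m).continuous.mul (hη.smooth.continuous.pow 2)) iSd2 (C * C0 ^ 2) fun p => by
        have h2 := bV m p
        rw [abs_of_nonneg (mul_nonneg h2.1 (sq_nonneg _)), mul_assoc]
        refine mul_le_mul ?_ (hη2 p) (sq_nonneg _) hC.le
        have h3 := A_le 20 m p
        nlinarith
    refine ⟨?_, ?_, iη2, fun m c => ?_, fun m => ⟨?_, ?_, iVη m⟩⟩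
    · refine int_of (cgsq η hη.smooth) iSd2 (12 * C1 ^ 2) fun p => ?_
      unfold gsq4
      rw [mul_assoc]
      refine sum_bound fun m c => ?_
      rw [abs_of_nonneg (sq_nonneg _), ← sq_abs, ← mul_pow]
      exact pow_le_pow_left₀ (abs_nonneg _) (h1 m c p) 2
    · refine int_of (cgdt η (Ph φ) hη.smooth sPh) iS5 (12 * (C1 * C)) fun p => ?_
      unfold gdt
      rw [mul_assoc]
      refine sum_bound fun m c => ?_
      rw [abs_mul]
      calc |dv (d4 m c) η p| * |dv (d4 m c) (Ph φ) p| ≤ (C1 * Sd p) * (C * ∑ m, A 5 m p) :=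
            mul_le_mul (h1 m c p) (bdPh m c p) (abs_nonneg _)
              (mul_nonneg hC1 (hSpos p).1.le)
        _ = C1 * C * (Sd p * ∑ m, A 5 m p) := by ring
    · refine int_of (hη.smooth.continuous.mul (sdv (Ph φ) sPh _)) iS5 (C0 * C) fun p => ?_
      rw [abs_mul]
      calc |η p| * |dv (d4 m c) (Ph φ) p| ≤ (C0 * Sd p) * (C * ∑ m, A 5 m p) :=
            mul_le_mul (h0 p) (bdPh m c p) (abs_nonneg _)
              (mul_nonneg hC0 (hSpos p).1.le)
        _ = C0 * C * (Sd p * ∑ m, A 5 m p) := by ring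
    · refine int_of (hη.smooth.continuous.mul (sw m).continuous) (iSd20 m) (C0 * C) fun p => ?_
      rw [abs_mul]
      calc |η p| * |ww φ (pm m p)| ≤ (C0 * Sd p) * (C * A 20 m p) :=
            mul_le_mul (h0 p) (bw m p) (abs_nonneg _)
              (mul_nonneg hC0 (hSpos p).1.le)
        _ = C0 * C * (Sd p * ((1 + ‖pm m p‖) ^ 20)⁻¹) := by unfold A; ring
    · refine ((iVη m).const_mul 2 |>.add ((iVP m).const_mul 2)).mono'
        ((sV m).continuous.mul ((hη.smooth.continuous.sub (sPq m).continuous).pow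
          2)).aestronglyMeasurable (Eventually.of_forall fun p => ?_)
      have h2 := bV m p
      rw [Real.norm_eq_abs, abs_of_nonneg (mul_nonneg h2.1 (sq_nonneg _))]
      simp only [Pi.add_apply]
      have h3 : (η p - Pq φ m p) ^ 2 ≤ 2 * η p ^ 2 + 2 * Pq φ m p ^ 2 := by
        nlinarith [sq_nonneg (η p + Pq φ m p)]
      calc Vm φ m p * (η p - Pq φ m p) ^ 2 ≤ Vm φ m p * (2 * η p ^ 2 + 2 * Pq φ m p ^ 2) :=
            mul_le_mul_of_nonneg_left h3 h2.1
        _ = 2 * (Vm φ m p * η p ^ 2) + 2 * (Vm φ m p * Pq φ m p ^ 2) := by ring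
  · refine ⟨?_, ?_, fun i c => ?_⟩
    · refine int_of (cgdt _ _ (sφ m) (sφ j)) iSe (12 * (C * C * 4096)) fun p => ?_
      unfold gdt
      rw [mul_assoc]
      refine sum_bound fun i c => ?_
      rw [abs_mul]
      calc |dv (d4 i c) (fun p => φ (pm m p)) p| * |dv (d4 i c) (fun p => φ (pm j p)) p|
          ≤ (C * A 5 m p) * (C * A 5 j p) :=
            mul_le_mul (bdφ m i c p) (bdφ j i c p) (abs_nonneg _)
              (mul_pos hC (A_pos 5 m p)).le
        _ = C * C * (A 5 m p * A 5 j p) := by ring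
        _ ≤ C * C * (4096 * Se p) :=
            mul_le_mul_of_nonneg_left (hprod m j hmj p).2.1 (by positivity)
        _ = C * C * 4096 * Se p := by ring
    · refine int_of ((sw m).continuous.mul (sφ j).continuous) (i204 m j hmj) (C * C) fun p => ?_
      rw [abs_mul]
      calc |ww φ (pm m p)| * |φ (pm j p)| ≤ (C * A 20 m p) * (C * A 4 j p) :=
            mul_le_mul (bw m p) (bφ j p) (abs_nonneg _) (mul_pos hC (A_pos 20 m p)).le
        _ = C * C * (((1 + ‖pm m p‖) ^ 20)⁻¹ * ((1 + ‖pm j p‖) ^ 4)⁻¹) := by unfold A; ring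
    · have hcont : Continuous fun p : W4 => (1 + ‖p‖)⁻¹ :=
        Continuous.inv₀ (f := fun p : W4 => 1 + ‖p‖) (continuous_const.add continuous_norm)
          fun p => (by positivity : (0 : ℝ) < 1 + ‖p‖).ne'
      refine int_of (hcont.mul ((sφ j).continuous.mul (sdv _ (sφ m) _))) iSe (C * C * 8192)
        fun p => ?_
      have hpos : (0 : ℝ) < (1 + ‖p‖)⁻¹ := by positivity
      rw [abs_mul, abs_of_pos hpos, abs_mul]
      calc (1 + ‖p‖)⁻¹ * (|φ (pm j p)| * |dv (d4 i c) (fun p => φ (pm m p)) p|)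
          ≤ (1 + ‖p‖)⁻¹ * ((C * A 4 j p) * (C * A 5 m p)) :=
            mul_le_mul_of_nonneg_left (mul_le_mul (bφ j p) (bdφ m i c p) (abs_nonneg _)
              (mul_pos hC (A_pos 4 j p)).le) hpos.le
        _ = C * C * ((1 + ‖p‖)⁻¹ * (A 4 j p * A 5 m p)) := by ring
        _ ≤ C * C * (8192 * Se p) :=
            mul_le_mul_of_nonneg_left (hprod j m hmj.symm p).2.2 (by positivity)
        _ = C * C * 8192 * Se p := by ring

end Pool.Agent.TBF
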