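import Pool.Agent.TBF.Stmts

set_option autoImplicit false

open MeasureTheory Filter Topology
open scoped ContDiff

namespace Pool.Agent.TBF

open Pool.Agent.TBG Pool.Agent.TBL

namespace DVP_

theorem cont_of (T : W4 →L[ℝ] W4) (σ : Equiv.Perm (Fin 4)) (hT : ∀ p, T p = Pm σ p) :
    Continuous (Pm σ) := by
  have h : (T : W4 → W4) = Pm σ := funext hT
  rw [← h]
  exact T.continuous

theorem chain (F : W4 → ℝ) (T : W4 →L[ℝ] W4) (hF : ContDiff ℝ ∞ F) (v p : W4) :
    dv v (fun q => F (T q)) p = dv (T v) F (T p) := by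
  have hd : DifferentiableAt ℝ F (T p) := (hF.differentiable (by simp)) (T p)
  have h1 : HasFDerivAt (fun q => F (T q)) ((fderiv ℝ F (T p)).comp T) p :=
    hd.hasFDerivAt.comp p T.hasFDerivAt
  unfold dv
  rw [h1.fderiv]
  rfl

end DVP_

open DVP_ in
theorem dvp_proof (hRLP : Stmt_RLP) (hRLD : Stmt_RLD) : Stmt_DVP := by
  obtain ⟨-, -, -, -, -, hmul, hone, -, hT, -, -, -⟩ := hRLP
  obtain ⟨-, -, hd, -, -⟩ := hRLD
  intro F σ hF
  obtain ⟨T, hTp⟩ := hT σ
  have hfun : (fun p => F (Pm σ p)) = fun p => F (T p) := by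
    funext p
    rw [hTp]
  have hdv : ∀ m c p, dv (d4 m c) (fun p => F (Pm σ p)) p = dv (d4 (σ⁻¹ m) c) F (Pm σ p) := by
    intro m c p
    rw [hfun, chain F T hF, hTp, hTp, hd]
  refine ⟨?_, hdv, ?_, ?_⟩
  · rw [hfun]
    exact hF.comp T.contDiff
  · intro p
    unfold gsq4
    simp only [hdv]
    exact Equiv.sum_comp σ⁻¹ (fun m => ∑ c, (dv (d4 m c) F (Pm σ p)) ^ 2)
  · intro hc
    obtain ⟨S, hSp⟩ := hT σ⁻¹
    have c1 : Continuous (Pm σ) := cont_of T σ hTp
    have c2 : Continuous (Pm σ⁻¹) := cont_of S σ⁻¹ hSp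
    let e : W4 ≃ₜ W4 :=
      { toFun := Pm σ
        invFun := Pm σ⁻¹
        left_inv := fun p => by rw [hmul, mul_inv_cancel, hone]
        right_inv := fun p => by rw [hmul, inv_mul_cancel, hone]
        continuous_toFun := c1
        continuous_invFun := c2 }
    exact hc.comp_homeomorph e

end Pool.Agent.TBF
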