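import Pool.Agent.TBF.Stmts
import Pool.Agent.TBL.SCX

/-!
# Three-body Bose gases (MP_80dc41_mp): scaling of the ground state energy
-/

set_option autoImplicit false

open MeasureTheory Filter Topology
open scoped ContDiff Pointwise

namespace Pool.Agent.TBF

open Pool.Agent.TBG Pool.Agent.TBL

namespace ESC_

variable {N : ℕ}

/-- the Jacobian -/
noncomputable def Jr (N : ℕ) (r : ℝ) : ℝ := |(r ^ (Module.finrank ℝ (Fin N → E)))⁻¹|

theorem Jr_pos (N : ℕ) (r : ℝ) (hr : 0 < r) : 0 < Jr N r := by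
  unfold Jr
  positivity

theorem int_scale {F : Type} [NormedAddCommGroup F] [NormedSpace ℝ F] (r L : ℝ) (hr : 0 < r)
    (f : (Fin N → E) → F) : ∫ Y in box N (L / r), f (r • Y) = Jr N r • ∫ X in box N L, f X := by
  rw [← integral_indicator (SCX_.box_meas _), ← integral_indicator (SCX_.box_meas _)]
  have h := Measure.integral_comp_smul (volume : Measure (Fin N → E)) ((box N L).indicator f) r
  unfold Jr
  rw [← h]
  refine integral_congr_ae (Eventually.of_forall fun Y => ?_)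
  by_cases hY : Y ∈ box N (L / r)
  · have h2 := (SCX_.box_scale r L hr Y).2 hY
    simp [Set.indicator_of_mem hY, Set.indicator_of_mem h2]
  · have h2 : r • Y ∉ box N L := fun h => hY ((SCX_.box_scale r L hr Y).1 h)
    simp [Set.indicator_of_notMem hY, Set.indicator_of_notMem h2]

/-- the image of the measure on the box -/
theorem map_box (r L : ℝ) (hr : 0 < r) :
    Measure.map (fun X : Fin N → E => r⁻¹ • X) (volume.restrict (box N L)) =
      ENNReal.ofReal (|((r⁻¹) ^ (Module.finrank ℝ (Fin N → E)))⁻¹|) • (volume.restrict (box N (L / r))) := by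
  have hne : r⁻¹ ≠ 0 := inv_ne_zero hr.ne'
  have hme : MeasurableEmbedding (fun X : Fin N → E => r⁻¹ • X) :=
    (Homeomorph.smulOfNeZero r⁻¹ hne).measurableEmbedding
  have hpre : (fun X : Fin N → E => r⁻¹ • X) ⁻¹' (box N (L / r)) = box N L := by
    ext X
    rw [Set.mem_preimage, ← SCX_.box_scale r L hr, smul_smul, mul_inv_cancel₀ hr.ne', one_smul]
  rw [← hpre, ← hme.restrict_map, Measure.map_addHaar_smul _ hne, Measure.restrict_smul]

theorem memLp_scale (r L : ℝ) (hr : 0 < r) (a : ℂ) (f : (Fin N → E) → ℂ)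
    (hf : MemLp f 2 (volume.restrict (box N (L / r)))) :
    MemLp (fun X => a * f (r⁻¹ • X)) 2 (volume.restrict (box N L)) := by
  have h1 : MemLp f 2 (Measure.map (fun X : Fin N → E => r⁻¹ • X) (volume.restrict (box N L))) := by
    rw [map_box r L hr]
    exact hf.smul_measure ENNReal.ofReal_ne_top
  have h2 : MemLp (f ∘ fun X : Fin N → E => r⁻¹ • X) 2 (volume.restrict (box N L)) :=
    h1.comp_of_map (continuous_const_smul r⁻¹).aemeasurable
  exact h2.const_mul a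

theorem ae_scale (r L : ℝ) (hr : 0 < r) (P : (Fin N → E) → Prop)
    (hP : ∀ᵐ X ∂(volume.restrict (box N (L / r))), P X) :
    ∀ᵐ X ∂(volume.restrict (box N L)), P (r⁻¹ • X) := by
  have h1 : ∀ᵐ X ∂(Measure.map (fun X : Fin N → E => r⁻¹ • X) (volume.restrict (box N L))), P X := by
    rw [map_box r L hr]
    exact Measure.ae_smul_measure hP _
  exact ae_of_ae_map (continuous_const_smul r⁻¹).aemeasurable h1

theorem pot_sc (V V' : E → E → ℝ) (r : ℝ) (hr : 0 < r)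
    (hV : ∀ x y, V' x y = (r ^ 2)⁻¹ * V (r⁻¹ • x) (r⁻¹ • y)) (Y : Fin N → E) :
    pot V' (r • Y) = (r ^ 2)⁻¹ * pot V Y := by
  unfold pot
  rw [Finset.mul_sum]
  refine Finset.sum_congr rfl fun i _ => ?_
  rw [Finset.mul_sum]
  refine Finset.sum_congr rfl fun j _ => ?_
  rw [Finset.mul_sum]
  refine Finset.sum_congr rfl fun k _ => ?_
  split_ifs with h
  · have h1 : (r • Y) i - (r • Y) j = r • (Y i - Y j) := by
      rw [Pi.smul_apply, Pi.smul_apply, smul_sub]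
    have h2 : (r • Y) i - (r • Y) k = r • (Y i - Y k) := by
      rw [Pi.smul_apply, Pi.smul_apply, smul_sub]
    rw [h1, h2, hV, smul_smul, smul_smul, inv_mul_cancel₀ hr.ne', one_smul, one_smul]
  · rw [mul_zero]

theorem di_sc (r : ℝ) (η : (Fin N → E) → ℝ) (hη : ContDiff ℝ ∞ η) (v Y : Fin N → E) :
    fderiv ℝ (fun Y => η (r • Y)) Y v = r * fderiv ℝ η (r • Y) v := by
  have h1 : HasFDerivAt η (fderiv ℝ η (r • Y)) (r • Y) :=
    ((hη.differentiable (by simp)) _).hasFDerivAt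
  have h2 : HasFDerivAt (fun Y : Fin N → E => r • Y) (r • ContinuousLinearMap.id ℝ (Fin N → E)) Y :=
    (hasFDerivAt_id Y).const_smul r
  have h3 := h1.comp Y h2
  have h4 : fderiv ℝ (fun Y => η (r • Y)) Y = _ := h3.fderiv
  rw [h4]
  simp

theorem trial_sc (r L : ℝ) (hr : 0 < r) (Ψ : (Fin N → E) → ℂ) (G : Fin N → Fin 3 → (Fin N → E) → ℂ)
    (h : IsTrial N (L / r) Ψ G) :
    IsTrial N L (fun X => ((√(Jr N r) : ℝ) : ℂ) * Ψ (r⁻¹ • X))
      (fun i c X => ((√(Jr N r) * r⁻¹ : ℝ) : ℂ) * G i c (r⁻¹ • X)) := by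
  have hJ := Jr_pos N r hr
  have hrY : ∀ Y : Fin N → E, r⁻¹ • (r • Y) = Y := fun Y => by
    rw [smul_smul, inv_mul_cancel₀ hr.ne', one_smul]
  refine ⟨memLp_scale r L hr _ Ψ h.memL2, fun i c => memLp_scale r L hr _ (G i c) (h.gradL2 i c), ?_, ?_, ?_⟩
  · intro i c η hη hcη hsη
    have hη' : ContDiff ℝ ∞ (fun Y : Fin N → E => η (r • Y)) := hη.comp (contDiff_const_smul r)
    have hcη' : HasCompactSupport (fun Y : Fin N → E => η (r • Y)) := hcη.comp_smul hr.ne'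
    have hsη' : tsupport (fun Y : Fin N → E => η (r • Y)) ⊆ box N (L / r) := by
      have h1 : tsupport (fun Y : Fin N → E => η (r • Y)) ⊆ (fun Y : Fin N → E => r • Y) ⁻¹' (tsupport η) :=
        tsupport_comp_subset_preimage η (continuous_const_smul r)
      intro Y hY
      exact (SCX_.box_scale r L hr Y).1 (hsη (h1 hY))
    have h1 := h.weak i c _ hη' hcη' hsη'
    have h2 := int_scale (N := N) r L hr (fun X => Ψ (r⁻¹ • X) * ((fderiv ℝ η X (dir i c) : ℝ) : ℂ))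
    have h3 := int_scale (N := N) r L hr (fun X => G i c (r⁻¹ • X) * ((η X : ℝ) : ℂ))
    simp only [hrY] at h2 h3
    simp only [di_sc r η hη] at h1
    have h4 : ∫ X in box N (L / r), Ψ X * ((r * fderiv ℝ η (r • X) (dir i c) : ℝ) : ℂ) =
        (r : ℂ) * ∫ X in box N (L / r), Ψ X * ((fderiv ℝ η (r • X) (dir i c) : ℝ) : ℂ) := by
      rw [← integral_const_mul]
      refine integral_congr_ae (Eventually.of_forall fun X => ?_)
      push_cast
      ring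
    rw [h4, h2, h3] at h1
    have h5 : ∫ X in box N L, ((√(Jr N r) : ℝ) : ℂ) * Ψ (r⁻¹ • X) * ((fderiv ℝ η X (dir i c) : ℝ) : ℂ) =
        ((√(Jr N r) : ℝ) : ℂ) * ∫ X in box N L, Ψ (r⁻¹ • X) * ((fderiv ℝ η X (dir i c) : ℝ) : ℂ) := by
      rw [← integral_const_mul]
      refine integral_congr_ae (Eventually.of_forall fun X => ?_)
      ring
    have h6 : ∫ X in box N L, ((√(Jr N r) * r⁻¹ : ℝ) : ℂ) * G i c (r⁻¹ • X) * ((η X : ℝ) : ℂ) =
        ((√(Jr N r) * r⁻¹ : ℝ) : ℂ) * ∫ X in box N L, G i c (r⁻¹ • X) * ((η X : ℝ) : ℂ) := by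
      rw [← integral_const_mul]
      refine integral_congr_ae (Eventually.of_forall fun X => ?_)
      ring
    rw [h5, h6]
    rw [Complex.real_smul, Complex.real_smul] at h1
    have hJc : ((Jr N r : ℝ) : ℂ) ≠ 0 := by exact_mod_cast hJ.ne'
    have hrc : (r : ℂ) ≠ 0 := by exact_mod_cast hr.ne'
    have h7 : (r : ℂ) * ∫ X in box N L, Ψ (r⁻¹ • X) * ((fderiv ℝ η X (dir i c) : ℝ) : ℂ) =
        -∫ X in box N L, G i c (r⁻¹ • X) * ((η X : ℝ) : ℂ) := by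
      apply mul_left_cancel₀ hJc
      linear_combination h1
    have h8 : ∫ X in box N L, Ψ (r⁻¹ • X) * ((fderiv ℝ η X (dir i c) : ℝ) : ℂ) =
        -((r : ℂ)⁻¹ * ∫ X in box N L, G i c (r⁻¹ • X) * ((η X : ℝ) : ℂ)) := by
      apply mul_left_cancel₀ hrc
      rw [h7]
      field_simp
    rw [h8]
    push_cast
    ring
  · intro σ
    have h1 := ae_scale r L hr (fun Y => Ψ (fun i => Y (σ i)) = Ψ Y) (h.symm σ)
    filter_upwards [h1] with X hX
    have h2 : (r⁻¹ • fun i => X (σ i)) = fun i => (r⁻¹ • X) (σ i) := by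
      funext i
      rfl
    simp only [h2]
    rw [hX]
  · have h1 := h.norm
    have h2 := int_scale (N := N) r L hr (fun X => ‖Ψ (r⁻¹ • X)‖ ^ 2)
    simp only [hrY] at h2
    rw [h1, smul_eq_mul] at h2
    rw [h2, ← integral_const_mul]
    refine integral_congr_ae (Eventually.of_forall fun X => ?_)
    simp only [norm_mul, mul_pow, Complex.norm_real, Real.norm_eq_abs, sq_abs]
    rw [Real.sq_sqrt hJ.le]

theorem energy_sc (V V' : E → E → ℝ) (r L : ℝ) (hr : 0 < r)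
    (hV : ∀ x y, V' x y = (r ^ 2)⁻¹ * V (r⁻¹ • x) (r⁻¹ • y)) (Ψ : (Fin N → E) → ℂ)
    (G : Fin N → Fin 3 → (Fin N → E) → ℂ) :
    energy V' N L (fun X => ((√(Jr N r) : ℝ) : ℂ) * Ψ (r⁻¹ • X))
      (fun i c X => ((√(Jr N r) * r⁻¹ : ℝ) : ℂ) * G i c (r⁻¹ • X)) = (r ^ 2)⁻¹ * energy V N (L / r) Ψ G := by
  have hJ := Jr_pos N r hr
  have hrY : ∀ Y : Fin N → E, r⁻¹ • (r • Y) = Y := fun Y => by
    rw [smul_smul, inv_mul_cancel₀ hr.ne', one_smul]
  have hrX : ∀ Y : Fin N → E, r • (r⁻¹ • Y) = Y := fun Y => by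
    rw [smul_smul, mul_inv_cancel₀ hr.ne', one_smul]
  unfold energy
  have h2 := int_scale (N := N) r L hr
    (fun X => ∑ i, ∑ c, ‖G i c (r⁻¹ • X)‖ ^ 2 + pot V (r⁻¹ • X) * ‖Ψ (r⁻¹ • X)‖ ^ 2)
  simp only [hrY] at h2
  rw [h2, smul_eq_mul, ← integral_const_mul, ← integral_const_mul]
  refine integral_congr_ae (Eventually.of_forall fun X => ?_)
  have h3 := pot_sc V V' r hr hV (r⁻¹ • X)
  rw [hrX] at h3
  simp only [h3, norm_mul, mul_pow, Complex.norm_real, Real.norm_eq_abs, sq_abs, Real.sq_sqrt hJ.le,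
    ← Finset.mul_sum]
  ring

end ESC_

open ESC_

/-- scaling of the ground state energy -/
theorem E0_scale (V V' : E → E → ℝ) (r : ℝ) (hr : 0 < r)
    (hV : ∀ x y, V' x y = (r ^ 2)⁻¹ * V (r⁻¹ • x) (r⁻¹ • y)) (N : ℕ) (L : ℝ) :
    E0 V' N L = (r ^ 2)⁻¹ * E0 V N (L / r) := by
  unfold E0
  have hr2 : 0 < (r ^ 2)⁻¹ := by positivity
  have key : {e : ℝ | ∃ (Ψ : (Fin N → E) → ℂ) (G : Fin N → Fin 3 → (Fin N → E) → ℂ),
      IsTrial N L Ψ G ∧ e = energy V' N L Ψ G} = (r ^ 2)⁻¹ • {e : ℝ | ∃ (Ψ : (Fin N → E) → ℂ)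
      (G : Fin N → Fin 3 → (Fin N → E) → ℂ), IsTrial N (L / r) Ψ G ∧ e = energy V N (L / r) Ψ G} := by
    ext e
    rw [Set.mem_smul_set]
    constructor
    · rintro ⟨Ψ, G, hΨ, rfl⟩
      have hr' : 0 < r⁻¹ := by positivity
      have hL : L / r / r⁻¹ = L := by field_simp
      have hV' : ∀ x y, V x y = (r⁻¹ ^ 2)⁻¹ * V' (r⁻¹⁻¹ • x) (r⁻¹⁻¹ • y) := by
        intro x y
        rw [hV, inv_inv, smul_smul, smul_smul, inv_mul_cancel₀ hr.ne', one_smul, one_smul]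
        field_simp
      have h1 := trial_sc (N := N) r⁻¹ (L / r) hr' Ψ G (by rw [hL]; exact hΨ)
      have h2 := energy_sc (N := N) V' V r⁻¹ (L / r) hr' hV' Ψ G
      rw [hL] at h2
      refine ⟨_, ⟨_, _, h1, rfl⟩, ?_⟩
      rw [h2, smul_eq_mul]
      field_simp
    · rintro ⟨e', ⟨Ψ, G, hΨ, rfl⟩, rfl⟩
      exact ⟨_, _, trial_sc r L hr Ψ G hΨ, by rw [energy_sc V V' r L hr hV, smul_eq_mul]⟩
  rw [key, Real.sInf_smul_of_nonneg hr2.le, smul_eq_mul]

/-- the thermodynamic limit and scaling -/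
theorem thermo_scale (r ρ : ℝ) (hr : 0 < r) :
    Tendsto (fun p : ℕ × ℝ => (p.1, p.2 / r)) (thermo ρ) (thermo (r ^ 3 * ρ)) := by
  unfold thermo
  refine tendsto_inf.2 ⟨tendsto_inf.2 ⟨?_, ?_⟩, ?_⟩
  · rw [tendsto_comap_iff]
    exact tendsto_comap.mono_left (inf_le_left.trans inf_le_left)
  · rw [tendsto_comap_iff]
    have h1 : Tendsto (fun p : ℕ × ℝ => (p.1 : ℝ) / p.2 ^ 3) (thermo ρ) (𝓝 ρ) :=
      tendsto_comap.mono_left (inf_le_left.trans inf_le_right)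
    have h2 := h1.const_mul (r ^ 3)
    refine (h2.congr' ?_)
    refine Eventually.of_forall fun p => ?_
    show r ^ 3 * ((p.1 : ℝ) / p.2 ^ 3) = (p.1 : ℝ) / (p.2 / r) ^ 3
    rw [div_pow]
    field_simp
  · rw [tendsto_principal]
    have h1 : ∀ᶠ p : ℕ × ℝ in 𝓟 {p : ℕ × ℝ | 0 < p.2}, 0 < p.2 := by
      exact mem_principal_self _
    have h2 := h1.filter_mono (inf_le_right : (comap Prod.fst atTop ⊓
      comap (fun p : ℕ × ℝ => (p.1 : ℝ) / p.2 ^ 3) (𝓝 ρ) ⊓ 𝓟 {p : ℕ × ℝ | 0 < p.2}) ≤ _)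
    filter_upwards [h2] with p hp
    exact div_pos hp hr

/-- scaling of `IsE3B` -/
theorem isE3B_scale (V V' : E → E → ℝ) (r ρ e : ℝ) (hr : 0 < r)
    (hV : ∀ x y, V' x y = (r ^ 2)⁻¹ * V (r⁻¹ • x) (r⁻¹ • y)) (h : IsE3B V (r ^ 3 * ρ) e) :
    IsE3B V' ρ ((r ^ 5)⁻¹ * e) := by
  unfold IsE3B at h ⊢
  have h1 := (h.comp (thermo_scale r ρ hr)).const_mul ((r ^ 5)⁻¹)
  refine h1.congr' (Eventually.of_forall fun p => ?_)
  show (r ^ 5)⁻¹ * (E0 V p.1 (p.2 / r) / (p.2 / r) ^ 3) = E0 V' p.1 p.2 / p.2 ^ 3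
  rw [E0_scale V V' r hr hV]
  have hr' := hr.ne'
  by_cases hp : p.2 = 0
  · simp [hp]
  · field_simp

/-- scaling of the expansion -/
theorem hasExpansion_scale (V V' : E → E → ℝ) (r C : ℝ) (hr : 0 < r)
    (hV : ∀ x y, V' x y = (r ^ 2)⁻¹ * V (r⁻¹ • x) (r⁻¹ • y)) (hb : bM V' = r ^ 4 * bM V)
    (h : HasExpansion V C) : HasExpansion V' (r ^ 3 * C) := by
  obtain ⟨e, he, hC⟩ := h
  have hr3 : 0 < r ^ 3 := pow_pos hr 3
  refine ⟨fun ρ => (r ^ 5)⁻¹ * e (r ^ 3 * ρ), fun ρ hρ =>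
    isE3B_scale V V' r ρ _ hr hV (he _ (mul_pos hr3 hρ)), ?_⟩
  have h1 : Tendsto (fun ρ : ℝ => r ^ 3 * ρ) (𝓝[>] 0) (𝓝[>] 0) := by
    rw [tendsto_nhdsWithin_iff]
    refine ⟨?_, ?_⟩
    · have h2 : Tendsto (fun ρ : ℝ => r ^ 3 * ρ) (𝓝 0) (𝓝 (r ^ 3 * 0)) := (continuous_const_mul _).tendsto 0
      rw [mul_zero] at h2
      exact h2.mono_left nhdsWithin_le_nhds
    · filter_upwards [self_mem_nhdsWithin] with ρ hρ
      exact mul_pos hr3 hρ
  have h2 := (hC.comp h1).const_mul (r ^ 3)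
  refine h2.congr' ?_
  filter_upwards [self_mem_nhdsWithin] with ρ hρ
  have hρ' : ρ ≠ 0 := ne_of_gt hρ
  have hr' := hr.ne'
  show r ^ 3 * ((e (r ^ 3 * ρ) / (1 / 6 * (r ^ 3 * ρ) ^ 3 * bM V) - 1) / (r ^ 3 * ρ)) = _
  have h3 : (r ^ 5)⁻¹ * e (r ^ 3 * ρ) / (1 / 6 * ρ ^ 3 * (r ^ 4 * bM V)) =
      e (r ^ 3 * ρ) / (1 / 6 * (r ^ 3 * ρ) ^ 3 * bM V) := by
    by_cases hbz : bM V = 0
    · simp [hbz]
    · field_simp
  show _ = ((r ^ 5)⁻¹ * e (r ^ 3 * ρ) / (1 / 6 * ρ ^ 3 * bM V') - 1) / ρ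
  rw [hb, h3]
  field_simp

end Pool.Agent.TBF
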