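import Pool.Agent.TBF.Stmts

/-!
Squad TBF, module ET0: the product against the sum.
-/

set_option autoImplicit false

open MeasureTheory Filter Topology
open scoped ContDiff

namespace Pool.Agent.TBF

open Pool.Agent.TBG Pool.Agent.TBL

namespace ET0_

/-- the derivative of `φ_m` -/
theorem dv_bound (hDER : Stmt_DER) (φ : E × E → ℝ) (hs : ContDiff ℝ ∞ φ) (C : ℝ) (hC : 0 < C)
    (hd : ∀ m c z, |dv (dr m c) φ z| ≤ C * ((1 + ‖z‖) ^ 5)⁻¹) (m i : Fin 4) (c : Fin 3) (p : W4) :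
    |dv (d4 i c) (fun p => φ (pm m p)) p| ≤ C * ((1 + ‖pm m p‖) ^ 5)⁻¹ := by
  obtain ⟨-, h1, h2, -⟩ := hDER φ m hs
  rcases eq_or_ne i m with rfl | hi
  · rw [h1 c p, abs_zero]
    positivity
  · obtain ⟨k, rfl⟩ := Fin.exists_succAbove_eq hi
    rw [h2 k c p]
    exact hd k c _

theorem dec_prod (hDER : Stmt_DER) (hALG : Stmt_ALG) (hSCB : Stmt_SCB) (hSDW : Stmt_SDW)
    (φ : E × E → ℝ) (hφ : Scat φ) (m j : Fin 4) (hmj : m ≠ j) :
    Dec (fun p => φ (pm m p) * φ (pm j p)) := by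
  obtain ⟨C, hC, h0, h1, -⟩ := hSCB φ hφ
  have hw := hSDW.2.2.2.2.2.2.2.1
  have hsm : ∀ m : Fin 4, ContDiff ℝ ∞ (fun p => φ (pm m p)) := fun m => (hDER φ m hφ.smooth).1
  have ha : ∀ (m : Fin 4) p, |φ (pm m p)| ≤ C * ((1 + ‖pm m p‖) ^ 4)⁻¹ := fun m p => by
    rw [abs_of_pos (h0 _).1]
    exact (h0 _).2
  have hb : ∀ (m i : Fin 4) (c : Fin 3) p, |dv (d4 i c) (fun p => φ (pm m p)) p| ≤
      C * ((1 + ‖pm m p‖) ^ 4)⁻¹ := fun m i c p => by
    refine (dv_bound hDER φ hφ.smooth C hC h1 m i c p).trans ?_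
    have h1 : (1 : ℝ) ≤ 1 + ‖pm m p‖ := by linarith [norm_nonneg (pm m p)]
    gcongr
    norm_num
  have hpr : ∀ p, (C * ((1 + ‖pm m p‖) ^ 4)⁻¹) * (C * ((1 + ‖pm j p‖) ^ 4)⁻¹) ≤
      (C * C * 1024) * Sd p := fun p => by
    have := (hw m j hmj p).1
    calc (C * ((1 + ‖pm m p‖) ^ 4)⁻¹) * (C * ((1 + ‖pm j p‖) ^ 4)⁻¹)
        = C * C * (((1 + ‖pm m p‖) ^ 4)⁻¹ * ((1 + ‖pm j p‖) ^ 4)⁻¹) := by ring
      _ ≤ C * C * (1024 * Sd p) := by gcongr
      _ = _ := by ring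
  refine ⟨(hsm m).mul (hsm j), ⟨C * C * 1024, fun p => ?_⟩, ⟨2 * (C * C * 1024), fun i c p => ?_⟩⟩
  · rw [abs_mul]
    refine le_trans ?_ (hpr p)
    exact mul_le_mul (ha m p) (ha j p) (abs_nonneg _) (by positivity)
  · have h := (hALG _ _ (hsm m) (hsm j)).2.2.2.2.2.2.2.1 (d4 i c) p
    rw [h]
    refine (abs_add_le _ _).trans ?_
    rw [abs_mul, abs_mul]
    have e1 : |dv (d4 i c) (fun p => φ (pm m p)) p| * |φ (pm j p)| ≤ (C * C * 1024) * Sd p :=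
      (mul_le_mul (hb m i c p) (ha j p) (abs_nonneg _) (by positivity)).trans (hpr p)
    have e2 : |φ (pm m p)| * |dv (d4 i c) (fun p => φ (pm j p)) p| ≤ (C * C * 1024) * Sd p :=
      (mul_le_mul (ha m p) (hb j i c p) (abs_nonneg _) (by positivity)).trans (hpr p)
    linarith

theorem dec_mul (hDER : Stmt_DER) (hSCB : Stmt_SCB) (hDCL : Stmt_DCL)
    (φ : E × E → ℝ) (hφ : Scat φ) (k : Fin 4) (ζ : W4 → ℝ) (hζ : Dec ζ) :
    Dec (fun p => φ (pm k p) * ζ p) := by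
  obtain ⟨C, hC, h0, h1, -⟩ := hSCB φ hφ
  refine hDCL.2.2 _ ζ C hζ (hDER φ k hφ.smooth).1 (fun p => ?_) (fun i c p => ?_)
  · rw [abs_of_pos (h0 _).1]
    refine (h0 _).2.trans ?_
    refine mul_le_of_le_one_right hC.le ?_
    exact inv_le_one_of_one_le₀ (one_le_pow₀ (by linarith [norm_nonneg (pm k p)]))
  · refine (dv_bound hDER φ hφ.smooth C hC h1 k i c p).trans ?_
    refine mul_le_of_le_one_right hC.le ?_
    exact inv_le_one_of_one_le₀ (one_le_pow₀ (by linarith [norm_nonneg (pm k p)]))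

theorem dec_neg (hDCL : Stmt_DCL) (ζ : W4 → ℝ) (hζ : Dec ζ) : Dec (fun p => (-1 : ℝ) * ζ p) := by
  refine hDCL.2.2 (fun _ => (-1 : ℝ)) ζ 1 hζ contDiff_const (fun p => by simp) (fun i c p => ?_)
  unfold dv
  simp

end ET0_

theorem et0_proof (_hRLP : Stmt_RLP) (hRLS : Stmt_RLS) (hDER : Stmt_DER) (hALG : Stmt_ALG)
    (hSCB : Stmt_SCB) (hSDW : Stmt_SDW) (hDCL : Stmt_DCL) : Stmt_ET0 := by
  intro φ hφ
  have hsm : ∀ m : Fin 4, ContDiff ℝ ∞ (fun p => φ (pm m p)) := fun m => (hDER φ m hφ.smooth).1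
  have hpos : ∀ z, 0 < φ z := fun z => by
    obtain ⟨C, -, h0, -⟩ := hSCB φ hφ
    exact (h0 z).1
  have hsym : ∀ (σ : Equiv.Perm (Fin 4)) m p, φ (pm m (Pm σ p)) = φ (pm (σ m) p) :=
    fun σ m p => hRLS.1 φ hφ.sy1 hφ.sy2 σ m p
  refine ⟨?_, ?_, ?_, ?_⟩
  · unfold PF
    exact contDiff_prod fun m _ => contDiff_const.sub (hsm m)
  · intro p
    unfold PF
    constructor
    · have h1 : ∏ _m : Fin 4, (1 / 2 : ℝ) ≤ ∏ m : Fin 4, (1 - φ (pm m p)) :=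
        Finset.prod_le_prod (fun _ _ => by norm_num) (fun m _ => by linarith [hφ.le_half (pm m p)])
      refine le_trans (le_of_eq ?_) h1
      simp
      norm_num
    · exact Finset.prod_le_one (fun m _ => by linarith [hφ.le_half (pm m p)])
        (fun m _ => by linarith [hpos (pm m p)])
  · have hd := fun m j (h : m ≠ j) => ET0_.dec_prod hDER hALG hSCB hSDW φ hφ m j h
    have hm := fun k ζ hζ => ET0_.dec_mul hDER hSCB hDCL φ hφ k ζ hζ
    have hn := fun ζ hζ => ET0_.dec_neg hDCL ζ hζ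
    have ha := hDCL.2.1
    have h01 := hd 0 1 (by decide)
    have h02 := hd 0 2 (by decide)
    have h03 := hd 0 3 (by decide)
    have h12 := hd 1 2 (by decide)
    have h13 := hd 1 3 (by decide)
    have h23 := hd 2 3 (by decide)
    have t1 := hn _ (hm 2 _ h01)
    have t2 := hn _ (hm 3 _ h01)
    have t3 := hn _ (hm 3 _ h02)
    have t4 := hn _ (hm 3 _ h12)
    have t5 := hm 3 _ (hm 2 _ h01)
    have key := ha _ _ (ha _ _ (ha _ _ (ha _ _ (ha _ _ (ha _ _ (ha _ _ (ha _ _ (ha _ _ (ha _ _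
      h01 h02) h03) h12) h13) h23) t1) t2) t3) t4) t5
    have hfun : (fun p => PF φ p - 1 + Ph φ p) = (fun p =>
        φ (pm 0 p) * φ (pm 1 p) + φ (pm 0 p) * φ (pm 2 p) + φ (pm 0 p) * φ (pm 3 p) +
        φ (pm 1 p) * φ (pm 2 p) + φ (pm 1 p) * φ (pm 3 p) + φ (pm 2 p) * φ (pm 3 p) +
        -1 * (φ (pm 2 p) * (φ (pm 0 p) * φ (pm 1 p))) + -1 * (φ (pm 3 p) * (φ (pm 0 p) * φ (pm 1 p))) +
        -1 * (φ (pm 3 p) * (φ (pm 0 p) * φ (pm 2 p))) + -1 * (φ (pm 3 p) * (φ (pm 1 p) * φ (pm 2 p))) +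
        φ (pm 3 p) * (φ (pm 2 p) * (φ (pm 0 p) * φ (pm 1 p)))) := by
      funext p
      unfold PF Ph
      rw [Fin.prod_univ_four, Fin.sum_univ_four]
      ring
    rw [hfun]
    exact key
  · intro σ p
    constructor
    · unfold PF
      simp only [hsym]
      exact Equiv.prod_comp σ (fun m => 1 - φ (pm m p))
    · unfold Ph
      simp only [hsym]
      exact Equiv.sum_comp σ (fun m => φ (pm m p))

end Pool.Agent.TBF
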