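import Pool.Agent.TBF.Stmts

set_option autoImplicit false

open MeasureTheory Filter Topology
open scoped ContDiff

namespace Pool.Agent.TBF

open Pool.Agent.TBG Pool.Agent.TBL

namespace GID_

theorem sum_sq (a : Fin 4 → Fin 4 → Fin 3 → ℝ) :
    ∑ i, ∑ c, (∑ m, a m i c) ^ 2 = ∑ m, ∑ j, ∑ i, ∑ c, a m i c * a j i c := by
  have h1 : ∀ i c, (∑ m, a m i c) ^ 2 = ∑ m, ∑ j, a m i c * a j i c := by
    intro i c
    rw [sq, Finset.sum_mul_sum]
  simp_rw [h1]
  have h2 : ∀ i : Fin 4, ∑ c, ∑ m, ∑ j, a m i c * a j i c =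
      ∑ m, ∑ j, ∑ c, a m i c * a j i c := by
    intro i
    rw [Finset.sum_comm]
    refine Finset.sum_congr rfl fun m _ => ?_
    rw [Finset.sum_comm]
  simp_rw [h2]
  rw [Finset.sum_comm]
  refine Finset.sum_congr rfl fun m _ => ?_
  rw [Finset.sum_comm]

theorem dv_Ph (φ : E × E → ℝ) (hs : ∀ m, ContDiff ℝ ∞ (fun p : W4 => φ (pm m p))) (v p : W4) :
    dv v (Ph φ) p = ∑ m, dv v (fun p => φ (pm m p)) p := by
  unfold dv
  have h : Ph φ = fun p => ∑ m, (fun m (p : W4) => φ (pm m p)) m p := rfl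
  rw [h, fderiv_fun_sum]
  · simp
  · intro m _
    exact ((hs m).differentiable (by simp)) p

theorem smooth_Ph (φ : E × E → ℝ) (hs : ∀ m, ContDiff ℝ ∞ (fun p : W4 => φ (pm m p))) :
    ContDiff ℝ ∞ (Ph φ) := by
  unfold Ph
  exact ContDiff.sum fun m _ => hs m

theorem int5 (a b c d e : W4 → ℝ) (ha : Integrable a) (hb : Integrable b) (hc : Integrable c)
    (hd : Integrable d) (he : Integrable e) :
    ∫ p, (a p - b p + c p + d p - e p) =
      (∫ p, a p) - (∫ p, b p) + (∫ p, c p) + (∫ p, d p) - ∫ p, e p := by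
  have h1 : Integrable (fun p => a p - b p) := ha.sub hb
  have h2 : Integrable (fun p => a p - b p + c p) := h1.add hc
  have h3 : Integrable (fun p => a p - b p + c p + d p) := h2.add hd
  rw [integral_sub h3 he, integral_add h2 hd, integral_add h1 hc, integral_sub ha hb]

end GID_

theorem gid_proof (hDER : Stmt_DER) (_hALG : Stmt_ALG) (hSCB : Stmt_SCB) (hDIT : Stmt_DIT)
    (hIBD : Stmt_IBD) : Stmt_GID := by
  intro φ hφ η hη
  have hs : ∀ m, ContDiff ℝ ∞ (fun p : W4 => φ (pm m p)) := fun m => (hDER φ m hφ.smooth).1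
  have hPh := GID_.smooth_Ph φ hs
  obtain ⟨C, hC, -, -, -, -, -, -, hVw, -, -⟩ := hSCB φ hφ
  obtain ⟨hD1, hD2, hD3⟩ := hDIT φ hφ
  obtain ⟨i1, i2, i3, i4, i5⟩ := hD1 η hη
  obtain ⟨b1, b2, b3⟩ := hIBD φ hφ
  have hPq : ∀ m p, Ph φ p = φ (pm m p) + Pq φ m p := by
    intro m p
    unfold Ph Pq
    rw [← Finset.add_sum_erase Finset.univ _ (Finset.mem_univ m)]
  -- derivative of psi
  have hdv : ∀ v p, dv v (fun p => 1 - Ph φ p + η p) p = dv v η p - dv v (Ph φ) p := by
    intro v p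
    unfold dv
    have e1 : DifferentiableAt ℝ (fun p => 1 - Ph φ p) p :=
      ((hPh.differentiable (by simp)) p).const_sub 1
    have e2 : DifferentiableAt ℝ η p := (hη.smooth.differentiable (by simp)) p
    rw [fderiv_fun_add e1 e2, fderiv_const_sub]
    simp only [add_apply, neg_apply]
    ring
  have hg1 : ∀ p, gsq4 (fun p => 1 - Ph φ p + η p) p =
      gsq4 η p - 2 * gdt η (Ph φ) p + gsq4 (Ph φ) p := by
    intro p
    unfold gsq4 gdt
    rw [Finset.mul_sum, ← Finset.sum_sub_distrib, ← Finset.sum_add_distrib]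
    refine Finset.sum_congr rfl fun m _ => ?_
    rw [Finset.mul_sum, ← Finset.sum_sub_distrib, ← Finset.sum_add_distrib]
    refine Finset.sum_congr rfl fun c _ => ?_
    rw [hdv]
    ring
  have hg2 : ∀ p, gsq4 (Ph φ) p = (∑ m, gsq φ (pm m p)) +
      ∑ m, ∑ j ∈ Finset.univ.erase m, gdt (fun p => φ (pm m p)) (fun p => φ (pm j p)) p := by
    intro p
    have h1 : gsq4 (Ph φ) p = ∑ m, ∑ j, gdt (fun p => φ (pm m p)) (fun p => φ (pm j p)) p := by
      unfold gsq4 gdt
      simp_rw [GID_.dv_Ph φ hs]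
      exact GID_.sum_sq (fun m i c => dv (d4 i c) (fun p => φ (pm m p)) p)
    rw [h1, ← Finset.sum_add_distrib]
    refine Finset.sum_congr rfl fun m _ => ?_
    rw [← Finset.add_sum_erase Finset.univ _ (Finset.mem_univ m)]
    congr 1
    rw [← (hDER φ m hφ.smooth).2.2.2.1 p]
    unfold gdt gsq4
    refine Finset.sum_congr rfl fun i _ => Finset.sum_congr rfl fun c _ => ?_
    rw [sq]
  have hpt : ∀ p, gi4 φ (fun p => 1 - Ph φ p + η p) p =
      (gsq4 η p + ∑ m, Vm φ m p * (η p - Pq φ m p) ^ 2) - 2 * gdt η (Ph φ) p +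
      (∑ m, ∑ j ∈ Finset.univ.erase m, gdt (fun p => φ (pm m p)) (fun p => φ (pm j p)) p) +
      2 * (∑ m, η p * ww φ (pm m p)) - 2 * (∑ m, ww φ (pm m p) * Pq φ m p) := by
    intro p
    unfold gi4
    rw [hg1, hg2]
    have h3 : ∑ m, Vm φ m p * ((1 - Ph φ p + η p) ^ 2 - (1 - φ (pm m p)) ^ 2) =
        (∑ m, Vm φ m p * (η p - Pq φ m p) ^ 2) + 2 * (∑ m, η p * ww φ (pm m p)) -
          2 * (∑ m, ww φ (pm m p) * Pq φ m p) := by
      rw [Finset.mul_sum, Finset.mul_sum, ← Finset.sum_add_distrib, ← Finset.sum_sub_distrib]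
      refine Finset.sum_congr rfl fun m _ => ?_
      have h4 : Vm φ m p * (1 - φ (pm m p)) = ww φ (pm m p) := hVw (pm m p)
      rw [← h4, hPq m p]
      ring
    rw [h3]
    ring
  -- integrability
  have hA : Integrable (fun p => gsq4 η p + ∑ m, Vm φ m p * (η p - Pq φ m p) ^ 2) :=
    i1.add (integrable_finsetSum _ fun m _ => (i5 m).2.1)
  have hB : Integrable (fun p => 2 * gdt η (Ph φ) p) := i2.const_mul 2
  have hCi : ∀ m, Integrable (fun p => ∑ j ∈ Finset.univ.erase m,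
      gdt (fun p => φ (pm m p)) (fun p => φ (pm j p)) p) := fun m =>
    integrable_finsetSum _ fun j hj => (hD3 m j (Finset.ne_of_mem_erase hj).symm).1
  have hCc : Integrable (fun p => ∑ m, ∑ j ∈ Finset.univ.erase m,
      gdt (fun p => φ (pm m p)) (fun p => φ (pm j p)) p) :=
    integrable_finsetSum _ fun m _ => hCi m
  have hE : Integrable (fun p => ∑ m, η p * ww φ (pm m p)) :=
    integrable_finsetSum _ fun m _ => (i5 m).1
  have hG : Integrable (fun p => ∑ m, ww φ (pm m p) * Pq φ m p) := by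
    refine integrable_finsetSum _ fun m _ => ?_
    have : (fun p => ww φ (pm m p) * Pq φ m p) =
        fun p => ∑ j ∈ Finset.univ.erase m, ww φ (pm m p) * φ (pm j p) := by
      funext p
      unfold Pq
      rw [Finset.mul_sum]
    rw [this]
    exact integrable_finsetSum _ fun j hj => (hD3 m j (Finset.ne_of_mem_erase hj).symm).2.1
  have hE2 := hE.const_mul 2
  have hG2 := hG.const_mul 2
  have hfun : gi4 φ (fun p => 1 - Ph φ p + η p) = fun p =>
      (gsq4 η p + ∑ m, Vm φ m p * (η p - Pq φ m p) ^ 2) - 2 * gdt η (Ph φ) p +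
      (∑ m, ∑ j ∈ Finset.univ.erase m, gdt (fun p => φ (pm m p)) (fun p => φ (pm j p)) p) +
      2 * (∑ m, η p * ww φ (pm m p)) - 2 * (∑ m, ww φ (pm m p) * Pq φ m p) := by
    funext p
    exact hpt p
  have hint : Integrable (gi4 φ (fun p => 1 - Ph φ p + η p)) := by
    rw [hfun]
    exact (((hA.sub hB).add hCc).add hE2).sub hG2
  refine ⟨hint, ?_⟩
  have hgam : gam4 φ (fun p => 1 - Ph φ p + η p) =
      ∫ p, gi4 φ (fun p => 1 - Ph φ p + η p) p := rfl
  rw [hgam, hfun]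
  have h5 := GID_.int5 _ _ _ _ _ hA hB hCc hE2 hG2
  refine h5.trans ?_
  rw [integral_const_mul, integral_const_mul, integral_const_mul, b1 η hη]
  have hCint : ∫ p, (∑ m, ∑ j ∈ Finset.univ.erase m,
      gdt (fun p => φ (pm m p)) (fun p => φ (pm j p)) p) = B40 φ := by
    rw [b3, integral_finsetSum _ fun m _ => hCi m]
    refine Finset.sum_congr rfl fun m _ => ?_
    rw [integral_finsetSum _ fun j hj => (hD3 m j (Finset.ne_of_mem_erase hj).symm).1]
  rw [hCint]
  have hJ : ∫ p, (gsq4 η p + ∑ m, Vm φ m p * (η p - Pq φ m p) ^ 2) = JJ φ η := rfl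
  have hB4 : ∫ p, (∑ m, ww φ (pm m p) * Pq φ m p) = B40 φ := rfl
  rw [hJ, hB4]
  ring

end Pool.Agent.TBF
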