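import Pool.Agent.TBF.Stmts

set_option autoImplicit false

open MeasureTheory Filter Topology
open scoped ContDiff

namespace Pool.Agent.TBF

open Pool.Agent.TBG Pool.Agent.TBL

namespace GTR_

theorem cont_pm (hRLP : Stmt_RLP) (m : Fin 4) : Continuous (pm m) := by
  obtain ⟨T, hT⟩ := hRLP.2.2.2.2.2.2.2.1 m
  have : pm m = fun p => T p := funext fun p => (hT p).symm
  rw [this]
  exact T.continuous

theorem cont_gsq {φ : E × E → ℝ} (hφ : ContDiff ℝ ∞ φ) : Continuous (gsq φ) := by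
  unfold gsq
  refine continuous_finsetSum _ fun m _ => continuous_finsetSum _ fun c _ => ?_
  have h1 : ContDiff ℝ ∞ (fderiv ℝ φ) := hφ.fderiv_right (by simp)
  exact (h1.clm_apply contDiff_const).continuous.pow 2

end GTR_

open GTR_ in
theorem gtr_proof (hRLP : Stmt_RLP) (hALG : Stmt_ALG) (hSCB : Stmt_SCB) (hTRK : Stmt_TRK) :
    Stmt_GTR := by
  intro φ hφ ψ R ε hψ hout hI hε
  obtain ⟨C, hC, -, -, hVb, -, hVs, -, -, -, -⟩ := hSCB φ hφ
  have hVc : ∀ m, Continuous (fun p => Vm φ m p) := fun m => hVs.continuous.comp (cont_pm hRLP m)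
  have hV0 : ∀ m p, 0 ≤ Vm φ m p := fun m p => (hVb _).1
  have hcg : ∀ F : W4 → ℝ, ContDiff ℝ ∞ F → Continuous (gi4 φ F) := by
    intro F hF
    unfold gi4
    refine ((hALG F F hF hF).2.1.sub ?_).add ?_
    · exact continuous_finsetSum _ fun m _ => (cont_gsq hφ.smooth).comp (cont_pm hRLP m)
    · refine continuous_finsetSum _ fun m _ => (hVc m).mul ?_
      exact (hF.continuous.pow 2).sub
        ((continuous_const.sub (hφ.smooth.continuous.comp (cont_pm hRLP m))).pow 2)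
  obtain ⟨B, hBI, hB0, hBin⟩ : ∃ B : W4 → ℝ, Integrable B ∧ (∀ p, 0 ≤ B p) ∧
      ∀ p : W4, ‖p‖ ≤ R → B p = ∑ m, Vm φ m p := by
    refine ⟨(Metric.closedBall (0 : W4) R).indicator (fun p => ∑ m, Vm φ m p), ?_, ?_, ?_⟩
    · rw [integrable_indicator_iff Metric.isClosed_closedBall.measurableSet]
      exact (continuous_finsetSum _ fun m _ => hVc m).continuousOn.integrableOn_compact
        (isCompact_closedBall _ _)
    · exact fun p => Set.indicator_nonneg (fun p _ => Finset.sum_nonneg fun m _ => hV0 m p) p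
    · intro p hp
      rw [Set.indicator_of_mem]
      rw [Metric.mem_closedBall, dist_zero_right]
      exact hp
  obtain ⟨A, hA, hA0⟩ : ∃ A : ℝ, A = ∫ p, B p ∧ 0 ≤ A := ⟨_, rfl, integral_nonneg hB0⟩
  obtain ⟨k, hk0, hk1, hk2⟩ : ∃ k : ℝ, 0 < k ∧ k ≤ 1 / 64 ∧ k * (4 * A + 1) ≤ ε := by
    refine ⟨min (1 / 64) (ε / (4 * A + 1)), lt_min (by norm_num) (by positivity),
      min_le_left _ _, ?_⟩
    have := min_le_right (1 / 64) (ε / (4 * A + 1))
    rwa [le_div_iff₀ (by positivity)] at this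
  obtain ⟨hm1, hm2, hm3, hm4, hm5⟩ := hTRK k hk0
  have hcomp : ContDiff ℝ ∞ (fun p => mk k (ψ p)) := hm1.comp hψ
  have hgs := (hALG ψ ψ hψ hψ).2.2.2.2.2.2.2.2.2.2.2.2 (mk k) hm1
  have hg0 : ∀ p, 0 ≤ gsq4 ψ p := fun p => ((hALG ψ ψ hψ hψ).2.2.2.2.1 p).2.2
  -- outside the ball nothing changes
  have hsame : ∀ p : W4, R < ‖p‖ → gi4 φ (fun p => mk k (ψ p)) p = gi4 φ ψ p := by
    intro p hp
    have h1 := hout p hp
    have h2 : 2 * k < ψ p := by linarith
    have h3 : deriv (mk k) (ψ p) = 1 := by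
      have h4 : mk k =ᶠ[𝓝 (ψ p)] id := by
        filter_upwards [lt_mem_nhds h2] with s hs
        exact hm2 s hs.le
      rw [h4.deriv_eq, deriv_id]
    unfold gi4
    simp only []
    rw [hgs p, h3, hm2 _ h2.le]
    ring
  have hle : ∀ p, gi4 φ (fun p => mk k (ψ p)) p ≤ gi4 φ ψ p + 4 * k ^ 2 * B p := by
    intro p
    by_cases hp : R < ‖p‖
    · rw [hsame p hp]
      have h1 : 0 ≤ 4 * k ^ 2 * B p := mul_nonneg (by nlinarith [sq_nonneg k]) (hB0 p)
      linarith
    · push Not at hp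
      have hBp : B p = ∑ m, Vm φ m p := hBin p hp
      have e1 : gsq4 (fun p => mk k (ψ p)) p ≤ gsq4 ψ p := by
        rw [hgs p]
        have h1 := (hm4 (ψ p)).1
        have h2 := (hm4 (ψ p)).2
        have h3 : (deriv (mk k) (ψ p)) ^ 2 ≤ 1 := by nlinarith
        exact mul_le_of_le_one_left (hg0 p) h3
      have e2 : (mk k (ψ p)) ^ 2 ≤ ψ p ^ 2 + 4 * k ^ 2 := by
        rcases le_total (2 * k) (ψ p) with h | h
        · rw [hm2 _ h]
          nlinarith [sq_nonneg k]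
        · have h1 := hm5 _ h
          have h2 := hm3 (ψ p)
          nlinarith [sq_nonneg (ψ p)]
      have e3 : ∑ m, Vm φ m p * (mk k (ψ p) ^ 2 - (1 - φ (pm m p)) ^ 2) ≤
          (∑ m, Vm φ m p * (ψ p ^ 2 - (1 - φ (pm m p)) ^ 2)) + 4 * k ^ 2 * B p := by
        rw [hBp, Finset.mul_sum, ← Finset.sum_add_distrib]
        refine Finset.sum_le_sum fun m _ => ?_
        have h1 := hV0 m p
        nlinarith
      unfold gi4
      linarith
  have hdI : Integrable (fun p => gi4 φ (fun p => mk k (ψ p)) p - gi4 φ ψ p) := by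
    refine Continuous.integrable_of_hasCompactSupport ((hcg _ hcomp).sub (hcg _ hψ)) ?_
    refine HasCompactSupport.intro (isCompact_closedBall (0 : W4) R) ?_
    intro p hp
    rw [Metric.mem_closedBall, dist_zero_right, not_le] at hp
    rw [hsame p hp, sub_self]
  have hI2 : Integrable (gi4 φ (fun p => mk k (ψ p))) := by
    have h1 := hdI.add hI
    refine h1.congr (Eventually.of_forall fun p => ?_)
    simp
  refine ⟨k, hk0, by linarith, hI2, ?_⟩
  have h1 : gam4 φ (fun p => mk k (ψ p)) = ∫ p, gi4 φ (fun p => mk k (ψ p)) p := rfl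
  have h2 : gam4 φ ψ = ∫ p, gi4 φ ψ p := rfl
  rw [h1, h2]
  have h3 : ∫ p, gi4 φ (fun p => mk k (ψ p)) p ≤ ∫ p, (gi4 φ ψ p + 4 * k ^ 2 * B p) :=
    integral_mono hI2 (hI.add (hBI.const_mul _)) hle
  rw [integral_add hI (hBI.const_mul _), integral_const_mul, ← hA] at h3
  have h4 : 4 * k ^ 2 * A ≤ ε := by
    have h5 : k ^ 2 ≤ k := by nlinarith
    nlinarith [mul_nonneg hA0 (sub_nonneg.2 h5)]
  linarith

end Pool.Agent.TBF
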