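import Pool.Agent.TBF.Stmts

set_option autoImplicit false

open MeasureTheory Filter Topology
open scoped ContDiff

namespace Pool.Agent.TBF

open Pool.Agent.TBG Pool.Agent.TBL

theorem hil_proof : Stmt_HIL := by
  intro H _ _ _ S P
  let K : Submodule ℝ H := S.topologicalClosure
  have hKc : IsClosed (K : Set H) := S.isClosed_topologicalClosure
  haveI : CompleteSpace K := hKc.completeSpace_coe
  let q : H := K.starProjection P
  have hq : q ∈ K := Submodule.starProjection_apply_mem K P
  have horth : ∀ w ∈ K, inner ℝ (P - q) w = 0 := fun w hw =>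
    Submodule.starProjection_inner_eq_zero P w hw
  have hSK : ∀ u ∈ S, u ∈ K := fun u hu => S.le_topologicalClosure hu
  have hpyth : ∀ u ∈ K, ‖P - u‖ ^ 2 = ‖P - q‖ ^ 2 + ‖q - u‖ ^ 2 := by
    intro u hu
    have h1 : inner ℝ (P - q) (q - u) = 0 := horth _ (K.sub_mem hq hu)
    have h2 : P - u = (P - q) + (q - u) := by abel
    rw [h2, norm_add_sq_real, h1]
    ring
  refine ⟨P - q, fun u hu => horth u (hSK u hu), ?_, fun u hu => ?_, fun ε hε => ?_⟩
  · have h1 : inner ℝ (P - q) P = inner ℝ (P - q) (P - q) + inner ℝ (P - q) q := by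
      rw [← inner_add_right]
      congr 1
      abel
    rw [h1, horth q hq, real_inner_self_eq_norm_sq, add_zero]
  · have h1 := hpyth u (hSK u hu)
    have h2 : ‖P - q‖ ^ 2 ≤ ‖P - u‖ ^ 2 := by
      rw [h1]
      nlinarith [sq_nonneg ‖q - u‖]
    exact (sq_le_sq₀ (norm_nonneg _) (norm_nonneg _)).mp h2
  · have hcl : q ∈ closure (S : Set H) := by
      have := hq
      rwa [← SetLike.mem_coe, Submodule.topologicalClosure_coe] at this
    obtain ⟨u, hu, hdist⟩ := Metric.mem_closure_iff.mp hcl (Real.sqrt ε) (Real.sqrt_pos.mpr hε)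
    refine ⟨u, hu, ?_⟩
    rw [hpyth u (hSK u hu)]
    have h3 : ‖q - u‖ < Real.sqrt ε := by rwa [← dist_eq_norm]
    have h4 : ‖q - u‖ ^ 2 ≤ ε := by
      have h5 := pow_le_pow_left₀ (norm_nonneg _) h3.le 2
      rwa [Real.sq_sqrt hε.le] at h5
    linarith

end Pool.Agent.TBF
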