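import Pool.Agent.TBF.Stmts

/-!
# Three-body Bose gases, four-body problem, module HSP: the dual optimiser
-/

set_option autoImplicit false

open MeasureTheory Filter Topology
open scoped ContDiff

namespace Pool.Agent.TBF

open Pool.Agent.TBG Pool.Agent.TBL

namespace HSP_

abbrev J : Type := (Fin 4 × Fin 3) ⊕ Fin 4

abbrev H : Type := PiLp 2 (fun _ : J => Lp ℝ 2 (volume : Measure W4))

noncomputable def emb (F : J → W4 → ℝ) (h : ∀ i, MemLp (F i) 2 (volume : Measure W4)) : H :=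
  WithLp.toLp 2 (fun i => (h i).toLp (F i))

lemma emb_ae (F : J → W4 → ℝ) (h : ∀ i, MemLp (F i) 2 (volume : Measure W4)) (i : J) :
    ((emb F h i : Lp ℝ 2 (volume : Measure W4)) : W4 → ℝ) =ᵐ[volume] F i :=
  (h i).coeFn_toLp

lemma inner_eq (u v : H) : inner ℝ u v = ∑ i, ∫ p, (u i : W4 → ℝ) p * (v i : W4 → ℝ) p := by
  rw [PiLp.inner_apply]
  refine Finset.sum_congr rfl fun i _ => ?_
  rw [L2.inner_def]
  refine integral_congr_ae (Eventually.of_forall fun p => ?_)
  simp only [RCLike.inner_apply, conj_trivial]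
  ring

lemma inner_ae (u v : H) (F : J → W4 → ℝ) (h : ∀ i, (v i : W4 → ℝ) =ᵐ[volume] F i) :
    inner ℝ u v = ∑ i, ∫ p, (u i : W4 → ℝ) p * F i p := by
  rw [inner_eq]
  refine Finset.sum_congr rfl fun i _ => integral_congr_ae ?_
  filter_upwards [h i] with p hp
  rw [hp]

lemma nsq_ae (v : H) (F : J → W4 → ℝ) (h : ∀ i, (v i : W4 → ℝ) =ᵐ[volume] F i) :
    ‖v‖ ^ 2 = ∑ i, ∫ p, F i p ^ 2 := by
  rw [← real_inner_self_eq_norm_sq, inner_eq]
  refine Finset.sum_congr rfl fun i _ => integral_congr_ae ?_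
  filter_upwards [h i] with p hp
  rw [hp]
  ring

/-- components of the test vector -/
noncomputable def FF (φ : E × E → ℝ) (η : W4 → ℝ) : J → W4 → ℝ
  | Sum.inl mc => fun p => dv (d4 mc.1 mc.2) η p
  | Sum.inr m => fun p => Real.sqrt (Vm φ m p) * η p

/-- components of the source -/
noncomputable def PPs (φ : E × E → ℝ) : J → W4 → ℝ
  | Sum.inl _ => fun _ => 0
  | Sum.inr m => fun p => Real.sqrt (Vm φ m p) * Pq φ m p

lemma cf_cont (i : Fin 4) : Continuous (fun p : W4 => cf p i) := by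
  fin_cases i
  · simpa [cf] using continuous_const
  · show Continuous (fun p : W4 => -p.1)
    fun_prop
  · show Continuous (fun p : W4 => -p.2.1)
    fun_prop
  · show Continuous (fun p : W4 => -p.2.2)
    fun_prop

lemma pm_cont (m : Fin 4) : Continuous (pm m) := by
  unfold pm
  exact ((cf_cont _).sub (cf_cont _)).prodMk ((cf_cont _).sub (cf_cont _))

end HSP_

open HSP_

theorem hsp_proof (hALG : Stmt_ALG) (hSCB : Stmt_SCB) (hDCL : Stmt_DCL) (hDIT : Stmt_DIT)
    (hHIL : Stmt_HIL) : Stmt_HSP := by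
  intro φ hφ
  obtain ⟨C, hC, -, -, hV, -, hVs, -, -, -, -⟩ := hSCB φ hφ
  have D := hDIT φ hφ
  have hVc : ∀ m, Continuous (Vm φ m) := fun m => hVs.continuous.comp (pm_cont m)
  have hV0 : ∀ m p, 0 ≤ Vm φ m p := fun m p => (hV (pm m p)).1
  have hsV : ∀ m, Continuous (fun p => Real.sqrt (Vm φ m p)) := fun m => (hVc m).sqrt
  have hPqc : ∀ m, Continuous (Pq φ m) := by
    intro m
    unfold Pq
    exact continuous_finsetSum _ fun j _ => hφ.smooth.continuous.comp (pm_cont j)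
  have hdvc : ∀ η, TF η → ∀ m c, Continuous (dv (d4 m c) η) := by
    intro η hη m c
    exact ((hALG η η hη.1 hη.1).2.2.2.1 (d4 m c)).continuous
  have mF : ∀ η, TF η → ∀ i, MemLp (FF φ η i) 2 (volume : Measure W4) := by
    intro η hη i
    rcases i with ⟨m, c⟩ | m
    · refine (hdvc η hη m c).memLp_of_hasCompactSupport ?_
      have := hη.2.fderiv_apply (𝕜 := ℝ) (d4 m c)
      exact this
    · exact ((hsV m).mul hη.1.continuous).memLp_of_hasCompactSupport hη.2.mul_left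
  have mP : ∀ i, MemLp (PPs φ i) 2 (volume : Measure W4) := by
    intro i
    rcases i with mc | m
    · exact MemLp.zero
    · refine (memLp_two_iff_integrable_sq ((hsV m).mul (hPqc m)).aestronglyMeasurable).2 ?_
      refine (D.2.1 m).congr (Eventually.of_forall fun p => ?_)
      show Vm φ m p * Pq φ m p ^ 2 = (Real.sqrt (Vm φ m p) * Pq φ m p) ^ 2
      rw [mul_pow, Real.sq_sqrt (hV0 m p)]
  let S : Submodule ℝ H :=
    { carrier := {u | ∃ η, TF η ∧ ∀ i, (u i : W4 → ℝ) =ᵐ[volume] FF φ η i}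
      add_mem' := by
        rintro u v ⟨η, hη, hu⟩ ⟨ζ, hζ, hv⟩
        refine ⟨fun p => η p + ζ p, ⟨hη.1.add hζ.1, hη.2.add hζ.2⟩, fun i => ?_⟩
        have h1 : (((u + v) i : Lp ℝ 2 (volume : Measure W4)) : W4 → ℝ) =ᵐ[volume]
            (u i : W4 → ℝ) + (v i : W4 → ℝ) := Lp.coeFn_add (u i) (v i)
        filter_upwards [h1, hu i, hv i] with p e1 e2 e3
        rw [e1, Pi.add_apply, e2, e3]
        rcases i with ⟨m, c⟩ | m
        · exact ((hALG η ζ hη.1 hζ.1).2.2.2.2.2.1 (d4 m c) p).symm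
        · simp only [FF]
          ring
      zero_mem' := by
        refine ⟨fun _ => 0, ⟨contDiff_const, HasCompactSupport.zero⟩, fun i => ?_⟩
        have h1 : (((0 : H) i : Lp ℝ 2 (volume : Measure W4)) : W4 → ℝ) =ᵐ[volume] 0 :=
          Lp.coeFn_zero ℝ 2 volume
        filter_upwards [h1] with p e1
        rw [e1]
        rcases i with ⟨m, c⟩ | m
        · simp [FF, dv]
        · simp [FF]
      smul_mem' := by
        rintro a u ⟨η, hη, hu⟩
        refine ⟨fun p => a * η p, ⟨contDiff_const.mul hη.1, hη.2.mul_left⟩, fun i => ?_⟩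
        have h1 : (((a • u) i : Lp ℝ 2 (volume : Measure W4)) : W4 → ℝ) =ᵐ[volume]
            a • (u i : W4 → ℝ) := Lp.coeFn_smul a (u i)
        filter_upwards [h1, hu i] with p e1 e2
        rw [e1, Pi.smul_apply, e2, smul_eq_mul]
        rcases i with ⟨m, c⟩ | m
        · exact ((hALG η η hη.1 hη.1).2.2.2.2.2.2.1 (d4 m c) p a).1.symm
        · simp only [FF]
          ring }
  have hS : ∀ u, u ∈ S ↔ ∃ η, TF η ∧ ∀ i, (u i : W4 → ℝ) =ᵐ[volume] FF φ η i := fun u => Iff.rfl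
  set P : H := emb (PPs φ) mP with hP
  have dist : ∀ (u : H) (η : W4 → ℝ), TF η → (∀ i, (u i : W4 → ℝ) =ᵐ[volume] FF φ η i) →
      ‖P - u‖ ^ 2 = JJ φ η := by
    intro u η hη hu
    have hD := D.1 η (hDCL.1 η hη)
    have h1 : ∀ i, (((P - u) i : Lp ℝ 2 (volume : Measure W4)) : W4 → ℝ) =ᵐ[volume]
        fun p => PPs φ i p - FF φ η i p := by
      intro i
      have h2 : (((P - u) i : Lp ℝ 2 (volume : Measure W4)) : W4 → ℝ) =ᵐ[volume]
          (P i : W4 → ℝ) - (u i : W4 → ℝ) := Lp.coeFn_sub (P i) (u i)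
      filter_upwards [h2, hu i, emb_ae (PPs φ) mP i] with p e1 e2 e3
      rw [e1, Pi.sub_apply, e2, hP, e3]
    rw [nsq_ae _ _ h1, Fintype.sum_sum_type, Fintype.sum_prod_type]
    have e1 : ∀ (m : Fin 4) (c : Fin 3),
        ∫ p, (PPs φ (Sum.inl (m, c)) p - FF φ η (Sum.inl (m, c)) p) ^ 2 =
        ∫ p, (dv (d4 m c) η p) ^ 2 := by
      intro m c
      refine integral_congr_ae (Eventually.of_forall fun p => ?_)
      simp only [PPs, FF]
      ring
    have e2 : ∀ m : Fin 4, ∫ p, (PPs φ (Sum.inr m) p - FF φ η (Sum.inr m) p) ^ 2 =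
        ∫ p, Vm φ m p * (η p - Pq φ m p) ^ 2 := by
      intro m
      refine integral_congr_ae (Eventually.of_forall fun p => ?_)
      simp only [PPs, FF]
      rw [← mul_sub, mul_pow, Real.sq_sqrt (hV0 m p)]
      ring
    simp_rw [e1, e2]
    have i1 : ∀ m c, Integrable (fun p => (dv (d4 m c) η p) ^ 2) := by
      intro m c
      have := (mF η hη (Sum.inl (m, c))).integrable_sq
      exact this
    unfold JJ
    rw [integral_add hD.1 (integrable_finsetSum _ fun m _ => (hD.2.2.2.2 m).2.1),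
      integral_finsetSum _ (fun m _ => (hD.2.2.2.2 m).2.1)]
    congr 1
    unfold gsq4
    rw [integral_finsetSum _ (fun m _ => integrable_finsetSum _ fun c _ => i1 m c)]
    refine Finset.sum_congr rfl fun m _ => ?_
    rw [integral_finsetSum _ (fun c _ => i1 m c)]
  obtain ⟨σ, ho, hP2, hmin, happ⟩ := hHIL H S P
  have hIJ : IJ φ = ‖σ‖ ^ 2 := by
    unfold IJ
    refine le_antisymm ?_ ?_
    · refine le_of_forall_pos_le_add fun ε hε => ?_
      obtain ⟨u, hu, hu2⟩ := happ ε hε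
      obtain ⟨η, hη, hae⟩ := (hS u).1 hu
      rw [dist u η hη hae] at hu2
      refine le_trans (csInf_le ⟨0, ?_⟩ ⟨η, hη, rfl⟩) hu2
      rintro x ⟨ζ, hζ, rfl⟩
      have : JJ φ ζ = ‖P - emb (FF φ ζ) (mF ζ hζ)‖ ^ 2 :=
        (dist _ ζ hζ (emb_ae (FF φ ζ) (mF ζ hζ))).symm
      rw [this]
      positivity
    · refine le_csInf ⟨JJ φ (fun _ => 0), fun _ => 0, ⟨contDiff_const, HasCompactSupport.zero⟩, rfl⟩ ?_
      rintro x ⟨ζ, hζ, rfl⟩
      have h1 : JJ φ ζ = ‖P - emb (FF φ ζ) (mF ζ hζ)‖ ^ 2 :=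
        (dist _ ζ hζ (emb_ae (FF φ ζ) (mF ζ hζ))).symm
      rw [h1]
      have h2 := hmin (emb (FF φ ζ) (mF ζ hζ)) ((hS _).2 ⟨ζ, hζ, emb_ae (FF φ ζ) (mF ζ hζ)⟩)
      gcongr
  refine ⟨fun m c p => -((σ (Sum.inl (m, c)) : Lp ℝ 2 (volume : Measure W4)) : W4 → ℝ) p,
    fun m p => -((σ (Sum.inr m) : Lp ℝ 2 (volume : Measure W4)) : W4 → ℝ) p, ?_, ?_, ?_, ?_, ?_⟩
  · intro m c
    exact ⟨(Lp.stronglyMeasurable _).measurable.neg, (Lp.memLp _).neg⟩
  · intro m
    exact ⟨(Lp.stronglyMeasurable _).measurable.neg, (Lp.memLp _).neg⟩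
  · intro η hη
    have h1 := ho (emb (FF φ η) (mF η hη)) ((hS _).2 ⟨η, hη, emb_ae (FF φ η) (mF η hη)⟩)
    rw [inner_ae _ _ _ (emb_ae (FF φ η) (mF η hη)), Fintype.sum_sum_type,
      Fintype.sum_prod_type] at h1
    have h2 := congrArg Neg.neg h1
    rw [neg_add, neg_zero, ← Finset.sum_neg_distrib, ← Finset.sum_neg_distrib] at h2
    rw [← h2]
    congr 1
    · refine Finset.sum_congr rfl fun m _ => ?_
      rw [← Finset.sum_neg_distrib]
      refine Finset.sum_congr rfl fun c _ => ?_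
      rw [← integral_neg]
      refine integral_congr_ae (Eventually.of_forall fun p => ?_)
      simp only [FF]
      ring
    · refine Finset.sum_congr rfl fun m _ => ?_
      rw [← integral_neg]
      refine integral_congr_ae (Eventually.of_forall fun p => ?_)
      simp only [FF]
      ring
  · rw [hIJ, nsq_ae σ (fun i => ((σ i : Lp ℝ 2 (volume : Measure W4)) : W4 → ℝ))
      (fun i => EventuallyEq.rfl), Fintype.sum_sum_type, Fintype.sum_prod_type]
    simp only [neg_sq]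
  · rw [hIJ, ← hP2, inner_ae σ P (PPs φ) (emb_ae (PPs φ) mP), Fintype.sum_sum_type]
    have h0 : ∑ x : Fin 4 × Fin 3, ∫ p, (σ (Sum.inl x) : W4 → ℝ) p * PPs φ (Sum.inl x) p = 0 := by
      refine Finset.sum_eq_zero fun x _ => ?_
      simp [PPs]
    rw [h0, zero_add, ← Finset.sum_neg_distrib]
    refine Finset.sum_congr rfl fun m _ => ?_
    rw [← integral_neg]
    refine integral_congr_ae (Eventually.of_forall fun p => ?_)
    simp only [PPs]
    ring

end Pool.Agent.TBF
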