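import Pool.Agent.TBF.Stmts

/-!
Squad TBF, module IBD: integration by parts with decay.
-/

set_option autoImplicit false

open MeasureTheory Filter Topology
open scoped ContDiff

namespace Pool.Agent.TBF

open Pool.Agent.TBG Pool.Agent.TBL

namespace IBD_

theorem dv_sum {ι : Type} (s : Finset ι) (F : ι → W4 → ℝ) (hF : ∀ i, ContDiff ℝ ∞ (F i)) (v : W4) :
    dv v (fun p => ∑ i ∈ s, F i p) = fun p => ∑ i ∈ s, dv v (F i) p := by
  funext p
  unfold dv
  have h : ∀ i ∈ s, DifferentiableAt ℝ (F i) p := fun i _ =>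
    ((hF i).differentiable (by simp)).differentiableAt
  rw [fderiv_fun_sum h]
  simp

/-- integration by parts with cutoffs -/
theorem ibp (hALG : Stmt_ALG) (hCHI : Stmt_CHI) (hIBT : Stmt_IBT) (η F : W4 → ℝ)
    (hη : ContDiff ℝ ∞ η) (hF : ContDiff ℝ ∞ F) (h1 : Integrable (gdt η F))
    (h2 : Integrable (fun p => η p * Lap4 F p))
    (h3 : ∀ m c, Integrable (fun p : W4 => (1 + ‖p‖)⁻¹ * (η p * dv (d4 m c) F p))) :
    ∫ p, gdt η F p = - ∫ p, η p * Lap4 F p := by
  obtain ⟨C, hC, hχ⟩ := hCHI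
  have hr : ∀ n : ℕ, (1 : ℝ) ≤ (n : ℝ) + 1 := fun n => by
    have : (0 : ℝ) ≤ n := Nat.cast_nonneg n
    linarith
  have hTF : ∀ n : ℕ, TF (fun p => chi ((n : ℝ) + 1) p * η p) := fun n => by
    obtain ⟨⟨hs, hc⟩, -⟩ := hχ _ (hr n)
    exact ⟨hs.mul hη, hc.mul_right⟩
  have hprod : ∀ n : ℕ, ∀ p, gdt (fun p => chi ((n : ℝ) + 1) p * η p) F p =
      chi ((n : ℝ) + 1) p * gdt η F p + η p * gdt (chi ((n : ℝ) + 1)) F p := by
    intro n p
    obtain ⟨⟨hs, hc⟩, -⟩ := hχ _ (hr n)
    have h := (hALG _ _ hs hη).2.2.2.2.2.2.2.1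
    unfold gdt
    simp only [h, Finset.mul_sum, ← Finset.sum_add_distrib]
    refine Finset.sum_congr rfl fun m _ => Finset.sum_congr rfl fun c _ => ?_
    ring
  -- pointwise limits
  have hev : ∀ p : W4, ∀ᶠ n : ℕ in atTop, ‖p‖ < (n : ℝ) + 1 := by
    intro p
    have : Tendsto (fun n : ℕ => (n : ℝ) + 1) atTop atTop :=
      tendsto_atTop_add_const_right _ _ tendsto_natCast_atTop_atTop
    exact this.eventually_gt_atTop ‖p‖
  have hlim1 : Tendsto (fun n : ℕ => ∫ p, chi ((n : ℝ) + 1) p * gdt η F p) atTop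
      (𝓝 (∫ p, gdt η F p)) := by
    refine tendsto_integral_of_dominated_convergence (fun p => ‖gdt η F p‖) ?_ h1.norm ?_ ?_
    · intro n
      exact ((hχ _ (hr n)).1.1.continuous.mul (hALG η F hη hF).1).aestronglyMeasurable
    · intro n
      filter_upwards with p
      rw [norm_mul]
      have := (hχ _ (hr n)).2.2.1 p
      rw [Real.norm_of_nonneg this.1]
      exact mul_le_of_le_one_left (norm_nonneg _) this.2
    · filter_upwards with p
      refine tendsto_const_nhds.congr' ?_
      filter_upwards [hev p] with n hn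
      rw [(hχ _ (hr n)).2.2.2.1 p hn.le, one_mul]
  have hlim3 : Tendsto (fun n : ℕ => ∫ p, (chi ((n : ℝ) + 1) p * η p) * Lap4 F p) atTop
      (𝓝 (∫ p, η p * Lap4 F p)) := by
    refine tendsto_integral_of_dominated_convergence (fun p => ‖η p * Lap4 F p‖) ?_ h2.norm ?_ ?_
    · intro n
      exact (((hχ _ (hr n)).1.1.continuous.mul hη.continuous).mul
        (hALG F F hF hF).2.2.1).aestronglyMeasurable
    · intro n
      filter_upwards with p
      rw [mul_assoc, norm_mul]
      have := (hχ _ (hr n)).2.2.1 p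
      rw [Real.norm_of_nonneg this.1]
      exact mul_le_of_le_one_left (norm_nonneg _) this.2
    · filter_upwards with p
      refine tendsto_const_nhds.congr' ?_
      filter_upwards [hev p] with n hn
      rw [(hχ _ (hr n)).2.2.2.1 p hn.le, one_mul]
  have hlim2 : Tendsto (fun n : ℕ => ∫ p, η p * gdt (chi ((n : ℝ) + 1)) F p) atTop (𝓝 0) := by
    have hz : (0 : ℝ) = ∫ _ : W4, (0 : ℝ) := by simp
    rw [hz]
    refine tendsto_integral_of_dominated_convergence
      (fun p : W4 => ∑ m : Fin 4, ∑ c : Fin 3, C * ‖(1 + ‖p‖)⁻¹ * (η p * dv (d4 m c) F p)‖) ?_ ?_ ?_ ?_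
    · intro n
      exact (hη.continuous.mul
        (hALG _ F (hχ _ (hr n)).1.1 hF).1).aestronglyMeasurable
    · exact integrable_finsetSum _ fun m _ => integrable_finsetSum _ fun c _ =>
        ((h3 m c).norm.const_mul C)
    · intro n
      filter_upwards with p
      unfold gdt
      rw [Finset.mul_sum]
      refine (norm_sum_le _ _).trans (Finset.sum_le_sum fun m _ => ?_)
      rw [Finset.mul_sum]
      refine (norm_sum_le _ _).trans (Finset.sum_le_sum fun c _ => ?_)
      have hb := (hχ _ (hr n)).2.2.2.2.2.1 m c p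
      have hP : 0 < 1 + ‖p‖ := by positivity
      have hb' : |dv (d4 m c) (chi ((n : ℝ) + 1)) p| ≤ C * (1 + ‖p‖)⁻¹ := by
        rw [← div_eq_mul_inv, le_div_iff₀ hP, mul_comm]
        exact hb
      rw [norm_mul, norm_mul, norm_mul, norm_mul, Real.norm_eq_abs (dv (d4 m c) (chi ((n : ℝ) + 1)) p),
        norm_inv, Real.norm_of_nonneg hP.le]
      calc ‖η p‖ * (|dv (d4 m c) (chi ((n : ℝ) + 1)) p| * ‖dv (d4 m c) F p‖)
          ≤ ‖η p‖ * ((C * (1 + ‖p‖)⁻¹) * ‖dv (d4 m c) F p‖) := by gcongr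
        _ = C * ((1 + ‖p‖)⁻¹ * (‖η p‖ * ‖dv (d4 m c) F p‖)) := by ring
    · filter_upwards with p
      refine tendsto_const_nhds.congr' ?_
      filter_upwards [hev p] with n hn
      unfold gdt
      have : ∀ m c, dv (d4 m c) (chi ((n : ℝ) + 1)) p = 0 := fun m c =>
        (hχ _ (hr n)).2.2.2.2.2.2 m c p (Or.inl hn)
      simp [this]
  have heq : ∀ n : ℕ, (∫ p, chi ((n : ℝ) + 1) p * gdt η F p) +
      (∫ p, η p * gdt (chi ((n : ℝ) + 1)) F p) = - ∫ p, (chi ((n : ℝ) + 1) p * η p) * Lap4 F p := by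
    intro n
    have hs := (hχ _ (hr n)).1.1
    have hc := (hχ _ (hr n)).1.2
    rw [← hIBT _ F (hTF n) hF, ← integral_add]
    · exact integral_congr_ae (Eventually.of_forall fun p => (hprod n p).symm)
    · exact (hs.continuous.mul (hALG η F hη hF).1).integrable_of_hasCompactSupport hc.mul_right
    · have hcc : HasCompactSupport (gdt (chi ((n : ℝ) + 1)) F) := by
        apply HasCompactSupport.of_support_subset_isCompact
          (isCompact_closedBall (0 : W4) (4 * ((n : ℝ) + 1)))
        intro p hp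
        by_contra hcon
        rw [Metric.mem_closedBall, dist_zero_right, not_le] at hcon
        apply hp
        unfold gdt
        have : ∀ m c, dv (d4 m c) (chi ((n : ℝ) + 1)) p = 0 := fun m c =>
          (hχ _ (hr n)).2.2.2.2.2.2 m c p (Or.inr hcon)
        simp [this]
      exact (hη.continuous.mul (hALG _ F hs hF).1).integrable_of_hasCompactSupport hcc.mul_left
  have hl := hlim1.add hlim2
  rw [add_zero] at hl
  exact tendsto_nhds_unique (hl.congr heq) hlim3.neg

end IBD_

theorem ibd_proof (_hRLP : Stmt_RLP) (hDER : Stmt_DER) (hALG : Stmt_ALG) (_hSCB : Stmt_SCB)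
    (_hSDW : Stmt_SDW) (hCHI : Stmt_CHI) (hDIT : Stmt_DIT) (hIBT : Stmt_IBT) : Stmt_IBD := by
  intro φ hφ
  have hsm : ∀ m : Fin 4, ContDiff ℝ ∞ (fun p => φ (pm m p)) := fun m => (hDER φ m hφ.smooth).1
  have hPh : ContDiff ℝ ∞ (Ph φ) := by
    unfold Ph
    exact ContDiff.sum fun m _ => hsm m
  obtain ⟨hD1, hD2, hD3⟩ := hDIT φ hφ
  have hL : ∀ m p, Lap4 (fun p => φ (pm m p)) p = - ww φ (pm m p) := by
    intro m p
    rw [(hDER φ m hφ.smooth).2.2.2.2 p]
    unfold ww
    ring
  have hLP : ∀ p, Lap4 (Ph φ) p = - ∑ m, ww φ (pm m p) := by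
    intro p
    have h1 : ∀ v, dv v (Ph φ) = fun p => ∑ m, dv v (fun p => φ (pm m p)) p := by
      intro v
      unfold Ph
      exact IBD_.dv_sum Finset.univ (fun m p => φ (pm m p)) hsm v
    have h2 : ∀ v, dv v (fun p => ∑ m, dv v (fun p => φ (pm m p)) p) =
        fun p => ∑ m, dv v (dv v (fun p => φ (pm m p))) p := by
      intro v
      exact IBD_.dv_sum Finset.univ (fun m p => dv v (fun p => φ (pm m p)) p)
        (fun m => (hALG _ _ (hsm m) (hsm m)).2.2.2.1 v) v
    unfold Lap4
    simp only [h1, h2]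
    rw [← Finset.sum_neg_distrib]
    have h3 : ∀ m, -ww φ (pm m p) = ∑ i, ∑ c, dv (d4 i c) (dv (d4 i c) (fun p => φ (pm m p))) p :=
      fun m => (hL m p).symm
    simp only [h3]
    rw [Finset.sum_comm]
    rw [Finset.sum_comm (s := (Finset.univ : Finset (Fin 4))) (t := (Finset.univ : Finset (Fin 4)))]
    rw [Finset.sum_comm]
    refine Finset.sum_congr rfl fun i _ => ?_
    rw [Finset.sum_comm]
  have hpart2 : ∀ m j, m ≠ j → ∫ p, gdt (fun p => φ (pm m p)) (fun p => φ (pm j p)) p =
      ∫ p, ww φ (pm m p) * φ (pm j p) := by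
    intro m j hmj
    obtain ⟨k1, k2, k3⟩ := hD3 m j hmj
    have hsym : ∀ p, gdt (fun p => φ (pm m p)) (fun p => φ (pm j p)) p =
        gdt (fun p => φ (pm j p)) (fun p => φ (pm m p)) p := fun p =>
      ((hALG _ _ (hsm m) (hsm j)).2.2.2.2.1 p).2.1
    have hfun : gdt (fun p => φ (pm m p)) (fun p => φ (pm j p)) =
        gdt (fun p => φ (pm j p)) (fun p => φ (pm m p)) := funext hsym
    rw [hfun]
    rw [IBD_.ibp hALG hCHI hIBT (fun p => φ (pm j p)) (fun p => φ (pm m p)) (hsm j) (hsm m)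
      (hfun ▸ k1) ?_ k3]
    · rw [← integral_neg]
      refine integral_congr_ae (Eventually.of_forall fun p => ?_)
      simp only [hL]
      ring
    · simp only [hL]
      refine (k2.neg).congr (Eventually.of_forall fun p => ?_)
      simp only [Pi.neg_apply]
      ring
  refine ⟨?_, hpart2, ?_⟩
  · intro η hη
    obtain ⟨d1, d2, d3, d4', d5⟩ := hD1 η hη
    rw [IBD_.ibp hALG hCHI hIBT η (Ph φ) hη.smooth hPh d2 ?_ ?_]
    · rw [← integral_neg]
      refine integral_congr_ae (Eventually.of_forall fun p => ?_)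
      simp only [hLP]
      rw [← Finset.mul_sum]
      ring
    · simp only [hLP]
      have : Integrable (fun p => ∑ m, η p * ww φ (pm m p)) :=
        integrable_finsetSum _ fun m _ => (d5 m).1
      refine this.neg.congr (Eventually.of_forall fun p => ?_)
      simp only [Pi.neg_apply]
      rw [← Finset.mul_sum]
      ring
    · intro m c
      refine (d4' m c).norm.mono' ?_ (Eventually.of_forall fun p => ?_)
      · have hc : Continuous (fun p : W4 => (1 + ‖p‖)⁻¹) :=
          (continuous_const.add continuous_norm).inv₀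
            (fun p => (by linarith [norm_nonneg p] : (0 : ℝ) < 1 + ‖p‖).ne')
        exact (hc.mul (hη.smooth.continuous.mul
          ((hALG _ _ hPh hPh).2.2.2.1 (d4 m c)).continuous)).aestronglyMeasurable
      · rw [norm_mul]
        have hP : 0 < 1 + ‖p‖ := by positivity
        rw [norm_inv, Real.norm_of_nonneg hP.le]
        refine mul_le_of_le_one_left (norm_nonneg _) ?_
        exact inv_le_one_of_one_le₀ (by linarith [norm_nonneg p])
  · unfold B40 Pq
    have h1 : ∀ p, ∑ m, ww φ (pm m p) * ∑ j ∈ Finset.univ.erase m, φ (pm j p) =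
        ∑ m, ∑ j ∈ Finset.univ.erase m, ww φ (pm m p) * φ (pm j p) := fun p =>
      Finset.sum_congr rfl fun m _ => Finset.mul_sum _ _ _
    simp only [h1]
    have hne : ∀ m : Fin 4, ∀ j ∈ Finset.univ.erase m, m ≠ j := fun m j hj =>
      (Finset.ne_of_mem_erase hj).symm
    rw [integral_finsetSum _ fun m _ => integrable_finsetSum _ fun j hj =>
      (hD3 m j (hne m j hj)).2.1]
    refine Finset.sum_congr rfl fun m _ => ?_
    rw [integral_finsetSum _ fun j hj => (hD3 m j (hne m j hj)).2.1]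
    refine Finset.sum_congr rfl fun j hj => ?_
    exact (hpart2 m j (hne m j hj)).symm

end Pool.Agent.TBF
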