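import Pool.Agent.TBF.Stmts

/-!
# MP_80dc41_mp, module IBT: integration by parts with a test function
-/

set_option autoImplicit false

open MeasureTheory Filter Topology
open scoped ContDiff

namespace Pool.Agent.TBF

open Pool.Agent.TBG Pool.Agent.TBL

namespace IBT_

theorem main (W : Type) [NormedAddCommGroup W] [NormedSpace ℝ W] [FiniteDimensional ℝ W]
    [MeasurableSpace W] [BorelSpace W] (μ : Measure W) [μ.IsAddHaarMeasure] (f g : W → ℝ) (v : W)
    (hf : ContDiff ℝ 1 f) (hg : ContDiff ℝ 1 g) (hc : HasCompactSupport f) :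
    ∫ x, f x * dv v g x ∂μ = - ∫ x, dv v f x * g x ∂μ := by
  have hcf : Continuous (fun x => fderiv ℝ f x v) :=
    (hf.continuous_fderiv (by norm_num)).clm_apply continuous_const
  have hcg : Continuous (fun x => fderiv ℝ g x v) :=
    (hg.continuous_fderiv (by norm_num)).clm_apply continuous_const
  have hcs : HasCompactSupport (fun x => fderiv ℝ f x v) := hc.fderiv_apply (𝕜 := ℝ) v
  unfold dv
  refine integral_mul_fderiv_eq_neg_fderiv_mul_of_integrable ?_ ?_ ?_ ?_ ?_
  · exact (hcf.mul hg.continuous).integrable_of_hasCompactSupport hcs.mul_right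
  · exact (hf.continuous.mul hcg).integrable_of_hasCompactSupport hc.mul_right
  · exact (hf.continuous.mul hg.continuous).integrable_of_hasCompactSupport hc.mul_right
  · intro x _
    exact hf.differentiable (by norm_num) x
  · intro x _
    exact hg.differentiable (by norm_num) x

lemma haar : (volume : Measure W4).IsAddHaarMeasure := by
  have h2 : (volume : Measure (E × E)).IsAddHaarMeasure :=
    Measure.prod.instIsAddHaarMeasure (volume : Measure E) (volume : Measure E)
  exact @Measure.prod.instIsAddHaarMeasure _ _ _ _ _ _ _ _ (volume : Measure E) (volume : Measure (E × E))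
    _ h2 _ _ _ _

end IBT_

open IBT_ in
theorem ibt_proof (hALG : Stmt_ALG) : Stmt_IBT := by
  intro η F hη hF
  have := haar
  have hdη : ∀ v : W4, ContDiff ℝ ∞ (dv v η) := (hALG η η hη.1 hη.1).2.2.2.1
  have hdF : ∀ v : W4, ContDiff ℝ ∞ (dv v F) := (hALG F F hF hF).2.2.2.1
  have hddF : ∀ v : W4, ContDiff ℝ ∞ (dv v (dv v F)) := fun v => (hALG _ _ (hdF v) (hdF v)).2.2.2.1 v
  have hcs : ∀ v : W4, HasCompactSupport (dv v η) := fun v => hη.2.fderiv_apply (𝕜 := ℝ) v
  have h1 : ∀ m c, ∫ p, dv (d4 m c) η p * dv (d4 m c) F p =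
      - ∫ p, η p * dv (d4 m c) (dv (d4 m c) F) p := by
    intro m c
    rw [main W4 volume η (dv (d4 m c) F) (d4 m c) (hη.1.of_le (by simp)) ((hdF _).of_le (by simp)) hη.2, neg_neg]
  have i1 : ∀ m c, Integrable (fun p => dv (d4 m c) η p * dv (d4 m c) F p) := fun m c =>
    ((hdη _).continuous.mul (hdF _).continuous).integrable_of_hasCompactSupport (hcs _).mul_right
  have i2 : ∀ m c, Integrable (fun p => η p * dv (d4 m c) (dv (d4 m c) F) p) := fun m c =>
    (hη.1.continuous.mul (hddF _).continuous).integrable_of_hasCompactSupport hη.2.mul_right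
  have e2 : (fun p => η p * Lap4 F p) = fun p => ∑ m, ∑ c, η p * dv (d4 m c) (dv (d4 m c) F) p := by
    funext p
    unfold Lap4
    rw [Finset.mul_sum]
    exact Finset.sum_congr rfl fun m _ => by rw [Finset.mul_sum]
  rw [e2]
  unfold gdt
  rw [integral_finsetSum _ fun m _ => integrable_finsetSum _ fun c _ => i1 m c,
    integral_finsetSum _ fun m _ => integrable_finsetSum _ fun c _ => i2 m c, ← Finset.sum_neg_distrib]
  refine Finset.sum_congr rfl fun m _ => ?_
  rw [integral_finsetSum _ fun c _ => i1 m c, integral_finsetSum _ fun c _ => i2 m c,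
    ← Finset.sum_neg_distrib]
  exact Finset.sum_congr rfl fun c _ => h1 m c

end Pool.Agent.TBF
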