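import Pool.Agent.TBF.Stmts

set_option autoImplicit false

open MeasureTheory Filter Topology
open scoped ContDiff

namespace Pool.Agent.TBF

open Pool.Agent.TBG Pool.Agent.TBL

namespace INW_

/-- the reassociated weight is integrable -/
theorem base {r s : ℝ} (hr : 6 < r) (hs : 3 < s) :
    Integrable (fun q : (E × E) × E => (1 + ‖q.1‖) ^ (-r) * (1 + ‖q.2‖) ^ (-s)) := by
  have i1 : (volume : Measure (E × E)).IsAddHaarMeasure :=
    Measure.prod.instIsAddHaarMeasure (volume : Measure E) (volume : Measure E)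
  have e3 : Module.finrank ℝ E = 3 := by simp [E]
  have e6 : Module.finrank ℝ (E × E) = 6 := by rw [Module.finrank_prod, e3]
  have h1 : Integrable (fun z : E × E => (1 + ‖z‖) ^ (-r)) (volume : Measure (E × E)) :=
    integrable_one_add_norm (by rw [e6]; exact_mod_cast hr)
  have h2 : Integrable (fun u : E => (1 + ‖u‖) ^ (-s)) (volume : Measure E) :=
    integrable_one_add_norm (by rw [e3]; exact_mod_cast hs)
  exact h1.mul_prod h2

theorem base4 {r s : ℝ} (hr : 6 < r) (hs : 3 < s) :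
    Integrable (fun p : W4 => (1 + ‖((p.1, p.2.1) : E × E)‖) ^ (-r) * (1 + ‖p.2.2‖) ^ (-s)) := by
  have hmp : MeasurePreserving (MeasurableEquiv.prodAssoc : (E × E) × E ≃ᵐ E × E × E)
      volume volume := volume_preserving_prodAssoc
  have h := (hmp.symm _).integrable_comp_emb
    (MeasurableEquiv.prodAssoc : (E × E) × E ≃ᵐ E × E × E).symm.measurableEmbedding
    (g := fun q : (E × E) × E => (1 + ‖q.1‖) ^ (-r) * (1 + ‖q.2‖) ^ (-s))
  exact h.mpr (base hr hs)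

theorem pm3 (p : W4) : pm 3 p = (p.1, p.2.1) := by
  have h0 : (3 : Fin 4).succAbove 0 = 0 := by decide
  have h1 : (3 : Fin 4).succAbove 1 = 1 := by decide
  have h2 : (3 : Fin 4).succAbove 2 = 2 := by decide
  simp only [pm, h0, h1, h2]
  simp [cf]

theorem three (a b : ℕ) (ha : 3 < a) (hab : 9 < a + b) :
    Integrable (fun p : W4 => ((1 + ‖p‖) ^ a)⁻¹ * ((1 + ‖pm 3 p‖) ^ b)⁻¹) := by
  have hi := base4 (r := (a : ℝ) + b - 7 / 2) (s := 7 / 2)
    (by have : (10 : ℝ) ≤ a + b := by exact_mod_cast hab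
        linarith) (by norm_num)
  refine hi.mono' ?_ (Filter.Eventually.of_forall fun p => ?_)
  · apply Continuous.aestronglyMeasurable
    simp_rw [pm3]
    refine Continuous.mul ?_ ?_
    · exact Continuous.inv₀ (by fun_prop) fun p => by positivity
    · exact Continuous.inv₀ (by fun_prop) fun p => by positivity
  · rw [pm3]
    set z : E × E := (p.1, p.2.1) with hz
    set u : E := p.2.2 with hu
    have hzp : ‖z‖ ≤ ‖p‖ := by
      rw [hz, Prod.norm_def]
      refine max_le (norm_fst_le p) ?_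
      exact (norm_fst_le p.2).trans (norm_snd_le p)
    have hup : ‖u‖ ≤ ‖p‖ := (norm_snd_le p.2).trans (norm_snd_le p)
    have P0 : (0 : ℝ) < 1 + ‖p‖ := by positivity
    have Z0 : (0 : ℝ) < 1 + ‖z‖ := by positivity
    have U0 : (0 : ℝ) < 1 + ‖u‖ := by positivity
    rw [Real.norm_of_nonneg (by positivity)]
    have ha' : (4 : ℝ) ≤ a := by exact_mod_cast ha
    have e1 : ((1 + ‖p‖) ^ a)⁻¹ = (1 + ‖p‖) ^ (-((a : ℝ) - 7 / 2)) * (1 + ‖p‖) ^ (-(7 / 2) : ℝ) := by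
      rw [← Real.rpow_add P0, ← Real.rpow_natCast, ← Real.rpow_neg P0.le]
      congr 1
      ring
    have e2 : ((1 + ‖z‖) ^ b)⁻¹ = (1 + ‖z‖) ^ (-(b : ℝ)) := by
      rw [← Real.rpow_natCast, ← Real.rpow_neg Z0.le]
    have e3 : (1 + ‖z‖) ^ (-((a : ℝ) + b - 7 / 2)) =
        (1 + ‖z‖) ^ (-((a : ℝ) - 7 / 2)) * (1 + ‖z‖) ^ (-(b : ℝ)) := by
      rw [← Real.rpow_add Z0]
      congr 1
      ring
    have h1 : (1 + ‖p‖) ^ (-((a : ℝ) - 7 / 2)) ≤ (1 + ‖z‖) ^ (-((a : ℝ) - 7 / 2)) :=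
      Real.rpow_le_rpow_of_nonpos Z0 (by linarith) (by linarith)
    have h2 : (1 + ‖p‖) ^ (-(7 / 2) : ℝ) ≤ (1 + ‖u‖) ^ (-(7 / 2) : ℝ) :=
      Real.rpow_le_rpow_of_nonpos U0 (by linarith) (by norm_num)
    rw [e1, e2, e3]
    calc (1 + ‖p‖) ^ (-((a : ℝ) - 7 / 2)) * (1 + ‖p‖) ^ (-(7 / 2) : ℝ) * (1 + ‖z‖) ^ (-(b : ℝ))
        ≤ (1 + ‖z‖) ^ (-((a : ℝ) - 7 / 2)) * (1 + ‖u‖) ^ (-(7 / 2) : ℝ) *
            (1 + ‖z‖) ^ (-(b : ℝ)) := by gcongr
      _ = _ := by ring

end INW_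

open INW_ in
theorem inw_proof (hRLP : Stmt_RLP) (hRLS : Stmt_RLS) (hPMV : Stmt_PMV) : Stmt_INW := by
  intro m a b ha hab
  obtain ⟨_, _, _, _, _, _, _, hTm, _, _, _, hPm⟩ := hRLP
  obtain ⟨_, hτ, _⟩ := hRLS
  obtain ⟨τ, _, hpm, _⟩ := hτ m
  have h3 := (hPMV τ).2.2 _ (three a b ha hab)
  refine (h3.const_mul (2 ^ a)).mono' ?_ (Filter.Eventually.of_forall fun p => ?_)
  · obtain ⟨T, hT⟩ := hTm m
    apply Continuous.aestronglyMeasurable
    simp_rw [← hT]
    refine Continuous.mul ?_ ?_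
    · exact Continuous.inv₀ (by fun_prop) fun p => by positivity
    · exact Continuous.inv₀ (by fun_prop) fun p => by positivity
  · rw [Real.norm_of_nonneg (by positivity), ← hpm p, ← mul_assoc]
    refine mul_le_mul_of_nonneg_right ?_ (by positivity)
    have h1 : 1 + ‖Pm τ p‖ ≤ 2 * (1 + ‖p‖) := by linarith [(hPm τ p).1, norm_nonneg p]
    rw [inv_eq_one_div, inv_eq_one_div, mul_one_div, div_le_div_iff₀ (by positivity) (by positivity),
      one_mul, ← mul_pow]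
    exact pow_le_pow_left₀ (by positivity) h1 a

end Pool.Agent.TBF
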