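import Pool.Agent.TBF.Stmts

/-!
Squad TBF, module JSY: symmetrisation of the primal problem.
-/

set_option autoImplicit false

open MeasureTheory Filter Topology
open scoped ContDiff

namespace Pool.Agent.TBF

open Pool.Agent.TBG Pool.Agent.TBL

namespace JSY_

theorem Vm_nonneg {φ : E × E → ℝ} (hφ : Scat φ) (m : Fin 4) (p : W4) : 0 ≤ Vm φ m p := by
  unfold Vm VV ww
  have h1 := hφ.sup ((pm m p).1, (pm m p).2)
  have h2 := hφ.le_half ((pm m p).1, (pm m p).2)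
  exact div_nonneg (by linarith) (by linarith)

theorem card_perm : (Finset.univ : Finset (Equiv.Perm (Fin 4))).card = 24 := by
  rw [Finset.card_univ, Fintype.card_perm]
  rfl

theorem sq_avg (a : Equiv.Perm (Fin 4) → ℝ) :
    (1 / 24 * ∑ σ, a σ) ^ 2 ≤ 1 / 24 * ∑ σ, a σ ^ 2 := by
  have h := sq_sum_le_card_mul_sum_sq (s := (Finset.univ : Finset (Equiv.Perm (Fin 4)))) (f := a)
  rw [card_perm] at h
  rw [mul_pow]
  push_cast at h
  linarith

theorem dv_avg (F : Equiv.Perm (Fin 4) → W4 → ℝ) (hF : ∀ i, ContDiff ℝ ∞ (F i)) (v : W4) (p : W4) :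
    dv v (fun p => 1 / 24 * ∑ i, F i p) p = 1 / 24 * ∑ i, dv v (F i) p := by
  unfold dv
  have h : ∀ i ∈ (Finset.univ : Finset (Equiv.Perm (Fin 4))), DifferentiableAt ℝ (F i) p := fun i _ =>
    ((hF i).differentiable (by simp)).differentiableAt
  rw [fderiv_const_mul (DifferentiableAt.fun_sum h), fderiv_fun_sum h]
  simp

theorem cpt (l : ℝ) (f : W4 → ℝ) (h : ∀ p : W4, l < ‖p‖ → f p = 0) : HasCompactSupport f := by
  apply HasCompactSupport.of_support_subset_isCompact (isCompact_closedBall (0 : W4) l)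
  intro p hp
  by_contra hcon
  rw [Metric.mem_closedBall, dist_zero_right, not_le] at hcon
  exact hp (h p hcon)

end JSY_

open JSY_ in
theorem jsy_proof (hRLP : Stmt_RLP) (hRLS : Stmt_RLS) (hPMV : Stmt_PMV) (hDVP : Stmt_DVP)
    (_hALG : Stmt_ALG) (hSCB : Stmt_SCB) (hDCL : Stmt_DCL) (hDIT : Stmt_DIT) : Stmt_JSY := by
  intro φ hφ η hη
  obtain ⟨-, -, -, -, -, -, -, -, -, hVsym, -⟩ := hSCB φ hφ
  have hsm : ∀ σ : Equiv.Perm (Fin 4), ContDiff ℝ ∞ (fun p => η (Pm σ p)) := fun σ =>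
    (hDVP η σ hη.1).1
  have hPq : ∀ m p, Pq φ m p = Ph φ p - φ (pm m p) := by
    intro m p
    unfold Pq Ph
    rw [Finset.sum_erase_eq_sub (Finset.mem_univ m)]
  have hφm : ∀ (σ : Equiv.Perm (Fin 4)) m p, φ (pm m (Pm σ p)) = φ (pm (σ m) p) :=
    fun σ m p => hRLS.1 φ hφ.sy1 hφ.sy2 σ m p
  have hVm : ∀ (σ : Equiv.Perm (Fin 4)) m p, Vm φ m (Pm σ p) = Vm φ (σ m) p := fun σ m p =>
    hRLS.1 (fun z => VV φ z.1 z.2) (fun x y => (hVsym x y).1) (fun x y => (hVsym x y).2) σ m p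
  have hPhm : ∀ (σ : Equiv.Perm (Fin 4)) p, Ph φ (Pm σ p) = Ph φ p := by
    intro σ p
    unfold Ph
    rw [← Equiv.sum_comp σ (fun m => φ (pm m p))]
    exact Finset.sum_congr rfl fun m _ => hφm σ m p
  have hPqm : ∀ (σ : Equiv.Perm (Fin 4)) m p, Pq φ m (Pm σ p) = Pq φ (σ m) p := by
    intro σ m p
    rw [hPq, hPq, hPhm σ p, hφm σ m p]
  obtain ⟨k1, -, -, -, k5⟩ := (hDIT φ hφ).1 η (hDCL.1 η hη)
  have hI : Integrable (fun p => gsq4 η p + ∑ m, Vm φ m p * (η p - Pq φ m p) ^ 2) :=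
    k1.add (integrable_finsetSum _ fun m _ => (k5 m).2.1)
  refine ⟨fun p => 1 / 24 * ∑ σ : Equiv.Perm (Fin 4), η (Pm σ p), ⟨?_, ?_⟩, ?_, ?_⟩
  · exact contDiff_const.mul (ContDiff.sum fun σ _ => hsm σ)
  · obtain ⟨R, hR⟩ := hη.2.isCompact.isBounded.exists_norm_le
    refine cpt (2 * R) _ fun p hp => ?_
    have : ∀ σ : Equiv.Perm (Fin 4), η (Pm σ p) = 0 := by
      intro σ
      apply image_eq_zero_of_notMem_tsupport
      intro hmem
      have h1 := hR _ hmem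
      have h2 := (hRLP.2.2.2.2.2.2.2.2.2.2.2 σ p).2
      linarith
    simp [this]
  · intro τ p
    have h1 : ∀ σ : Equiv.Perm (Fin 4), η (Pm σ (Pm τ p)) = η (Pm (τ * σ) p) := fun σ => by
      rw [hRLP.2.2.2.2.2.1]
    simp only [h1]
    rw [← Equiv.sum_comp (Equiv.mulLeft τ) (fun σ : Equiv.Perm (Fin 4) => η (Pm σ p))]
    rfl
  · unfold JJ
    have h1 : ∀ σ : Equiv.Perm (Fin 4), Integrable (fun p => gsq4 η (Pm σ p) +
        ∑ m, Vm φ m (Pm σ p) * (η (Pm σ p) - Pq φ m (Pm σ p)) ^ 2) := fun σ => (hPMV σ).2.2 _ hI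
    have h2 : ∫ p, 1 / 24 * ∑ σ : Equiv.Perm (Fin 4), (gsq4 η (Pm σ p) +
        ∑ m, Vm φ m (Pm σ p) * (η (Pm σ p) - Pq φ m (Pm σ p)) ^ 2) =
        ∫ p, (gsq4 η p + ∑ m, Vm φ m p * (η p - Pq φ m p) ^ 2) := by
      rw [integral_const_mul, integral_finsetSum _ fun σ _ => h1 σ]
      have h3 : ∀ σ ∈ (Finset.univ : Finset (Equiv.Perm (Fin 4))), ∫ p, (gsq4 η (Pm σ p) +
          ∑ m, Vm φ m (Pm σ p) * (η (Pm σ p) - Pq φ m (Pm σ p)) ^ 2) =
          ∫ p, (gsq4 η p + ∑ m, Vm φ m p * (η p - Pq φ m p) ^ 2) := fun σ _ =>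
        (hPMV σ).2.1 (fun p => gsq4 η p + ∑ m, Vm φ m p * (η p - Pq φ m p) ^ 2)
      rw [Finset.sum_congr rfl h3, Finset.sum_const, card_perm, nsmul_eq_mul]
      push_cast
      ring
    rw [← h2]
    refine integral_mono_of_nonneg (Eventually.of_forall fun p => ?_)
      ((integrable_finsetSum _ fun σ _ => h1 σ).const_mul _) (Eventually.of_forall fun p => ?_)
    · exact add_nonneg (Finset.sum_nonneg fun m _ => Finset.sum_nonneg fun c _ => sq_nonneg _)
        (Finset.sum_nonneg fun m _ => mul_nonneg (Vm_nonneg hφ m p) (sq_nonneg _))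
    · simp only
      rw [Finset.sum_add_distrib, mul_add]
      refine add_le_add ?_ ?_
      · have e1 : ∀ σ : Equiv.Perm (Fin 4), gsq4 η (Pm σ p) =
            ∑ m, ∑ c, dv (d4 m c) (fun p => η (Pm σ p)) p ^ 2 := fun σ =>
          ((hDVP η σ hη.1).2.2.1 p).symm
        simp only [e1]
        unfold gsq4
        have e2 : ∀ m c, dv (d4 m c) (fun p => 1 / 24 * ∑ σ : Equiv.Perm (Fin 4), η (Pm σ p)) p ^ 2 ≤
            1 / 24 * ∑ σ : Equiv.Perm (Fin 4), dv (d4 m c) (fun p => η (Pm σ p)) p ^ 2 := fun m c => by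
          rw [dv_avg (fun σ p => η (Pm σ p)) hsm]
          exact sq_avg _
        refine (Finset.sum_le_sum fun m _ => Finset.sum_le_sum fun c _ => e2 m c).trans (le_of_eq ?_)
        simp only [← Finset.mul_sum]
        congr 1
        rw [Finset.sum_congr rfl fun m _ => Finset.sum_comm, Finset.sum_comm]
      · have e2 : ∀ m, Vm φ m p * (1 / 24 * ∑ σ : Equiv.Perm (Fin 4), η (Pm σ p) - Pq φ m p) ^ 2 ≤
            1 / 24 * ∑ σ : Equiv.Perm (Fin 4), Vm φ m p * (η (Pm σ p) - Pq φ m p) ^ 2 := fun m => by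
          rw [← Finset.mul_sum]
          have e3 : 1 / 24 * ∑ σ : Equiv.Perm (Fin 4), η (Pm σ p) - Pq φ m p =
              1 / 24 * ∑ σ : Equiv.Perm (Fin 4), (η (Pm σ p) - Pq φ m p) := by
            rw [Finset.sum_sub_distrib, Finset.sum_const, card_perm, nsmul_eq_mul]
            push_cast
            ring
          rw [e3]
          have := mul_le_mul_of_nonneg_left (sq_avg (fun σ => η (Pm σ p) - Pq φ m p))
            (Vm_nonneg hφ m p)
          linarith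
        refine (Finset.sum_le_sum fun m _ => e2 m).trans (le_of_eq ?_)
        rw [← Finset.mul_sum]
        congr 1
        rw [Finset.sum_comm]
        refine Finset.sum_congr rfl fun σ _ => ?_
        rw [← Equiv.sum_comp σ (fun m => Vm φ m p * (η (Pm σ p) - Pq φ m p) ^ 2)]
        exact Finset.sum_congr rfl fun m _ => by rw [hVm σ m p, hPqm σ m p]

end Pool.Agent.TBF
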