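import Pool.Agent.TBF.Stmts

/-!
# MP_80dc41_mp, module MOC: convergence of the mollified functionals
-/

set_option autoImplicit false

open MeasureTheory Filter Topology
open scoped ContDiff

namespace Pool.Agent.TBF

open Pool.Agent.TBG Pool.Agent.TBL

namespace MOC_

section gen

variable {W : Type} [NormedAddCommGroup W] [NormedSpace ℝ W] [FiniteDimensional ℝ W]
  [MeasurableSpace W] [BorelSpace W] (μ : Measure W) [μ.IsAddHaarMeasure]

lemma sec_eq (M Φ : W → ℝ) {κ : ℝ} (hκ : 0 < κ) (h x : W) :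
    M (κ • (x - h)) * Φ x = (fun y => M y * Φ (κ⁻¹ • y + h)) (κ • (x - h)) := by
  simp only
  rw [smul_smul, inv_mul_cancel₀ hκ.ne', one_smul, sub_add_cancel]

lemma sec_int (M Φ : W → ℝ) {κ : ℝ} (hκ : 0 < κ) (h : W)
    (hi : Integrable (fun y => M y * Φ (κ⁻¹ • y + h)) μ) :
    Integrable (fun x => M (κ • (x - h)) * Φ x) μ := by
  have h1 : (fun x => M (κ • (x - h)) * Φ x) =
      fun x => (fun z => (fun y => M y * Φ (κ⁻¹ • y + h)) (κ • z)) (x - h) := by
    funext x; exact sec_eq M Φ hκ h x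
  rw [h1]
  exact (hi.comp_smul hκ.ne').comp_sub_right h

lemma sec_val (M Φ : W → ℝ) {κ : ℝ} (hκ : 0 < κ) (h : W) :
    ∫ x, M (κ • (x - h)) * Φ x ∂μ =
      (κ ^ Module.finrank ℝ W)⁻¹ * ∫ y, M y * Φ (κ⁻¹ • y + h) ∂μ := by
  have h1 : (fun x => M (κ • (x - h)) * Φ x) =
      fun x => (fun z => (fun y => M y * Φ (κ⁻¹ • y + h)) (κ • z)) (x - h) := by
    funext x; exact sec_eq M Φ hκ h x
  rw [h1, integral_sub_right_eq_self (fun z => (fun y => M y * Φ (κ⁻¹ • y + h)) (κ • z)) h,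
    Measure.integral_comp_smul μ (fun y => M y * Φ (κ⁻¹ • y + h)) κ, smul_eq_mul, abs_of_pos]
  positivity

lemma dom (M Φ D : W → ℝ) (hM : AEStronglyMeasurable M μ) (hΦ : Continuous Φ)
    (hMD : Integrable (fun x => M x * D x) μ)
    (hd : ∀ (κ : ℝ) (h x : W), 1 ≤ κ → κ ≤ 2 → ‖h‖ ≤ 1 → |Φ (κ⁻¹ • x + h)| ≤ D x)
    {κ : ℝ} (h1 : 1 ≤ κ) (h2 : κ ≤ 2) {h : W} (hh : ‖h‖ ≤ 1) :
    Integrable (fun y => M y * Φ (κ⁻¹ • y + h)) μ := by
  apply hMD.mono
  · exact hM.mul (by fun_prop : Continuous fun y => Φ (κ⁻¹ • y + h)).aestronglyMeasurable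
  · refine Eventually.of_forall fun y => ?_
    rw [norm_mul, norm_mul]
    refine mul_le_mul_of_nonneg_left ?_ (norm_nonneg _)
    rw [Real.norm_eq_abs, Real.norm_eq_abs]
    exact (hd κ h y h1 h2 hh).trans (le_abs_self _)

/-- continuity of the pairing -/
lemma cont (M Φ D : W → ℝ) (hM : AEStronglyMeasurable M μ) (hΦ : Continuous Φ)
    (hMD : Integrable (fun x => M x * D x) μ)
    (hd : ∀ (κ : ℝ) (h x : W), 1 ≤ κ → κ ≤ 2 → ‖h‖ ≤ 1 → |Φ (κ⁻¹ • x + h)| ≤ D x)
    {ε : ℝ} (hε : 0 < ε) : ∃ δ : ℝ, 0 < δ ∧ δ ≤ 1 ∧ ∀ (κ : ℝ) (h : W), 1 < κ → κ < 1 + δ → ‖h‖ ≤ δ →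
      |(κ ^ Module.finrank ℝ W)⁻¹ * ∫ y, M y * Φ (κ⁻¹ • y + h) ∂μ - ∫ y, M y * Φ y ∂μ| ≤ ε := by
  let S : Set (ℝ × W) := {z | 1 ≤ z.1 ∧ z.1 ≤ 2 ∧ ‖z.2‖ ≤ 1}
  have hS : ∀ᶠ z in 𝓝[S] ((1 : ℝ), (0 : W)), z ∈ S := self_mem_nhdsWithin
  have hlim : Tendsto (fun z : ℝ × W => ∫ y, M y * Φ (z.1⁻¹ • y + z.2) ∂μ) (𝓝[S] ((1 : ℝ), (0 : W)))
      (𝓝 (∫ y, M y * Φ y ∂μ)) := by
    apply tendsto_integral_filter_of_dominated_convergence (fun x => |M x * D x|)
    · filter_upwards [hS] with z hz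
      exact (dom μ M Φ D hM hΦ hMD hd hz.1 hz.2.1 hz.2.2).aestronglyMeasurable
    · filter_upwards [hS] with z hz
      refine Eventually.of_forall fun y => ?_
      rw [norm_mul, abs_mul, Real.norm_eq_abs, Real.norm_eq_abs]
      refine mul_le_mul_of_nonneg_left ?_ (abs_nonneg _)
      exact (hd z.1 z.2 y hz.1 hz.2.1 hz.2.2).trans (le_abs_self _)
    · exact hMD.abs
    · refine Eventually.of_forall fun y => ?_
      have hc : ContinuousAt (fun z : ℝ × W => M y * Φ (z.1⁻¹ • y + z.2)) ((1 : ℝ), (0 : W)) := by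
        have : ContinuousAt (fun z : ℝ × W => z.1⁻¹ • y + z.2) ((1 : ℝ), (0 : W)) := by
          refine ContinuousAt.add (ContinuousAt.smul (ContinuousAt.inv₀ continuousAt_fst (by simp))
            continuousAt_const) continuousAt_snd
        exact continuousAt_const.mul (ContinuousAt.comp hΦ.continuousAt this)
      have h2 := hc.tendsto.mono_left (nhdsWithin_le_nhds (s := S))
      simpa using h2
  have hlim2 : Tendsto (fun z : ℝ × W => (z.1 ^ Module.finrank ℝ W)⁻¹ * ∫ y, M y * Φ (z.1⁻¹ • y + z.2) ∂μ)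
      (𝓝[S] ((1 : ℝ), (0 : W))) (𝓝 (∫ y, M y * Φ y ∂μ)) := by
    have h3 : Tendsto (fun z : ℝ × W => (z.1 ^ Module.finrank ℝ W)⁻¹) (𝓝[S] ((1 : ℝ), (0 : W))) (𝓝 1) := by
      have : ContinuousAt (fun z : ℝ × W => (z.1 ^ Module.finrank ℝ W)⁻¹) ((1 : ℝ), (0 : W)) :=
        ContinuousAt.inv₀ (continuousAt_fst.pow _) (by simp)
      have h2 := this.tendsto.mono_left (nhdsWithin_le_nhds (s := S))
      simpa using h2
    simpa using h3.mul hlim
  rw [Metric.tendsto_nhdsWithin_nhds] at hlim2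
  obtain ⟨δ, hδ, hδ2⟩ := hlim2 ε hε
  refine ⟨min (δ / 2) 1, lt_min (by positivity) one_pos, min_le_right _ _, fun κ h h1 h2 h3 => ?_⟩
  have hle := min_le_left (δ / 2) 1
  have hle1 := min_le_right (δ / 2) 1
  have hz : ((κ, h) : ℝ × W) ∈ S := ⟨h1.le, by linarith, by linarith⟩
  have := hδ2 hz (by
    rw [Prod.dist_eq]
    apply max_lt
    · rw [Real.dist_eq, abs_of_nonneg] <;> simp only <;> linarith
    · simp only [dist_zero_right]; linarith)
  rw [Real.dist_eq] at this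
  exact this.le

/-- the pairing of the mollified function with a test function -/
lemma main (M Φ D ρ : W → ℝ) (hM : StronglyMeasurable M) (hΦ : Continuous Φ)
    (hMD : Integrable (fun x => M x * D x) μ)
    (hd : ∀ (κ : ℝ) (h x : W), 1 ≤ κ → κ ≤ 2 → ‖h‖ ≤ 1 → |Φ (κ⁻¹ • x + h)| ≤ D x)
    {κ δ : ℝ} (h1 : 1 ≤ κ) (h2 : κ ≤ 2) (hδ : δ ≤ 1) (hρ : Continuous ρ) (hρ0 : ∀ h, 0 ≤ ρ h)
    (hρs : ∀ h, δ < ‖h‖ → ρ h = 0) (hρi : Integrable ρ μ) :
    Integrable (fun x => (∫ h, ρ h * M (κ • (x - h)) ∂μ) * Φ x) μ ∧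
    ∫ x, (∫ h, ρ h * M (κ • (x - h)) ∂μ) * Φ x ∂μ =
      ∫ h, ρ h * ((κ ^ Module.finrank ℝ W)⁻¹ * ∫ y, M y * Φ (κ⁻¹ • y + h) ∂μ) ∂μ := by
  have hκ : 0 < κ := by linarith
  have hD0 : ∀ x, 0 ≤ D x := fun x => (abs_nonneg _).trans (hd 1 0 x le_rfl (by norm_num) (by simp))
  let K : W × W → ℝ := fun z => ρ z.1 * (M (κ • (z.2 - z.1)) * Φ z.2)
  have hKm : StronglyMeasurable K := by
    refine (hρ.comp continuous_fst).stronglyMeasurable.mul (StronglyMeasurable.mul ?_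
      (hΦ.comp continuous_snd).stronglyMeasurable)
    exact hM.comp_measurable (by fun_prop : Continuous fun z : W × W => κ • (z.2 - z.1)).measurable
  have hsec : ∀ h, Integrable (fun x => K (h, x)) μ := by
    intro h
    by_cases hh : δ < ‖h‖
    · simp only [K, hρs h hh, zero_mul]; exact integrable_zero _ _ _
    · exact (sec_int μ M Φ hκ h (dom μ M Φ D hM.aestronglyMeasurable hΦ hMD hd h1 h2
        ((not_lt.mp hh).trans hδ))).const_mul (ρ h)
  have hnorm : ∀ h, ∫ x, ‖K (h, x)‖ ∂μ ≤ ρ h * ((κ ^ Module.finrank ℝ W)⁻¹ * ∫ y, |M y * D y| ∂μ) := by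
    intro h
    by_cases hh : δ < ‖h‖
    · simp only [K, hρs h hh, zero_mul, norm_zero, integral_zero]; exact le_rfl
    · have hh1 := (not_lt.mp hh).trans hδ
      have e1 : (fun x => ‖K (h, x)‖) = fun x => ρ h * ((fun y => |M y|) (κ • (x - h)) * (fun y => |Φ y|) x) := by
        funext x
        simp only [K, norm_mul, Real.norm_eq_abs, abs_of_nonneg (hρ0 h)]
      rw [e1, integral_const_mul, sec_val μ (fun y => |M y|) (fun y => |Φ y|) hκ h]
      refine mul_le_mul_of_nonneg_left (mul_le_mul_of_nonneg_left ?_ (by positivity)) (hρ0 h)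
      refine integral_mono ?_ hMD.abs ?_
      · have := (dom μ M Φ D hM.aestronglyMeasurable hΦ hMD hd h1 h2 hh1).abs
        simpa only [abs_mul] using this
      · intro y
        simp only [abs_mul]
        exact mul_le_mul_of_nonneg_left ((hd κ h y h1 h2 hh1).trans (le_abs_self _)) (abs_nonneg _)
  have hK : Integrable K (μ.prod μ) := by
    rw [integrable_prod_iff hKm.aestronglyMeasurable]
    refine ⟨Eventually.of_forall hsec, ?_⟩
    refine Integrable.mono' (hρi.mul_const ((κ ^ Module.finrank ℝ W)⁻¹ * ∫ y, |M y * D y| ∂μ))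
      hKm.aestronglyMeasurable.norm.integral_prod_right' (Eventually.of_forall fun h => ?_)
    rw [Real.norm_eq_abs, abs_of_nonneg (integral_nonneg fun x => norm_nonneg _)]
    exact hnorm h
  have e2 : (fun x => (∫ h, ρ h * M (κ • (x - h)) ∂μ) * Φ x) = fun x => ∫ h, K (h, x) ∂μ := by
    funext x
    rw [← integral_mul_const]
    simp only [K, mul_assoc]
  constructor
  · rw [e2]; exact hK.integral_prod_right
  · rw [e2]
    have h3 := integral_integral_swap (f := fun h x => K (h, x)) (μ := μ) (ν := μ) hK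
    rw [← h3]
    congr 1
    funext h
    rw [← sec_val μ M Φ hκ h, ← integral_const_mul]

end gen

instance haarW4 : (volume : Measure W4).IsAddHaarMeasure := by
  have h2 : (volume : Measure (E × E)).IsAddHaarMeasure :=
    Measure.prod.instIsAddHaarMeasure (volume : Measure E) (volume : Measure E)
  exact @Measure.prod.instIsAddHaarMeasure _ _ _ _ _ _ _ _ (volume : Measure E) (volume : Measure (E × E))
    _ h2 _ _ _ _

lemma qmp {κ : ℝ} (hκ : 0 < κ) (x : W4) :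
    Measure.QuasiMeasurePreserving (fun h : W4 => κ • (x - h)) volume volume := by
  have h1 : Measure.QuasiMeasurePreserving (fun h : W4 => x - h) volume volume :=
    quasiMeasurePreserving_sub_left volume x
  have h2 : Measure.QuasiMeasurePreserving (fun h : W4 => κ • h) volume volume := by
    refine ⟨by fun_prop, ?_⟩
    rw [Measure.map_addHaar_smul volume hκ.ne']
    exact Measure.smul_absolutelyContinuous
  exact h2.comp h1

lemma mo_congr {κ : ℝ} (hκ : 0 < κ) (ρ F G : W4 → ℝ) (h : F =ᵐ[volume] G) : mo κ ρ F = mo κ ρ G := by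
  funext x
  unfold mo
  apply integral_congr_ae
  filter_upwards [(qmp hκ x).ae_eq_comp h] with z hz
  simp only [Function.comp] at hz
  rw [hz]

end MOC_

open MOC_ in
theorem moc_proof (_h : Stmt_MOL) : Stmt_MOC := by
  intro M Φ D hM hΦ _hD hMD hd ε hε
  obtain ⟨M', hM', hMM⟩ := hM.1
  have hMD' : Integrable (fun x => M' x * D x) := by
    refine hMD.congr ?_
    filter_upwards [hMM] with x hx; rw [hx]
  obtain ⟨δ, hδ, hδ1, hc⟩ := cont volume M' Φ D hM'.aestronglyMeasurable hΦ hMD' hd hε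
  refine ⟨δ, hδ, hδ1, fun κ ρ h1 h2 hρ => ?_⟩
  have hκ : 0 < κ := by linarith
  have hρi : Integrable ρ := hρ.smooth.continuous.integrable_of_hasCompactSupport hρ.cpt
  obtain ⟨hi, hv⟩ := main volume M' Φ D ρ hM' hΦ hMD' hd h1.le (by linarith) hδ1 hρ.smooth.continuous
    hρ.nonneg hρ.supp hρi
  rw [mo_congr hκ ρ M M' hMM]
  refine ⟨hi, ?_⟩
  have e0 : ∫ x, M x * Φ x = ∫ x, M' x * Φ x := by
    apply integral_congr_ae
    filter_upwards [hMM] with x hx; rw [hx]
  have e1 : ∫ x, mo κ ρ M' x * Φ x =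
      ∫ h, ρ h * ((κ ^ Module.finrank ℝ W4)⁻¹ * ∫ y, M' y * Φ (κ⁻¹ • y + h)) := hv
  rw [e0, e1]
  set c := ∫ x, M' x * Φ x with hcdef
  set G : W4 → ℝ := fun h => (κ ^ Module.finrank ℝ W4)⁻¹ * ∫ y, M' y * Φ (κ⁻¹ • y + h) with hG
  have hGc : ∀ h, ‖h‖ ≤ δ → |G h - c| ≤ ε := fun h hh => hc κ h h1 h2 hh
  have hGm : AEStronglyMeasurable G volume := by
    refine AEStronglyMeasurable.const_mul ?_ _
    have : StronglyMeasurable (fun z : W4 × W4 => M' z.2 * Φ (κ⁻¹ • z.2 + z.1)) :=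
      (hM'.comp_measurable measurable_snd).mul
        (by fun_prop : Continuous fun z : W4 × W4 => Φ (κ⁻¹ • z.2 + z.1)).stronglyMeasurable
    exact this.aestronglyMeasurable.integral_prod_right'
  have hb : ∀ h, ‖ρ h * (G h - c)‖ ≤ ρ h * ε := by
    intro h
    rw [norm_mul, Real.norm_eq_abs, Real.norm_eq_abs, abs_of_nonneg (hρ.nonneg h)]
    by_cases hh : δ < ‖h‖
    · rw [hρ.supp h hh]; simp
    · exact mul_le_mul_of_nonneg_left (hGc h (not_lt.mp hh)) (hρ.nonneg h)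
  have hi1 : Integrable (fun h => ρ h * (G h - c)) := by
    refine Integrable.mono' (hρi.mul_const ε) ?_ (Eventually.of_forall hb)
    exact hρi.aestronglyMeasurable.mul (hGm.sub aestronglyMeasurable_const)
  have hi2 : Integrable (fun h => ρ h * G h) := by
    have := hi1.add (hρi.mul_const c)
    refine this.congr (Eventually.of_forall fun h => ?_)
    simp only [Pi.add_apply]; ring
  have e2 : (∫ h, ρ h * G h) - c = ∫ h, ρ h * (G h - c) := by
    have : (fun h => ρ h * (G h - c)) = fun h => ρ h * G h - ρ h * c := by funext h; ring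
    rw [this, integral_sub hi2 (hρi.mul_const c), integral_mul_const, hρ.one, one_mul]
  rw [e2, ← Real.norm_eq_abs]
  calc ‖∫ h, ρ h * (G h - c)‖ ≤ ∫ h, ρ h * ε :=
        norm_integral_le_of_norm_le (hρi.mul_const ε) (Eventually.of_forall hb)
    _ = ε := by rw [integral_mul_const, hρ.one, one_mul]

end Pool.Agent.TBF
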