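import Pool.Agent.TBF.MOL

/-!
Squad TBF, module MOD (helper32): the divergence of mollified fields.
-/

set_option autoImplicit false

open MeasureTheory Filter Topology
open scoped ContDiff

namespace Pool.Agent.TBF

open Pool.Agent.TBG Pool.Agent.TBL

namespace MOD_

attribute [local instance] MOL_.haar4 MOL_.neg4

lemma subst (p : W4) (R : ℝ) (f : W4 → ℝ) :
    ∫ u, f (p - R • u) = |(R ^ (Module.finrank ℝ W4))⁻¹| * ∫ h, f h := by
  have h1 := Measure.integral_comp_smul (volume : Measure W4) (fun x => f (p - x)) R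
  rw [h1, integral_sub_left_eq_self f volume p]
  rfl

lemma dv_eta (κ : ℝ) (ρ : W4 → ℝ) (hρ : ContDiff ℝ ∞ ρ) (p v u : W4) :
    dv v (fun u => ρ (p - κ⁻¹ • u)) u = -κ⁻¹ * dv v ρ (p - κ⁻¹ • u) := by
  have h1 : HasFDerivAt (fun u : W4 => p - κ⁻¹ • u) (-(κ⁻¹ • ContinuousLinearMap.id ℝ W4)) u := by
    have h2 := ((hasFDerivAt_id (𝕜 := ℝ) u).const_smul κ⁻¹).const_sub p
    exact h2
  have h3 : HasFDerivAt ρ (fderiv ℝ ρ (p - κ⁻¹ • u)) (p - κ⁻¹ • u) :=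
    ((hρ.differentiable (by simp)) _).hasFDerivAt
  have h4 := h3.comp u h1
  unfold dv
  have h5 : fderiv ℝ (fun u => ρ (p - κ⁻¹ • u)) u =
      (fderiv ℝ ρ (p - κ⁻¹ • u)).comp (-(κ⁻¹ • ContinuousLinearMap.id ℝ W4)) := h4.fderiv
  rw [h5]
  simp only [ContinuousLinearMap.comp_apply, _root_.neg_apply,
    _root_.smul_apply, ContinuousLinearMap.id_apply, map_neg, map_smul, smul_eq_mul]
  ring

lemma tf_eta (κ ε : ℝ) (hκ : 0 < κ) (ρ : W4 → ℝ) (hρ : Mo4 ε ρ) (p : W4) :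
    TF (fun u => ρ (p - κ⁻¹ • u)) := by
  refine ⟨hρ.smooth.comp (contDiff_const.sub (contDiff_id.const_smul _)), ?_⟩
  have hne : κ⁻¹ ≠ 0 := inv_ne_zero hκ.ne'
  exact hρ.cpt.comp_homeomorph ((Homeomorph.smulOfNeZero κ⁻¹ hne).trans (Homeomorph.subLeft p))

end MOD_

theorem mod_proof (hMOL : Stmt_MOL) : Stmt_MOD := by
  intro κ ε ρ M Y hκ hρ hY hM hw p
  have hha : (volume : Measure W4).IsAddHaarMeasure := MOL_.haar4
  set K : ℝ := |((κ⁻¹) ^ (Module.finrank ℝ W4))⁻¹| with hK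
  have hKpos : K ≠ 0 := by
    rw [hK]
    have : κ⁻¹ ≠ 0 := inv_ne_zero hκ.ne'
    positivity
  have hsc : ∀ u : W4, κ • (κ⁻¹ • u) = u := fun u => by
    rw [smul_smul, mul_inv_cancel₀ hκ.ne', one_smul]
  -- fields
  have h1 : ∀ m c, K * (∫ h, dv (d4 m c) ρ h * Y m c (κ • (p - h))) =
      -κ * ∫ u, Y m c u * dv (d4 m c) (fun u => ρ (p - κ⁻¹ • u)) u := by
    intro m c
    rw [hK, ← MOD_.subst p κ⁻¹ (fun h => dv (d4 m c) ρ h * Y m c (κ • (p - h))),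
      ← integral_const_mul]
    refine integral_congr_ae (Eventually.of_forall fun u => ?_)
    show dv (d4 m c) ρ (p - κ⁻¹ • u) * Y m c (κ • (p - (p - κ⁻¹ • u))) =
      -κ * (Y m c u * dv (d4 m c) (fun u => ρ (p - κ⁻¹ • u)) u)
    rw [ MOD_.dv_eta κ ρ hρ.smooth p (d4 m c) u, sub_sub_cancel, hsc]
    field_simp
  have h2 : K * (∫ h, ρ h * M (κ • (p - h))) = ∫ u, M u * ρ (p - κ⁻¹ • u) := by
    rw [hK, ← MOD_.subst p κ⁻¹ (fun h => ρ h * M (κ • (p - h)))]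
    refine integral_congr_ae (Eventually.of_forall fun u => ?_)
    show ρ (p - κ⁻¹ • u) * M (κ • (p - (p - κ⁻¹ • u))) = M u * ρ (p - κ⁻¹ • u)
    rw [sub_sub_cancel, hsc, mul_comm]
  have h3 := hw (fun u => ρ (p - κ⁻¹ • u)) (MOD_.tf_eta κ ε hκ ρ hρ p)
  have h4 : K * dvg (fun m c => mo κ ρ (Y m c)) p = K * (κ * mo κ ρ M p) := by
    unfold dvg
    have h5 : ∀ m c, dv (d4 m c) (mo κ ρ (Y m c)) p =
        ∫ h, dv (d4 m c) ρ h * Y m c (κ • (p - h)) := fun m c =>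
      (hMOL κ ε ρ (Y m c) hκ hρ (hY m c)).2.1 (d4 m c) p
    simp only [h5]
    rw [Finset.mul_sum]
    have h6 : ∀ m : Fin 4, K * ∑ c, (∫ h, dv (d4 m c) ρ h * Y m c (κ • (p - h))) =
        -κ * ∑ c, ∫ u, Y m c u * dv (d4 m c) (fun u => ρ (p - κ⁻¹ • u)) u := by
      intro m
      rw [Finset.mul_sum, Finset.mul_sum]
      exact Finset.sum_congr rfl fun c _ => h1 m c
    rw [Finset.sum_congr rfl fun m _ => h6 m, ← Finset.mul_sum]
    have h7 : K * (κ * mo κ ρ M p) = κ * ∫ u, M u * ρ (p - κ⁻¹ • u) := by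
      rw [← h2]
      unfold mo
      ring
    rw [h7]
    linear_combination (-κ) * h3
  exact mul_left_cancel₀ hKpos h4

end Pool.Agent.TBF
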