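import Pool.Agent.TBF.Stmts

set_option autoImplicit false

open MeasureTheory Filter Topology
open scoped ContDiff

namespace Pool.Agent.TBF

open Pool.Agent.TBG Pool.Agent.TBL

theorem moe_proof : Stmt_MOE := by
  intro ε hε
  have i1 : (volume : Measure (E × E)).IsAddHaarMeasure :=
    Measure.prod.instIsAddHaarMeasure (volume : Measure E) (volume : Measure E)
  have i2 : (volume : Measure W4).IsAddHaarMeasure :=
    Measure.prod.instIsAddHaarMeasure (volume : Measure E) (volume : Measure (E × E))
  let φ : ContDiffBump (0 : W4) := ⟨ε / 2, ε, by positivity, by linarith⟩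
  refine ⟨φ.normed volume, φ.contDiff_normed, φ.nonneg_normed, fun h hh => ?_, φ.hasCompactSupport_normed,
    φ.integral_normed⟩
  have hs := φ.support_normed_eq (μ := volume)
  by_contra hne
  have hmem : h ∈ Function.support (φ.normed volume) := hne
  rw [hs, Metric.mem_ball, dist_zero_right] at hmem
  have : ‖h‖ < ε := hmem
  linarith

end Pool.Agent.TBF
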