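import Pool.Agent.TBF.Stmts

/-!
# MOJ: Jensen's inequality for the mollified functions
-/

set_option autoImplicit false

open MeasureTheory Filter Topology
open scoped ContDiff

namespace Pool.Agent.TBF

open Pool.Agent.TBG Pool.Agent.TBL

namespace MOJ_

theorem haar2 : (volume : Measure (E × E)).IsAddHaarMeasure :=
  Measure.prod.instIsAddHaarMeasure _ _

theorem haar4 : (volume : Measure W4).IsAddHaarMeasure := by
  have h : (volume : Measure (E × E)).IsAddHaarMeasure := haar2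
  exact Measure.prod.instIsAddHaarMeasure _ _

theorem neg2 : (volume : Measure (E × E)).IsNegInvariant := by
  constructor
  have h := (Measure.measurePreserving_neg (volume : Measure E)).prod
    (Measure.measurePreserving_neg (volume : Measure E))
  exact h.map_eq

theorem neg4 : (volume : Measure W4).IsNegInvariant := by
  constructor
  have : (volume : Measure (E × E)).IsNegInvariant := neg2
  have h := (Measure.measurePreserving_neg (volume : Measure E)).prod
    (Measure.measurePreserving_neg (volume : Measure (E × E)))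
  exact h.map_eq

attribute [local instance] haar4 neg4

theorem fr : Module.finrank ℝ W4 = 9 := by
  simp [W4, Pool.Agent.TBG.E]

/-- the square after dilation -/
theorem sq_int {κ : ℝ} (hκ : 0 < κ) {F : W4 → ℝ} (hF : MemLp F 2 volume) :
    Integrable (fun y => F (κ • y) ^ 2) ∧
      ∫ y, F (κ • y) ^ 2 = (κ ^ 9)⁻¹ * ∫ x, F x ^ 2 := by
  have h1 : Integrable (fun x => F x ^ 2) := hF.integrable_sq
  refine ⟨h1.comp_smul hκ.ne', ?_⟩
  have h2 := Measure.integral_comp_smul (volume : Measure W4) (fun x => F x ^ 2) κ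
  rw [h2, fr, smul_eq_mul, abs_of_pos (by positivity)]

variable {κ ε : ℝ} {ρ : W4 → ℝ}

theorem rho_int (hρ : Mo4 ε ρ) : Integrable ρ :=
  hρ.smooth.continuous.integrable_of_hasCompactSupport hρ.cpt

theorem rho_bdd (hρ : Mo4 ε ρ) : ∃ C : ℝ, ∀ h, ‖ρ h‖ ≤ C :=
  hρ.cpt.exists_bound_of_continuous hρ.smooth.continuous

/-- products with integrable functions -/
theorem loc_int (hρ : Mo4 ε ρ) {f : W4 → ℝ} (hf : Integrable f) (x : W4) :
    Integrable (fun h => ρ h * f (x - h)) := by
  obtain ⟨C, hC⟩ := rho_bdd hρ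
  have h1 : Integrable (fun h => f (x - h)) := hf.comp_sub_left x
  exact h1.bdd_mul hρ.smooth.continuous.aestronglyMeasurable (ae_of_all _ hC)

theorem conv_int (hρ : Mo4 ε ρ) {f : W4 → ℝ} (hf : Integrable f) :
    Integrable (fun x => ∫ h, ρ h * f (x - h)) ∧
      ∫ x, ∫ h, ρ h * f (x - h) = ∫ x, f x := by
  have h1 := (rho_int hρ).integrable_convolution (ContinuousLinearMap.mul ℝ ℝ) hf
  have h2 := integral_convolution (μ := (volume : Measure W4)) (ν := (volume : Measure W4))
    (ContinuousLinearMap.mul ℝ ℝ) (rho_int hρ) hf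
  refine ⟨h1, ?_⟩
  have h3 : ∫ x, ∫ h, ρ h * f (x - h) = (∫ h, ρ h) * ∫ x, f x := h2
  rw [h3, hρ.one, one_mul]

/-- Jensen's inequality -/
theorem jensen (hMOL : Stmt_MOL) (hκ : 0 < κ) (hρ : Mo4 ε ρ) {F : W4 → ℝ}
    (hF : MemLp F 2 volume) (x : W4) :
    mo κ ρ F x ^ 2 ≤ ∫ h, ρ h * F (κ • (x - h)) ^ 2 := by
  obtain ⟨-, -, hi, -⟩ := hMOL κ ε ρ F hκ hρ hF
  have i1 := hi x
  have i2 : Integrable (fun h => ρ h * F (κ • (x - h)) ^ 2) :=
    loc_int hρ (f := fun y => F (κ • y) ^ 2) (sq_int hκ hF).1 x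
  have i3 := rho_int hρ
  set c : ℝ := mo κ ρ F x with hc
  have h1 : ∫ h, ρ h * (F (κ • (x - h)) - c) ^ 2 =
      (∫ h, ρ h * F (κ • (x - h)) ^ 2) - 2 * c * (∫ h, ρ h * F (κ • (x - h))) +
        c ^ 2 * ∫ h, ρ h := by
    have i4 := i1.const_mul (2 * c)
    have i5 := i3.const_mul (c ^ 2)
    have e1 := integral_sub i2 i4
    have e2 := integral_add (i2.sub i4) i5
    simp only [Pi.sub_apply] at e2
    rw [← integral_const_mul, ← integral_const_mul, ← e1, ← e2]
    refine integral_congr_ae (ae_of_all _ fun h => ?_)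
    simp only
    ring
  have h2 : 0 ≤ ∫ h, ρ h * (F (κ • (x - h)) - c) ^ 2 :=
    integral_nonneg fun h => mul_nonneg (hρ.nonneg h) (sq_nonneg _)
  have h3 : ∫ h, ρ h * F (κ • (x - h)) = c := rfl
  rw [h1, hρ.one, h3] at h2
  nlinarith

end MOJ_

open MOJ_

theorem moj_proof (hMOL : Stmt_MOL) : Stmt_MOJ := by
  intro κ ε ρ hκ hρ
  refine ⟨fun F hF => ?_, fun V q δ B hq hqm hVm hV hδ hVd => ?_⟩
  · obtain ⟨hs, -, -, -⟩ := hMOL κ ε ρ F hκ hρ hF
    obtain ⟨f1, f2⟩ := sq_int hκ hF
    obtain ⟨c1, c2⟩ := conv_int hρ f1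
    have hj := jensen hMOL hκ hρ hF
    have hI : Integrable (fun x => mo κ ρ F x ^ 2) := by
      refine c1.mono' (hs.continuous.pow 2).aestronglyMeasurable (ae_of_all _ fun x => ?_)
      rw [Real.norm_of_nonneg (sq_nonneg _)]
      exact hj x
    refine ⟨hI, ?_⟩
    rw [← f2, ← c2]
    exact integral_mono hI c1 hj
  · obtain ⟨f1, f2⟩ := sq_int hκ hq
    obtain ⟨c1, c2⟩ := conv_int hρ f1
    refine ⟨fun x => ∫ h, ρ h * q (κ • (x - h)) ^ 2, c1,
      fun x => integral_nonneg fun h => mul_nonneg (hρ.nonneg h) (sq_nonneg _), fun x => ?_, ?_⟩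
    · have hF : MemLp (fun p => Real.sqrt (V p) * q p) 2 volume := by
        refine MemLp.of_le_mul (c := Real.sqrt B) hq
          (hVm.sqrt.mul hqm).aestronglyMeasurable (ae_of_all _ fun p => ?_)
        rw [norm_mul, Real.norm_of_nonneg (Real.sqrt_nonneg _)]
        exact mul_le_mul_of_nonneg_right (Real.sqrt_le_sqrt (hV p).2) (norm_nonneg _)
      refine (jensen hMOL hκ hρ hF x).trans ?_
      rw [← integral_const_mul]
      refine integral_mono (loc_int hρ (f := fun y => (Real.sqrt (V (κ • y)) * q (κ • y)) ^ 2)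
        (sq_int hκ hF).1 x) ((loc_int hρ (f := fun y => q (κ • y) ^ 2) f1 x).const_mul _)
        fun h => ?_
      simp only
      rw [mul_pow, Real.sq_sqrt (hV _).1]
      by_cases h0 : ρ h = 0
      · rw [h0, zero_mul, zero_mul, mul_zero]
      · have h1 := hVd x h h0
        have h2 : 0 ≤ ρ h * q (κ • (x - h)) ^ 2 := mul_nonneg (hρ.nonneg h) (sq_nonneg _)
        calc ρ h * (V (κ • (x - h)) * q (κ • (x - h)) ^ 2)
            = V (κ • (x - h)) * (ρ h * q (κ • (x - h)) ^ 2) := by ring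
          _ ≤ (1 + δ) * V x * (ρ h * q (κ • (x - h)) ^ 2) := mul_le_mul_of_nonneg_right h1 h2
    · rw [← f2, ← c2]

end Pool.Agent.TBF
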