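import Pool.Agent.TBF.Stmts

/-!
Squad TBF, module MOL (helper32): mollified functions are smooth.
-/

set_option autoImplicit false

open MeasureTheory Filter Topology
open scoped ContDiff

namespace Pool.Agent.TBF

open Pool.Agent.TBG Pool.Agent.TBL

namespace MOL_

theorem haar2 : (volume : Measure (E × E)).IsAddHaarMeasure :=
  Measure.prod.instIsAddHaarMeasure _ _

theorem haar4 : (volume : Measure W4).IsAddHaarMeasure := by
  have h : (volume : Measure (E × E)).IsAddHaarMeasure := haar2
  exact Measure.prod.instIsAddHaarMeasure _ _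

theorem neg2 : (volume : Measure (E × E)).IsNegInvariant := by
  constructor
  have h := (Measure.measurePreserving_neg (volume : Measure E)).prod
    (Measure.measurePreserving_neg (volume : Measure E))
  exact h.map_eq

theorem neg4 : (volume : Measure W4).IsNegInvariant := by
  constructor
  have : (volume : Measure (E × E)).IsNegInvariant := neg2
  have h := (Measure.measurePreserving_neg (volume : Measure E)).prod
    (Measure.measurePreserving_neg (volume : Measure (E × E)))
  exact h.map_eq

attribute [local instance] haar4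

lemma loc (κ : ℝ) (hκ : 0 < κ) (F : W4 → ℝ) (hF : MemLp F 2 volume) :
    LocallyIntegrable (fun u : W4 => F (κ • u)) volume := by
  have h0 : LocallyIntegrable F volume := hF.locallyIntegrable (by norm_num)
  rw [locallyIntegrable_iff] at h0 ⊢
  intro K hK
  have hK' : IsCompact ((fun u : W4 => κ • u) '' K) := hK.image (by fun_prop)
  have h1 := (integrable_indicator_iff hK'.measurableSet).2 (h0 _ hK')
  have h2 := h1.comp_smul hκ.ne'
  rw [← integrable_indicator_iff hK.measurableSet]
  refine h2.congr (Eventually.of_forall fun u => ?_)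
  by_cases hu : u ∈ K
  · have hu' : κ • u ∈ (fun u : W4 => κ • u) '' K := ⟨u, hu, rfl⟩
    simp only [Set.indicator_of_mem hu, Set.indicator_of_mem hu']
  · have hu' : κ • u ∉ (fun u : W4 => κ • u) '' K := by
      rintro ⟨v, hv, hvu⟩
      have : v = u := smul_right_injective W4 hκ.ne' hvu
      exact hu (this ▸ hv)
    simp only [Set.indicator_of_notMem hu, Set.indicator_of_notMem hu']

lemma conv (κ : ℝ) (ρ F : W4 → ℝ) :
    mo κ ρ F = convolution ρ (fun u : W4 => F (κ • u)) (ContinuousLinearMap.mul ℝ ℝ) volume := by
  funext x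
  rfl

end MOL_

theorem mol_proof : Stmt_MOL := by
  intro κ ε ρ F hκ hρ hF
  have hha : (volume : Measure W4).IsAddHaarMeasure := MOL_.haar4
  have hneg : (volume : Measure W4).IsNegInvariant := MOL_.neg4
  have hloc := MOL_.loc κ hκ F hF
  have hex : ∀ x, Integrable (fun h => ρ h * F (κ • (x - h))) := fun x =>
    (hρ.cpt.convolutionExists_left (ContinuousLinearMap.mul ℝ ℝ) hρ.smooth.continuous hloc) x
  refine ⟨?_, fun v x => ?_, hex, fun x hx => ?_⟩
  · rw [MOL_.conv]
    exact hρ.cpt.contDiff_convolution_left (n := ⊤) (ContinuousLinearMap.mul ℝ ℝ) hρ.smooth hloc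
  · have h1 := hρ.cpt.hasFDerivAt_convolution_left (ContinuousLinearMap.mul ℝ ℝ)
      (hρ.smooth.of_le (by exact_mod_cast le_top)) hloc x
    have h2 : Integrable (fun t => (((ContinuousLinearMap.mul ℝ ℝ).precompL W4)
        (fderiv ℝ ρ t)) (F (κ • (x - t)))) := by
      have h3 := (hρ.cpt.fderiv ℝ).convolutionExists_left
        ((ContinuousLinearMap.mul ℝ ℝ).precompL W4)
        ((hρ.smooth.of_le (m := 1) (by exact_mod_cast le_top)).continuous_fderiv (by norm_num)) hloc
      exact h3 x
    unfold dv
    rw [MOL_.conv, h1.fderiv]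
    unfold convolution
    rw [ContinuousLinearMap.integral_apply h2]
    rfl
  · unfold mo
    have h1 : (fun h => ρ h * F (κ • (x - h))) = fun _ => 0 := by
      funext h
      by_cases hh : ρ h = 0
      · rw [hh, zero_mul]
      · rw [hx h hh, mul_zero]
    rw [h1, integral_zero]

end Pool.Agent.TBF
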