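import Pool.Agent.TBF.Stmts

/-!
# MP_80dc41_mp, module MPC: the pairing with the scattering functions
-/

set_option autoImplicit false

open MeasureTheory Filter Topology
open scoped ContDiff

namespace Pool.Agent.TBF

open Pool.Agent.TBG Pool.Agent.TBL

namespace MPC_

lemma inv4_le {a b : ℝ} (ha : 0 ≤ a) (_hb : 0 ≤ b) (h : 1 + a ≤ 5 * (1 + b)) :
    ((1 + b) ^ 4)⁻¹ ≤ 625 * ((1 + a) ^ 4)⁻¹ := by
  have h1 : (1 + a) ^ 4 ≤ (5 * (1 + b)) ^ 4 := by gcongr
  have h2 : 0 < (1 + a) ^ 4 := by positivity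
  rw [← div_eq_mul_inv, le_div_iff₀ h2, inv_mul_le_iff₀ (by positivity)]
  calc (1 + a) ^ 4 ≤ (5 * (1 + b)) ^ 4 := h1
    _ = (1 + b) ^ 4 * 625 := by ring

lemma inv20_le {a : ℝ} (ha : 0 ≤ a) : ((1 + a) ^ 20)⁻¹ ≤ 1 := by
  apply inv_le_one_of_one_le₀
  exact one_le_pow₀ (by linarith)

lemma inv4_le_one {a : ℝ} (ha : 0 ≤ a) : ((1 + a) ^ 4)⁻¹ ≤ 1 := by
  apply inv_le_one_of_one_le₀
  exact one_le_pow₀ (by linarith)

end MPC_

open MPC_ in
theorem mpc_proof (hRLP : Stmt_RLP) (hSCB : Stmt_SCB) (hSDW : Stmt_SDW) (hMOC : Stmt_MOC) : Stmt_MPC := by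
  intro φ hφ m q hqm hq
  obtain ⟨-, -, -, -, -, -, -, hT, -, hpm, -, -⟩ := hRLP
  obtain ⟨C, hC, hφb, -, hVb, -, hVs, -, -, -, -⟩ := hSCB φ hφ
  obtain ⟨-, -, -, -, -, -, -, -, hI⟩ := hSDW
  have hpc : ∀ j : Fin 4, Continuous (pm j) := by
    intro j
    obtain ⟨T, hT⟩ := hT j
    have : pm j = fun p => T p := by funext p; rw [hT]
    rw [this]; exact T.continuous
  have hVc : Continuous (Vm φ m) := by
    have h1 : Continuous (fun z : E × E => VV φ z.1 z.2) := hVs.continuous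
    exact h1.comp (hpc m)
  have hV0 : ∀ p, 0 ≤ Vm φ m p := fun p => (hVb (pm m p)).1
  have hV1 : ∀ p, Vm φ m p ≤ C * ((1 + ‖pm m p‖) ^ 20)⁻¹ := fun p => (hVb (pm m p)).2
  have hVC : ∀ p, Vm φ m p ≤ C := fun p => (hV1 p).trans (by
    have := inv20_le (norm_nonneg (pm m p)); nlinarith)
  have hq2 : Integrable (fun x => q x ^ 2) := hq.integrable_sq
  have hMm : Measurable (fun p => Real.sqrt (Vm φ m p) * q p) :=
    (hVc.measurable.sqrt).mul hqm
  have hM : MemLp (fun p => Real.sqrt (Vm φ m p) * q p) 2 volume := by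
    refine MemLp.of_le_mul (c := Real.sqrt C) hq hMm.aestronglyMeasurable (Eventually.of_forall fun p => ?_)
    rw [norm_mul, Real.norm_eq_abs, abs_of_nonneg (Real.sqrt_nonneg _)]
    exact mul_le_mul_of_nonneg_right (Real.sqrt_le_sqrt (hVC p)) (norm_nonneg _)
  have hΦ : Continuous (Pq φ m) := by
    unfold Pq
    exact continuous_finsetSum _ fun j _ => hφ.smooth.continuous.comp (hpc j)
  have hac : ∀ j, Continuous (fun x : W4 => ((1 + ‖pm j x‖) ^ 4)⁻¹) := by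
    intro j
    refine Continuous.inv₀ ((continuous_const.add (hpc j).norm).pow 4) fun x => ?_
    positivity
  let D : W4 → ℝ := fun x => ∑ j ∈ Finset.univ.erase m, (625 * C) * ((1 + ‖pm j x‖) ^ 4)⁻¹
  have hD : Continuous D := continuous_finsetSum _ fun j _ => continuous_const.mul (hac j)
  have hj : ∀ j ∈ Finset.univ.erase m, Integrable (fun x : W4 => (Real.sqrt (Vm φ m x) * q x) * ((1 + ‖pm j x‖) ^ 4)⁻¹) := by
    intro j hj
    have hne : m ≠ j := fun h => by simp [h] at hj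
    refine Integrable.mono' (hq2.add ((hI m j hne).const_mul C))
      (hMm.mul (hac j).measurable).aestronglyMeasurable (Eventually.of_forall fun x => ?_)
    rw [norm_mul, norm_mul, Real.norm_eq_abs, Real.norm_eq_abs, Real.norm_eq_abs,
      abs_of_nonneg (Real.sqrt_nonneg _)]
    have h0 : 0 < ((1 + ‖pm j x‖) ^ 4)⁻¹ := by positivity
    have h1 := inv4_le_one (norm_nonneg (pm j x))
    rw [abs_of_pos h0]
    simp only [Pi.add_apply]
    set a := ((1 + ‖pm j x‖) ^ 4)⁻¹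
    set s := Real.sqrt (Vm φ m x) with hs
    have hs2 : s ^ 2 = Vm φ m x := Real.sq_sqrt (hV0 x)
    have h2 : s * |q x| * a ≤ q x ^ 2 + s ^ 2 * a ^ 2 := by
      have := sq_nonneg (|q x| - s * a)
      have h3 : |q x| ^ 2 = q x ^ 2 := sq_abs _
      have h4 : 0 ≤ s * |q x| * a := by positivity
      nlinarith
    have h3 : s ^ 2 * a ^ 2 ≤ C * (((1 + ‖pm m x‖) ^ 20)⁻¹ * a) := by
      rw [hs2]
      have h5 : a ^ 2 ≤ a := by nlinarith
      calc Vm φ m x * a ^ 2 ≤ (C * ((1 + ‖pm m x‖) ^ 20)⁻¹) * a :=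
            mul_le_mul (hV1 x) h5 (by positivity) (by positivity)
        _ = C * (((1 + ‖pm m x‖) ^ 20)⁻¹ * a) := by ring
    linarith
  have hMD : Integrable (fun x => (Real.sqrt (Vm φ m x) * q x) * D x) := by
    have e : (fun x => (Real.sqrt (Vm φ m x) * q x) * D x) =
        fun x => ∑ j ∈ Finset.univ.erase m, (625 * C) * ((Real.sqrt (Vm φ m x) * q x) * ((1 + ‖pm j x‖) ^ 4)⁻¹) := by
      funext x
      simp only [D]
      rw [Finset.mul_sum]
      exact Finset.sum_congr rfl fun j _ => by ring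
    rw [e]
    exact integrable_finsetSum _ fun j hj' => (hj j hj').const_mul (625 * C)
  have hd : ∀ (κ : ℝ) (h x : W4), 1 ≤ κ → κ ≤ 2 → ‖h‖ ≤ 1 → |Pq φ m (κ⁻¹ • x + h)| ≤ D x := by
    intro κ h x h1 h2 hh
    have h0 : 0 ≤ Pq φ m (κ⁻¹ • x + h) := by
      unfold Pq; exact Finset.sum_nonneg fun j _ => (hφb _).1.le
    rw [abs_of_nonneg h0]
    unfold Pq
    refine Finset.sum_le_sum fun j _ => ?_
    refine (hφb _).2.trans ?_
    obtain ⟨T, hT⟩ := hT j
    have e : pm j x = κ • (pm j (κ⁻¹ • x + h) - pm j h) := by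
      rw [← hT, ← hT, ← hT, map_add, map_smul, add_sub_cancel_right, smul_smul, mul_inv_cancel₀ (by linarith),
        one_smul]
    have hn : ‖pm j x‖ ≤ 2 * (‖pm j (κ⁻¹ • x + h)‖ + 2) := by
      rw [e, norm_smul, Real.norm_eq_abs, abs_of_pos (by linarith)]
      have h3 : ‖pm j (κ⁻¹ • x + h) - pm j h‖ ≤ ‖pm j (κ⁻¹ • x + h)‖ + 2 := by
        refine (norm_sub_le _ _).trans ?_
        have := hpm j h
        linarith
      exact mul_le_mul h2 h3 (norm_nonneg _) (by norm_num)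
    have := inv4_le (norm_nonneg (pm j x)) (norm_nonneg (pm j (κ⁻¹ • x + h))) (by
      have := norm_nonneg (pm j (κ⁻¹ • x + h)); linarith)
    calc C * ((1 + ‖pm j (κ⁻¹ • x + h)‖) ^ 4)⁻¹ ≤ C * (625 * ((1 + ‖pm j x‖) ^ 4)⁻¹) :=
          mul_le_mul_of_nonneg_left this hC.le
      _ = 625 * C * ((1 + ‖pm j x‖) ^ 4)⁻¹ := by ring
  exact hMOC (fun p => Real.sqrt (Vm φ m p) * q p) (Pq φ m) D hM hΦ hD hMD hd

end Pool.Agent.TBF
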