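import Pool.Agent.TBF.Stmts

set_option autoImplicit false

open MeasureTheory Filter Topology
open scoped ContDiff

namespace Pool.Agent.TBF

open Pool.Agent.TBG Pool.Agent.TBL

namespace OB1_

theorem Vm_nonneg {φ : E × E → ℝ} (hφ : Scat φ) (m : Fin 4) (p : W4) : 0 ≤ Vm φ m p := by
  unfold Vm VV ww
  have h1 := hφ.sup ((pm m p).1, (pm m p).2)
  have h2 := hφ.le_half ((pm m p).1, (pm m p).2)
  exact div_nonneg (by linarith) (by linarith)

theorem JJ_nonneg {φ : E × E → ℝ} (hφ : Scat φ) (η : W4 → ℝ) : 0 ≤ JJ φ η := by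
  unfold JJ
  refine integral_nonneg fun p => ?_
  have h1 : 0 ≤ gsq4 η p :=
    Finset.sum_nonneg fun m _ => Finset.sum_nonneg fun c _ => sq_nonneg _
  have h2 : 0 ≤ ∑ m, Vm φ m p * (η p - Pq φ m p) ^ 2 :=
    Finset.sum_nonneg fun m _ => mul_nonneg (Vm_nonneg hφ m p) (sq_nonneg _)
  exact add_nonneg h1 h2

theorem tf_zero : TF (fun _ : W4 => (0 : ℝ)) :=
  ⟨contDiff_const, HasCompactSupport.zero⟩

end OB1_

open OB1_ in
theorem ob1_proof (_hRLP : Stmt_RLP) (hALG : Stmt_ALG) (hDCL : Stmt_DCL) (hET0 : Stmt_ET0)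
    (hCHI : Stmt_CHI) (hGID : Stmt_GID) (hJCT : Stmt_JCT) (hJSY : Stmt_JSY) (hTRK : Stmt_TRK)
    (hGTR : Stmt_GTR) : Stmt_OB1 := by
  intro φ hφ ε hε
  set S : Set ℝ := {x : ℝ | ∃ η : W4 → ℝ, TF η ∧ x = JJ φ η} with hS
  have hSne : S.Nonempty := ⟨_, _, tf_zero, rfl⟩
  obtain ⟨x, ⟨η₀, hη₀, rfl⟩, hx⟩ :=
    Real.lt_sInf_add_pos hSne (show 0 < ε / 3 by positivity)
  obtain ⟨η, hη, hηs, hJη⟩ := hJSY φ hφ η₀ hη₀
  obtain ⟨hPF, hPFb, hζ, hPs⟩ := hET0 φ hφ
  set ζ : W4 → ℝ := fun p => PF φ p - 1 + Ph φ p with hζd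
  obtain ⟨C, hC, hchi⟩ := hCHI
  have hlim := hJCT φ hφ η ζ hη hζ
  have hlt : JJ φ η < sInf S + 2 * ε / 3 := by linarith
  obtain ⟨r, hr1, hr⟩ : ∃ r : ℝ, 1 ≤ r ∧
      JJ φ (fun p => η p + (1 - chi r p) * ζ p) < sInf S + 2 * ε / 3 := by
    have h1 := (hlim.eventually_lt_const hlt).and (eventually_ge_atTop (1 : ℝ))
    obtain ⟨r, h2, h3⟩ := h1.exists
    exact ⟨r, h3, h2⟩
  obtain ⟨hχT, hχs, hχb, hχ1, hχ0, hχd, -⟩ := hchi r hr1
  obtain ⟨hD1, hD2, hD3⟩ := hDCL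
  -- the cut off function
  have hχm : ContDiff ℝ ∞ (fun p => 1 - chi r p) := contDiff_const.sub hχT.1
  have hdecm : Dec (fun p => (1 - chi r p) * ζ p) := by
    refine hD3 _ _ (max 1 C) hζ hχm ?_ ?_
    · intro p
      obtain ⟨h1, h2⟩ := hχb p
      rw [abs_le]
      constructor
      · have := le_max_left 1 C
        linarith
      · have := le_max_left 1 C
        linarith
    · intro m c p
      have h1 := (hALG (chi r) (chi r) hχT.1 hχT.1).2.2.2.2.2.2.1 (d4 m c) p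
      have h2 : dv (d4 m c) (fun p => 1 - chi r p) p = - dv (d4 m c) (chi r) p := by
        have h3 := (hALG (fun p => (-1 : ℝ) * chi r p) (chi r)
          (contDiff_const.mul hχT.1) hχT.1).2.2.2.2.2.2.1 (d4 m c) p
        have h4 := (h3 1).2
        have h5 := (h1 (-1)).1
        have h6 : (fun p => 1 - chi r p) = fun p => 1 + (-1 : ℝ) * chi r p := by
          funext q
          ring
        rw [h6, h4, h5]
        ring
      rw [h2, abs_neg]
      have h7 := hχd m c p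
      have h8 : |dv (d4 m c) (chi r) p| ≤ (1 + ‖p‖) * |dv (d4 m c) (chi r) p| := by
        have := norm_nonneg p
        have := abs_nonneg (dv (d4 m c) (chi r) p)
        nlinarith
      exact (h8.trans h7).trans (le_max_right 1 C)
  have hdec : Dec (fun p => η p + (1 - chi r p) * ζ p) := hD2 _ _ (hD1 η hη) hdecm
  obtain ⟨hI1, hg1⟩ := hGID φ hφ _ hdec
  set ψ : W4 → ℝ := fun p => PF φ p + η p - chi r p * ζ p with hψ
  have hψe : (fun p => 1 - Ph φ p + (η p + (1 - chi r p) * ζ p)) = ψ := by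
    funext p
    simp only [hψ, hζd]
    ring
  rw [hψe] at hI1 hg1
  have hψsm : ContDiff ℝ ∞ ψ := (hPF.add hη.1).sub (hχT.1.mul hζ.smooth)
  -- support of η
  obtain ⟨R₀, hR₀⟩ : ∃ R₀ : ℝ, ∀ p : W4, R₀ < ‖p‖ → η p = 0 := by
    obtain ⟨R₀, h1⟩ := hη.2.isCompact.isBounded.exists_norm_le
    refine ⟨R₀, fun p hp => ?_⟩
    by_contra h2
    exact absurd (h1 p (subset_tsupport _ h2)) (not_le.2 hp)
  set R : ℝ := max R₀ (4 * r) with hR
  have hout : ∀ p : W4, R < ‖p‖ → ψ p = PF φ p := by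
    intro p hp
    have h1 := hR₀ p (lt_of_le_of_lt (le_max_left _ _) hp)
    have h2 := hχ0 p (lt_of_le_of_lt (le_max_right _ _) hp).le
    simp only [hψ, h1, h2]
    ring
  obtain ⟨k, hk0, hk1, hI2, hg2⟩ := hGTR φ hφ ψ R (ε / 3) hψsm
    (fun p hp => by rw [hout p hp]; exact (hPFb p).1) hI1 (by positivity)
  obtain ⟨hm1, hm2, hm3, -, -⟩ := hTRK k hk0
  have hPFpos : ∀ p, 0 < PF φ p := fun p => lt_of_lt_of_le (by norm_num) (hPFb p).1
  have hpos : ∀ p, 0 < mk k (ψ p) := fun p => lt_of_lt_of_le hk0 (hm3 _)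
  set ξ : W4 → ℝ := fun p => Real.log (mk k (ψ p) / PF φ p) with hξ
  have hexp : ∀ p, PF φ p * Real.exp (ξ p) = mk k (ψ p) := by
    intro p
    simp only [hξ]
    rw [Real.exp_log (div_pos (hpos p) (hPFpos p)), mul_div_cancel₀ _ (hPFpos p).ne']
  have hfe : (fun p => PF φ p * Real.exp (ξ p)) = fun p => mk k (ψ p) := funext hexp
  have hξ0 : ∀ p : W4, R < ‖p‖ → ξ p = 0 := by
    intro p hp
    have h1 := hout p hp
    have h2 := (hPFb p).1
    have h3 : mk k (ψ p) = PF φ p := by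
      rw [h1]
      exact hm2 _ (by linarith)
    simp only [hξ]
    rw [h3, div_self (hPFpos p).ne', Real.log_one]
  refine ⟨ξ, ⟨?_, ?_⟩, ?_, ?_, ?_⟩
  · exact ((hm1.comp hψsm).div hPF fun p => (hPFpos p).ne').log
      fun p => (div_pos (hpos p) (hPFpos p)).ne'
  · refine HasCompactSupport.intro (isCompact_closedBall (0 : W4) R) ?_
    intro p hp
    apply hξ0
    rw [Metric.mem_closedBall, dist_zero_right, not_le] at hp
    exact hp
  · intro σ p
    have h1 : ψ (Pm σ p) = ψ p := by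
      simp only [hψ, hζd]
      rw [(hPs σ p).1, (hPs σ p).2, hηs σ p, hχs σ p]
    simp only [hξ]
    rw [h1, (hPs σ p).1]
  · rw [hfe]
    exact hI2
  · rw [hfe]
    unfold b4
    have : gam4 φ ψ = JJ φ (fun p => η p + (1 - chi r p) * ζ p) - B40 φ := hg1
    rw [← hS]
    linarith

end Pool.Agent.TBF
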