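import Pool.Agent.TBF.Stmts

set_option autoImplicit false

open MeasureTheory Filter Topology
open scoped ContDiff

namespace Pool.Agent.TBF

open Pool.Agent.TBG Pool.Agent.TBL

theorem ob2_proof (hRLS : Stmt_RLS) (hB20 : Stmt_B20) (hSY1 : Stmt_SY1) (hSY2 : Stmt_SY2)
    (hSY3 : Stmt_SY3) (hBFM : Stmt_BFM) : Stmt_OB2 := by
  intro φ hφ hdil ε hε
  obtain ⟨u, r₀, C, hu, hr₀, hmain⟩ := hB20 φ hφ hdil ε hε
  obtain ⟨Y₀, g₀, hD₀, -⟩ := hmain r₀ le_rfl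
  obtain ⟨hTF, -, -, hequ, -⟩ := hSY1 φ hφ u r₀ C Y₀ g₀ hr₀ hu hD₀
  have hym : ym (syu u 3) = syu u := by
    funext m p
    obtain ⟨τ, h1, -, h3⟩ := hRLS.2.1 m
    rw [h3 (syu u 3) p, hequ τ 3 p, h1]
  refine ⟨syu u 3, 2 * r₀, 2 * (512 * C), hTF 3, ?_, by positivity, ?_⟩
  · intro σ p hσ
    rw [hequ σ 3 p, hσ]
  · intro l hl
    have hl0 : 0 < l / 2 := by linarith
    have e2 : 2 * (l / 2) = l := by ring
    obtain ⟨Y, g, hD, hb⟩ := hmain (l / 2) (by linarith)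
    obtain ⟨-, hD1, hsg, -, hequY⟩ := hSY1 φ hφ u (l / 2) C Y g hl0 hu hD
    have hb1 := hSY2 φ hφ u (l / 2) C Y g hl0 hu hD
    rw [e2] at hD1
    obtain ⟨hD2, hsum, hb2, hequ2⟩ := hSY3 φ (syu u) l (512 * C) (syY Y) (syg g) (by linarith) hD1
    refine ⟨s0 (syY Y), syg g, ?_, ?_⟩
    · refine ⟨hD2.smY, hD2.smg, hD2.spY, hD2.spg, ?_, hD2.bdY, hD2.bdg, hequ2 hequY, hsg, hsum⟩
      intro p
      rw [hym]
      exact hD2.eqn p
    · have hB := hBFM φ hφ (syu u 3) l (2 * (512 * C)) (s0 (syY Y)) (syg g) (by linarith) (hTF 3)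
        (by rw [hym]; exact hD2)
      rw [hB, hym]
      linarith

end Pool.Agent.TBF
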