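import Pool.Agent.TBF.Stmts

/-!
Squad TBF, module OB3: the coefficient of the family.
-/

set_option autoImplicit false

open MeasureTheory Filter Topology
open scoped ContDiff

namespace Pool.Agent.TBF

open Pool.Agent.TBG Pool.Agent.TBL

namespace OB3_

theorem Vm_nonneg {φ : E × E → ℝ} (hφ : Scat φ) (m : Fin 4) (p : W4) : 0 ≤ Vm φ m p := by
  unfold Vm VV ww
  have h1 := hφ.sup ((pm m p).1, (pm m p).2)
  have h2 := hφ.le_half ((pm m p).1, (pm m p).2)
  exact div_nonneg (by linarith) (by linarith)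

theorem ww_nonneg {φ : E × E → ℝ} (hφ : Scat φ) (z : E × E) : 0 ≤ ww φ z := by
  unfold ww
  linarith [hφ.sup z]

theorem TF_zero : TF (fun _ => (0 : ℝ)) := ⟨contDiff_const, HasCompactSupport.zero⟩

theorem JJ_nonneg {φ : E × E → ℝ} (hφ : Scat φ) (η : W4 → ℝ) : 0 ≤ JJ φ η := by
  unfold JJ
  refine integral_nonneg fun p => ?_
  exact add_nonneg (Finset.sum_nonneg fun m _ => Finset.sum_nonneg fun c _ => sq_nonneg _)
    (Finset.sum_nonneg fun m _ => mul_nonneg (Vm_nonneg hφ m p) (sq_nonneg _))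

theorem JJ_zero (φ : E × E → ℝ) : JJ φ (fun _ => 0) = ∫ p, ∑ m, Vm φ m p * Pq φ m p ^ 2 := by
  unfold JJ
  refine integral_congr_ae (Eventually.of_forall fun p => ?_)
  have h : ∀ v : W4, dv v (fun _ : W4 => (0 : ℝ)) p = 0 := fun v => by
    unfold dv
    simp
  unfold gsq4
  simp [h]

theorem b4_bounds {φ : E × E → ℝ} (hφ : Scat φ) :
    - B40 φ ≤ b4 φ ∧ b4 φ ≤ (∫ p, ∑ m, Vm φ m p * Pq φ m p ^ 2) - B40 φ := by
  unfold b4
  constructor
  · have : 0 ≤ sInf {x : ℝ | ∃ η : W4 → ℝ, TF η ∧ x = JJ φ η} := by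
      apply Real.sInf_nonneg
      rintro x ⟨η, -, rfl⟩
      exact JJ_nonneg hφ η
    linarith
  · have : sInf {x : ℝ | ∃ η : W4 → ℝ, TF η ∧ x = JJ φ η} ≤ JJ φ (fun _ => 0) := by
      apply csInf_le
      · refine ⟨0, ?_⟩
        rintro x ⟨η, -, rfl⟩
        exact JJ_nonneg hφ η
      · exact ⟨_, TF_zero, rfl⟩
    rw [JJ_zero] at this
    linarith

end OB3_

open OB3_ in
theorem ob3_proof (_hALG : Stmt_ALG) (_hSCB : Stmt_SCB) (hDIT : Stmt_DIT) (hPLS : Stmt_PLS)
    (hB3P : Stmt_B3P) (_hPRF : Pool.Agent.TBL.Stmt_PRF) (hSCA : Pool.Agent.TBL.Stmt_SCA) :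
    Stmt_OB3 := by
  have h0 : Scat phi0 := hSCA.1
  obtain ⟨-, d2, -⟩ := hDIT phi0 h0
  have hint0 : Integrable (fun p => ∑ m, Vm phi0 m p * Pq phi0 m p ^ 2) :=
    integrable_finsetSum _ fun m _ => d2 m
  set I0 := ∫ p, ∑ m, Vm phi0 m p * Pq phi0 m p ^ 2 with hI0
  have hI0n : 0 ≤ I0 := integral_nonneg fun p => Finset.sum_nonneg fun m _ =>
    mul_nonneg (Vm_nonneg h0 m p) (sq_nonneg _)
  refine ⟨2 * I0 + 1, by linarith, ?_⟩
  intro lam hl hl1
  obtain ⟨hS, hw, hV, hp⟩ := hPLS lam hl hl1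
  obtain ⟨hB0, hB⟩ := hB3P
  obtain ⟨k1, k2⟩ := b4_bounds hS
  rw [hB lam hl hl1] at k1 k2
  have hpl : ∀ z, 0 < pl lam z ∧ pl lam z ≤ 1 / 8 := fun z => by
    obtain ⟨a, b⟩ := hp z
    unfold pl
    refine ⟨mul_pos hl a, ?_⟩
    calc lam * phi0 z ≤ 1 * phi0 z := mul_le_mul_of_nonneg_right hl1 a.le
      _ ≤ 1 / 8 := by linarith
  have hPq0 : ∀ m p, 0 ≤ Pq phi0 m p := fun m p => Finset.sum_nonneg fun j _ => (hp _).1.le
  have hPq : ∀ m p, Pq (pl lam) m p = lam * Pq phi0 m p := fun m p => by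
    unfold Pq pl
    rw [Finset.mul_sum]
  have hPqn : ∀ m p, 0 ≤ Pq (pl lam) m p ∧ Pq (pl lam) m p ≤ 3 / 8 := fun m p => by
    constructor
    · exact Finset.sum_nonneg fun j _ => (hpl _).1.le
    · unfold Pq
      refine (Finset.sum_le_card_nsmul _ _ (1 / 8 : ℝ) fun j _ => (hpl _).2).trans ?_
      rw [Finset.card_erase_of_mem (Finset.mem_univ m), Finset.card_univ, Fintype.card_fin]
      norm_num
  -- `V ≤ 8/7 w`
  have hVw : ∀ m p, Vm (pl lam) m p ≤ 8 / 7 * ww (pl lam) (pm m p) := fun m p => by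
    have e : Vm (pl lam) m p = ww (pl lam) (pm m p) / (1 - pl lam (pm m p)) := rfl
    rw [e, div_le_iff₀ (by linarith [(hpl (pm m p)).2])]
    have h1 := ww_nonneg hS (pm m p)
    have h2 := (hpl (pm m p)).2
    nlinarith
  have hV0w : ∀ m p, ww phi0 (pm m p) ≤ Vm phi0 m p := fun m p => by
    have e : Vm phi0 m p = ww phi0 (pm m p) / (1 - phi0 (pm m p)) := rfl
    rw [e, le_div_iff₀ (by linarith [(hp (pm m p)).2])]
    have h1 := ww_nonneg h0 (pm m p)
    have h2 := (hp (pm m p)).1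
    nlinarith
  have hww : ∀ z, ww (pl lam) z = lam * ww phi0 z := fun z => by
    rw [hw z, hSCA.2.1 z]
  obtain ⟨-, e2, e3⟩ := hDIT (pl lam) hS
  refine ⟨by linarith, ?_, ?_⟩
  · have h3 : ∫ p, ∑ m, Vm (pl lam) m p * Pq (pl lam) m p ^ 2 ≤ 2 * lam ^ 3 * I0 := by
      rw [hI0, ← integral_const_mul]
      refine integral_mono_of_nonneg (Eventually.of_forall fun p => Finset.sum_nonneg fun m _ =>
        mul_nonneg (Vm_nonneg hS m p) (sq_nonneg _)) (hint0.const_mul _)
        (Eventually.of_forall fun p => ?_)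
      simp only
      rw [Finset.mul_sum]
      refine Finset.sum_le_sum fun m _ => ?_
      rw [hPq, mul_pow]
      have h4 : Vm (pl lam) m p ≤ 2 * lam * Vm phi0 m p := by
        refine (hVw m p).trans ?_
        rw [hww]
        have h5 := hV0w m p
        have h6 := ww_nonneg h0 (pm m p)
        have h7 := Vm_nonneg h0 m p
        nlinarith [mul_nonneg hl.le h6, mul_nonneg hl.le h7, mul_le_mul_of_nonneg_left h5 hl.le]
      calc Vm (pl lam) m p * (lam ^ 2 * Pq phi0 m p ^ 2)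
          ≤ (2 * lam * Vm phi0 m p) * (lam ^ 2 * Pq phi0 m p ^ 2) :=
            mul_le_mul_of_nonneg_right h4 (by positivity)
        _ = 2 * lam ^ 3 * (Vm phi0 m p * Pq phi0 m p ^ 2) := by ring
    have h8 : 0 < lam ^ 3 := by positivity
    nlinarith
  · have hwq : ∀ m, Integrable (fun p => ww (pl lam) (pm m p) * Pq (pl lam) m p) := fun m => by
      have : (fun p => ww (pl lam) (pm m p) * Pq (pl lam) m p) =
          fun p => ∑ j ∈ Finset.univ.erase m, ww (pl lam) (pm m p) * (pl lam) (pm j p) := by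
        funext p
        unfold Pq
        rw [Finset.mul_sum]
      rw [this]
      exact integrable_finsetSum _ fun j hj => (e3 m j (Finset.ne_of_mem_erase hj).symm).2.1
    have h3 : ∫ p, ∑ m, Vm (pl lam) m p * Pq (pl lam) m p ^ 2 ≤ 1 / 2 * B40 (pl lam) := by
      unfold B40
      rw [← integral_const_mul]
      refine integral_mono_of_nonneg (Eventually.of_forall fun p => Finset.sum_nonneg fun m _ =>
        mul_nonneg (Vm_nonneg hS m p) (sq_nonneg _))
        ((integrable_finsetSum _ fun m _ => hwq m).const_mul _)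
        (Eventually.of_forall fun p => ?_)
      simp only
      rw [Finset.mul_sum]
      refine Finset.sum_le_sum fun m _ => ?_
      obtain ⟨q1, q2⟩ := hPqn m p
      have h4 := hVw m p
      have h5 := ww_nonneg hS (pm m p)
      calc Vm (pl lam) m p * Pq (pl lam) m p ^ 2
          ≤ (8 / 7 * ww (pl lam) (pm m p)) * Pq (pl lam) m p ^ 2 :=
            mul_le_mul_of_nonneg_right h4 (sq_nonneg _)
        _ = 8 / 7 * (ww (pl lam) (pm m p) * Pq (pl lam) m p) * Pq (pl lam) m p := by ring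
        _ ≤ 8 / 7 * (ww (pl lam) (pm m p) * Pq (pl lam) m p) * (3 / 8) :=
            mul_le_mul_of_nonneg_left q2 (by positivity)
        _ ≤ 1 / 2 * (ww (pl lam) (pm m p) * Pq (pl lam) m p) := by
            have : 0 ≤ ww (pl lam) (pm m p) * Pq (pl lam) m p := mul_nonneg h5 q1
            linarith
    rw [hB lam hl hl1] at h3
    have h9 : 0 < lam ^ 2 * B40 phi0 := by positivity
    linarith

end Pool.Agent.TBF
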