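import Pool.Agent.TBF.Stmts

set_option autoImplicit false

open MeasureTheory Filter Topology
open scoped ContDiff

namespace Pool.Agent.TBF

open Pool.Agent.TBG Pool.Agent.TBL

theorem pmv_proof (hRLP : Stmt_RLP) : Stmt_PMV := by
  obtain ⟨_, _, _, _, _, hmul, hone, _, hT, _, _, _⟩ := hRLP
  have i1 : (volume : Measure (E × E)).IsAddHaarMeasure :=
    Measure.prod.instIsAddHaarMeasure (volume : Measure E) (volume : Measure E)
  have i2 : (volume : Measure W4).IsAddHaarMeasure :=
    Measure.prod.instIsAddHaarMeasure (volume : Measure E) (volume : Measure (E × E))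
  intro σ
  obtain ⟨T, hTσ⟩ := hT σ
  obtain ⟨T', hTσ'⟩ := hT σ⁻¹
  have hfun : (Pm σ : W4 → W4) = T := funext fun p => (hTσ p).symm
  have hfun' : (Pm σ⁻¹ : W4 → W4) = T' := funext fun p => (hTσ' p).symm
  have hpow : ∀ (k : ℕ) (p : W4), (Pm σ)^[k] p = Pm (σ ^ k) p := by
    intro k
    induction k with
    | zero => intro p; simp [hone]
    | succ k ih =>
      intro p
      rw [Function.iterate_succ_apply', ih, hmul, pow_succ]
  have hdet : |LinearMap.det (T : W4 →ₗ[ℝ] W4)| = 1 := by
    have h1 : (T : W4 →ₗ[ℝ] W4) ^ 24 = 1 := by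
      apply LinearMap.ext
      intro p
      rw [Module.End.pow_apply]
      have h2 : (⇑(T : W4 →ₗ[ℝ] W4) : W4 → W4) = Pm σ := hfun.symm
      rw [h2, hpow]
      have h3 : σ ^ 24 = 1 := by
        have := pow_card_eq_one (x := σ)
        rwa [Fintype.card_perm, Fintype.card_fin, show Nat.factorial 4 = 24 from rfl] at this
      rw [h3, hone]
      rfl
    have h4 : (LinearMap.det (T : W4 →ₗ[ℝ] W4)) ^ 24 = 1 := by
      rw [← map_pow, h1, map_one]
    have h5 : |LinearMap.det (T : W4 →ₗ[ℝ] W4)| ^ 24 = 1 := by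
      rw [← abs_pow, h4, abs_one]
    exact (pow_eq_one_iff_of_nonneg (abs_nonneg _) (by norm_num)).mp h5
  have hdet0 : LinearMap.det (T : W4 →ₗ[ℝ] W4) ≠ 0 := by
    intro h
    rw [h, abs_zero] at hdet
    exact zero_ne_one hdet
  have hmap : Measure.map (Pm σ) (volume : Measure W4) = volume := by
    have h6 := Measure.map_linearMap_addHaar_eq_smul_addHaar (volume : Measure W4) hdet0
    have h7 : (⇑(T : W4 →ₗ[ℝ] W4) : W4 → W4) = Pm σ := hfun.symm
    rw [h7] at h6
    rw [h6, abs_inv, hdet, inv_one, ENNReal.ofReal_one, one_smul]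
  have hmeas : Measurable (Pm σ : W4 → W4) := by
    rw [hfun]
    exact T.continuous.measurable
  have hmeas' : Measurable (Pm σ⁻¹ : W4 → W4) := by
    rw [hfun']
    exact T'.continuous.measurable
  have hmp : MeasurePreserving (Pm σ : W4 → W4) volume volume := ⟨hmeas, hmap⟩
  let e : W4 ≃ᵐ W4 :=
    { toFun := Pm σ
      invFun := Pm σ⁻¹
      left_inv := fun p => by rw [hmul, mul_inv_cancel, hone]
      right_inv := fun p => by rw [hmul, inv_mul_cancel, hone]
      measurable_toFun := hmeas
      measurable_invFun := hmeas' }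
  have hemb : MeasurableEmbedding (Pm σ : W4 → W4) := e.measurableEmbedding
  exact ⟨hmp, fun F => hmp.integral_comp hemb F, fun F hF => (hmp.integrable_comp_emb hemb).mpr hF⟩

end Pool.Agent.TBF
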