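import Pool.Agent.TBF.Stmts

/-!
TBF RAD: the radial field
-/

set_option autoImplicit false

open MeasureTheory Filter Topology
open scoped ContDiff

namespace Pool.Agent.TBF

open Pool.Agent.TBG Pool.Agent.TBL

namespace RAD_

/-- `rl` as a linear map -/
noncomputable def rll : (Fin 4 → E) →ₗ[ℝ] W4 where
  toFun := rl
  map_add' X Y := by
    simp only [rl, Pi.add_apply, Prod.mk_add_mk]
    congr 1
    · abel
    · congr 1 <;> abel
  map_smul' a X := by
    simp only [rl, Pi.smul_apply, Prod.smul_mk, RingHom.id_apply, smul_sub]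

/-- the particles as linear maps -/
noncomputable def cl (i : Fin 4) : W4 →L[ℝ] E :=
  ![0, -ContinuousLinearMap.fst ℝ E (E × E),
    -(ContinuousLinearMap.fst ℝ E E).comp (ContinuousLinearMap.snd ℝ E (E × E)),
    -(ContinuousLinearMap.snd ℝ E E).comp (ContinuousLinearMap.snd ℝ E (E × E))] i

theorem cl_apply (i : Fin 4) (p : W4) : cl i p = cf p i := by
  fin_cases i <;> simp [cl, cf]

theorem cf_norm (p : W4) (i : Fin 4) : ‖cf p i‖ ≤ ‖p‖ := by
  have h1 : ‖p.1‖ ≤ ‖p‖ := norm_fst_le p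
  have h2 : ‖p.2‖ ≤ ‖p‖ := norm_snd_le p
  have h3 : ‖p.2.1‖ ≤ ‖p.2‖ := norm_fst_le p.2
  have h4 : ‖p.2.2‖ ≤ ‖p.2‖ := norm_snd_le p.2
  fin_cases i
  · simp [cf]
  · simpa [cf] using h1
  · simpa [cf] using h3.trans h2
  · simpa [cf] using h4.trans h2

theorem comp_le (p : W4) (i : Fin 4) (c : Fin 3) : |cf p i c| ≤ ‖p‖ :=
  (PiLp.norm_apply_le (cf p i) c).trans (cf_norm p i)

/-- the coordinates as linear forms -/
noncomputable def xl (m : Fin 4) (c : Fin 3) : W4 →L[ℝ] ℝ :=
  (EuclideanSpace.proj c).comp (cl m) - (1 / 4 : ℝ) • ∑ j, (EuclideanSpace.proj c).comp (cl j)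

theorem xl_apply (m : Fin 4) (c : Fin 3) (p : W4) : xl m c p = Xr m c p := by
  simp [xl, Xr, cl_apply]

/-- the directions, coordinates of a vector -/
theorem sum_ev (v : E) : ∑ c, v c • ev c = v := by
  ext i
  fin_cases i <;> simp [ev, Fin.sum_univ_three]

theorem single_sum (m : Fin 4) (a : Fin 3 → ℝ) :
    ∑ c, a c • d4 m c = rll (Pi.single m (∑ c, a c • ev c)) := by
  have e1 : (Pi.single m (∑ c, a c • ev c) : Fin 4 → E) = ∑ c, a c • (Pi.single m (ev c) : Fin 4 → E) := by
    funext j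
    by_cases h : j = m
    · subst h
      simp
    · simp [Pi.single_eq_of_ne h]
  rw [e1, map_sum]
  refine Finset.sum_congr rfl fun c _ => ?_
  rw [map_smul]
  rfl

theorem rll_sum (X : Fin 4 → E) : ∑ m, rll (Pi.single m (X m)) = rll X := by
  rw [← map_sum]
  congr 1
  exact Finset.univ_sum_single X

end RAD_

open RAD_

theorem rad_proof (hRLP : Stmt_RLP) (_hRLD : Stmt_RLD) : Stmt_RAD := by
  obtain ⟨rlcf, cfrl, rltr, -⟩ := hRLP
  have hsum : ∀ p, ∑ m, ∑ c, Xr m c p • d4 m c = p := by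
    intro p
    have e1 : ∀ m, ∑ c, Xr m c p • d4 m c =
        rll (Pi.single m (cf p m + -((1 / 4 : ℝ) • ∑ j, cf p j))) := by
      intro m
      rw [single_sum]
      congr 2
      have : ∀ c, Xr m c p = (cf p m + -((1 / 4 : ℝ) • ∑ j, cf p j)) c := by
        intro c
        simp [Xr, Finset.sum_apply]
        ring
      simp_rw [this]
      exact sum_ev _
    simp_rw [e1]
    rw [rll_sum (fun m => cf p m + -((1 / 4 : ℝ) • ∑ j, cf p j))]
    have h2 : ∀ X : Fin 4 → E, rll X = rl X := fun X => rfl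
    rw [h2, rltr, rlcf]
  have hcd : ∀ m c, ContDiff ℝ ∞ (Xr m c) := by
    intro m c
    have : Xr m c = fun p => xl m c p := by
      funext p
      rw [xl_apply]
    rw [this]
    exact (xl m c).contDiff
  have hb : ∀ m c (p : W4), |Xr m c p| ≤ 2 * ‖p‖ := by
    intro m c p
    have h0 := comp_le p 0 c
    have h1 := comp_le p 1 c
    have h2 := comp_le p 2 c
    have h3 := comp_le p 3 c
    have hm := comp_le p m c
    unfold Xr
    rw [Fin.sum_univ_four]
    rw [abs_le] at *
    constructor <;> linarith [h0.1, h0.2, h1.1, h1.2, h2.1, h2.2, h3.1, h3.2, hm.1, hm.2]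
  refine ⟨hsum, hcd, hb, ?_⟩
  intro A hA p
  have hdA : DifferentiableAt ℝ A p := (hA.differentiable (by simp)) p
  have hXd : ∀ m c, Xr m c (d4 m c) = 3 / 4 := by
    intro m c
    have hc : ∀ i, cf (d4 m c) i c = (Pi.single m (ev c) : Fin 4 → E) i c - (Pi.single m (ev c) : Fin 4 → E) 0 c := by
      intro i
      unfold d4
      rw [cfrl]
      rfl
    unfold Xr
    rw [Fin.sum_univ_four]
    simp only [hc]
    fin_cases m <;> fin_cases c <;> simp [ev] <;> norm_num
  have hprod : ∀ m c, dv (d4 m c) (fun p => Xr m c p * A p) p =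
      3 / 4 * A p + fderiv ℝ A p (Xr m c p • d4 m c) := by
    intro m c
    unfold dv
    have hx : HasFDerivAt (Xr m c) (xl m c) p := by
      have : Xr m c = fun p => xl m c p := by
        funext p
        rw [xl_apply]
      rw [this]
      exact (xl m c).hasFDerivAt
    have h := (hx.mul hdA.hasFDerivAt).fderiv
    have h' : fderiv ℝ (fun p => Xr m c p * A p) p = Xr m c p • fderiv ℝ A p + A p • xl m c := h
    rw [h']
    simp only [add_apply, smul_apply, smul_eq_mul, map_smul,
      xl_apply, hXd]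
    ring
  have hlin : ∑ m, ∑ c, fderiv ℝ A p (Xr m c p • d4 m c) = fderiv ℝ A p p := by
    simp_rw [← map_sum]
    rw [hsum]
  unfold dvg
  simp_rw [hprod]
  simp_rw [Finset.sum_add_distrib]
  rw [hlin]
  simp only [Finset.sum_const, Finset.card_univ, Fintype.card_fin, nsmul_eq_mul]
  push_cast
  ring

end Pool.Agent.TBF
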