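import Pool.Agent.TBF.Stmts

set_option autoImplicit false

open MeasureTheory Filter Topology
open scoped ContDiff

namespace Pool.Agent.TBF

open Pool.Agent.TBG Pool.Agent.TBL

theorem rld_proof (hRLP : Stmt_RLP) : Stmt_RLD := by
  obtain ⟨_, _, hrltr, hPmrl, hpmm, _, _, _, _, _, _, _⟩ := hRLP
  refine ⟨fun m c => ?_, fun m k c => ?_, fun σ m c => ?_, fun c => ?_, fun m c => ?_⟩
  · rw [d4, hpmm]
    simp [Pi.single_eq_of_ne, Fin.succAbove_ne]
  · rw [d4, hpmm]
    have hs : ∀ a b : Fin 3, (Pi.single (m.succAbove a) (ev c) : Fin 4 → E) (m.succAbove b) =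
        if b = a then ev c else 0 := by
      intro a b
      by_cases hab : b = a
      · subst hab
        simp
      · rw [if_neg hab, Pi.single_eq_of_ne]
        intro h
        exact hab (Fin.succAbove_right_injective h)
    rw [hs, hs, hs]
    fin_cases k <;> simp [dr]
  · rw [d4, hPmrl, d4]
    congr 1
    funext i
    by_cases h : i = σ⁻¹ m
    · subst h
      simp
    · rw [Pi.single_eq_of_ne h, Pi.single_eq_of_ne]
      intro h2
      apply h
      rw [← h2]
      simp
  · simp only [d4, rl]
    rw [Fin.sum_univ_four]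
    simp
  · have hev : ‖ev c‖ = 1 := by
      rw [ev]
      simp
    rw [d4, rl]
    have hle : ∀ a b : Fin 4, a ≠ b →
        ‖(Pi.single m (ev c) : Fin 4 → E) a - (Pi.single m (ev c) : Fin 4 → E) b‖ ≤ 1 := by
      intro a b hab
      by_cases ha : a = m
      · subst ha
        rw [Pi.single_eq_same, Pi.single_eq_of_ne (Ne.symm hab), sub_zero, hev]
      · rw [Pi.single_eq_of_ne ha]
        by_cases hb : b = m
        · subst hb
          rw [Pi.single_eq_same, zero_sub, norm_neg, hev]
        · rw [Pi.single_eq_of_ne hb]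
          simp
    exact max_le (hle 0 1 (by decide)) (max_le (hle 0 2 (by decide)) (hle 0 3 (by decide)))

end Pool.Agent.TBF
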