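import Pool.Agent.TBF.Stmts

/-!
Squad TBF, module RLS: symmetric functions of triples.
-/

set_option autoImplicit false

open MeasureTheory Filter Topology
open scoped ContDiff

namespace Pool.Agent.TBF

open Pool.Agent.TBG Pool.Agent.TBL

namespace RLS_

theorem enum3 : ∀ (a b c : Fin 3), a ≠ b → a ≠ c → b ≠ c →
    (a = 0 ∧ b = 1 ∧ c = 2) ∨ (a = 0 ∧ b = 2 ∧ c = 1) ∨ (a = 1 ∧ b = 0 ∧ c = 2) ∨
    (a = 1 ∧ b = 2 ∧ c = 0) ∨ (a = 2 ∧ b = 0 ∧ c = 1) ∨ (a = 2 ∧ b = 1 ∧ c = 0) := by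
  decide

theorem tau_ex : ∀ m : Fin 4, ∃ τ : Equiv.Perm (Fin 4), τ 3 = m ∧ τ 0 = m.succAbove 0 ∧
    τ 1 = m.succAbove 1 ∧ τ 2 = m.succAbove 2 := by
  decide

theorem sym_three (u : E × E → ℝ) (h1 : ∀ x y, u (x, y) = u (y, x))
    (h2 : ∀ x y, u (x, y) = u (-x, y - x)) (X : Fin 4 → E) (s i j k : Fin 4)
    (hij : i ≠ j) (hik : i ≠ k) (hjk : j ≠ k) (his : i ≠ s) (hjs : j ≠ s) (hks : k ≠ s) :
    u (X i - X j, X i - X k) = u (X (s.succAbove 0) - X (s.succAbove 1),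
      X (s.succAbove 0) - X (s.succAbove 2)) := by
  have f12 : ∀ a b c : E, u (a - b, a - c) = u (a - c, a - b) := fun a b c => h1 _ _
  have f01 : ∀ a b c : E, u (a - b, a - c) = u (b - a, b - c) := by
    intro a b c
    rw [h2]
    congr 2
    · abel
    · abel
  obtain ⟨a, rfl⟩ := Fin.exists_succAbove_eq his
  obtain ⟨b, rfl⟩ := Fin.exists_succAbove_eq hjs
  obtain ⟨c, rfl⟩ := Fin.exists_succAbove_eq hks
  have hab : a ≠ b := fun h => hij (by rw [h])
  have hac : a ≠ c := fun h => hik (by rw [h])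
  have hbc : b ≠ c := fun h => hjk (by rw [h])
  rcases enum3 a b c hab hac hbc with h | h | h | h | h | h <;>
    obtain ⟨rfl, rfl, rfl⟩ := h
  · rfl
  · exact f12 _ _ _
  · exact f01 _ _ _
  · rw [f12, f01]
  · rw [f01, f12]
  · rw [f12, f01, f12]

end RLS_

open RLS_ in
theorem rls_proof (hRLP : Stmt_RLP) : Stmt_RLS := by
  obtain ⟨hrc, hcr, _, hPr, hpr, hPP, hP1, _, _, _, _, _⟩ := hRLP
  have hpm : ∀ (σ : Equiv.Perm (Fin 4)) (m : Fin 4) (p : W4), pm m (Pm σ p) =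
      (cf p (σ (m.succAbove 0)) - cf p (σ (m.succAbove 1)),
        cf p (σ (m.succAbove 0)) - cf p (σ (m.succAbove 2))) := by
    intro σ m p
    exact hpr m (fun i => cf p (σ i))
  have h2 : ∀ m : Fin 4, ∃ τ : Equiv.Perm (Fin 4), τ 3 = m ∧ (∀ p, pm m p = pm 3 (Pm τ p)) ∧
      ∀ y p, ym y m p = y (Pm τ p) := by
    intro m
    obtain ⟨τ, t3, t0, t1, t2⟩ := tau_ex m
    refine ⟨τ, t3, fun p => ?_, fun y p => ?_⟩
    · rw [hpm]
      have e0 : (3 : Fin 4).succAbove 0 = 0 := by decide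
      have e1 : (3 : Fin 4).succAbove 1 = 1 := by decide
      have e2 : (3 : Fin 4).succAbove 2 = 2 := by decide
      rw [e0, e1, e2, t0, t1, t2]
      rfl
    · show y (rl ![cf p (m.succAbove 0), cf p (m.succAbove 1), cf p (m.succAbove 2), cf p m]) =
        y (rl (fun i => cf p (τ i)))
      have e : (fun i => cf p (τ i)) =
          ![cf p (m.succAbove 0), cf p (m.succAbove 1), cf p (m.succAbove 2), cf p m] := by
        funext i
        fin_cases i
        · show cf p (τ 0) = cf p (m.succAbove 0)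
          rw [t0]
        · show cf p (τ 1) = cf p (m.succAbove 1)
          rw [t1]
        · show cf p (τ 2) = cf p (m.succAbove 2)
          rw [t2]
        · show cf p (τ 3) = cf p m
          rw [t3]
      rw [e]
  refine ⟨?_, h2, ?_⟩
  · intro u hu1 hu2 σ m p
    rw [hpm]
    have hinj : ∀ a b : Fin 3, a ≠ b → σ (m.succAbove a) ≠ σ (m.succAbove b) := by
      intro a b hab h
      exact hab (Fin.succAbove_right_injective (σ.injective h))
    have hne : ∀ a : Fin 3, σ (m.succAbove a) ≠ σ m := by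
      intro a h
      exact Fin.succAbove_ne m a (σ.injective h)
    exact sym_three u hu1 hu2 (cf p) (σ m) _ _ _ (hinj 0 1 (by decide)) (hinj 0 2 (by decide))
      (hinj 1 2 (by decide)) (hne 0) (hne 1) (hne 2)
  · intro y hy σ m p
    obtain ⟨τ, t3, _, ty⟩ := h2 m
    obtain ⟨τ', t3', _, ty'⟩ := h2 (σ m)
    rw [ty, ty', hPP]
    have e : σ * τ = τ' * (τ'⁻¹ * (σ * τ)) := by group
    rw [e, ← hPP]
    refine hy _ _ ?_
    show τ'⁻¹ (σ (τ 3)) = 3
    rw [t3, ← t3']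
    exact τ'.symm_apply_apply 3

end Pool.Agent.TBF
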