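import Pool.Agent.TBF.Stmts

/-!
Squad TBF, module SC4: scaling of the four-body coefficient.
-/

set_option autoImplicit false

open MeasureTheory Filter Topology
open scoped ContDiff Pointwise

namespace Pool.Agent.TBF

open Pool.Agent.TBG Pool.Agent.TBL

namespace SC4_

theorem intW (f : W4 → ℝ) (r : ℝ) (hr : 0 < r) : ∫ y : W4, f (r⁻¹ • y) = r ^ 9 * ∫ y : W4, f y := by
  have h2 : (volume : Measure (E × E)).IsAddHaarMeasure :=
    inferInstanceAs ((volume : Measure E).prod (volume : Measure E)).IsAddHaarMeasure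
  have : (volume : Measure W4).IsAddHaarMeasure :=
    Measure.prod.instIsAddHaarMeasure (volume : Measure E) (volume : Measure (E × E))
  rw [Measure.integral_comp_smul volume f r⁻¹]
  rw [Module.finrank_prod, Module.finrank_prod, finrank_euclideanSpace, Fintype.card_fin, smul_eq_mul,
    inv_pow, inv_inv, abs_of_pos (by positivity)]

theorem dv_smul (v : W4) (η : W4 → ℝ) (hη : ContDiff ℝ ∞ η) (s : ℝ) (p : W4) :
    dv v (fun p => η (s • p)) p = s * dv v η (s • p) := by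
  have h1 : HasFDerivAt (fun p : W4 => s • p) (s • ContinuousLinearMap.id ℝ W4) p :=
    (hasFDerivAt_id p).const_smul s
  have h2 : HasFDerivAt η (fderiv ℝ η (s • p)) (s • p) :=
    ((hη.differentiable (by simp)) (s • p)).hasFDerivAt
  have h3 := h2.comp p h1
  show fderiv ℝ (η ∘ fun p : W4 => s • p) p v = _
  rw [h3.fderiv]
  simp [dv]

theorem gsq4_smul (η : W4 → ℝ) (hη : ContDiff ℝ ∞ η) (s : ℝ) (p : W4) :
    gsq4 (fun p => η (s • p)) p = s ^ 2 * gsq4 η (s • p) := by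
  unfold gsq4
  rw [Finset.mul_sum]
  refine Finset.sum_congr rfl fun m _ => ?_
  rw [Finset.mul_sum]
  refine Finset.sum_congr rfl fun c _ => ?_
  rw [dv_smul _ η hη]
  ring

theorem tf_smul {η : W4 → ℝ} (hη : TF η) {s : ℝ} (hs : s ≠ 0) : TF (fun p => η (s • p)) := by
  refine ⟨hη.1.comp (contDiff_const_smul _), ?_⟩
  exact hη.2.comp_homeomorph (Homeomorph.smulOfNeZero s hs)

end SC4_

open SC4_ in
theorem sc4_proof (hRLP : Stmt_RLP) (_hALG : Stmt_ALG) (hLTR : Pool.Agent.TBG.Stmt_LTR)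
    (_hSCL : Pool.Agent.TBG.Stmt_SCL) : Stmt_SC4 := by
  intro φ r hφ hr
  obtain ⟨_, hsc, _, _⟩ := hLTR φ hφ.smooth
  have hr0 : r ≠ 0 := hr.ne'
  have hs0 : r⁻¹ ≠ 0 := inv_ne_zero hr0
  have hpm : ∀ (m : Fin 4) (p : W4), pm m (r⁻¹ • p) = r⁻¹ • pm m p := by
    intro m p
    obtain ⟨T, hT⟩ := hRLP.2.2.2.2.2.2.2.1 m
    rw [← hT, ← hT, map_smul]
  have hww : ∀ z, ww (fun z => φ (r⁻¹ • z)) z = r⁻¹ ^ 2 * ww φ (r⁻¹ • z) := by
    intro z
    unfold ww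
    rw [(hsc r⁻¹ z).1]
    ring
  have hwm : ∀ (m : Fin 4) (p : W4), ww (fun z => φ (r⁻¹ • z)) (pm m p) =
      r⁻¹ ^ 2 * ww φ (pm m (r⁻¹ • p)) := by
    intro m p
    rw [hww, hpm]
  have hVm : ∀ (m : Fin 4) (p : W4), Vm (fun z => φ (r⁻¹ • z)) m p =
      r⁻¹ ^ 2 * Vm φ m (r⁻¹ • p) := by
    intro m p
    unfold Vm VV
    rw [hpm]
    show ww (fun z => φ (r⁻¹ • z)) (pm m p) / (1 - φ (r⁻¹ • pm m p)) =
      r⁻¹ ^ 2 * (ww φ (r⁻¹ • pm m p) / (1 - φ (r⁻¹ • pm m p)))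
    rw [hww]
    ring
  have hPq : ∀ (m : Fin 4) (p : W4), Pq (fun z => φ (r⁻¹ • z)) m p = Pq φ m (r⁻¹ • p) := by
    intro m p
    unfold Pq
    refine Finset.sum_congr rfl fun j _ => ?_
    rw [hpm]
  have hJJ : ∀ η : W4 → ℝ, ContDiff ℝ ∞ η → JJ (fun z => φ (r⁻¹ • z)) (fun p => η (r⁻¹ • p)) =
      r ^ 7 * JJ φ η := by
    intro η hη
    unfold JJ
    have h1 : ∀ p : W4, gsq4 (fun p => η (r⁻¹ • p)) p +
        ∑ m, Vm (fun z => φ (r⁻¹ • z)) m p * (η (r⁻¹ • p) - Pq (fun z => φ (r⁻¹ • z)) m p) ^ 2 =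
        r⁻¹ ^ 2 * (fun p => gsq4 η p + ∑ m, Vm φ m p * (η p - Pq φ m p) ^ 2) (r⁻¹ • p) := by
      intro p
      simp only
      rw [gsq4_smul η hη, mul_add, Finset.mul_sum]
      congr 1
      refine Finset.sum_congr rfl fun m _ => ?_
      rw [hVm, hPq]
      ring
    simp_rw [h1]
    rw [integral_const_mul, intW (fun p => gsq4 η p + ∑ m, Vm φ m p * (η p - Pq φ m p) ^ 2) r hr]
    field_simp
  have hB : B40 (fun z => φ (r⁻¹ • z)) = r ^ 7 * B40 φ := by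
    unfold B40
    have h1 : ∀ p : W4, ∑ m, ww (fun z => φ (r⁻¹ • z)) (pm m p) *
        Pq (fun z => φ (r⁻¹ • z)) m p =
        r⁻¹ ^ 2 * (fun p => ∑ m, ww φ (pm m p) * Pq φ m p) (r⁻¹ • p) := by
      intro p
      simp only
      rw [Finset.mul_sum]
      refine Finset.sum_congr rfl fun m _ => ?_
      rw [hwm, hPq]
      ring
    simp_rw [h1]
    rw [integral_const_mul, intW (fun p => ∑ m, ww φ (pm m p) * Pq φ m p) r hr]
    field_simp
  have hS : {x : ℝ | ∃ η : W4 → ℝ, TF η ∧ x = JJ (fun z => φ (r⁻¹ • z)) η} =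
      (r ^ 7) • {x : ℝ | ∃ η : W4 → ℝ, TF η ∧ x = JJ φ η} := by
    ext x
    rw [Set.mem_smul_set]
    constructor
    · rintro ⟨η, hη, rfl⟩
      refine ⟨JJ φ (fun p => η (r • p)), ⟨_, tf_smul hη hr0, rfl⟩, ?_⟩
      have h1 := hJJ (fun p => η (r • p)) (tf_smul hη hr0).1
      have h2 : (fun p : W4 => η (r • r⁻¹ • p)) = η := by
        funext p
        rw [smul_inv_smul₀ hr0]
      simp only [h2] at h1
      rw [smul_eq_mul, h1]
    · rintro ⟨y, ⟨η, hη, rfl⟩, rfl⟩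
      exact ⟨fun p => η (r⁻¹ • p), tf_smul hη hs0, by rw [hJJ η hη.1, smul_eq_mul]⟩
  unfold b4
  rw [hS, hB, Real.sInf_smul_of_nonneg (by positivity), smul_eq_mul]
  ring

end Pool.Agent.TBF
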