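import Pool.Agent.TBF.Stmts

/-!
Squad TBF, module SCB: bounds for scattering functions.
-/

set_option autoImplicit false

open MeasureTheory Filter Topology
open scoped ContDiff

namespace Pool.Agent.TBF

open Pool.Agent.TBG Pool.Agent.TBL

namespace SCB_

theorem dv_smooth {W : Type} [NormedAddCommGroup W] [NormedSpace ℝ W] (v : W) (f : W → ℝ)
    (hf : ContDiff ℝ ∞ f) : ContDiff ℝ ∞ (dv v f) := by
  unfold dv
  exact (hf.fderiv_right (m := ∞) (by simp)).clm_apply contDiff_const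

theorem Lap_smooth (φ : E × E → ℝ) (hφ : ContDiff ℝ ∞ φ) : ContDiff ℝ ∞ (Lap φ) := by
  unfold Lap
  refine ContDiff.sum (fun m _ => ContDiff.sum (fun c _ => ?_))
  exact dv_smooth _ _ (dv_smooth _ _ hφ)

/-- weighted bound of a continuous function with compact support -/
theorem wb (g : E × E → ℝ) (hc : Continuous g) (hs : HasCompactSupport g) (_h0 : ∀ z, 0 ≤ g z) :
    ∃ C : ℝ, 0 ≤ C ∧ ∀ z, g z ≤ C * ((1 + ‖z‖) ^ 20)⁻¹ := by
  have h1 : Continuous (fun z : E × E => (1 + ‖z‖) ^ 20 * g z) := by fun_prop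
  have h2 : HasCompactSupport (fun z : E × E => (1 + ‖z‖) ^ 20 * g z) := hs.mul_left
  obtain ⟨C, hC⟩ := h2.exists_bound_of_continuous h1
  refine ⟨C, (norm_nonneg _).trans (hC 0), fun z => ?_⟩
  have h3 := (le_abs_self _).trans (hC z)
  have h4 : 0 < (1 + ‖z‖) ^ 20 := by positivity
  rw [← div_eq_mul_inv, le_div_iff₀ h4, mul_comm]
  exact h3

end SCB_

theorem scb_proof (hADM : Pool.Agent.TBG.Stmt_ADM) (hLTR : Pool.Agent.TBG.Stmt_LTR) :
    Stmt_SCB := by
  intro φ hφ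
  obtain ⟨hadm, hVc, hwc, hws, hw0, hVw, hVs⟩ := hADM φ hφ
  obtain ⟨c0, hc0, hlow⟩ := hφ.low
  obtain ⟨C1, hC1⟩ := hφ.upp
  obtain ⟨C2, hC2⟩ := hφ.grad
  have hV0 : ∀ z : E × E, 0 ≤ VV φ z.1 z.2 := fun z => hadm.nonneg _ _
  obtain ⟨C3, hC30, hC3⟩ := SCB_.wb (fun z : E × E => VV φ z.1 z.2) hVc hVs hV0
  obtain ⟨C4, hC40, hC4⟩ := SCB_.wb (ww φ) hwc hws hw0
  have hgsq : ∀ m c z, (dv (dr m c) φ z) ^ 2 ≤ gsq φ z := by
    intro m c z
    unfold gsq
    refine le_trans ?_ (Finset.single_le_sum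
      (f := fun m => ∑ c, (dv (dr m c) φ z) ^ 2)
      (fun m _ => Finset.sum_nonneg fun c _ => sq_nonneg _) (Finset.mem_univ m))
    exact Finset.single_le_sum (f := fun c => (dv (dr m c) φ z) ^ 2)
      (fun c _ => sq_nonneg _) (Finset.mem_univ c)
  have hC20 : 0 ≤ C2 := by
    refine le_trans ?_ (hC2 0)
    refine mul_nonneg (by positivity) ((sq_nonneg _).trans (hgsq 0 0 0))
  have hpos : ∀ z, 0 < 1 - φ z := fun z => by have := hφ.le_half z; linarith
  have h1c : ∀ z : E × E, (0 : ℝ) < 1 + ‖z‖ := fun z => by positivity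
  have hwsm : ContDiff ℝ ∞ (ww φ) := (SCB_.Lap_smooth φ hφ.smooth).neg
  refine ⟨|C1| + Real.sqrt C2 + C3 + C4 + 1, by positivity, ?_, ?_, ?_, ?_, ?_, hwsm, hVw, ?_, ?_⟩
  · intro z
    have h4 : 0 < (1 + ‖z‖) ^ 4 := by positivity
    constructor
    · by_contra h
      push Not at h
      have := hlow z
      nlinarith
    · have h5 : φ z ≤ C1 * ((1 + ‖z‖) ^ 4)⁻¹ := by
        rw [← div_eq_mul_inv, le_div_iff₀ h4, mul_comm]
        exact hC1 z
      refine h5.trans (mul_le_mul_of_nonneg_right ?_ (by positivity))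
      have := le_abs_self C1
      have := Real.sqrt_nonneg C2
      linarith
  · intro m c z
    have h5 : 0 < (1 + ‖z‖) ^ 5 := by positivity
    have h6 : (|dv (dr m c) φ z| * (1 + ‖z‖) ^ 5) ^ 2 ≤ C2 := by
      rw [mul_pow, sq_abs]
      calc (dv (dr m c) φ z) ^ 2 * ((1 + ‖z‖) ^ 5) ^ 2 ≤ gsq φ z * ((1 + ‖z‖) ^ 5) ^ 2 :=
            mul_le_mul_of_nonneg_right (hgsq m c z) (by positivity)
        _ = (1 + ‖z‖) ^ 10 * gsq φ z := by ring
        _ ≤ C2 := hC2 z
    have h7 : |dv (dr m c) φ z| * (1 + ‖z‖) ^ 5 ≤ Real.sqrt C2 := Real.le_sqrt_of_sq_le h6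
    have h8 : |dv (dr m c) φ z| ≤ Real.sqrt C2 * ((1 + ‖z‖) ^ 5)⁻¹ := by
      rw [← div_eq_mul_inv, le_div_iff₀ h5]
      exact h7
    refine h8.trans (mul_le_mul_of_nonneg_right ?_ (by positivity))
    have := abs_nonneg C1
    linarith
  · intro z
    refine ⟨hV0 z, (hC3 z).trans (mul_le_mul_of_nonneg_right ?_ (by positivity))⟩
    have := abs_nonneg C1
    have := Real.sqrt_nonneg C2
    linarith
  · intro z
    refine ⟨hw0 z, (hC4 z).trans (mul_le_mul_of_nonneg_right ?_ (by positivity))⟩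
    have := abs_nonneg C1
    have := Real.sqrt_nonneg C2
    linarith
  · unfold VV
    exact hwsm.div (contDiff_const.sub hφ.smooth) (fun z => (hpos z).ne')
  · intro x y
    refine ⟨hadm.symm x y, ?_⟩
    have h := (hadm.tri 0 (-x) (-y)).1
    have e1 : (0 : E) - -x = x := by simp
    have e2 : (0 : E) - -y = y := by simp
    have e3 : -x - (0 : E) = -x := by simp
    have e4 : -x - -y = y - x := by abel
    rw [e1, e2, e3, e4] at h
    exact h
  · intro x y
    have h := hLTR φ hφ.smooth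
    have h2 := (h.2.2.1 (x, y)).1
    have h3 := (h.2.2.2 (x, y)).1
    have e2 : (fun z : E × E => φ (z.2, z.1)) = φ := by
      funext z
      exact (hφ.sy1 z.1 z.2).symm
    have e3 : (fun z : E × E => φ (-z.1, z.2 - z.1)) = φ := by
      funext z
      exact (hφ.sy2 z.1 z.2).symm
    rw [e2] at h2
    rw [e3] at h3
    unfold ww
    exact ⟨by rw [h2], by rw [h3]⟩

end Pool.Agent.TBF
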