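import Pool.Agent.TBF.Stmts

set_option autoImplicit false

open MeasureTheory Filter Topology
open scoped ContDiff

namespace Pool.Agent.TBF

open Pool.Agent.TBG Pool.Agent.TBL

namespace SDW_

theorem contPm (h : Stmt_RLP) (m : Fin 4) : Continuous (pm m) := by
  obtain ⟨T, hT⟩ := h.2.2.2.2.2.2.2.1 m
  have : pm m = fun p => T p := by funext p; exact (hT p).symm
  rw [this]; exact T.continuous

theorem contP (n : ℕ) : Continuous (fun p : W4 => ((1 + ‖p‖) ^ n)⁻¹) := by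
  refine Continuous.inv₀ (by fun_prop) (fun p => ?_)
  have : 0 < 1 + ‖p‖ := by positivity
  positivity

theorem contA (h : Stmt_RLP) (m : Fin 4) (n : ℕ) : Continuous (fun p : W4 => ((1 + ‖pm m p‖) ^ n)⁻¹) := by
  have hc := contPm h m
  refine Continuous.inv₀ ((continuous_const.add hc.norm).pow n) (fun p => ?_)
  have : 0 < 1 + ‖pm m p‖ := by positivity
  positivity

theorem contSd (h : Stmt_RLP) : Continuous Sd := by
  unfold Sd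
  exact (contP 4).mul (continuous_finsetSum _ (fun m _ => contA h m 4))

theorem contSe (h : Stmt_RLP) : Continuous Se := by
  unfold Se
  exact (contP 5).mul (continuous_finsetSum _ (fun m _ => contA h m 5))

theorem posA (n : ℕ) (x : ℝ) (hx : 0 ≤ x) : 0 < ((1 + x) ^ n)⁻¹ := by positivity

theorem posSd (p : W4) : 0 < Sd p := by
  unfold Sd
  refine mul_pos (posA 4 _ (norm_nonneg _)) ?_
  exact Finset.sum_pos (fun m _ => posA 4 _ (norm_nonneg _)) ⟨0, Finset.mem_univ _⟩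

theorem posSe (p : W4) : 0 < Se p := by
  unfold Se
  refine mul_pos (posA 5 _ (norm_nonneg _)) ?_
  exact Finset.sum_pos (fun m _ => posA 5 _ (norm_nonneg _)) ⟨0, Finset.mem_univ _⟩

theorem intmono {F G : W4 → ℝ} (hG : Integrable G) (hF : Continuous F) (h0 : ∀ p, 0 ≤ F p)
    (hle : ∀ p, F p ≤ G p) : Integrable F := by
  refine hG.mono' hF.aestronglyMeasurable (ae_of_all _ (fun p => ?_))
  rw [Real.norm_of_nonneg (h0 p)]; exact hle p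

/-- pointwise inequality of numbers -/
theorem num1 (a b P : ℝ) (ha : 1 ≤ a) (hb : 1 ≤ b) (hP : 0 < P) (h : P ≤ 4 * a ∨ P ≤ 4 * b) (n : ℕ) :
    (a ^ n)⁻¹ * (b ^ n)⁻¹ ≤ 4 ^ n * ((P ^ n)⁻¹ * ((a ^ n)⁻¹ + (b ^ n)⁻¹)) := by
  have ha0 : 0 < a := by linarith
  have hb0 : 0 < b := by linarith
  have key : ∀ x : ℝ, 0 < x → P ≤ 4 * x → (x ^ n)⁻¹ ≤ 4 ^ n * (P ^ n)⁻¹ := by
    intro x hx hle
    have : P ^ n ≤ 4 ^ n * x ^ n := by
      rw [← mul_pow]; exact pow_le_pow_left₀ hP.le hle n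
    rw [← div_eq_mul_inv, inv_eq_one_div, div_le_div_iff₀ (by positivity) (by positivity)]
    linarith
  rcases h with h | h
  · have := key a ha0 h
    calc (a ^ n)⁻¹ * (b ^ n)⁻¹ ≤ (4 ^ n * (P ^ n)⁻¹) * (b ^ n)⁻¹ :=
          mul_le_mul_of_nonneg_right this (by positivity)
      _ ≤ 4 ^ n * ((P ^ n)⁻¹ * ((a ^ n)⁻¹ + (b ^ n)⁻¹)) := by
          have h1 : 0 ≤ 4 ^ n * (P ^ n)⁻¹ * (a ^ n)⁻¹ := by positivity
          nlinarith
  · have := key b hb0 h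
    calc (a ^ n)⁻¹ * (b ^ n)⁻¹ ≤ (a ^ n)⁻¹ * (4 ^ n * (P ^ n)⁻¹) :=
          mul_le_mul_of_nonneg_left this (by positivity)
      _ ≤ 4 ^ n * ((P ^ n)⁻¹ * ((a ^ n)⁻¹ + (b ^ n)⁻¹)) := by
          have h1 : 0 ≤ 4 ^ n * (P ^ n)⁻¹ * (b ^ n)⁻¹ := by positivity
          nlinarith

theorem num2 (a b P : ℝ) (ha : 1 ≤ a) (hb : 1 ≤ b) (hP : 0 < P) (h : P ≤ 4 * a ∧ b ≤ a ∨ P ≤ 4 * b ∧ a ≤ b) :
    P⁻¹ * ((a ^ 4)⁻¹ * (b ^ 5)⁻¹) ≤ 256 * ((P ^ 5)⁻¹ * ((a ^ 5)⁻¹ + (b ^ 5)⁻¹)) := by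
  have ha0 : 0 < a := by linarith
  have hb0 : 0 < b := by linarith
  have key : ∀ x : ℝ, 0 < x → P ≤ 4 * x → (x ^ 4)⁻¹ ≤ 256 * (P ^ 4)⁻¹ := by
    intro x hx hle
    have : P ^ 4 ≤ 256 * x ^ 4 := by
      have := pow_le_pow_left₀ hP.le hle 4
      calc P ^ 4 ≤ (4 * x) ^ 4 := this
        _ = 256 * x ^ 4 := by ring
    rw [← div_eq_mul_inv, inv_eq_one_div, div_le_div_iff₀ (by positivity) (by positivity)]
    linarith
  have hP5 : P⁻¹ * (P ^ 4)⁻¹ = (P ^ 5)⁻¹ := by rw [← mul_inv]; ring_nf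
  rcases h with ⟨h, _⟩ | ⟨h, hab⟩
  · have := key a ha0 h
    calc P⁻¹ * ((a ^ 4)⁻¹ * (b ^ 5)⁻¹) ≤ P⁻¹ * ((256 * (P ^ 4)⁻¹) * (b ^ 5)⁻¹) := by gcongr
      _ = 256 * ((P⁻¹ * (P ^ 4)⁻¹) * (b ^ 5)⁻¹) := by ring
      _ ≤ 256 * ((P ^ 5)⁻¹ * ((a ^ 5)⁻¹ + (b ^ 5)⁻¹)) := by
          rw [hP5]
          have h1 : 0 ≤ (a ^ 5)⁻¹ := by positivity
          gcongr
          linarith
  · have := key b hb0 h
    have hb5 : (b ^ 5)⁻¹ = (b ^ 4)⁻¹ * b⁻¹ := by rw [← mul_inv]; ring_nf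
    have ha5 : (a ^ 4)⁻¹ * a⁻¹ = (a ^ 5)⁻¹ := by rw [← mul_inv]; ring_nf
    have hba : b⁻¹ ≤ a⁻¹ := inv_anti₀ ha0 hab
    calc P⁻¹ * ((a ^ 4)⁻¹ * (b ^ 5)⁻¹) = P⁻¹ * ((a ^ 4)⁻¹ * ((b ^ 4)⁻¹ * b⁻¹)) := by rw [hb5]
      _ ≤ P⁻¹ * ((a ^ 4)⁻¹ * ((256 * (P ^ 4)⁻¹) * a⁻¹)) := by gcongr
      _ = 256 * ((P⁻¹ * (P ^ 4)⁻¹) * ((a ^ 4)⁻¹ * a⁻¹)) := by ring
      _ ≤ 256 * ((P ^ 5)⁻¹ * ((a ^ 5)⁻¹ + (b ^ 5)⁻¹)) := by
          rw [hP5, ha5]
          have h1 : 0 ≤ (b ^ 5)⁻¹ := by positivity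
          gcongr
          linarith

theorem num3 (a b P : ℝ) (ha : 1 ≤ a) (hb : 1 ≤ b) (hP : 0 < P) (h : P ≤ 2 * (a * b)) :
    (a ^ 20)⁻¹ * (b ^ 4)⁻¹ ≤ 16 * ((P ^ 4)⁻¹ * (a ^ 16)⁻¹) := by
  have ha0 : 0 < a := by linarith
  have hb0 : 0 < b := by linarith
  have h4 : P ^ 4 ≤ 16 * (a ^ 4 * b ^ 4) := by
    calc P ^ 4 ≤ (2 * (a * b)) ^ 4 := pow_le_pow_left₀ hP.le h 4
      _ = 16 * (a ^ 4 * b ^ 4) := by ring
  have e : 16 * ((P ^ 4)⁻¹ * (a ^ 16)⁻¹) = 16 / (P ^ 4 * a ^ 16) := by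
    rw [← mul_inv]; ring
  rw [← mul_inv, e, inv_eq_one_div, div_le_div_iff₀ (by positivity) (by positivity)]
  have : P ^ 4 * a ^ 16 ≤ 16 * (a ^ 4 * b ^ 4) * a ^ 16 := by gcongr
  nlinarith

theorem num4 (a b : ℝ) (ha : 1 ≤ a) (hb : 1 ≤ b) : (a ^ 4)⁻¹ * (b ^ 5)⁻¹ ≤ (a ^ 9)⁻¹ + (b ^ 9)⁻¹ := by
  have ha0 : 0 < a := by linarith
  have hb0 : 0 < b := by linarith
  rcases le_total a b with h | h
  · have h1 : (b ^ 5)⁻¹ ≤ (a ^ 5)⁻¹ := inv_anti₀ (by positivity) (pow_le_pow_left₀ ha0.le h 5)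
    calc (a ^ 4)⁻¹ * (b ^ 5)⁻¹ ≤ (a ^ 4)⁻¹ * (a ^ 5)⁻¹ := by gcongr
      _ = (a ^ 9)⁻¹ := by rw [← mul_inv]; ring_nf
      _ ≤ _ := by have : 0 ≤ (b ^ 9)⁻¹ := by positivity
                  linarith
  · have h1 : (a ^ 4)⁻¹ ≤ (b ^ 4)⁻¹ := inv_anti₀ (by positivity) (pow_le_pow_left₀ hb0.le h 4)
    calc (a ^ 4)⁻¹ * (b ^ 5)⁻¹ ≤ (b ^ 4)⁻¹ * (b ^ 5)⁻¹ := by gcongr
      _ = (b ^ 9)⁻¹ := by rw [← mul_inv]; ring_nf
      _ ≤ _ := by have : 0 ≤ (a ^ 9)⁻¹ := by positivity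
                  linarith

theorem two_le_sum (f : Fin 4 → ℝ) (hf : ∀ i, 0 ≤ f i) (m j : Fin 4) (h : m ≠ j) : f m + f j ≤ ∑ i, f i := by
  rw [← Finset.sum_pair h]
  exact Finset.sum_le_sum_of_subset_of_nonneg (Finset.subset_univ _) (fun i _ _ => hf i)

end SDW_

open SDW_ in
theorem sdw_proof (h1 : Stmt_RLP) (h2 : Stmt_INW) : Stmt_SDW := by
  have hnorm : ∀ m j p, m ≠ j → ‖p‖ ≤ 2 * (‖pm m p‖ + ‖pm j p‖) := h1.2.2.2.2.2.2.2.2.2.2.1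
  have hSd5 : ∀ m : Fin 4, Integrable (fun p : W4 => Sd p * ((1 + ‖pm m p‖) ^ 5)⁻¹) := by
    intro m
    have hG : Integrable (fun p : W4 => ∑ i : Fin 4, (((1 + ‖p‖) ^ 4)⁻¹ * ((1 + ‖pm i p‖) ^ 9)⁻¹ +
        ((1 + ‖p‖) ^ 4)⁻¹ * ((1 + ‖pm m p‖) ^ 9)⁻¹)) := by
      refine integrable_finsetSum _ (fun i _ => ?_)
      exact (h2 i 4 9 (by norm_num) (by norm_num)).add (h2 m 4 9 (by norm_num) (by norm_num))
    refine intmono hG ((contSd h1).mul (contA h1 m 5)) (fun p => ?_) (fun p => ?_)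
    · exact (mul_pos (posSd p) (posA 5 _ (norm_nonneg _))).le
    · unfold Sd
      rw [mul_assoc, Finset.sum_mul, Finset.mul_sum]
      refine Finset.sum_le_sum (fun i _ => ?_)
      rw [← mul_add]
      refine mul_le_mul_of_nonneg_left ?_ (posA 4 _ (norm_nonneg _)).le
      exact num4 _ _ (by linarith [norm_nonneg (pm i p)]) (by linarith [norm_nonneg (pm m p)])
  refine ⟨contSd h1, contSe h1, fun p => ⟨posSd p, posSe p⟩, ?_, ?_, hSd5, ?_, ?_, ?_⟩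
  · have hG : Integrable (fun p : W4 => ∑ i : Fin 4, 4 * (((1 + ‖p‖) ^ 8)⁻¹ * ((1 + ‖pm i p‖) ^ 8)⁻¹)) := by
      refine integrable_finsetSum _ (fun i _ => ?_)
      exact (h2 i 8 8 (by norm_num) (by norm_num)).const_mul 4
    refine intmono hG ((contSd h1).pow 2) (fun p => sq_nonneg _) (fun p => ?_)
    unfold Sd
    have hcs := sq_sum_le_card_mul_sum_sq (s := (Finset.univ : Finset (Fin 4)))
      (f := fun m => ((1 + ‖pm m p‖) ^ 4)⁻¹)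
    have hsq : ∀ x : ℝ, (((1 + x) ^ 4)⁻¹) ^ 2 = ((1 + x) ^ 8)⁻¹ := by
      intro x; rw [inv_pow, ← pow_mul]
    rw [mul_pow, hsq, ← Finset.mul_sum, ← Finset.mul_sum]
    simp only [hsq, Finset.card_univ, Fintype.card_fin, Nat.cast_ofNat] at hcs
    have := mul_le_mul_of_nonneg_left hcs (posA 8 _ (norm_nonneg p)).le
    calc _ ≤ _ := this
      _ = _ := by ring
  · have hG : Integrable (fun p : W4 => ∑ i : Fin 4, (((1 + ‖p‖) ^ 5)⁻¹ * ((1 + ‖pm i p‖) ^ 5)⁻¹)) :=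
      integrable_finsetSum _ (fun i _ => h2 i 5 5 (by norm_num) (by norm_num))
    refine hG.congr (ae_of_all _ (fun p => ?_))
    simp only [Se, Finset.mul_sum]
  · intro m
    refine intmono (hSd5 m) ((contSd h1).mul (contA h1 m 20)) (fun p => ?_) (fun p => ?_)
    · exact (mul_pos (posSd p) (posA 20 _ (norm_nonneg _))).le
    · refine mul_le_mul_of_nonneg_left ?_ (posSd p).le
      refine inv_anti₀ (by positivity) ?_
      exact pow_le_pow_right₀ (by linarith [norm_nonneg (pm m p)]) (by norm_num)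
  · intro m j hmj p
    have ha : 1 ≤ 1 + ‖pm m p‖ := by linarith [norm_nonneg (pm m p)]
    have hb : 1 ≤ 1 + ‖pm j p‖ := by linarith [norm_nonneg (pm j p)]
    have hP : 0 < 1 + ‖p‖ := by linarith [norm_nonneg p]
    have hn := hnorm m j p hmj
    have hor : 1 + ‖p‖ ≤ 4 * (1 + ‖pm m p‖) ∧ 1 + ‖pm j p‖ ≤ 1 + ‖pm m p‖ ∨
        1 + ‖p‖ ≤ 4 * (1 + ‖pm j p‖) ∧ 1 + ‖pm m p‖ ≤ 1 + ‖pm j p‖ := by
      rcases le_total ‖pm m p‖ ‖pm j p‖ with h | h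
      · right; constructor <;> linarith
      · left; constructor <;> linarith
    have hor' : 1 + ‖p‖ ≤ 4 * (1 + ‖pm m p‖) ∨ 1 + ‖p‖ ≤ 4 * (1 + ‖pm j p‖) := by
      rcases hor with h | h
      · exact Or.inl h.1
      · exact Or.inr h.1
    refine ⟨?_, ?_, ?_⟩
    · have h := num1 _ _ _ ha hb hP hor' 4
      have hs := two_le_sum (fun i => ((1 + ‖pm i p‖) ^ 4)⁻¹) (fun i => (posA 4 _ (norm_nonneg _)).le) m j hmj
      have hs' := mul_le_mul_of_nonneg_left hs (posA 4 _ (norm_nonneg p)).le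
      have hpos := posSd p
      unfold Sd at *
      norm_num at h
      linarith
    · have h := num1 _ _ _ ha hb hP hor' 5
      have hs := two_le_sum (fun i => ((1 + ‖pm i p‖) ^ 5)⁻¹) (fun i => (posA 5 _ (norm_nonneg _)).le) m j hmj
      have hs' := mul_le_mul_of_nonneg_left hs (posA 5 _ (norm_nonneg p)).le
      have hpos := posSe p
      unfold Se at *
      norm_num at h
      linarith
    · have h := num2 _ _ _ ha hb hP hor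
      have hs := two_le_sum (fun i => ((1 + ‖pm i p‖) ^ 5)⁻¹) (fun i => (posA 5 _ (norm_nonneg _)).le) m j hmj
      have hs' := mul_le_mul_of_nonneg_left hs (posA 5 _ (norm_nonneg p)).le
      have hpos := posSe p
      unfold Se at *
      linarith
  · intro m j hmj
    have hG : Integrable (fun p : W4 => 16 * (((1 + ‖p‖) ^ 4)⁻¹ * ((1 + ‖pm m p‖) ^ 16)⁻¹)) :=
      (h2 m 4 16 (by norm_num) (by norm_num)).const_mul 16
    refine intmono hG ((contA h1 m 20).mul (contA h1 j 4)) (fun p => ?_) (fun p => ?_)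
    · exact (mul_pos (posA 20 _ (norm_nonneg _)) (posA 4 _ (norm_nonneg _))).le
    · have ha : 1 ≤ 1 + ‖pm m p‖ := by linarith [norm_nonneg (pm m p)]
      have hb : 1 ≤ 1 + ‖pm j p‖ := by linarith [norm_nonneg (pm j p)]
      have hP : 0 < 1 + ‖p‖ := by linarith [norm_nonneg p]
      refine num3 _ _ _ ha hb hP ?_
      have hn := hnorm m j p hmj
      nlinarith [norm_nonneg (pm m p), norm_nonneg (pm j p), mul_nonneg (norm_nonneg (pm m p)) (norm_nonneg (pm j p))]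

end Pool.Agent.TBF
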