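import Pool.Agent.TBF.Stmts

/-!
Squad TBF, module SY1: symmetrised data.
-/

set_option autoImplicit false

open MeasureTheory Filter Topology
open scoped ContDiff

namespace Pool.Agent.TBF

open Pool.Agent.TBG Pool.Agent.TBL

namespace SY1_

theorem cs_sum {ι : Type} (s : Finset ι) (F : ι → W4 → ℝ) (hF : ∀ i, HasCompactSupport (F i)) :
    HasCompactSupport (fun p => ∑ i ∈ s, F i p) := by
  classical
  induction s using Finset.induction_on with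
  | empty =>
    simp only [Finset.sum_empty]
    exact HasCompactSupport.zero
  | insert i s hi ih =>
    simp only [Finset.sum_insert hi]
    exact (hF i).add ih

theorem tf_avg {ι : Type} [Fintype ι] (a : ℝ) (F : ι → W4 → ℝ) (hF : ∀ i, TF (F i)) :
    TF (fun p => a * ∑ i, F i p) :=
  ⟨contDiff_const.mul (ContDiff.sum fun i _ => (hF i).1),
    (cs_sum Finset.univ F fun i => (hF i).2).mul_left⟩

theorem dv_avg {ι : Type} [Fintype ι] (a : ℝ) (F : ι → W4 → ℝ) (hF : ∀ i, ContDiff ℝ ∞ (F i))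
    (v p : W4) : dv v (fun p => a * ∑ i, F i p) p = a * ∑ i, dv v (F i) p := by
  have h1 : HasFDerivAt (fun p => ∑ i, F i p) (∑ i, fderiv ℝ (F i) p) p :=
    HasFDerivAt.fun_sum fun i _ => (((hF i).differentiable (by simp)) p).hasFDerivAt
  have h2 := h1.const_mul a
  show fderiv ℝ (fun p => a * ∑ i, F i p) p v = _
  rw [h2.fderiv]
  simp [dv]

theorem reindex (τ : Equiv.Perm (Fin 4)) (G : Equiv.Perm (Fin 4) → ℝ) :
    ∑ σ, G (σ * τ⁻¹) = ∑ σ, G σ := Equiv.sum_comp (Equiv.mulRight τ⁻¹) G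

theorem inv_app (τ : Equiv.Perm (Fin 4)) (m : Fin 4) : τ⁻¹ (τ m) = m :=
  τ.symm_apply_apply m

theorem card24 : ((Finset.univ : Finset (Equiv.Perm (Fin 4))).card : ℝ) = 24 := by
  rw [Finset.card_univ, Fintype.card_perm, Fintype.card_fin]
  norm_num [Nat.factorial]

/-- averages of functions bounded by `B` are bounded by `B` -/
theorem avg_le (G : Equiv.Perm (Fin 4) → ℝ) (B : ℝ) (hG : ∀ σ, |G σ| ≤ B) :
    |1 / 24 * ∑ σ, G σ| ≤ B := by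
  rw [abs_mul, abs_of_pos (by norm_num : (0 : ℝ) < 1 / 24)]
  have h1 : |∑ σ, G σ| ≤ 24 * B := by
    calc |∑ σ, G σ| ≤ ∑ σ, |G σ| := Finset.abs_sum_le_sum_abs _ _
      _ ≤ ∑ _σ : Equiv.Perm (Fin 4), B := Finset.sum_le_sum fun σ _ => hG σ
      _ = 24 * B := by rw [Finset.sum_const, nsmul_eq_mul, card24]
  linarith

end SY1_

open SY1_ in
theorem sy1_proof (hRLP : Stmt_RLP) (hRLS : Stmt_RLS) (hDVP : Stmt_DVP) (_hALG : Stmt_ALG)
    (hSCB : Stmt_SCB) : Stmt_SY1 := by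
  intro φ hφ u l C Y g hl hu hD
  obtain ⟨_, _, _, _, _, hPP, _, _, _, _, _, hPn⟩ := hRLP
  obtain ⟨C0, hC0, _, _, _, _, _, _, _, hVs, _⟩ := hSCB φ hφ
  -- rewriting after a permutation
  have hmul : ∀ (τ σ : Equiv.Perm (Fin 4)) (p : W4), Pm σ⁻¹ (Pm τ p) = Pm (σ * τ⁻¹)⁻¹ p := by
    intro τ σ p
    rw [hPP, mul_inv_rev, inv_inv]
  have hsY : ∀ m c, ContDiff ℝ ∞ (syY Y m c) := fun m c =>
    contDiff_const.mul (ContDiff.sum fun σ _ => (hDVP (Y (σ m) c) σ⁻¹ (hD.smY (σ m) c)).1)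
  have hsg : ContDiff ℝ ∞ (syg g) :=
    contDiff_const.mul (ContDiff.sum fun σ _ => (hDVP g σ⁻¹ hD.smg).1)
  have hC : 0 ≤ C := by
    have h1 := hD.bdY 0 0 0
    exact le_trans (by positivity) h1
  have hsm : Sym4 (syg g) := by
    intro τ p
    unfold syg
    congr 1
    calc ∑ σ : Equiv.Perm (Fin 4), g (Pm σ⁻¹ (Pm τ p))
        = ∑ σ : Equiv.Perm (Fin 4), (fun σ => g (Pm σ⁻¹ p)) (σ * τ⁻¹) :=
          Finset.sum_congr rfl fun σ _ => by rw [hmul]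
      _ = _ := reindex τ (fun σ => g (Pm σ⁻¹ p))
  have hsu : ∀ (τ : Equiv.Perm (Fin 4)) m p, syu u m (Pm τ p) = syu u (τ m) p := by
    intro τ m p
    unfold syu
    congr 1
    calc ∑ σ : Equiv.Perm (Fin 4), u (σ m) (Pm σ⁻¹ (Pm τ p))
        = ∑ σ : Equiv.Perm (Fin 4), (fun σ => u (σ (τ m)) (Pm σ⁻¹ p)) (σ * τ⁻¹) := by
          refine Finset.sum_congr rfl fun σ _ => ?_
          rw [hmul]
          simp only [Equiv.Perm.mul_apply, inv_app]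
      _ = _ := reindex τ (fun σ => u (σ (τ m)) (Pm σ⁻¹ p))
  have hsYe : ∀ (τ : Equiv.Perm (Fin 4)) m c p, syY Y m c (Pm τ p) = syY Y (τ m) c p := by
    intro τ m c p
    unfold syY
    congr 1
    calc ∑ σ : Equiv.Perm (Fin 4), Y (σ m) c (Pm σ⁻¹ (Pm τ p))
        = ∑ σ : Equiv.Perm (Fin 4), (fun σ => Y (σ (τ m)) c (Pm σ⁻¹ p)) (σ * τ⁻¹) := by
          refine Finset.sum_congr rfl fun σ _ => ?_
          rw [hmul]
          simp only [Equiv.Perm.mul_apply, inv_app]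
      _ = _ := reindex τ (fun σ => Y (σ (τ m)) c (Pm σ⁻¹ p))
  have hfar : ∀ (σ : Equiv.Perm (Fin 4)) (p : W4), 2 * l < ‖p‖ → l < ‖Pm σ⁻¹ p‖ := by
    intro σ p hp
    have := (hPn σ⁻¹ p).2
    linarith
  have hV : ∀ (σ : Equiv.Perm (Fin 4)) (m : Fin 4) (p : W4),
      Vm φ (σ m) (Pm σ⁻¹ p) = Vm φ m p := by
    intro σ m p
    have h1 := hRLS.1 (fun z => VV φ z.1 z.2) (fun x y => (hVs x y).1) (fun x y => (hVs x y).2)
      σ⁻¹ (σ m) p
    rw [inv_app] at h1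
    exact h1
  refine ⟨?_, ⟨hsY, hsg, ?_, ?_, ?_, ?_, ?_⟩, hsm, hsu, hsYe⟩
  · intro m
    exact tf_avg (1 / 24) (fun (σ : Equiv.Perm (Fin 4)) p => u (σ m) (Pm σ⁻¹ p)) fun σ =>
      ⟨(hDVP (u (σ m)) σ⁻¹ (hu (σ m)).1).1, (hDVP (u (σ m)) σ⁻¹ (hu (σ m)).1).2.2.2 (hu (σ m)).2⟩
  · intro m c p hp
    unfold syY
    rw [Finset.sum_eq_zero fun σ _ => hD.spY (σ m) c _ (hfar σ p hp), mul_zero]
  · intro p hp
    unfold syg
    rw [Finset.sum_eq_zero fun σ _ => hD.spg _ (hfar σ p hp), mul_zero]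
  · intro p
    have h1 : dvg (syY Y) p = 1 / 24 * ∑ σ : Equiv.Perm (Fin 4), dvg Y (Pm σ⁻¹ p) := by
      unfold dvg
      have h2 : ∀ m c, dv (d4 m c) (syY Y m c) p =
          1 / 24 * ∑ σ : Equiv.Perm (Fin 4), dv (d4 (σ m) c) (Y (σ m) c) (Pm σ⁻¹ p) := by
        intro m c
        have h3 := dv_avg (1 / 24) (fun (σ : Equiv.Perm (Fin 4)) p => Y (σ m) c (Pm σ⁻¹ p))
          (fun σ => (hDVP (Y (σ m) c) σ⁻¹ (hD.smY (σ m) c)).1) (d4 m c) p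
        have h4 : dv (d4 m c) (syY Y m c) p = dv (d4 m c)
          (fun p => 1 / 24 * ∑ σ : Equiv.Perm (Fin 4), Y (σ m) c (Pm σ⁻¹ p)) p := rfl
        rw [h4, h3]
        congr 1
        refine Finset.sum_congr rfl fun σ _ => ?_
        have h5 := (hDVP (Y (σ m) c) σ⁻¹ (hD.smY (σ m) c)).2.1 m c p
        rw [h5, inv_inv]
      simp_rw [h2]
      simp_rw [← Finset.mul_sum]
      congr 1
      calc ∑ m, ∑ c, ∑ σ : Equiv.Perm (Fin 4), dv (d4 (σ m) c) (Y (σ m) c) (Pm σ⁻¹ p)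
          = ∑ m, ∑ σ : Equiv.Perm (Fin 4), ∑ c, dv (d4 (σ m) c) (Y (σ m) c) (Pm σ⁻¹ p) :=
            Finset.sum_congr rfl fun m _ => Finset.sum_comm
        _ = ∑ σ : Equiv.Perm (Fin 4), ∑ m, ∑ c, dv (d4 (σ m) c) (Y (σ m) c) (Pm σ⁻¹ p) :=
            Finset.sum_comm
        _ = ∑ σ : Equiv.Perm (Fin 4), ∑ m, ∑ c, dv (d4 m c) (Y m c) (Pm σ⁻¹ p) :=
            Finset.sum_congr rfl fun σ _ =>
              Equiv.sum_comp σ fun m => ∑ c, dv (d4 m c) (Y m c) (Pm σ⁻¹ p)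
    rw [h1]
    have h2 : ∀ σ : Equiv.Perm (Fin 4), dvg Y (Pm σ⁻¹ p) =
        (∑ m, Vm φ m p * u (σ m) (Pm σ⁻¹ p)) - g (Pm σ⁻¹ p) := by
      intro σ
      rw [hD.eqn]
      congr 1
      rw [← Equiv.sum_comp σ fun m => Vm φ m (Pm σ⁻¹ p) * u m (Pm σ⁻¹ p)]
      exact Finset.sum_congr rfl fun m _ => by rw [hV]
    simp_rw [h2]
    rw [Finset.sum_sub_distrib, mul_sub]
    congr 1
    rw [Finset.sum_comm, Finset.mul_sum]
    refine Finset.sum_congr rfl fun m _ => ?_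
    unfold syu
    rw [← Finset.mul_sum]
    ring
  · intro m c p
    have h0 : (0 : ℝ) < (1 + ‖p‖) ^ 8 := by positivity
    have h1 : |syY Y m c p| ≤ 256 * C / (1 + ‖p‖) ^ 8 := by
      refine avg_le _ _ fun σ => ?_
      rw [le_div_iff₀ h0]
      have h2 := hD.bdY (σ m) c (Pm σ⁻¹ p)
      have h3 := (hPn σ⁻¹ p).2
      have h4 : (1 + ‖p‖) ^ 8 ≤ (2 * (1 + ‖Pm σ⁻¹ p‖)) ^ 8 :=
        pow_le_pow_left₀ (by positivity) (by linarith) 8
      calc |Y (σ m) c (Pm σ⁻¹ p)| * (1 + ‖p‖) ^ 8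
          ≤ |Y (σ m) c (Pm σ⁻¹ p)| * (2 * (1 + ‖Pm σ⁻¹ p‖)) ^ 8 :=
            mul_le_mul_of_nonneg_left h4 (abs_nonneg _)
        _ = 256 * ((1 + ‖Pm σ⁻¹ p‖) ^ 8 * |Y (σ m) c (Pm σ⁻¹ p)|) := by ring
        _ ≤ 256 * C := mul_le_mul_of_nonneg_left h2 (by norm_num)
    rw [le_div_iff₀ h0] at h1
    linarith
  · intro p
    have h0 : (0 : ℝ) < l ^ 9 := by positivity
    have h1 : |syg g p| ≤ C / l ^ 9 := by
      refine avg_le _ _ fun σ => ?_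
      rw [le_div_iff₀ h0]
      have h2 := hD.bdg (Pm σ⁻¹ p)
      linarith
    rw [le_div_iff₀ h0] at h1
    have h2 : (2 * l) ^ 9 * |syg g p| = 512 * (|syg g p| * l ^ 9) := by ring
    rw [h2]
    linarith

end Pool.Agent.TBF
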