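import Pool.Agent.TBF.Stmts

/-!
Squad TBF, module SY2: the value of the symmetrised data.
-/

set_option autoImplicit false

open MeasureTheory Filter Topology
open scoped ContDiff

namespace Pool.Agent.TBF

open Pool.Agent.TBG Pool.Agent.TBL

namespace SY2_

theorem Vm_nonneg {φ : E × E → ℝ} (hφ : Scat φ) (m : Fin 4) (p : W4) : 0 ≤ Vm φ m p := by
  unfold Vm VV ww
  have h1 := hφ.sup ((pm m p).1, (pm m p).2)
  have h2 := hφ.le_half ((pm m p).1, (pm m p).2)
  exact div_nonneg (by linarith) (by linarith)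

theorem card_perm : (Finset.univ : Finset (Equiv.Perm (Fin 4))).card = 24 := by
  rw [Finset.card_univ, Fintype.card_perm]
  rfl

theorem sq_avg (a : Equiv.Perm (Fin 4) → ℝ) :
    (1 / 24 * ∑ σ, a σ) ^ 2 ≤ 1 / 24 * ∑ σ, a σ ^ 2 := by
  have h := sq_sum_le_card_mul_sum_sq (s := (Finset.univ : Finset (Equiv.Perm (Fin 4)))) (f := a)
  rw [card_perm] at h
  rw [mul_pow]
  push_cast at h
  linarith

/-- averages over the permutations have the same integral -/
theorem int_avg (hPMV : Stmt_PMV) (H : W4 → ℝ) (hH : Integrable H) :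
    Integrable (fun p => 1 / 24 * ∑ σ : Equiv.Perm (Fin 4), H (Pm σ⁻¹ p)) ∧
    ∫ p, 1 / 24 * ∑ σ : Equiv.Perm (Fin 4), H (Pm σ⁻¹ p) = ∫ p, H p := by
  have h1 : ∀ σ : Equiv.Perm (Fin 4), Integrable (fun p => H (Pm σ⁻¹ p)) := fun σ =>
    (hPMV σ⁻¹).2.2 H hH
  refine ⟨(integrable_finsetSum _ fun σ _ => h1 σ).const_mul _, ?_⟩
  rw [integral_const_mul, integral_finsetSum _ fun σ _ => h1 σ]
  have h2 : ∀ σ ∈ (Finset.univ : Finset (Equiv.Perm (Fin 4))), ∫ p, H (Pm σ⁻¹ p) = ∫ p, H p :=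
    fun σ _ => (hPMV σ⁻¹).2.1 H
  rw [Finset.sum_congr rfl h2, Finset.sum_const, card_perm, nsmul_eq_mul]
  push_cast
  ring

theorem cpt (l : ℝ) (f : W4 → ℝ) (h : ∀ p : W4, l < ‖p‖ → f p = 0) : HasCompactSupport f := by
  apply HasCompactSupport.of_support_subset_isCompact (isCompact_closedBall (0 : W4) l)
  intro p hp
  by_contra hcon
  rw [Metric.mem_closedBall, dist_zero_right, not_le] at hcon
  exact hp (h p hcon)

end SY2_

open SY2_ in
theorem sy2_proof (hRLP : Stmt_RLP) (hRLS : Stmt_RLS) (hPMV : Stmt_PMV) (hSCB : Stmt_SCB) :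
    Stmt_SY2 := by
  intro φ hφ u l C Y g hl hu hD
  obtain ⟨C0, -, -, -, -, -, hVs, -, -, hVsym, -⟩ := hSCB φ hφ
  have hpmc : ∀ m, Continuous (pm m) := fun m => by
    obtain ⟨T, hT⟩ := hRLP.2.2.2.2.2.2.2.1 m
    have : pm m = fun p => T p := funext fun p => (hT p).symm
    rw [this]
    exact T.continuous
  have hVc : ∀ m, Continuous (Vm φ m) := fun m => hVs.continuous.comp (hpmc m)
  have hφc : ∀ m : Fin 4, Continuous (fun p => φ (pm m p)) := fun m => hφ.smooth.continuous.comp (hpmc m)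
  have hPhc : Continuous (Ph φ) := by
    unfold Ph
    exact continuous_finsetSum _ fun m _ => hφc m
  have hPq : ∀ m p, Pq φ m p = Ph φ p - φ (pm m p) := by
    intro m p
    unfold Pq Ph
    rw [Finset.sum_erase_eq_sub (Finset.mem_univ m)]
  have hPqc : ∀ m, Continuous (Pq φ m) := fun m => by
    have : Pq φ m = fun p => Ph φ p - φ (pm m p) := funext fun p => hPq m p
    rw [this]
    exact hPhc.sub (hφc m)
  -- invariance; `q = Pm σ⁻¹ p`
  have hinv : ∀ (σ : Equiv.Perm (Fin 4)) p, Pm σ (Pm σ⁻¹ p) = p := by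
    intro σ p
    rw [hRLP.2.2.2.2.2.1, inv_mul_cancel, hRLP.2.2.2.2.2.2.1]
  have hφm : ∀ (σ : Equiv.Perm (Fin 4)) m p, φ (pm m p) = φ (pm (σ m) (Pm σ⁻¹ p)) := by
    intro σ m p
    rw [← hRLS.1 φ hφ.sy1 hφ.sy2 σ m (Pm σ⁻¹ p), hinv]
  have hVm : ∀ (σ : Equiv.Perm (Fin 4)) m p, Vm φ m p = Vm φ (σ m) (Pm σ⁻¹ p) := by
    intro σ m p
    have h := hRLS.1 (fun z => VV φ z.1 z.2) (fun x y => (hVsym x y).1) (fun x y => (hVsym x y).2)
      σ m (Pm σ⁻¹ p)
    rw [hinv] at h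
    exact h
  have hPhm : ∀ (σ : Equiv.Perm (Fin 4)) p, Ph φ p = Ph φ (Pm σ⁻¹ p) := by
    intro σ p
    unfold Ph
    rw [← Equiv.sum_comp σ (fun m => φ (pm m (Pm σ⁻¹ p)))]
    exact Finset.sum_congr rfl fun m _ => hφm σ m p
  have hPqm : ∀ (σ : Equiv.Perm (Fin 4)) m p, Pq φ m p = Pq φ (σ m) (Pm σ⁻¹ p) := by
    intro σ m p
    rw [hPq, hPq, ← hPhm σ p, ← hφm σ m p]
  -- the four functions
  have hYc : ∀ m c, Continuous (Y m c) ∧ HasCompactSupport (Y m c) := fun m c =>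
    ⟨(hD.smY m c).continuous, cpt l _ (hD.spY m c)⟩
  have hgc : Continuous g ∧ HasCompactSupport g := ⟨hD.smg.continuous, cpt l _ hD.spg⟩
  have i1 : Integrable (fun p => ∑ m, ∑ c, Y m c p ^ 2) := by
    refine integrable_finsetSum _ fun m _ => integrable_finsetSum _ fun c _ => ?_
    have : HasCompactSupport (fun p => Y m c p ^ 2) := by
      have := (hYc m c).2.mul_right (f' := Y m c)
      simpa only [Pi.mul_def, sq] using this
    exact ((hYc m c).1.pow 2).integrable_of_hasCompactSupport this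
  have i2 : Integrable (fun p => ∑ m, Vm φ m p * u m p ^ 2) := by
    refine integrable_finsetSum _ fun m _ => ?_
    have h2 : HasCompactSupport (fun p => u m p ^ 2) := by
      have := (hu m).2.mul_right (f' := u m)
      simpa only [Pi.mul_def, sq] using this
    exact ((hVc m).mul ((hu m).1.continuous.pow 2)).integrable_of_hasCompactSupport h2.mul_left
  have i3 : Integrable (fun p => ∑ m, Vm φ m p * u m p * Pq φ m p) := by
    refine integrable_finsetSum _ fun m _ => ?_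
    exact (((hVc m).mul (hu m).1.continuous).mul (hPqc m)).integrable_of_hasCompactSupport
      ((hu m).2.mul_left.mul_right)
  have i4 : Integrable (fun p => Ph φ p * g p) :=
    (hPhc.mul hgc.1).integrable_of_hasCompactSupport hgc.2.mul_left
  obtain ⟨j1, k1⟩ := int_avg hPMV _ i1
  obtain ⟨j2, k2⟩ := int_avg hPMV _ i2
  obtain ⟨j3, k3⟩ := int_avg hPMV _ i3
  obtain ⟨j4, k4⟩ := int_avg hPMV _ i4
  have a1 : ∫ p, ∑ m, ∑ c, syY Y m c p ^ 2 ≤ ∫ p, ∑ m, ∑ c, Y m c p ^ 2 := by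
    rw [← k1]
    refine integral_mono_of_nonneg (Eventually.of_forall fun p =>
      Finset.sum_nonneg fun m _ => Finset.sum_nonneg fun c _ => sq_nonneg _) j1
      (Eventually.of_forall fun p => ?_)
    simp only
    have h1 : ∀ m c, syY Y m c p ^ 2 ≤ 1 / 24 * ∑ σ : Equiv.Perm (Fin 4), Y (σ m) c (Pm σ⁻¹ p) ^ 2 :=
      fun m c => sq_avg (fun σ => Y (σ m) c (Pm σ⁻¹ p))
    refine (Finset.sum_le_sum fun m _ => Finset.sum_le_sum fun c _ => h1 m c).trans (le_of_eq ?_)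
    simp only [← Finset.mul_sum]
    congr 1
    rw [Finset.sum_congr rfl fun m _ => Finset.sum_comm, Finset.sum_comm]
    refine Finset.sum_congr rfl fun σ _ => ?_
    exact Equiv.sum_comp σ (fun m => ∑ c, Y m c (Pm σ⁻¹ p) ^ 2)
  have a2 : ∫ p, ∑ m, Vm φ m p * syu u m p ^ 2 ≤ ∫ p, ∑ m, Vm φ m p * u m p ^ 2 := by
    rw [← k2]
    refine integral_mono_of_nonneg (Eventually.of_forall fun p =>
      Finset.sum_nonneg fun m _ => mul_nonneg (Vm_nonneg hφ m p) (sq_nonneg _)) j2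
      (Eventually.of_forall fun p => ?_)
    simp only
    have h1 : ∀ m, Vm φ m p * syu u m p ^ 2 ≤
        1 / 24 * ∑ σ : Equiv.Perm (Fin 4), Vm φ m p * u (σ m) (Pm σ⁻¹ p) ^ 2 := fun m => by
      rw [← Finset.mul_sum]
      have := mul_le_mul_of_nonneg_left (sq_avg (fun σ => u (σ m) (Pm σ⁻¹ p))) (Vm_nonneg hφ m p)
      unfold syu
      linarith
    refine (Finset.sum_le_sum fun m _ => h1 m).trans (le_of_eq ?_)
    rw [← Finset.mul_sum]
    congr 1
    rw [Finset.sum_comm]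
    refine Finset.sum_congr rfl fun σ _ => ?_
    rw [← Equiv.sum_comp σ (fun m => Vm φ m (Pm σ⁻¹ p) * u m (Pm σ⁻¹ p) ^ 2)]
    exact Finset.sum_congr rfl fun m _ => by rw [hVm σ m p]
  have a3 : ∫ p, ∑ m, Vm φ m p * syu u m p * Pq φ m p = ∫ p, ∑ m, Vm φ m p * u m p * Pq φ m p := by
    rw [← k3]
    refine integral_congr_ae (Eventually.of_forall fun p => ?_)
    simp only
    have h1 : ∀ m, Vm φ m p * syu u m p * Pq φ m p =
        1 / 24 * ∑ σ : Equiv.Perm (Fin 4), Vm φ m p * u (σ m) (Pm σ⁻¹ p) * Pq φ m p := fun m => by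
      unfold syu
      rw [← Finset.sum_mul, ← Finset.mul_sum]
      ring
    rw [Finset.sum_congr rfl fun m _ => h1 m, ← Finset.mul_sum]
    congr 1
    rw [Finset.sum_comm]
    refine Finset.sum_congr rfl fun σ _ => ?_
    rw [← Equiv.sum_comp σ (fun m => Vm φ m (Pm σ⁻¹ p) * u m (Pm σ⁻¹ p) * Pq φ m (Pm σ⁻¹ p))]
    exact Finset.sum_congr rfl fun m _ => by rw [hVm σ m p, hPqm σ m p]
  have a4 : ∫ p, Ph φ p * syg g p = ∫ p, Ph φ p * g p := by
    rw [← k4]
    refine integral_congr_ae (Eventually.of_forall fun p => ?_)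
    simp only
    unfold syg
    have h1 : ∀ σ ∈ (Finset.univ : Finset (Equiv.Perm (Fin 4))),
        Ph φ (Pm σ⁻¹ p) * g (Pm σ⁻¹ p) = Ph φ p * g (Pm σ⁻¹ p) := fun σ _ => by rw [← hPhm σ p]
    rw [Finset.sum_congr rfl h1, ← Finset.mul_sum]
    ring
  unfold be2
  rw [a3, a4]
  linarith

end Pool.Agent.TBF
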