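import Pool.Agent.TBF.Stmts

/-!
# MP_80dc41_mp, module SY3: fields with mean 0
-/

set_option autoImplicit false

open MeasureTheory Filter Topology
open scoped ContDiff

namespace Pool.Agent.TBF

open Pool.Agent.TBG Pool.Agent.TBL

namespace SY3_

lemma sum_eq (Y : Fin 4 → Fin 3 → W4 → ℝ) (c : Fin 3) (p : W4) : ∑ m, s0 Y m c p = 0 := by
  simp only [s0]
  rw [Finset.sum_sub_distrib, Finset.sum_const, Finset.card_univ, Fintype.card_fin, nsmul_eq_mul]
  push_cast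
  ring

lemma sq_le (Y : Fin 4 → Fin 3 → W4 → ℝ) (c : Fin 3) (p : W4) :
    ∑ m, (s0 Y m c p) ^ 2 ≤ ∑ m, (Y m c p) ^ 2 := by
  have h : ∑ m, (Y m c p) ^ 2 - ∑ m, (s0 Y m c p) ^ 2 = 4 * (1 / 4 * ∑ j, Y j c p) ^ 2 := by
    simp only [s0, Fin.sum_univ_four]
    ring
  nlinarith [sq_nonneg (1 / 4 * ∑ j, Y j c p)]

lemma smooth_mean {Y : Fin 4 → Fin 3 → W4 → ℝ} (hY : ∀ m c, ContDiff ℝ ∞ (Y m c)) (c : Fin 3) :
    ContDiff ℝ ∞ (fun p => 1 / 4 * ∑ j, Y j c p) :=
  contDiff_const.mul (ContDiff.sum fun j _ => hY j c)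

lemma smooth_s0 {Y : Fin 4 → Fin 3 → W4 → ℝ} (hY : ∀ m c, ContDiff ℝ ∞ (Y m c)) (m : Fin 4) (c : Fin 3) :
    ContDiff ℝ ∞ (s0 Y m c) := (hY m c).sub (smooth_mean hY c)

lemma dvg_eq (hRLD : Stmt_RLD) {Y : Fin 4 → Fin 3 → W4 → ℝ} (hY : ∀ m c, ContDiff ℝ ∞ (Y m c)) (p : W4) :
    dvg (s0 Y) p = dvg Y p := by
  have hz := hRLD.2.2.2.1
  unfold dvg
  have h1 : ∀ m c, dv (d4 m c) (s0 Y m c) p =
      dv (d4 m c) (Y m c) p - fderiv ℝ (fun p => 1 / 4 * ∑ j, Y j c p) p (d4 m c) := by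
    intro m c
    unfold dv
    have : s0 Y m c = fun q => Y m c q - (fun p => 1 / 4 * ∑ j, Y j c p) q := rfl
    rw [this, fderiv_fun_sub ((hY m c).differentiable (by simp)).differentiableAt
      ((smooth_mean hY c).differentiable (by simp)).differentiableAt]
    rfl
  simp only [h1, Finset.sum_sub_distrib]
  have h2 : ∑ m : Fin 4, ∑ c : Fin 3, fderiv ℝ (fun p => 1 / 4 * ∑ j, Y j c p) p (d4 m c) = 0 := by
    rw [Finset.sum_comm]
    refine Finset.sum_eq_zero fun c _ => ?_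
    rw [← map_sum, hz c, map_zero]
  rw [h2, sub_zero]

lemma int_sq {Y : Fin 4 → Fin 3 → W4 → ℝ} {l : ℝ} (hY : ∀ m c, ContDiff ℝ ∞ (Y m c))
    (hs : ∀ m c (p : W4), l < ‖p‖ → Y m c p = 0) :
    Integrable (fun p => ∑ m, ∑ c, (Y m c p) ^ 2) := by
  refine integrable_finsetSum _ fun m _ => integrable_finsetSum _ fun c _ => ?_
  have hc : Continuous (fun p => Y m c p ^ 2) := (hY m c).continuous.pow 2
  apply hc.integrable_of_hasCompactSupport
  refine HasCompactSupport.intro (isCompact_closedBall (0 : W4) l) fun p hp => ?_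
  have : l < ‖p‖ := by
    rw [Metric.mem_closedBall, dist_zero_right, not_le] at hp; exact hp
  rw [hs m c p this]; norm_num

end SY3_

open SY3_ in
theorem sy3_proof (hRLD : Stmt_RLD) (_hALG : Stmt_ALG) : Stmt_SY3 := by
  intro φ u l C Y g hl hD
  have hsp : ∀ m c (p : W4), l < ‖p‖ → s0 Y m c p = 0 := by
    intro m c p hp
    simp only [s0, hD.spY _ c p hp]; simp
  have hC : 0 ≤ C := le_trans (by positivity) (hD.bdg 0)
  have hsm := fun m c => smooth_s0 hD.smY m c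
  refine ⟨⟨hsm, hD.smg, hsp, hD.spg, ?_, ?_, ?_⟩, sum_eq Y, ?_, ?_⟩
  · intro p
    rw [dvg_eq hRLD hD.smY p]; exact hD.eqn p
  · intro m c p
    have h1 : |s0 Y m c p| ≤ |Y m c p| + 1 / 4 * ∑ j, |Y j c p| := by
      simp only [s0]
      refine (abs_sub _ _).trans ?_
      rw [abs_mul, abs_of_pos (by norm_num : (0 : ℝ) < 1 / 4)]
      have := Finset.abs_sum_le_sum_abs (fun j => Y j c p) Finset.univ
      linarith
    have hb := fun j => hD.bdY j c p
    have hw : 0 ≤ (1 + ‖p‖) ^ 8 := by positivity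
    calc (1 + ‖p‖) ^ 8 * |s0 Y m c p| ≤ (1 + ‖p‖) ^ 8 * (|Y m c p| + 1 / 4 * ∑ j, |Y j c p|) :=
          mul_le_mul_of_nonneg_left h1 hw
      _ = (1 + ‖p‖) ^ 8 * |Y m c p| + 1 / 4 * ∑ j, (1 + ‖p‖) ^ 8 * |Y j c p| := by
          rw [mul_add, Finset.mul_sum]; simp only [Finset.mul_sum]; congr 1
          exact Finset.sum_congr rfl fun j _ => by ring
      _ ≤ C + 1 / 4 * ∑ _j : Fin 4, C := by
          have := Finset.sum_le_sum fun (j : Fin 4) (_ : j ∈ Finset.univ) => hb j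
          have := hb m
          linarith
      _ = 2 * C := by simp; ring
  · intro p
    have := hD.bdg p
    linarith
  · unfold be2
    have h1 : ∫ p, ∑ m, ∑ c, (s0 Y m c p) ^ 2 ≤ ∫ p, ∑ m, ∑ c, (Y m c p) ^ 2 := by
      refine integral_mono (int_sq hsm hsp) (int_sq hD.smY hD.spY) fun p => ?_
      simp only
      rw [Finset.sum_comm, Finset.sum_comm (f := fun m c => Y m c p ^ 2)]
      exact Finset.sum_le_sum fun c _ => sq_le Y c p
    linarith
  · intro hE σ m c p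
    simp only [s0]
    rw [hE σ m c p]
    congr 2
    simp only [hE σ _ c p]
    exact Equiv.sum_comp σ (fun j => Y j c p)

end Pool.Agent.TBF
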