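import Pool.Agent.TBF.Stmts

/-!
Squad TBF, module TR1 (helper32): the transport equation.
-/

set_option autoImplicit false

open MeasureTheory Filter Topology
open scoped ContDiff

namespace Pool.Agent.TBF

open Pool.Agent.TBG Pool.Agent.TBL

namespace TR1_

lemma hder {F : Type} [NormedAddCommGroup F] [NormedSpace ℝ F] (h : ℝ → ℝ) (hh : Continuous h)
    (a b : ℝ) (k : ℕ) (g : W4 → F) (hg : ContDiff ℝ 1 g) (p0 : W4) :
    HasFDerivAt (fun p => ∫ s in a..b, (h s) ^ k • g (h s • p))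
      (∫ s in a..b, (h s) ^ (k + 1) • fderiv ℝ g (h s • p0)) p0 := by
  have hgc : Continuous g := hg.continuous
  have hdc : Continuous (fderiv ℝ g) := hg.continuous_fderiv (by norm_num)
  have hc2 : Continuous (fun q : ℝ × W4 => (h q.1) ^ (k + 1) • fderiv ℝ g (h q.1 • q.2)) := by
    have h1 : Continuous (fun q : ℝ × W4 => h q.1) := hh.comp continuous_fst
    exact (h1.pow _).smul (hdc.comp (h1.smul continuous_snd))
  obtain ⟨C, hC⟩ := ((isCompact_uIcc (a := a) (b := b)).prod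
    (isCompact_closedBall p0 1)).exists_bound_of_continuousOn hc2.continuousOn
  refine intervalIntegral.hasFDerivAt_integral_of_dominated_of_fderiv_le
    (F := fun p s => (h s) ^ k • g (h s • p))
    (F' := fun p s => (h s) ^ (k + 1) • fderiv ℝ g (h s • p)) (bound := fun _ => C)
    (s := Metric.closedBall p0 1) (Metric.closedBall_mem_nhds p0 one_pos) ?_ ?_ ?_ ?_ ?_ ?_
  · refine Eventually.of_forall fun p => ?_
    exact ((hh.pow _).smul (hgc.comp (hh.smul continuous_const))).aestronglyMeasurable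
  · exact ((hh.pow _).smul (hgc.comp (hh.smul continuous_const))).intervalIntegrable _ _
  · exact ((hh.pow _).smul (hdc.comp (hh.smul continuous_const))).aestronglyMeasurable
  · refine Eventually.of_forall fun s hs p hp => ?_
    exact hC (s, p) ⟨Set.uIoc_subset_uIcc hs, hp⟩
  · exact intervalIntegrable_const
  · refine Eventually.of_forall fun s _ p _ => ?_
    have h1 : HasFDerivAt (fun p : W4 => h s • p) (h s • ContinuousLinearMap.id ℝ W4) p :=
      (hasFDerivAt_id (𝕜 := ℝ) p).const_smul (h s)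
    have h2 : HasFDerivAt g (fderiv ℝ g (h s • p)) (h s • p) :=
      ((hg.differentiable (by norm_num)) _).hasFDerivAt
    have h3 := (h2.comp p h1).const_smul ((h s) ^ k)
    have h4 : (h s) ^ k • (fderiv ℝ g (h s • p)).comp (h s • ContinuousLinearMap.id ℝ W4) =
        (h s) ^ (k + 1) • fderiv ℝ g (h s • p) := by
      rw [ContinuousLinearMap.comp_smul, ContinuousLinearMap.comp_id, smul_smul, pow_succ]
    rw [h4] at h3
    exact h3

lemma key (h : ℝ → ℝ) (hh : Continuous h) (a b : ℝ) : ∀ (n : ℕ) (F : Type)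
    [NormedAddCommGroup F] [NormedSpace ℝ F] (k : ℕ) (g : W4 → F), ContDiff ℝ n g →
    ContDiff ℝ n (fun p => ∫ s in a..b, (h s) ^ k • g (h s • p)) := by
  intro n
  induction n with
  | zero =>
    intro F _ _ k g hg
    have hgc : Continuous g := hg.continuous
    have h1 : Continuous (fun q : W4 × ℝ => (h q.2) ^ k • g (h q.2 • q.1)) := by
      have h1 : Continuous (fun q : W4 × ℝ => h q.2) := hh.comp continuous_snd
      exact (h1.pow _).smul (hgc.comp (h1.smul continuous_fst))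
    have h2 := intervalIntegral.continuous_parametric_intervalIntegral_of_continuous'
      (f := fun p s => (h s) ^ k • g (h s • p)) (μ := volume) h1 a b
    exact contDiff_zero.2 h2
  | succ n ih =>
    intro F _ _ k g hg
    have hg1 : ContDiff ℝ 1 g := hg.of_le (by exact_mod_cast Nat.le_add_left 1 n)
    have hg' : ContDiff ℝ n (fderiv ℝ g) := hg.fderiv_right (by norm_cast)
    have h1 := hder h hh a b k g hg1
    have h2 : ContDiff ℝ ((n : WithTop ℕ∞) + 1)
        (fun p => ∫ s in a..b, (h s) ^ k • g (h s • p)) := by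
      rw [contDiff_succ_iff_fderiv]
      refine ⟨fun p => (h1 p).differentiableAt, fun hn => absurd hn (by simp), ?_⟩
      have h3 : fderiv ℝ (fun p => ∫ s in a..b, (h s) ^ k • g (h s • p)) =
          fun p => ∫ s in a..b, (h s) ^ (k + 1) • fderiv ℝ g (h s • p) := by
        funext p
        exact (h1 p).fderiv
      rw [h3]
      exact ih (W4 →L[ℝ] F) (k + 1) (fderiv ℝ g) hg'
    exact_mod_cast h2

/-- the modified inverse -/
noncomputable def hm (s : ℝ) : ℝ := (max s 1)⁻¹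

lemma hm_cont : Continuous hm := by
  unfold hm
  refine Continuous.inv₀ (by fun_prop) fun s => ?_
  have : (1 : ℝ) ≤ max s 1 := le_max_right _ _
  positivity

lemma Ag_eq (Λ : ℝ) (hΛ : 1 ≤ Λ) (g : W4 → ℝ) :
    Ag Λ g = fun p => ∫ s in (1 : ℝ)..Λ, (hm s) ^ 10 • g (hm s • p) := by
  funext p
  unfold Ag
  refine intervalIntegral.integral_congr fun s hs => ?_
  rw [Set.uIcc_of_le hΛ] at hs
  have h1 : hm s = s⁻¹ := by unfold hm; rw [max_eq_left hs.1]
  show (s ^ 10)⁻¹ * g (s⁻¹ • p) = (hm s) ^ 10 • g (hm s • p)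
  rw [h1, smul_eq_mul, inv_pow]

end TR1_

theorem tr1_proof : Stmt_TR1 := by
  intro Λ g hΛ hg
  have hc := TR1_.hm_cont
  refine ⟨?_, fun p => ?_⟩
  · rw [TR1_.Ag_eq Λ hΛ g, contDiff_infty]
    intro n
    exact TR1_.key TR1_.hm hc 1 Λ n ℝ 10 g (hg.of_le (by exact_mod_cast le_top))
  · have hg1 : ContDiff ℝ 1 g := hg.of_le (by exact_mod_cast le_top)
    have hgc : Continuous g := hg1.continuous
    have hdc : Continuous (fderiv ℝ g) := hg1.continuous_fderiv (by norm_num)
    have h1 := TR1_.hder TR1_.hm hc 1 Λ 10 g hg1 p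
    have h2 : fderiv ℝ (Ag Λ g) p = ∫ s in (1 : ℝ)..Λ, (TR1_.hm s) ^ 11 •
        fderiv ℝ g (TR1_.hm s • p) := by
      rw [TR1_.Ag_eq Λ hΛ g]
      exact h1.fderiv
    have h3 : fderiv ℝ (Ag Λ g) p p = ∫ s in (1 : ℝ)..Λ, (TR1_.hm s) ^ 11 *
        fderiv ℝ g (TR1_.hm s • p) p := by
      rw [h2, ContinuousLinearMap.intervalIntegral_apply]
      · refine intervalIntegral.integral_congr fun s _ => ?_
        rfl
      · exact ((hc.pow _).smul (hdc.comp (hc.smul continuous_const))).intervalIntegrable _ _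
    have h4 : Ag Λ g p = ∫ s in (1 : ℝ)..Λ, (TR1_.hm s) ^ 10 * g (TR1_.hm s • p) := by
      rw [TR1_.Ag_eq Λ hΛ g]
      rfl
    have hi1 : IntervalIntegrable (fun s => (TR1_.hm s) ^ 10 * g (TR1_.hm s • p)) volume 1 Λ :=
      ((hc.pow _).mul (hgc.comp (hc.smul continuous_const))).intervalIntegrable _ _
    have hi2 : IntervalIntegrable (fun s => (TR1_.hm s) ^ 11 * fderiv ℝ g (TR1_.hm s • p) p)
        volume 1 Λ :=
      ((hc.pow _).mul ((hdc.comp (hc.smul continuous_const)).clm_apply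
        continuous_const)).intervalIntegrable _ _
    have h5 : ∀ s ∈ Set.uIcc (1 : ℝ) Λ, HasDerivAt (fun s => (s ^ 9)⁻¹ * g (s⁻¹ • p))
        (-(9 * ((TR1_.hm s) ^ 10 * g (TR1_.hm s • p)) +
          (TR1_.hm s) ^ 11 * fderiv ℝ g (TR1_.hm s • p) p)) s := by
      intro s hs
      rw [Set.uIcc_of_le hΛ] at hs
      have hs0 : s ≠ 0 := by linarith [hs.1]
      have hm1 : TR1_.hm s = s⁻¹ := by unfold TR1_.hm; rw [max_eq_left hs.1]
      rw [hm1]
      have e1 : HasDerivAt (fun s : ℝ => (s ^ 9)⁻¹) (-(9 * s ^ 8) / (s ^ 9) ^ 2) s := by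
        have h9 := (hasDerivAt_pow 9 s).fun_inv (pow_ne_zero 9 hs0)
        norm_num at h9
        exact h9
      have e2 : HasDerivAt (fun s : ℝ => s⁻¹ • p) ((-(s ^ 2)⁻¹) • p) s :=
        (hasDerivAt_inv hs0).smul_const p
      have e3 : HasDerivAt (fun s : ℝ => g (s⁻¹ • p)) (fderiv ℝ g (s⁻¹ • p) ((-(s ^ 2)⁻¹) • p)) s :=
        (((hg1.differentiable (by norm_num)) _).hasFDerivAt).comp_hasDerivAt s e2
      have e4 := e1.mul e3
      rw [map_smul, smul_eq_mul] at e4
      have e5 : -(9 * s ^ 8) / (s ^ 9) ^ 2 * g (s⁻¹ • p) +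
          (s ^ 9)⁻¹ * (-(s ^ 2)⁻¹ * fderiv ℝ g (s⁻¹ • p) p) =
          -(9 * ((s⁻¹) ^ 10 * g (s⁻¹ • p)) + (s⁻¹) ^ 11 * fderiv ℝ g (s⁻¹ • p) p) := by
        field_simp
        ring
      rw [e5] at e4
      exact e4
    have h6 := intervalIntegral.integral_eq_sub_of_hasDerivAt h5
      (((hi1.const_mul 9).add hi2).neg)
    have h7 : (∫ s in (1 : ℝ)..Λ, -(9 * ((TR1_.hm s) ^ 10 * g (TR1_.hm s • p)) +
        (TR1_.hm s) ^ 11 * fderiv ℝ g (TR1_.hm s • p) p)) =
        -(9 * (∫ s in (1 : ℝ)..Λ, (TR1_.hm s) ^ 10 * g (TR1_.hm s • p)) +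
          ∫ s in (1 : ℝ)..Λ, (TR1_.hm s) ^ 11 * fderiv ℝ g (TR1_.hm s • p) p) := by
      rw [intervalIntegral.integral_neg, intervalIntegral.integral_add (hi1.const_mul 9) hi2,
        intervalIntegral.integral_const_mul]
    rw [h3, h4]
    rw [h7] at h6
    have h8 : (1 : ℝ)⁻¹ • p = p := by rw [inv_one, one_smul]
    rw [h8] at h6
    norm_num at h6
    linarith

end Pool.Agent.TBF
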