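import Pool.Agent.TBF.Stmts

/-!
# MP_80dc41_mp, module TR3: the pairing at large scales
-/

set_option autoImplicit false

open MeasureTheory Filter Topology
open scoped ContDiff

namespace Pool.Agent.TBF

open Pool.Agent.TBG Pool.Agent.TBL

namespace TR3_

lemma haar : (volume : Measure W4).IsAddHaarMeasure := by
  have h2 : (volume : Measure (E × E)).IsAddHaarMeasure :=
    Measure.prod.instIsAddHaarMeasure (volume : Measure E) (volume : Measure E)
  exact @Measure.prod.instIsAddHaarMeasure _ _ _ _ _ _ _ _ (volume : Measure E) (volume : Measure (E × E))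
    _ h2 _ _ _ _

lemma pm_ne (hRLP : Stmt_RLP) (m : Fin 4) : ∀ᵐ x : W4, pm m x ≠ 0 := by
  have := haar
  obtain ⟨-, -, -, -, hX, -, -, hT, -, -, -, -⟩ := hRLP
  obtain ⟨T, hT⟩ := hT m
  have hker : LinearMap.ker (T : W4 →ₗ[ℝ] E × E) ≠ ⊤ := by
    intro h
    obtain ⟨v, hv⟩ := exists_ne (0 : E)
    have h1 : T (rl (fun i => if i = m.succAbove 0 then v else 0)) = 0 := by
      have : rl (fun i => if i = m.succAbove 0 then v else 0) ∈ LinearMap.ker (T : W4 →ₗ[ℝ] E × E) := by
        rw [h]; trivial
      exact this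
    rw [hT, hX] at h1
    have h2 := congrArg Prod.fst h1
    simp only [if_true, Prod.fst_zero] at h2
    rw [if_neg (by
      intro h3
      have := Fin.succAbove_right_injective h3
      exact absurd this (by decide)), sub_zero] at h2
    exact hv h2
  have h0 := Measure.addHaar_submodule (volume : Measure W4) _ hker
  have : {x : W4 | ¬ pm m x ≠ 0} = (LinearMap.ker (T : W4 →ₗ[ℝ] E × E) : Set W4) := by
    ext x
    simp only [ne_eq, not_not, Set.mem_ofPred_eq, SetLike.mem_coe, LinearMap.mem_ker]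
    rw [← hT]; rfl
  rw [ae_iff, this]
  exact h0

end TR3_

open TR3_ in
theorem tr3_proof (hRLP : Stmt_RLP) (hSCB : Stmt_SCB) : Stmt_TR3 := by
  intro φ hφ g hg
  have := haar
  obtain ⟨C, hC, hφb, -⟩ := hSCB φ hφ
  have hTT := hRLP.2.2.2.2.2.2.2.1
  have hlin : ∀ (j : Fin 4) (c : ℝ) (x : W4), pm j (c • x) = c • pm j x := by
    intro j c x
    obtain ⟨T, hT⟩ := hTT j
    rw [← hT, ← hT, map_smul]
  have hpc : ∀ j : Fin 4, Continuous (pm j) := by
    intro j
    obtain ⟨T, hT⟩ := hTT j
    have : pm j = fun p => T p := by funext p; rw [hT]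
    rw [this]; exact T.continuous
  have hPc : Continuous (Ph φ) := by
    unfold Ph
    exact continuous_finsetSum _ fun j _ => hφ.smooth.continuous.comp (hpc j)
  have hP0 : ∀ p, 0 ≤ Ph φ p := fun p => Finset.sum_nonneg fun j _ => (hφb _).1.le
  have hP2 : ∀ p, Ph φ p ≤ 2 := by
    intro p
    unfold Ph
    calc ∑ m, φ (pm m p) ≤ ∑ _m : Fin 4, (1 / 2 : ℝ) := Finset.sum_le_sum fun j _ => hφ.le_half _
      _ = 2 := by simp; norm_num
  have hgc := hg.1.continuous
  have hgi : Integrable g := hgc.integrable_of_hasCompactSupport hg.2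
  have e : ∀ᶠ Λ : ℝ in atTop, ∫ p, Ph φ (Λ • p) * g p = ∫ p, Ph φ p * ((Λ ^ 9)⁻¹ * g (Λ⁻¹ • p)) := by
    filter_upwards [eventually_gt_atTop 0] with Λ hΛ
    have h1 := Measure.integral_comp_smul (volume : Measure W4) (fun p => Ph φ p * g (Λ⁻¹ • p)) Λ
    have h9 : Module.finrank ℝ W4 = 9 := by simp
    rw [h9, abs_of_pos (by positivity)] at h1
    have h2 : ∀ x : W4, Λ⁻¹ • Λ • x = x := fun x => by
      rw [smul_smul, inv_mul_cancel₀ hΛ.ne', one_smul]
    simp only [h2, smul_eq_mul] at h1
    rw [h1, ← integral_const_mul]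
    congr 1
    funext x
    ring
  refine Tendsto.congr' e ?_
  have hlim : Tendsto (fun Λ : ℝ => ∫ p, Ph φ (Λ • p) * g p) atTop (𝓝 (∫ _p : W4, (0 : ℝ))) := by
    apply tendsto_integral_filter_of_dominated_convergence (fun p => 2 * |g p|)
    · refine Eventually.of_forall fun Λ => ?_
      exact ((hPc.comp (continuous_const_smul Λ)).mul hgc).aestronglyMeasurable
    · refine Eventually.of_forall fun Λ => Eventually.of_forall fun p => ?_
      rw [norm_mul, Real.norm_eq_abs, Real.norm_eq_abs, abs_of_nonneg (hP0 _)]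
      exact mul_le_mul_of_nonneg_right (hP2 _) (abs_nonneg _)
    · exact hgi.abs.const_mul 2
    · have hall : ∀ᵐ x : W4, ∀ m : Fin 4, pm m x ≠ 0 := ae_all_iff.mpr fun m => pm_ne hRLP m
      filter_upwards [hall] with x hx
      have h1 : Tendsto (fun Λ : ℝ => Ph φ (Λ • x)) atTop (𝓝 0) := by
        have h3 : ∀ m : Fin 4, Tendsto (fun Λ : ℝ => φ (pm m (Λ • x))) atTop (𝓝 0) := by
          intro m
          have hpos : 0 < ‖pm m x‖ := norm_pos_iff.mpr (hx m)
          have h4 : Tendsto (fun Λ : ℝ => C * ((1 + Λ * ‖pm m x‖) ^ 4)⁻¹) atTop (𝓝 0) := by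
            have h5 : Tendsto (fun Λ : ℝ => 1 + Λ * ‖pm m x‖) atTop atTop :=
              tendsto_atTop_add_const_left _ _ (tendsto_id.atTop_mul_const hpos)
            have h6 : Tendsto (fun Λ : ℝ => (1 + Λ * ‖pm m x‖) ^ 4) atTop atTop :=
              (tendsto_pow_atTop (by norm_num)).comp h5
            have := h6.inv_tendsto_atTop.const_mul C
            simpa using this
          refine tendsto_of_tendsto_of_tendsto_of_le_of_le' tendsto_const_nhds h4
            (Eventually.of_forall fun Λ => (hφb _).1.le) ?_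
          filter_upwards [eventually_ge_atTop 0] with Λ hΛ
          have h7 := (hφb (pm m (Λ • x))).2
          rw [hlin, norm_smul, Real.norm_eq_abs, abs_of_nonneg hΛ] at h7
          rw [hlin]
          exact h7
        unfold Ph
        have := tendsto_finsetSum (Finset.univ : Finset (Fin 4)) fun m _ => h3 m
        simpa using this
      simpa using h1.mul_const (g x)
  simpa using hlim

end Pool.Agent.TBF
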