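import Pool.Agent.TBF.Stmts

set_option autoImplicit false

open MeasureTheory Filter Topology
open scoped ContDiff

namespace Pool.Agent.TBF

open Pool.Agent.TBG Pool.Agent.TBL

theorem trk_proof (hTDL : Pool.Agent.TBG.Stmt_TDL) : Stmt_TRK := by
  intro k hk
  obtain ⟨hsm, hder, h0, -, -, -⟩ := hTDL.1 k hk
  have hms : ContDiff ℝ ∞ (mk k) := by
    unfold mk
    exact (hsm.add contDiff_const).sub contDiff_const
  have hmd : ∀ s, deriv (mk k) s = Real.smoothTransition (s / k - 1) := by
    intro s
    have h1 : HasDerivAt (Td k) (deriv (Td k) s) s := (hsm.differentiable (by simp) s).hasDerivAt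
    have h2 := (h1.add_const (2 * k)).sub_const (Td k (2 * k))
    have h3 : mk k = fun s => Td k s + 2 * k - Td k (2 * k) := rfl
    rw [h3, h2.deriv, hder]
  have hd0 : ∀ s, 0 ≤ deriv (mk k) s := fun s => by
    rw [hmd]
    exact Real.smoothTransition.nonneg _
  have hd1 : ∀ s, deriv (mk k) s ≤ 1 := fun s => by
    rw [hmd]
    exact Real.smoothTransition.le_one _
  have hdiff : Differentiable ℝ (mk k) := hms.differentiable (by simp)
  have hmono : Monotone (mk k) := monotone_of_deriv_nonneg hdiff hd0
  have hmono2 : Monotone (fun s => s - mk k s) := by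
    refine monotone_of_deriv_nonneg (differentiable_id.sub hdiff) fun s => ?_
    have h1 : HasDerivAt (fun s => s - mk k s) (1 - deriv (mk k) s) s :=
      (hasDerivAt_id s).sub (hdiff s).hasDerivAt
    rw [h1.deriv]
    linarith [hd1 s]
  have h2k : mk k (2 * k) = 2 * k := by
    unfold mk
    ring
  have hge : ∀ s, 2 * k ≤ s → mk k s = s := by
    intro s hs
    have hcont : Continuous (fun v : ℝ => Real.smoothTransition (v / k - 1)) :=
      Real.smoothTransition.continuous.comp ((continuous_id.div_const k).sub continuous_const)
    have h1 : Td k s = Td k (2 * k) + (s - 2 * k) := by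
      unfold Td
      rw [← intervalIntegral.integral_add_adjacent_intervals
        (hcont.intervalIntegrable 0 (2 * k)) (hcont.intervalIntegrable (2 * k) s)]
      congr 1
      have h2 : ∫ v in (2 * k)..s, Real.smoothTransition (v / k - 1) =
          ∫ v in (2 * k)..s, (1 : ℝ) := by
        apply intervalIntegral.integral_congr
        intro v hv
        rw [Set.uIcc_of_le hs] at hv
        apply Real.smoothTransition.one_of_one_le
        have h3 : 2 ≤ v / k := by
          rw [le_div_iff₀ hk]
          exact hv.1
        linarith
      rw [h2]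
      simp
    unfold mk
    rw [h1]
    ring
  refine ⟨hms, hge, ?_, fun s => ⟨hd0 s, hd1 s⟩, ?_⟩
  · intro s
    have hkk : k ≤ mk k k := by
      have := hmono2 (show k ≤ 2 * k by linarith)
      simp only [h2k] at this
      linarith
    rcases le_total s k with h | h
    · have h1 : mk k s = mk k k := by
        unfold mk
        rw [h0 s h, h0 k le_rfl]
      rw [h1]
      exact hkk
    · exact hkk.trans (hmono h)
  · intro s hs
    exact (hmono hs).trans h2k.le

end Pool.Agent.TBF
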