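import Pool.Agent.TBF.Stmts

set_option autoImplicit false

open MeasureTheory Filter Topology
open scoped ContDiff

namespace Pool.Agent.TBF

open Pool.Agent.TBG Pool.Agent.TBL

theorem yqs_proof : Stmt_YQS := by
  intro V N c hV hN hc h
  refine ⟨?_, fun x => ?_⟩
  · rw [contDiff_iff_contDiffAt]
    intro x
    by_cases hx : V x < c
    · have hev : (fun x => N x / V x) =ᶠ[𝓝 x] fun _ => (0 : ℝ) := by
        have ho : ∀ᶠ y in 𝓝 x, V y < c := (hV.continuous.continuousAt).eventually_lt_const hx
        filter_upwards [ho] with y hy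
        have hN0 : N y = 0 := by
          by_contra hne
          exact absurd (h y hne) (not_le.mpr hy)
        rw [hN0, zero_div]
      exact contDiffAt_const.congr_of_eventuallyEq hev
    · have hVx : V x ≠ 0 := ne_of_gt (lt_of_lt_of_le hc (not_lt.mp hx))
      exact hN.contDiffAt.div hV.contDiffAt hVx
  · by_cases hx : N x = 0
    · rw [hx]
      simp
    · have hVx : V x ≠ 0 := ne_of_gt (lt_of_lt_of_le hc (h x hx))
      field_simp

end Pool.Agent.TBF
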