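import Pool.Agent.TBF.RLP
import Pool.Agent.TBF.RLD
import Pool.Agent.TBF.RLS
import Pool.Agent.TBF.PMV
import Pool.Agent.TBF.INW
import Pool.Agent.TBF.DER
import Pool.Agent.TBF.DVP
import Pool.Agent.TBF.ALG
import Pool.Agent.TBF.SCB
import Pool.Agent.TBF.SDW
import Pool.Agent.TBF.DCL
import Pool.Agent.TBF.ET0
import Pool.Agent.TBF.CHI
import Pool.Agent.TBF.DIT
import Pool.Agent.TBF.IBT
import Pool.Agent.TBF.IBD
import Pool.Agent.TBF.GID
import Pool.Agent.TBF.JCT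
import Pool.Agent.TBF.JSY
import Pool.Agent.TBF.TRK
import Pool.Agent.TBF.GTR
import Pool.Agent.TBF.OB1
import Pool.Agent.TBF.HIL
import Pool.Agent.TBF.HSP
import Pool.Agent.TBF.MOE
import Pool.Agent.TBF.MOL
import Pool.Agent.TBF.MOD
import Pool.Agent.TBF.MOJ
import Pool.Agent.TBF.MOC
import Pool.Agent.TBF.MPC
import Pool.Agent.TBF.YQS
import Pool.Agent.TBF.B2A
import Pool.Agent.TBF.B2C
import Pool.Agent.TBF.RAD
import Pool.Agent.TBF.TR1
import Pool.Agent.TBF.TR2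
import Pool.Agent.TBF.TR3
import Pool.Agent.TBF.B20
import Pool.Agent.TBF.SY1
import Pool.Agent.TBF.SY2
import Pool.Agent.TBF.SY3
import Pool.Agent.TBF.BFM
import Pool.Agent.TBF.OB2
import Pool.Agent.TBF.PLS
import Pool.Agent.TBF.DIL
import Pool.Agent.TBF.B3P
import Pool.Agent.TBF.OB3
import Pool.Agent.TBF.SC4
import Pool.Agent.TBF.ESC
import Pool.Agent.TBF.EXP
import Pool.Agent.TBG.ADM
import Pool.Agent.TBG.LTR
import Pool.Agent.TBG.SCL
import Pool.Agent.TBG.TDL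
import Pool.Agent.TBG.LSU
import Pool.Agent.TBG.LPC
import Pool.Agent.TBG.QFO
import Pool.Agent.TBL.PRF
import Pool.Agent.TBL.SCA

/-!
# Three-body Bose gases (MP_80dc41_mp), the four-body problem: assembly of the modules
-/

set_option autoImplicit false

namespace Pool.Agent.TBF

open Pool.Agent.TBG Pool.Agent.TBL

theorem t_ltr : Stmt_LTR := LTR_proof
theorem t_adm : Stmt_ADM := adm_proof t_ltr
theorem t_scl : Stmt_SCL := scl_proof t_ltr
theorem t_tdl : Stmt_TDL := TDL_proof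
theorem t_lsu : Stmt_LSU := lsu_proof
theorem t_lpc : Stmt_LPC := lpc_proof
theorem t_qfo : Stmt_QFO := qfo_proof
theorem t_prf : Pool.Agent.TBL.Stmt_PRF := prf_proof
theorem t_sca : Pool.Agent.TBL.Stmt_SCA := sca_proof t_prf t_lpc t_qfo
theorem s_rlp : Stmt_RLP := rlp_proof
theorem s_rld : Stmt_RLD := rld_proof s_rlp
theorem s_rls : Stmt_RLS := rls_proof s_rlp
theorem s_pmv : Stmt_PMV := pmv_proof s_rlp
theorem s_inw : Stmt_INW := inw_proof s_rlp s_rls s_pmv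
theorem s_der : Stmt_DER := der_proof s_rlp s_rld
theorem s_dvp : Stmt_DVP := dvp_proof s_rlp s_rld
theorem s_alg : Stmt_ALG := alg_proof
theorem s_scb : Stmt_SCB := scb_proof t_adm t_ltr
theorem s_sdw : Stmt_SDW := sdw_proof s_rlp s_inw
theorem s_dcl : Stmt_DCL := dcl_proof s_alg s_sdw
theorem s_et0 : Stmt_ET0 := et0_proof s_rlp s_rls s_der s_alg s_scb s_sdw s_dcl
theorem s_chi : Stmt_CHI := chi_proof s_rlp
theorem s_dit : Stmt_DIT := dit_proof s_rlp s_pmv s_der s_alg s_scb s_sdw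
theorem s_ibt : Stmt_IBT := ibt_proof s_alg
theorem s_ibd : Stmt_IBD := ibd_proof s_rlp s_der s_alg s_scb s_sdw s_chi s_dit s_ibt
theorem s_gid : Stmt_GID := gid_proof s_der s_alg s_scb s_dit s_ibd
theorem s_jct : Stmt_JCT := jct_proof s_rlp s_sdw s_alg s_dcl s_chi s_dit
theorem s_jsy : Stmt_JSY := jsy_proof s_rlp s_rls s_pmv s_dvp s_alg s_scb s_dcl s_dit
theorem s_trk : Stmt_TRK := trk_proof t_tdl
theorem s_gtr : Stmt_GTR := gtr_proof s_rlp s_alg s_scb s_trk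
theorem s_ob1 : Stmt_OB1 := ob1_proof s_rlp s_alg s_dcl s_et0 s_chi s_gid s_jct s_jsy s_trk s_gtr
theorem s_hil : Stmt_HIL := hil_proof
theorem s_hsp : Stmt_HSP := hsp_proof s_alg s_scb s_dcl s_dit s_hil
theorem s_moe : Stmt_MOE := moe_proof
theorem s_mol : Stmt_MOL := mol_proof
theorem s_mod : Stmt_MOD := mod_proof s_mol
theorem s_moj : Stmt_MOJ := moj_proof s_mol
theorem s_moc : Stmt_MOC := moc_proof s_mol
theorem s_mpc : Stmt_MPC := mpc_proof s_rlp s_scb s_sdw s_moc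
theorem s_yqs : Stmt_YQS := yqs_proof
theorem s_b2a : Stmt_B2A := b2a_proof s_rlp s_scb s_der s_dit s_hsp s_moe s_mol s_mod s_moj s_mpc s_yqs
theorem s_b2c : Stmt_B2C := b2c_proof s_rlp s_der s_alg s_scb s_chi s_dit
theorem s_rad : Stmt_RAD := rad_proof s_rlp s_rld
theorem s_tr1 : Stmt_TR1 := tr1_proof
theorem s_tr2 : Stmt_TR2 := tr2_proof
theorem s_tr3 : Stmt_TR3 := tr3_proof s_rlp s_scb
theorem s_b20 : Stmt_B20 := b20_proof s_alg s_b2a s_b2c s_rad s_tr1 s_tr2 s_tr3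
theorem s_sy1 : Stmt_SY1 := sy1_proof s_rlp s_rls s_dvp s_alg s_scb
theorem s_sy2 : Stmt_SY2 := sy2_proof s_rlp s_rls s_pmv s_scb
theorem s_sy3 : Stmt_SY3 := sy3_proof s_rld s_alg
theorem s_bfm : Stmt_BFM := bfm_proof s_rlp s_der s_alg s_scb s_dit s_ibt s_ibd
theorem s_ob2 : Stmt_OB2 := ob2_proof s_rls s_b20 s_sy1 s_sy2 s_sy3 s_bfm
theorem s_pls : Stmt_PLS := pls_proof t_prf t_sca t_lsu
theorem s_dil : Stmt_DIL := dil_proof s_pls t_prf
theorem s_b3p : Stmt_B3P := b3p_proof s_rlp s_scb s_sdw s_dit s_pls t_prf t_sca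
theorem s_ob3 : Stmt_OB3 := ob3_proof s_alg s_scb s_dit s_pls s_b3p t_prf t_sca
theorem s_sc4 : Stmt_SC4 := sc4_proof s_rlp s_alg t_ltr t_scl

end Pool.Agent.TBF
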