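import Pool.Agent.TBL.Stmts

/-!
# Three-body Bose gases (MP_80dc41_mp), the four-body problem: definitions
-/

set_option autoImplicit false

open MeasureTheory Filter Topology
open scoped ContDiff

namespace Pool.Agent.TBF

open Pool.Agent.TBG Pool.Agent.TBL

/-! ## four particles -/

/-- the relative positions of four particles -/
abbrev W4 : Type := E × E × E

/-- the relative positions `(x₁ - x₂, x₁ - x₃, x₁ - x₄)` of the particles `x₁, x₂, x₃, x₄` -/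
def rl (X : Fin 4 → E) : W4 := (X 0 - X 1, X 0 - X 2, X 0 - X 3)

/-- a configuration with given relative positions -/
def cf (p : W4) : Fin 4 → E := ![0, -p.1, -p.2.1, -p.2.2]

/-- the direction in which the relative positions move when the particle `m` moves in direction `c` -/
noncomputable def d4 (m : Fin 4) (c : Fin 3) : W4 := rl (Pi.single m (ev c))

/-- the relative positions of the triple of the particles different from `m` -/
def pm (m : Fin 4) (p : W4) : E × E :=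
  (cf p (m.succAbove 0) - cf p (m.succAbove 1), cf p (m.succAbove 0) - cf p (m.succAbove 2))

/-- permutation of the particles: `Pm σ (rl X) = rl (X ∘ σ)` -/
def Pm (σ : Equiv.Perm (Fin 4)) (p : W4) : W4 := rl (fun i => cf p (σ i))

/-- symmetric functions of four particles -/
def Sym4 (F : W4 → ℝ) : Prop := ∀ (σ : Equiv.Perm (Fin 4)) (p : W4), F (Pm σ p) = F p

/-- functions of four particles which are symmetric in the first three -/
def Sym3 (F : W4 → ℝ) : Prop := ∀ (σ : Equiv.Perm (Fin 4)) (p : W4), σ 3 = 3 → F (Pm σ p) = F p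

/-- the image of the function `y` of the triple `(1,2,3)` and the fourth particle, for the triple of the
particles different from `m` -/
def ym (y : W4 → ℝ) (m : Fin 4) (p : W4) : ℝ :=
  y (rl ![cf p (m.succAbove 0), cf p (m.succAbove 1), cf p (m.succAbove 2), cf p m])

/-- test functions -/
def TF (η : W4 → ℝ) : Prop := ContDiff ℝ ∞ η ∧ HasCompactSupport η

/-! ## derivatives -/

/-- `∑_i ∇_i F · ∇_i G` -/
noncomputable def gdt (F G : W4 → ℝ) (p : W4) : ℝ := ∑ m, ∑ c, dv (d4 m c) F p * dv (d4 m c) G p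

/-- `∑_i |∇_i F|²` -/
noncomputable def gsq4 (F : W4 → ℝ) (p : W4) : ℝ := ∑ m, ∑ c, (dv (d4 m c) F p) ^ 2

/-- `∑_i Δ_i F` -/
noncomputable def Lap4 (F : W4 → ℝ) (p : W4) : ℝ := ∑ m, ∑ c, dv (d4 m c) (dv (d4 m c) F) p

/-- `∑_i div_i Y_i` -/
noncomputable def dvg (Y : Fin 4 → Fin 3 → W4 → ℝ) (p : W4) : ℝ := ∑ m, ∑ c, dv (d4 m c) (Y m c) p

/-! ## the four-body problem -/

/-- the potential of the triple of the particles different from `m` -/
noncomputable def Vm (φ : E × E → ℝ) (m : Fin 4) (p : W4) : ℝ := VV φ (pm m p).1 (pm m p).2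

/-- `∑_m φ_m` -/
noncomputable def Ph (φ : E × E → ℝ) (p : W4) : ℝ := ∑ m, φ (pm m p)

/-- `∑_{j ≠ m} φ_j` -/
noncomputable def Pq (φ : E × E → ℝ) (m : Fin 4) (p : W4) : ℝ := ∑ j ∈ Finset.univ.erase m, φ (pm j p)

/-- `∏_m f_m`, `f = 1 - φ` -/
noncomputable def PF (φ : E × E → ℝ) (p : W4) : ℝ := ∏ m, (1 - φ (pm m p))

/-- the functional of the four-body problem -/
noncomputable def JJ (φ : E × E → ℝ) (η : W4 → ℝ) : ℝ :=
  ∫ p, (gsq4 η p + ∑ m, Vm φ m p * (η p - Pq φ m p) ^ 2)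

/-- `∑_m ∫ w_m ∑_{j ≠ m} φ_j` -/
noncomputable def B40 (φ : E × E → ℝ) : ℝ := ∫ p, ∑ m, ww φ (pm m p) * Pq φ m p

/-- the coefficient of the second order (`e_3B = b ρ³ / 6 + b4 ρ⁴ / 24 + …`) -/
noncomputable def b4 (φ : E × E → ℝ) : ℝ := sInf {x : ℝ | ∃ η : W4 → ℝ, TF η ∧ x = JJ φ η} - B40 φ

/-- the renormalised energy of a function of four particles -/
noncomputable def gam4 (φ : E × E → ℝ) (ψ : W4 → ℝ) : ℝ :=
  ∫ p, (gsq4 ψ p - ∑ m, gsq φ (pm m p) + ∑ m, Vm φ m p * (ψ p ^ 2 - (1 - φ (pm m p)) ^ 2))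

/-! ## dual data -/

/-- vector fields and soft potentials of four particles, supported in `‖p‖ ≤ l` -/
structure Dua (φ : E × E → ℝ) (y : W4 → ℝ) (l C : ℝ) (Y : Fin 4 → Fin 3 → W4 → ℝ) (g : W4 → ℝ) : Prop where
  smY : ∀ m c, ContDiff ℝ ∞ (Y m c)
  smg : ContDiff ℝ ∞ g
  spY : ∀ m c p, l < ‖p‖ → Y m c p = 0
  spg : ∀ p, l < ‖p‖ → g p = 0
  eqn : ∀ p, dvg Y p = ∑ m, Vm φ m p * ym y m p - g p
  bdY : ∀ m c p, (1 + ‖p‖) ^ 8 * |Y m c p| ≤ C
  bdg : ∀ p, l ^ 9 * |g p| ≤ C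
  eqv : ∀ (σ : Equiv.Perm (Fin 4)) m c p, Y m c (Pm σ p) = Y (σ m) c p
  syg : Sym4 g
  sum : ∀ c p, ∑ m, Y m c p = 0

/-- the value of the dual data -/
noncomputable def bet (φ : E × E → ℝ) (y : W4 → ℝ) (Y : Fin 4 → Fin 3 → W4 → ℝ) (g : W4 → ℝ) : ℝ :=
  2 * (∫ p, g p) - (∫ p, ∑ m, ∑ c, (Y m c p) ^ 2) + 2 * (∫ p, ∑ m, ∑ c, dv (d4 m c) (Ph φ) p * Y m c p)
    - (∫ p, ∑ m, ∑ j ∈ Finset.univ.erase m, gdt (fun p => φ (pm m p)) (fun p => φ (pm j p)) p)
    - 2 * (∫ p, ∑ m, ww φ (pm m p) * ym y m p) - ∫ p, ∑ m, Vm φ m p * (ym y m p) ^ 2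

/-- potentials which decrease along rays, with room -/
def Dil (V : E × E → ℝ) : Prop := ∀ κ : ℝ, 1 < κ → ∀ δ : ℝ, 0 < δ → ∃ ε c : ℝ, 0 < ε ∧ 0 < c ∧
  ∀ z h : E × E, ‖h‖ ≤ ε → V (κ • (z - h)) ≤ (1 + δ) * V z ∧ (V (κ • (z - h)) ≠ 0 → c ≤ V z)

end Pool.Agent.TBF
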