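import Pool.Agent.TBF.Stmts

/-!
Squad TBF, module JCT: continuity of the functional along cutoffs.
-/

set_option autoImplicit false

open MeasureTheory Filter Topology
open scoped ContDiff

namespace Pool.Agent.TBF

open Pool.Agent.TBG Pool.Agent.TBL

namespace JCT_

theorem Vm_nonneg {φ : E × E → ℝ} (hφ : Scat φ) (m : Fin 4) (p : W4) : 0 ≤ Vm φ m p := by
  unfold Vm VV ww
  have h1 := hφ.sup ((pm m p).1, (pm m p).2)
  have h2 := hφ.le_half ((pm m p).1, (pm m p).2)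
  exact div_nonneg (by linarith) (by linarith)

end JCT_

theorem jct_proof (_hRLP : Stmt_RLP) (hSDW : Stmt_SDW) (hALG : Stmt_ALG) (hDCL : Stmt_DCL)
    (hCHI : Stmt_CHI) (hDIT : Stmt_DIT) : Stmt_JCT := by
  intro φ hφ η ζ hη hζ
  obtain ⟨C, hC, hχ⟩ := hCHI
  have hηD : Dec η := hDCL.1 η hη
  obtain ⟨C0, hC0⟩ := hζ.b0
  obtain ⟨C1, hC1⟩ := hζ.b1
  have hSd : ∀ p, 0 < Sd p := fun p => (hSDW.2.2.1 p).1
  obtain ⟨hD1, -, -⟩ := hDIT φ hφ
  -- facts for `r ≥ 1`
  have hdv : ∀ r : ℝ, 1 ≤ r → ∀ m c p, |dv (d4 m c) (chi r) p| ≤ C := by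
    intro r hr m c p
    have h1 := (hχ r hr).2.2.2.2.2.1 m c p
    have h2 : |dv (d4 m c) (chi r) p| ≤ (1 + ‖p‖) * |dv (d4 m c) (chi r) p| :=
      le_mul_of_one_le_left (abs_nonneg _) (by linarith [norm_nonneg p])
    linarith
  have hsm1 : ∀ r : ℝ, 1 ≤ r → ContDiff ℝ ∞ (fun p => 1 - chi r p) := fun r hr =>
    contDiff_const.sub (hχ r hr).1.1
  have hdv1 : ∀ r : ℝ, 1 ≤ r → ∀ v p, dv v (fun p => 1 - chi r p) p = - dv v (chi r) p := by
    intro r hr v p
    unfold dv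
    rw [fderiv_const_sub]
    simp
  have hdvx : ∀ r : ℝ, 1 ≤ r → ∀ v p, dv v (fun p => (1 - chi r p) * ζ p) p =
      - dv v (chi r) p * ζ p + (1 - chi r p) * dv v ζ p := by
    intro r hr v p
    have h := (hALG _ _ (hsm1 r hr) hζ.smooth).2.2.2.2.2.2.2.1 v p
    rw [h, hdv1 r hr]
  have hxiD : ∀ r : ℝ, 1 ≤ r → Dec (fun p => (1 - chi r p) * ζ p) := by
    intro r hr
    refine hDCL.2.2 (fun p => 1 - chi r p) ζ (max 1 C) hζ (hsm1 r hr) (fun p => ?_) (fun m c p => ?_)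
    · obtain ⟨h1, h2⟩ := (hχ r hr).2.2.1 p
      refine le_trans ?_ (le_max_left _ _)
      rw [abs_le]
      constructor <;> linarith
    · rw [hdv1 r hr, abs_neg]
      exact (hdv r hr m c p).trans (le_max_right _ _)
  have hsumD : ∀ r : ℝ, 1 ≤ r → Dec (fun p => η p + (1 - chi r p) * ζ p) := fun r hr =>
    hDCL.2.1 η _ hηD (hxiD r hr)
  -- bounds
  have hK : ∀ r : ℝ, 1 ≤ r → ∀ m c p, |dv (d4 m c) (fun p => (1 - chi r p) * ζ p) p| ≤
      (C * C0 + C1) * Sd p := by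
    intro r hr m c p
    rw [hdvx r hr]
    obtain ⟨h1, h2⟩ := (hχ r hr).2.2.1 p
    refine (abs_add_le _ _).trans ?_
    rw [abs_mul, abs_mul, abs_neg]
    have e1 : |dv (d4 m c) (chi r) p| * |ζ p| ≤ C * (C0 * Sd p) :=
      mul_le_mul (hdv r hr m c p) (hC0 p) (abs_nonneg _) hC.le
    have e2 : |1 - chi r p| * |dv (d4 m c) ζ p| ≤ C1 * Sd p := by
      refine (mul_le_of_le_one_left (abs_nonneg _) ?_).trans (hC1 m c p)
      rw [abs_le]
      constructor <;> linarith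
    calc _ ≤ C * (C0 * Sd p) + C1 * Sd p := add_le_add e1 e2
      _ = _ := by ring
  have hgx : ∀ r : ℝ, 1 ≤ r → ∀ p, gsq4 (fun p => (1 - chi r p) * ζ p) p ≤
      12 * ((C * C0 + C1) ^ 2 * Sd p ^ 2) := by
    intro r hr p
    unfold gsq4
    have : ∀ m ∈ (Finset.univ : Finset (Fin 4)), ∑ c : Fin 3,
        (dv (d4 m c) (fun p => (1 - chi r p) * ζ p) p) ^ 2 ≤ 3 * ((C * C0 + C1) ^ 2 * Sd p ^ 2) := by
      intro m _
      have : ∀ c ∈ (Finset.univ : Finset (Fin 3)),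
          (dv (d4 m c) (fun p => (1 - chi r p) * ζ p) p) ^ 2 ≤ (C * C0 + C1) ^ 2 * Sd p ^ 2 := by
        intro c _
        have h := hK r hr m c p
        rw [← sq_abs, ← mul_pow]
        exact pow_le_pow_left₀ (abs_nonneg _) h 2
      refine (Finset.sum_le_card_nsmul _ _ _ this).trans ?_
      simp
    refine (Finset.sum_le_card_nsmul _ _ _ this).trans ?_
    simp only [Finset.card_univ, Fintype.card_fin, nsmul_eq_mul]
    norm_num
    linarith
  unfold JJ
  refine tendsto_integral_filter_of_dominated_convergence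
    (fun p => (2 * gsq4 η p + 24 * ((C * C0 + C1) ^ 2 * Sd p ^ 2)) +
      ∑ m : Fin 4, (2 * (Vm φ m p * (η p - Pq φ m p) ^ 2) + 2 * (Vm φ m p * ζ p ^ 2))) ?_ ?_ ?_ ?_
  · filter_upwards [eventually_ge_atTop (1 : ℝ)] with r hr
    obtain ⟨k1, -, -, -, k5⟩ := hD1 _ (hsumD r hr)
    exact (k1.add (integrable_finsetSum _ fun m _ => (k5 m).2.1)).aestronglyMeasurable
  · filter_upwards [eventually_ge_atTop (1 : ℝ)] with r hr
    filter_upwards with p
    have hns : 0 ≤ gsq4 (fun p => η p + (1 - chi r p) * ζ p) p +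
        ∑ m, Vm φ m p * (η p + (1 - chi r p) * ζ p - Pq φ m p) ^ 2 := by
      refine add_nonneg (Finset.sum_nonneg fun m _ => Finset.sum_nonneg fun c _ => sq_nonneg _)
        (Finset.sum_nonneg fun m _ => mul_nonneg (JCT_.Vm_nonneg hφ m p) (sq_nonneg _))
    rw [Real.norm_of_nonneg hns]
    refine add_le_add ?_ (Finset.sum_le_sum fun m _ => ?_)
    · have h1 := (hALG η _ hη.1 (hxiD r hr).smooth).2.2.2.2.2.2.2.2.2.1 p
      have h2 := hgx r hr p
      linarith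
    · obtain ⟨h1, h2⟩ := (hχ r hr).2.2.1 p
      have hV := JCT_.Vm_nonneg hφ m p
      have e1 : (η p + (1 - chi r p) * ζ p - Pq φ m p) ^ 2 ≤
          2 * (η p - Pq φ m p) ^ 2 + 2 * ζ p ^ 2 := by
        have e2 : ((1 - chi r p) * ζ p) ^ 2 ≤ ζ p ^ 2 := by
          rw [mul_pow]
          refine mul_le_of_le_one_left (sq_nonneg _) ?_
          exact pow_le_one₀ (by linarith) (by linarith)
        nlinarith [sq_nonneg (η p - Pq φ m p - (1 - chi r p) * ζ p)]
      calc Vm φ m p * (η p + (1 - chi r p) * ζ p - Pq φ m p) ^ 2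
          ≤ Vm φ m p * (2 * (η p - Pq φ m p) ^ 2 + 2 * ζ p ^ 2) :=
            mul_le_mul_of_nonneg_left e1 hV
        _ = _ := by ring
  · obtain ⟨k1, -, -, -, k5⟩ := hD1 η hηD
    obtain ⟨-, -, -, -, z5⟩ := hD1 ζ hζ
    exact ((k1.const_mul 2).add ((hSDW.2.2.2.1.const_mul _).const_mul 24)).add
      (integrable_finsetSum _ fun m _ => ((k5 m).2.1.const_mul 2).add ((z5 m).2.2.const_mul 2))
  · filter_upwards with p
    refine tendsto_const_nhds.congr' ?_
    filter_upwards [eventually_ge_atTop (1 : ℝ), eventually_gt_atTop ‖p‖] with r hr hp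
    have h1 : chi r p = 1 := (hχ r hr).2.2.2.1 p hp.le
    have h2 : ∀ m c, dv (d4 m c) (chi r) p = 0 := fun m c =>
      (hχ r hr).2.2.2.2.2.2 m c p (Or.inl hp)
    have h3 : ∀ m c, dv (d4 m c) (fun p => η p + (1 - chi r p) * ζ p) p = dv (d4 m c) η p := by
      intro m c
      have h := (hALG η _ hη.1 (hxiD r hr).smooth).2.2.2.2.2.1 (d4 m c) p
      rw [h, hdvx r hr, h2, h1]
      ring
    unfold gsq4
    simp only [h3, h1]
    simp

end Pool.Agent.TBF
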