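import Pool.Agent.TBF.Stmts

set_option autoImplicit false

open MeasureTheory Filter Topology
open scoped ContDiff

namespace Pool.Agent.TBF

open Pool.Agent.TBG Pool.Agent.TBL

namespace RLP_

theorem rlcf (p : W4) : rl (cf p) = p := by
  simp [rl, cf]

theorem cfrl (X : Fin 4 → E) (i : Fin 4) : cf (rl X) i = X i - X 0 := by
  fin_cases i <;> simp [rl, cf]

theorem rltr (X : Fin 4 → E) (a : E) : rl (fun i => X i + a) = rl X := by
  simp [rl]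

theorem rlsub (X : Fin 4 → E) (a : E) : rl (fun i => X i - a) = rl X := by
  simp [rl]

theorem pmrl (σ : Equiv.Perm (Fin 4)) (X : Fin 4 → E) : Pm σ (rl X) = rl (fun i => X (σ i)) := by
  have h : (fun i => cf (rl X) (σ i)) = fun i => X (σ i) - X 0 := by
    funext i
    rw [cfrl]
  rw [Pm, h, rlsub]

theorem pmm (m : Fin 4) (X : Fin 4 → E) :
    pm m (rl X) = (X (m.succAbove 0) - X (m.succAbove 1), X (m.succAbove 0) - X (m.succAbove 2)) := by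
  rw [pm, cfrl, cfrl, cfrl]
  simp

theorem pmmul (σ τ : Equiv.Perm (Fin 4)) (p : W4) : Pm σ (Pm τ p) = Pm (τ * σ) p := by
  rw [show Pm τ p = rl (fun i => cf p (τ i)) from rfl, pmrl]
  rfl

theorem pmone (p : W4) : Pm 1 p = p := by
  rw [Pm]
  exact rlcf p

/-- the coordinates of a configuration as linear maps -/
noncomputable def cl : Fin 4 → (W4 →L[ℝ] E)
  | 0 => 0
  | 1 => -ContinuousLinearMap.fst ℝ E (E × E)
  | 2 => -((ContinuousLinearMap.fst ℝ E E).comp (ContinuousLinearMap.snd ℝ E (E × E)))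
  | 3 => -((ContinuousLinearMap.snd ℝ E E).comp (ContinuousLinearMap.snd ℝ E (E × E)))

theorem cl_apply (i : Fin 4) (p : W4) : cl i p = cf p i := by
  fin_cases i <;> simp [cl, cf]

theorem cf_norm (p : W4) (i : Fin 4) : ‖cf p i‖ ≤ ‖p‖ := by
  have h1 : ‖p.1‖ ≤ ‖p‖ := norm_fst_le p
  have h2 : ‖p.2‖ ≤ ‖p‖ := norm_snd_le p
  have h3 : ‖p.2.1‖ ≤ ‖p.2‖ := norm_fst_le p.2
  have h4 : ‖p.2.2‖ ≤ ‖p.2‖ := norm_snd_le p.2
  fin_cases i
  · simp [cf]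
  · simpa [cf] using h1
  · simpa [cf] using h3.trans h2
  · simpa [cf] using h4.trans h2

theorem cf_sub (p : W4) (i j : Fin 4) : ‖cf p i - cf p j‖ ≤ 2 * ‖p‖ := by
  refine (norm_sub_le _ _).trans ?_
  linarith [cf_norm p i, cf_norm p j]

theorem rl_norm (X : Fin 4 → E) (C : ℝ) (h : ∀ k : Fin 4, k ≠ 0 → ‖X 0 - X k‖ ≤ C) : ‖rl X‖ ≤ C := by
  rw [rl]
  refine max_le (h 1 (by decide)) (max_le (h 2 (by decide)) (h 3 (by decide)))

theorem pm_norm (m : Fin 4) (p : W4) : ‖pm m p‖ ≤ 2 * ‖p‖ := by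
  rw [pm]
  exact max_le (cf_sub _ _ _) (cf_sub _ _ _)

theorem trip (m : Fin 4) (p : W4) (a b : Fin 4) (ha : a ≠ m) (hb : b ≠ m) :
    ‖cf p a - cf p b‖ ≤ 2 * ‖pm m p‖ := by
  obtain ⟨k, rfl⟩ := Fin.exists_succAbove_eq ha
  obtain ⟨l, rfl⟩ := Fin.exists_succAbove_eq hb
  have h1 : ‖cf p (m.succAbove 0) - cf p (m.succAbove 1)‖ ≤ ‖pm m p‖ := norm_fst_le (pm m p)
  have h2 : ‖cf p (m.succAbove 0) - cf p (m.succAbove 2)‖ ≤ ‖pm m p‖ := norm_snd_le (pm m p)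
  have h0 : 0 ≤ ‖pm m p‖ := norm_nonneg _
  have h3 : ‖cf p (m.succAbove 1) - cf p (m.succAbove 2)‖ ≤ 2 * ‖pm m p‖ := by
    have e : cf p (m.succAbove 1) - cf p (m.succAbove 2) =
        (cf p (m.succAbove 0) - cf p (m.succAbove 2)) - (cf p (m.succAbove 0) - cf p (m.succAbove 1)) := by
      abel
    rw [e]
    refine (norm_sub_le _ _).trans ?_
    linarith
  fin_cases k <;> fin_cases l
  · simp [h0]
  · exact h1.trans (by linarith)
  · exact h2.trans (by linarith)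
  · rw [norm_sub_rev]; exact h1.trans (by linarith)
  · simp [h0]
  · exact h3
  · rw [norm_sub_rev]; exact h2.trans (by linarith)
  · rw [norm_sub_rev]; exact h3
  · simp [h0]

theorem dec1 : ∀ k : Fin 4, k ≠ 0 → ∃ c : Fin 4, c ≠ 0 ∧ c ≠ k := by decide

theorem dec2 : ∀ m j k : Fin 4, m ≠ j → k ≠ 0 → ¬((0 : Fin 4) ≠ m ∧ k ≠ m) → ¬((0 : Fin 4) ≠ j ∧ k ≠ j) →
    (m = 0 ∧ j = k) ∨ (m = k ∧ j = 0) := by decide

theorem two_pm (m j : Fin 4) (p : W4) (hmj : m ≠ j) : ‖p‖ ≤ 2 * (‖pm m p‖ + ‖pm j p‖) := by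
  have hm0 : 0 ≤ ‖pm m p‖ := norm_nonneg _
  have hj0 : 0 ≤ ‖pm j p‖ := norm_nonneg _
  have hp : ‖p‖ = ‖rl (cf p)‖ := by rw [rlcf]
  rw [hp]
  refine rl_norm _ _ fun k hk => ?_
  by_cases h1 : (0 : Fin 4) ≠ m ∧ k ≠ m
  · exact (trip m p 0 k h1.1 h1.2).trans (by linarith)
  by_cases h2 : (0 : Fin 4) ≠ j ∧ k ≠ j
  · exact (trip j p 0 k h2.1 h2.2).trans (by linarith)
  obtain ⟨c, hc0, hck⟩ := dec1 k hk
  have e : cf p 0 - cf p k = (cf p 0 - cf p c) + (cf p c - cf p k) := by abel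
  rw [e]
  refine (norm_add_le _ _).trans ?_
  have hcase := dec2 m j k hmj hk h1 h2
  rcases hcase with ⟨rfl, rfl⟩ | ⟨rfl, rfl⟩
  · have a1 := trip j p 0 c (Ne.symm hk) hck
    have a2 := trip 0 p c j hc0 hk
    linarith
  · have a1 := trip m p 0 c (Ne.symm hk) hck
    have a2 := trip 0 p c m hc0 hk
    linarith

theorem Pm_norm (σ : Equiv.Perm (Fin 4)) (p : W4) : ‖Pm σ p‖ ≤ 2 * ‖p‖ :=
  rl_norm _ _ fun _ _ => cf_sub _ _ _

end RLP_

open RLP_ in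
theorem rlp_proof : Stmt_RLP := by
  refine ⟨rlcf, cfrl, rltr, pmrl, pmm, pmmul, pmone, fun m => ?_, fun σ => ?_, pm_norm, two_pm,
    fun σ p => ⟨Pm_norm σ p, ?_⟩⟩
  · refine ⟨(cl (m.succAbove 0) - cl (m.succAbove 1)).prod (cl (m.succAbove 0) - cl (m.succAbove 2)),
      fun p => ?_⟩
    simp [cl_apply, pm]
  · refine ⟨(cl (σ 0) - cl (σ 1)).prod ((cl (σ 0) - cl (σ 2)).prod (cl (σ 0) - cl (σ 3))), fun p => ?_⟩
    simp [cl_apply, Pm, rl]
  · have h := Pm_norm σ⁻¹ (Pm σ p)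
    rw [pmmul, mul_inv_cancel, pmone] at h
    exact h

end Pool.Agent.TBF
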