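import Pool.Agent.TBF.Defs

/-!
# Three-body Bose gases (MP_80dc41_mp), the four-body problem: statements of the modules
# Recipes: /team-store/MP_80dc41_TBF.md
-/

set_option autoImplicit false

open MeasureTheory Filter Topology
open scoped ContDiff

namespace Pool.Agent.TBF

open Pool.Agent.TBG Pool.Agent.TBL

/-! ## A. Four particles -/

/-- RLP: linear algebra of relative positions. Uses nothing. -/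
def Stmt_RLP : Prop :=
  (∀ p, rl (cf p) = p) ∧ (∀ (X : Fin 4 → E) i, cf (rl X) i = X i - X 0) ∧
  (∀ (X : Fin 4 → E) (a : E), rl (fun i => X i + a) = rl X) ∧
  (∀ (σ : Equiv.Perm (Fin 4)) (X : Fin 4 → E), Pm σ (rl X) = rl (fun i => X (σ i))) ∧
  (∀ (m : Fin 4) (X : Fin 4 → E),
    pm m (rl X) = (X (m.succAbove 0) - X (m.succAbove 1), X (m.succAbove 0) - X (m.succAbove 2))) ∧
  (∀ (σ τ : Equiv.Perm (Fin 4)) (p : W4), Pm σ (Pm τ p) = Pm (τ * σ) p) ∧ (∀ p, Pm 1 p = p) ∧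
  (∀ m : Fin 4, ∃ T : W4 →L[ℝ] E × E, ∀ p, T p = pm m p) ∧
  (∀ σ : Equiv.Perm (Fin 4), ∃ T : W4 →L[ℝ] W4, ∀ p, T p = Pm σ p) ∧
  (∀ m p, ‖pm m p‖ ≤ 2 * ‖p‖) ∧ (∀ m j p, m ≠ j → ‖p‖ ≤ 2 * (‖pm m p‖ + ‖pm j p‖)) ∧
  (∀ σ p, ‖Pm σ p‖ ≤ 2 * ‖p‖ ∧ ‖p‖ ≤ 2 * ‖Pm σ p‖)

/-- RLD: the directions. Uses RLP. -/
def Stmt_RLD : Prop :=
  (∀ m c, pm m (d4 m c) = 0) ∧ (∀ (m : Fin 4) (k c : Fin 3), pm m (d4 (m.succAbove k) c) = dr k c) ∧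
  (∀ (σ : Equiv.Perm (Fin 4)) m c, Pm σ (d4 m c) = d4 (σ⁻¹ m) c) ∧ (∀ c, ∑ m, d4 m c = 0) ∧
  (∀ m c, ‖d4 m c‖ ≤ 1)

/-- RLS: symmetric functions of triples. Uses RLP. -/
def Stmt_RLS : Prop :=
  (∀ u : E × E → ℝ, (∀ x y, u (x, y) = u (y, x)) → (∀ x y, u (x, y) = u (-x, y - x)) →
    ∀ (σ : Equiv.Perm (Fin 4)) m p, u (pm m (Pm σ p)) = u (pm (σ m) p)) ∧
  (∀ m : Fin 4, ∃ τ : Equiv.Perm (Fin 4), τ 3 = m ∧ (∀ p, pm m p = pm 3 (Pm τ p)) ∧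
    ∀ y p, ym y m p = y (Pm τ p)) ∧
  (∀ y : W4 → ℝ, Sym3 y → ∀ (σ : Equiv.Perm (Fin 4)) m p, ym y m (Pm σ p) = ym y (σ m) p)

/-- PMV: permutations preserve the volume. Uses RLP. -/
def Stmt_PMV : Prop := ∀ σ : Equiv.Perm (Fin 4), MeasurePreserving (Pm σ) volume volume ∧
  (∀ F : W4 → ℝ, ∫ p, F (Pm σ p) = ∫ p, F p) ∧
  (∀ F : W4 → ℝ, Integrable F → Integrable (fun p => F (Pm σ p)))

/-- INW: integrable weights. Uses RLP, RLS, PMV. -/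
def Stmt_INW : Prop := ∀ (m : Fin 4) (a b : ℕ), 3 < a → 9 < a + b →
  Integrable (fun p : W4 => ((1 + ‖p‖) ^ a)⁻¹ * ((1 + ‖pm m p‖) ^ b)⁻¹)

/-- DER: derivatives of functions of triples. Uses RLP, RLD. -/
def Stmt_DER : Prop := ∀ (u : E × E → ℝ) (m : Fin 4), ContDiff ℝ ∞ u →
  ContDiff ℝ ∞ (fun p => u (pm m p)) ∧ (∀ c p, dv (d4 m c) (fun p => u (pm m p)) p = 0) ∧
  (∀ k c p, dv (d4 (m.succAbove k) c) (fun p => u (pm m p)) p = dv (dr k c) u (pm m p)) ∧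
  (∀ p, gsq4 (fun p => u (pm m p)) p = gsq u (pm m p)) ∧
  (∀ p, Lap4 (fun p => u (pm m p)) p = Lap u (pm m p))

/-- DVP: derivatives and permutations. Uses RLP, RLD. -/
def Stmt_DVP : Prop := ∀ (F : W4 → ℝ) (σ : Equiv.Perm (Fin 4)), ContDiff ℝ ∞ F →
  ContDiff ℝ ∞ (fun p => F (Pm σ p)) ∧
  (∀ m c p, dv (d4 m c) (fun p => F (Pm σ p)) p = dv (d4 (σ⁻¹ m) c) F (Pm σ p)) ∧
  (∀ p, gsq4 (fun p => F (Pm σ p)) p = gsq4 F (Pm σ p)) ∧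
  (HasCompactSupport F → HasCompactSupport (fun p => F (Pm σ p)))

/-- ALG: calculus of `gdt`. Uses nothing. -/
def Stmt_ALG : Prop := ∀ F G : W4 → ℝ, ContDiff ℝ ∞ F → ContDiff ℝ ∞ G →
  Continuous (gdt F G) ∧ Continuous (gsq4 F) ∧ Continuous (Lap4 F) ∧ (∀ v : W4, ContDiff ℝ ∞ (dv v F)) ∧
  (∀ p, gsq4 F p = gdt F F p ∧ gdt F G p = gdt G F p ∧ 0 ≤ gsq4 F p) ∧
  (∀ v p, dv v (fun p => F p + G p) p = dv v F p + dv v G p) ∧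
  (∀ v p (a : ℝ), dv v (fun p => a * F p) p = a * dv v F p ∧ dv v (fun p => a + F p) p = dv v F p) ∧
  (∀ v p, dv v (fun p => F p * G p) p = dv v F p * G p + F p * dv v G p) ∧
  (∀ p, gsq4 (fun p => F p + G p) p = gsq4 F p + 2 * gdt F G p + gsq4 G p) ∧
  (∀ p, gsq4 (fun p => F p + G p) p ≤ 2 * gsq4 F p + 2 * gsq4 G p) ∧
  (∀ p, |gdt F G p| ≤ (gsq4 F p + gsq4 G p) / 2) ∧ (∀ m c p, (dv (d4 m c) F p) ^ 2 ≤ gsq4 F p) ∧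
  (∀ m : ℝ → ℝ, ContDiff ℝ ∞ m → ∀ p, gsq4 (fun p => m (F p)) p = (deriv m (F p)) ^ 2 * gsq4 F p)

/-! ## B. Bounds -/

/-- SCB: bounds for scattering functions. Uses nothing (the proofs of TBG may be used). -/
def Stmt_SCB : Prop := ∀ φ : E × E → ℝ, Scat φ → ∃ C : ℝ, 0 < C ∧
  (∀ z, 0 < φ z ∧ φ z ≤ C * ((1 + ‖z‖) ^ 4)⁻¹) ∧
  (∀ m c z, |dv (dr m c) φ z| ≤ C * ((1 + ‖z‖) ^ 5)⁻¹) ∧
  (∀ z : E × E, 0 ≤ VV φ z.1 z.2 ∧ VV φ z.1 z.2 ≤ C * ((1 + ‖z‖) ^ 20)⁻¹) ∧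
  (∀ z, 0 ≤ ww φ z ∧ ww φ z ≤ C * ((1 + ‖z‖) ^ 20)⁻¹) ∧
  ContDiff ℝ ∞ (fun z : E × E => VV φ z.1 z.2) ∧ ContDiff ℝ ∞ (ww φ) ∧
  (∀ z : E × E, VV φ z.1 z.2 * (1 - φ z) = ww φ z) ∧
  (∀ x y, VV φ x y = VV φ y x ∧ VV φ x y = VV φ (-x) (y - x)) ∧
  (∀ x y, ww φ (x, y) = ww φ (y, x) ∧ ww φ (x, y) = ww φ (-x, y - x))

/-- the weight of the decay class -/
noncomputable def Sd (p : W4) : ℝ := ((1 + ‖p‖) ^ 4)⁻¹ * ∑ m : Fin 4, ((1 + ‖pm m p‖) ^ 4)⁻¹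

/-- the weight of products of gradients -/
noncomputable def Se (p : W4) : ℝ := ((1 + ‖p‖) ^ 5)⁻¹ * ∑ m : Fin 4, ((1 + ‖pm m p‖) ^ 5)⁻¹

/-- SDW: the weights. Uses RLP, INW. -/
def Stmt_SDW : Prop := Continuous Sd ∧ Continuous Se ∧ (∀ p, 0 < Sd p ∧ 0 < Se p) ∧
  Integrable (fun p => Sd p ^ 2) ∧ Integrable Se ∧
  (∀ m : Fin 4, Integrable (fun p : W4 => Sd p * ((1 + ‖pm m p‖) ^ 5)⁻¹)) ∧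
  (∀ m : Fin 4, Integrable (fun p : W4 => Sd p * ((1 + ‖pm m p‖) ^ 20)⁻¹)) ∧
  (∀ m j : Fin 4, m ≠ j → ∀ p : W4, ((1 + ‖pm m p‖) ^ 4)⁻¹ * ((1 + ‖pm j p‖) ^ 4)⁻¹ ≤ 1024 * Sd p ∧
    ((1 + ‖pm m p‖) ^ 5)⁻¹ * ((1 + ‖pm j p‖) ^ 5)⁻¹ ≤ 4096 * Se p ∧
    (1 + ‖p‖)⁻¹ * (((1 + ‖pm m p‖) ^ 4)⁻¹ * ((1 + ‖pm j p‖) ^ 5)⁻¹) ≤ 8192 * Se p) ∧
  (∀ m j : Fin 4, m ≠ j → Integrable (fun p : W4 => ((1 + ‖pm m p‖) ^ 20)⁻¹ * ((1 + ‖pm j p‖) ^ 4)⁻¹))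

/-- the decay class -/
structure Dec (η : W4 → ℝ) : Prop where
  smooth : ContDiff ℝ ∞ η
  b0 : ∃ C : ℝ, ∀ p, |η p| ≤ C * Sd p
  b1 : ∃ C : ℝ, ∀ m c p, |dv (d4 m c) η p| ≤ C * Sd p

/-- DCL: the decay class. Uses ALG, SDW. -/
def Stmt_DCL : Prop := (∀ η, TF η → Dec η) ∧
  (∀ η ζ : W4 → ℝ, Dec η → Dec ζ → Dec (fun p => η p + ζ p)) ∧
  (∀ (χ ζ : W4 → ℝ) (B : ℝ), Dec ζ → ContDiff ℝ ∞ χ → (∀ p, |χ p| ≤ B) → (∀ m c p, |dv (d4 m c) χ p| ≤ B) →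
    Dec (fun p => χ p * ζ p))

/-- ET0: the product against the sum. Uses RLP, RLS, DER, ALG, SCB, SDW. -/
def Stmt_ET0 : Prop := ∀ φ : E × E → ℝ, Scat φ → ContDiff ℝ ∞ (PF φ) ∧ (∀ p, 1 / 16 ≤ PF φ p ∧ PF φ p ≤ 1) ∧
  Dec (fun p => PF φ p - 1 + Ph φ p) ∧
  (∀ (σ : Equiv.Perm (Fin 4)) p, PF φ (Pm σ p) = PF φ p ∧ Ph φ (Pm σ p) = Ph φ p)

/-- the form of degree 2 -/
noncomputable def Q4 (p : W4) : ℝ :=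
  (‖p.1‖ ^ 2 + ‖p.2.1‖ ^ 2 + ‖p.2.2‖ ^ 2 + ‖p.1 - p.2.1‖ ^ 2 + ‖p.1 - p.2.2‖ ^ 2 + ‖p.2.1 - p.2.2‖ ^ 2) / 4

/-- cutoffs -/
noncomputable def chi (r : ℝ) (p : W4) : ℝ := th (Q4 p / (4 * r ^ 2))

/-- CHI: cutoffs. Uses RLP. -/
def Stmt_CHI : Prop := ∃ C : ℝ, 0 < C ∧ ∀ r : ℝ, 1 ≤ r → TF (chi r) ∧ Sym4 (chi r) ∧
  (∀ p, 0 ≤ chi r p ∧ chi r p ≤ 1) ∧ (∀ p : W4, ‖p‖ ≤ r → chi r p = 1) ∧ (∀ p : W4, 4 * r ≤ ‖p‖ → chi r p = 0) ∧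
  (∀ m c (p : W4), (1 + ‖p‖) * |dv (d4 m c) (chi r) p| ≤ C) ∧
  (∀ m c (p : W4), ‖p‖ < r ∨ 4 * r < ‖p‖ → dv (d4 m c) (chi r) p = 0)

/-- DIT: integrable functions. Uses RLP, PMV, DER, ALG, SCB, SDW. -/
def Stmt_DIT : Prop := ∀ φ : E × E → ℝ, Scat φ →
  (∀ η : W4 → ℝ, Dec η → Integrable (gsq4 η) ∧ Integrable (gdt η (Ph φ)) ∧
    Integrable (fun p => η p ^ 2) ∧ (∀ m c, Integrable (fun p => η p * dv (d4 m c) (Ph φ) p)) ∧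
    (∀ m, Integrable (fun p => η p * ww φ (pm m p)) ∧ Integrable (fun p => Vm φ m p * (η p - Pq φ m p) ^ 2) ∧
      Integrable (fun p => Vm φ m p * η p ^ 2))) ∧
  (∀ m, Integrable (fun p => Vm φ m p * Pq φ m p ^ 2)) ∧
  (∀ m j, m ≠ j → Integrable (gdt (fun p => φ (pm m p)) (fun p => φ (pm j p))) ∧
    Integrable (fun p => ww φ (pm m p) * φ (pm j p)) ∧
    (∀ i c, Integrable (fun p : W4 => (1 + ‖p‖)⁻¹ * (φ (pm j p) * dv (d4 i c) (fun p => φ (pm m p)) p))))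

/-! ## C. Integration by parts, the primal problem -/

/-- IBT: integration by parts with a test function. Uses ALG. -/
def Stmt_IBT : Prop := ∀ η F : W4 → ℝ, TF η → ContDiff ℝ ∞ F → ∫ p, gdt η F p = - ∫ p, η p * Lap4 F p

/-- IBD: integration by parts with decay. Uses RLP, DER, ALG, SCB, SDW, CHI, DIT, IBT. -/
def Stmt_IBD : Prop := ∀ φ : E × E → ℝ, Scat φ →
  (∀ η, Dec η → ∫ p, gdt η (Ph φ) p = ∫ p, ∑ m, η p * ww φ (pm m p)) ∧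
  (∀ m j, m ≠ j → ∫ p, gdt (fun p => φ (pm m p)) (fun p => φ (pm j p)) p = ∫ p, ww φ (pm m p) * φ (pm j p)) ∧
  B40 φ = ∑ m, ∑ j ∈ Finset.univ.erase m, ∫ p, gdt (fun p => φ (pm m p)) (fun p => φ (pm j p)) p

/-- the integrand of `gam4` -/
noncomputable def gi4 (φ : E × E → ℝ) (ψ : W4 → ℝ) (p : W4) : ℝ :=
  gsq4 ψ p - ∑ m, gsq φ (pm m p) + ∑ m, Vm φ m p * (ψ p ^ 2 - (1 - φ (pm m p)) ^ 2)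

/-- GID: the renormalised energy. Uses DER, ALG, SCB, DIT, IBD. -/
def Stmt_GID : Prop := ∀ φ : E × E → ℝ, Scat φ → ∀ η, Dec η →
  Integrable (gi4 φ (fun p => 1 - Ph φ p + η p)) ∧ gam4 φ (fun p => 1 - Ph φ p + η p) = JJ φ η - B40 φ

/-- JCT: continuity of the functional. Uses RLP, ALG, DCL, CHI, DIT. -/
def Stmt_JCT : Prop := ∀ φ : E × E → ℝ, Scat φ → ∀ η ζ, TF η → Dec ζ →
  Tendsto (fun r : ℝ => JJ φ (fun p => η p + (1 - chi r p) * ζ p)) atTop (𝓝 (JJ φ η))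

/-- JSY: symmetrisation. Uses RLS, PMV, DVP, ALG, SCB, DCL, DIT. -/
def Stmt_JSY : Prop := ∀ φ : E × E → ℝ, Scat φ → ∀ η, TF η → ∃ η', TF η' ∧ Sym4 η' ∧ JJ φ η' ≤ JJ φ η

/-- truncation -/
noncomputable def mk (k s : ℝ) : ℝ := Td k s + 2 * k - Td k (2 * k)

/-- TRK: the truncation. Uses nothing. -/
def Stmt_TRK : Prop := ∀ k : ℝ, 0 < k → ContDiff ℝ ∞ (mk k) ∧ (∀ s, 2 * k ≤ s → mk k s = s) ∧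
  (∀ s, k ≤ mk k s) ∧ (∀ s, 0 ≤ deriv (mk k) s ∧ deriv (mk k) s ≤ 1) ∧ (∀ s, s ≤ 2 * k → mk k s ≤ 2 * k)

/-- GTR: truncated functions. Uses RLP, ALG, SCB, TRK. -/
def Stmt_GTR : Prop := ∀ φ : E × E → ℝ, Scat φ → ∀ (ψ : W4 → ℝ) (R ε : ℝ), ContDiff ℝ ∞ ψ →
  (∀ p : W4, R < ‖p‖ → 1 / 16 ≤ ψ p) → Integrable (gi4 φ ψ) → 0 < ε →
  ∃ k : ℝ, 0 < k ∧ k ≤ 1 / 32 ∧ Integrable (gi4 φ (fun p => mk k (ψ p))) ∧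
    gam4 φ (fun p => mk k (ψ p)) ≤ gam4 φ ψ + ε

/-- OB1: the primal output. Uses ALG, DCL, ET0, CHI, GID, JCT, JSY, TRK, GTR. -/
def Stmt_OB1 : Prop := ∀ φ : E × E → ℝ, Scat φ → ∀ ε : ℝ, 0 < ε → ∃ ξ : W4 → ℝ, TF ξ ∧ Sym4 ξ ∧
  Integrable (gi4 φ (fun p => PF φ p * Real.exp (ξ p))) ∧
  gam4 φ (fun p => PF φ p * Real.exp (ξ p)) ≤ b4 φ + ε

/-! ## D. The dual problem in `L²` -/

/-- HIL: the projection. Uses nothing. -/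
def Stmt_HIL : Prop := ∀ (H : Type) [NormedAddCommGroup H] [InnerProductSpace ℝ H] [CompleteSpace H]
  (S : Submodule ℝ H) (P : H), ∃ σ : H, (∀ u ∈ S, inner ℝ σ u = 0) ∧ inner ℝ σ P = ‖σ‖ ^ 2 ∧
    (∀ u ∈ S, ‖σ‖ ≤ ‖P - u‖) ∧ ∀ ε : ℝ, 0 < ε → ∃ u ∈ S, ‖P - u‖ ^ 2 ≤ ‖σ‖ ^ 2 + ε

/-- the infimum of the functional -/
noncomputable def IJ (φ : E × E → ℝ) : ℝ := sInf {x : ℝ | ∃ η : W4 → ℝ, TF η ∧ x = JJ φ η}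

/-- HSP: the dual optimiser. Uses ALG, SCB, DCL, DIT, HIL. -/
def Stmt_HSP : Prop := ∀ φ : E × E → ℝ, Scat φ → ∃ (Y : Fin 4 → Fin 3 → W4 → ℝ) (q : Fin 4 → W4 → ℝ),
  (∀ m c, Measurable (Y m c) ∧ MemLp (Y m c) 2 volume) ∧ (∀ m, Measurable (q m) ∧ MemLp (q m) 2 volume) ∧
  (∀ η, TF η → (∑ m, ∑ c, ∫ p, Y m c p * dv (d4 m c) η p) +
    ∑ m, ∫ p, (Real.sqrt (Vm φ m p) * q m p) * η p = 0) ∧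
  (∑ m, ∑ c, ∫ p, Y m c p ^ 2) + (∑ m, ∫ p, q m p ^ 2) = IJ φ ∧
  (∑ m, ∫ p, (Real.sqrt (Vm φ m p) * q m p) * Pq φ m p) = - IJ φ

/-- mollifiers -/
structure Mo4 (ε : ℝ) (ρ : W4 → ℝ) : Prop where
  smooth : ContDiff ℝ ∞ ρ
  nonneg : ∀ h, 0 ≤ ρ h
  supp : ∀ h, ε < ‖h‖ → ρ h = 0
  cpt : HasCompactSupport ρ
  one : ∫ h, ρ h = 1

/-- mollification after dilation -/
noncomputable def mo (κ : ℝ) (ρ F : W4 → ℝ) (x : W4) : ℝ := ∫ h, ρ h * F (κ • (x - h))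

/-- MOE: existence of mollifiers. Uses nothing. -/
def Stmt_MOE : Prop := ∀ ε : ℝ, 0 < ε → ∃ ρ : W4 → ℝ, Mo4 ε ρ

/-- MOL: mollified functions are smooth. Uses nothing. -/
def Stmt_MOL : Prop := ∀ (κ ε : ℝ) (ρ F : W4 → ℝ), 0 < κ → Mo4 ε ρ → MemLp F 2 volume →
  ContDiff ℝ ∞ (mo κ ρ F) ∧ (∀ v x, dv v (mo κ ρ F) x = ∫ h, dv v ρ h * F (κ • (x - h))) ∧
  (∀ x, Integrable (fun h => ρ h * F (κ • (x - h)))) ∧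
  (∀ x, (∀ h, ρ h ≠ 0 → F (κ • (x - h)) = 0) → mo κ ρ F x = 0)

/-- MOD: the divergence of mollified fields. Uses MOL. -/
def Stmt_MOD : Prop := ∀ (κ ε : ℝ) (ρ M : W4 → ℝ) (Y : Fin 4 → Fin 3 → W4 → ℝ), 0 < κ → Mo4 ε ρ →
  (∀ m c, MemLp (Y m c) 2 volume) → MemLp M 2 volume →
  (∀ η, TF η → (∑ m, ∑ c, ∫ p, Y m c p * dv (d4 m c) η p) + ∫ p, M p * η p = 0) →
  ∀ p, dvg (fun m c => mo κ ρ (Y m c)) p = κ * mo κ ρ M p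

/-- MOJ: Jensen's inequality. Uses MOL. -/
def Stmt_MOJ : Prop := ∀ (κ ε : ℝ) (ρ : W4 → ℝ), 0 < κ → Mo4 ε ρ →
  (∀ F : W4 → ℝ, MemLp F 2 volume → Integrable (fun x => mo κ ρ F x ^ 2) ∧
    ∫ x, mo κ ρ F x ^ 2 ≤ (κ ^ 9)⁻¹ * ∫ x, F x ^ 2) ∧
  (∀ (V q : W4 → ℝ) (δ B : ℝ), MemLp q 2 volume → Measurable q → Measurable V → (∀ x, 0 ≤ V x ∧ V x ≤ B) → 0 ≤ δ →
    (∀ x h, ρ h ≠ 0 → V (κ • (x - h)) ≤ (1 + δ) * V x) →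
    ∃ G : W4 → ℝ, Integrable G ∧ (∀ x, 0 ≤ G x) ∧
      (∀ x, mo κ ρ (fun p => Real.sqrt (V p) * q p) x ^ 2 ≤ (1 + δ) * V x * G x) ∧
      ∫ x, G x = (κ ^ 9)⁻¹ * ∫ x, q x ^ 2)

/-- MOC: convergence of the mollified functionals. Uses MOL. -/
def Stmt_MOC : Prop := ∀ M Φ D : W4 → ℝ, MemLp M 2 volume → Continuous Φ → Continuous D →
  Integrable (fun x => M x * D x) →
  (∀ (κ : ℝ) (h x : W4), 1 ≤ κ → κ ≤ 2 → ‖h‖ ≤ 1 → |Φ (κ⁻¹ • x + h)| ≤ D x) →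
  ∀ ε : ℝ, 0 < ε → ∃ δ : ℝ, 0 < δ ∧ δ ≤ 1 ∧ ∀ (κ : ℝ) (ρ : W4 → ℝ), 1 < κ → κ < 1 + δ → Mo4 δ ρ →
    Integrable (fun x => mo κ ρ M x * Φ x) ∧ |(∫ x, mo κ ρ M x * Φ x) - ∫ x, M x * Φ x| ≤ ε

/-- MPC: the pairing with the scattering functions. Uses RLP, SCB, SDW, MOC. -/
def Stmt_MPC : Prop := ∀ φ : E × E → ℝ, Scat φ → ∀ (m : Fin 4) (q : W4 → ℝ), Measurable q → MemLp q 2 volume →
  ∀ ε : ℝ, 0 < ε → ∃ δ : ℝ, 0 < δ ∧ δ ≤ 1 ∧ ∀ (κ : ℝ) (ρ : W4 → ℝ), 1 < κ → κ < 1 + δ → Mo4 δ ρ →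
    Integrable (fun x => mo κ ρ (fun p => Real.sqrt (Vm φ m p) * q p) x * Pq φ m x) ∧
    |(∫ x, mo κ ρ (fun p => Real.sqrt (Vm φ m p) * q p) x * Pq φ m x)
      - ∫ x, (Real.sqrt (Vm φ m x) * q x) * Pq φ m x| ≤ ε

/-- YQS: smooth quotients. Uses nothing. -/
def Stmt_YQS : Prop := ∀ (V N : W4 → ℝ) (c : ℝ), ContDiff ℝ ∞ V → ContDiff ℝ ∞ N → 0 < c →
  (∀ x, N x ≠ 0 → c ≤ V x) → ContDiff ℝ ∞ (fun x => N x / V x) ∧ ∀ x, V x * (N x / V x) = N x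

/-- the value of dual data (second form) -/
noncomputable def be2 (φ : E × E → ℝ) (Y : Fin 4 → Fin 3 → W4 → ℝ) (u : Fin 4 → W4 → ℝ) (g : W4 → ℝ) : ℝ :=
  - (∫ p, ∑ m, ∑ c, (Y m c p) ^ 2) - (∫ p, ∑ m, Vm φ m p * (u m p) ^ 2)
    - 2 * (∫ p, ∑ m, Vm φ m p * u m p * Pq φ m p) - B40 φ + 2 * ∫ p, Ph φ p * g p

/-- smooth dual data in `L²` -/
structure DL2 (φ : E × E → ℝ) (Y : Fin 4 → Fin 3 → W4 → ℝ) (u : Fin 4 → W4 → ℝ) : Prop where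
  smY : ∀ m c, ContDiff ℝ ∞ (Y m c)
  smu : ∀ m, ContDiff ℝ ∞ (u m)
  inY : ∀ m c, Integrable (fun p => Y m c p ^ 2)
  inu : ∀ m, Integrable (fun p => Vm φ m p * u m p ^ 2)
  inp : ∀ m, Integrable (fun p => Vm φ m p * u m p * Pq φ m p)
  eqn : ∀ p, dvg Y p = ∑ m, Vm φ m p * u m p

/-- B2A: smooth dual data in `L²`. Uses RLP, SCB, DER, DIT, HSP, MOE, MOL, MOD, MOJ, MPC, YQS. -/
def Stmt_B2A : Prop := ∀ φ : E × E → ℝ, Scat φ → Dil (fun z => VV φ z.1 z.2) → ∀ ε : ℝ, 0 < ε →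
  ∃ (Y : Fin 4 → Fin 3 → W4 → ℝ) (u : Fin 4 → W4 → ℝ), DL2 φ Y u ∧ b4 φ - ε ≤ be2 φ Y u (fun _ => 0)

/-! ## E. Cutoff and transport -/

/-- B2C: cutoff. Uses RLP, DER, ALG, SCB, CHI, DIT. -/
def Stmt_B2C : Prop := ∀ φ : E × E → ℝ, Scat φ → ∀ (Y : Fin 4 → Fin 3 → W4 → ℝ) (u : Fin 4 → W4 → ℝ) (ε : ℝ),
  DL2 φ Y u → 0 < ε → ∃ (r : ℝ) (Y' : Fin 4 → Fin 3 → W4 → ℝ) (u' : Fin 4 → W4 → ℝ) (g : W4 → ℝ), 1 ≤ r ∧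
    (∀ m c, TF (Y' m c)) ∧ (∀ m, TF (u' m)) ∧ TF g ∧ (∀ m c (p : W4), 4 * r < ‖p‖ → Y' m c p = 0) ∧
    (∀ p : W4, ‖p‖ < r ∨ 4 * r < ‖p‖ → g p = 0) ∧
    (∀ p, dvg Y' p = (∑ m, Vm φ m p * u' m p) - g p) ∧
    ∫ p : W4, ‖p‖ ^ 2 * g p ^ 2 ≤ ε ∧
    (∫ p, ∑ m, ∑ c, (Y' m c p) ^ 2) ≤ (∫ p, ∑ m, ∑ c, (Y m c p) ^ 2) ∧
    be2 φ Y u (fun _ => 0) - ε ≤ be2 φ Y' u' (fun _ => 0)

/-- the radial field -/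
noncomputable def Xr (m : Fin 4) (c : Fin 3) (p : W4) : ℝ := cf p m c - 1 / 4 * ∑ j, cf p j c

/-- RAD: the radial field. Uses RLP, RLD. -/
def Stmt_RAD : Prop := (∀ p, ∑ m, ∑ c, Xr m c p • d4 m c = p) ∧ (∀ m c, ContDiff ℝ ∞ (Xr m c)) ∧
  (∀ m c (p : W4), |Xr m c p| ≤ 2 * ‖p‖) ∧
  (∀ A : W4 → ℝ, ContDiff ℝ ∞ A → ∀ p, dvg (fun m c p => Xr m c p * A p) p = 9 * A p + fderiv ℝ A p p)

/-- the average of the dilated functions -/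
noncomputable def Ag (Λ : ℝ) (g : W4 → ℝ) (p : W4) : ℝ := ∫ s in (1 : ℝ)..Λ, (s ^ 10)⁻¹ * g (s⁻¹ • p)

/-- TR1: the transport equation. Uses nothing. -/
def Stmt_TR1 : Prop := ∀ (Λ : ℝ) (g : W4 → ℝ), 1 ≤ Λ → ContDiff ℝ ∞ g → ContDiff ℝ ∞ (Ag Λ g) ∧
  ∀ p, 9 * Ag Λ g p + fderiv ℝ (Ag Λ g) p p = g p - (Λ ^ 9)⁻¹ * g (Λ⁻¹ • p)

/-- TR2: bounds for the transport. Uses nothing. -/
def Stmt_TR2 : Prop := ∀ (r : ℝ) (g : W4 → ℝ), 0 < r → TF g → (∀ p : W4, ‖p‖ < r ∨ 4 * r < ‖p‖ → g p = 0) →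
  (∃ C : ℝ, ∀ Λ : ℝ, 1 ≤ Λ → ∀ p : W4, (1 + ‖p‖) ^ 8 * (‖p‖ * |Ag Λ g p|) ≤ C) ∧
  (∀ Λ : ℝ, 1 ≤ Λ → (∀ p : W4, 4 * r * Λ < ‖p‖ → Ag Λ g p = 0) ∧
    Integrable (fun p : W4 => ‖p‖ ^ 2 * Ag Λ g p ^ 2) ∧
    ∫ p : W4, ‖p‖ ^ 2 * Ag Λ g p ^ 2 ≤ 1 / 12 * ∫ p : W4, ‖p‖ ^ 2 * g p ^ 2)

/-- TR3: the pairing at large scales. Uses RLP, SCB. -/
def Stmt_TR3 : Prop := ∀ φ : E × E → ℝ, Scat φ → ∀ g, TF g →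
  Tendsto (fun Λ : ℝ => ∫ p, Ph φ p * ((Λ ^ 9)⁻¹ * g (Λ⁻¹ • p))) atTop (𝓝 0)

/-- dual data without symmetry -/
structure Du0 (φ : E × E → ℝ) (u : Fin 4 → W4 → ℝ) (l C : ℝ) (Y : Fin 4 → Fin 3 → W4 → ℝ) (g : W4 → ℝ) :
    Prop where
  smY : ∀ m c, ContDiff ℝ ∞ (Y m c)
  smg : ContDiff ℝ ∞ g
  spY : ∀ m c (p : W4), l < ‖p‖ → Y m c p = 0
  spg : ∀ p : W4, l < ‖p‖ → g p = 0
  eqn : ∀ p, dvg Y p = (∑ m, Vm φ m p * u m p) - g p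
  bdY : ∀ m c (p : W4), (1 + ‖p‖) ^ 8 * |Y m c p| ≤ C
  bdg : ∀ p, l ^ 9 * |g p| ≤ C

/-- B20: dual data at large scales. Uses B2A, B2C, RAD, TR1, TR2, TR3, ALG. -/
def Stmt_B20 : Prop := ∀ φ : E × E → ℝ, Scat φ → Dil (fun z => VV φ z.1 z.2) → ∀ ε : ℝ, 0 < ε →
  ∃ (u : Fin 4 → W4 → ℝ) (r₀ C : ℝ), (∀ m, TF (u m)) ∧ 0 < r₀ ∧ ∀ l : ℝ, r₀ ≤ l →
    ∃ (Y : Fin 4 → Fin 3 → W4 → ℝ) (g : W4 → ℝ), Du0 φ u l C Y g ∧ b4 φ - ε ≤ be2 φ Y u g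

/-! ## F. Symmetrisation -/

/-- symmetrised functions of triples -/
noncomputable def syu (u : Fin 4 → W4 → ℝ) (m : Fin 4) (p : W4) : ℝ :=
  1 / 24 * ∑ σ : Equiv.Perm (Fin 4), u (σ m) (Pm σ⁻¹ p)

/-- symmetrised fields -/
noncomputable def syY (Y : Fin 4 → Fin 3 → W4 → ℝ) (m : Fin 4) (c : Fin 3) (p : W4) : ℝ :=
  1 / 24 * ∑ σ : Equiv.Perm (Fin 4), Y (σ m) c (Pm σ⁻¹ p)

/-- symmetrised functions -/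
noncomputable def syg (g : W4 → ℝ) (p : W4) : ℝ := 1 / 24 * ∑ σ : Equiv.Perm (Fin 4), g (Pm σ⁻¹ p)

/-- fields with mean 0 -/
noncomputable def s0 (Y : Fin 4 → Fin 3 → W4 → ℝ) (m : Fin 4) (c : Fin 3) (p : W4) : ℝ :=
  Y m c p - 1 / 4 * ∑ j, Y j c p

/-- SY1: symmetrised data. Uses RLP, RLS, DVP, ALG, SCB. -/
def Stmt_SY1 : Prop := ∀ φ : E × E → ℝ, Scat φ → ∀ (u : Fin 4 → W4 → ℝ) (l C : ℝ)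
  (Y : Fin 4 → Fin 3 → W4 → ℝ) (g : W4 → ℝ), 0 < l → (∀ m, TF (u m)) → Du0 φ u l C Y g →
  (∀ m, TF (syu u m)) ∧ Du0 φ (syu u) (2 * l) (512 * C) (syY Y) (syg g) ∧ Sym4 (syg g) ∧
  (∀ (σ : Equiv.Perm (Fin 4)) m p, syu u m (Pm σ p) = syu u (σ m) p) ∧
  (∀ (σ : Equiv.Perm (Fin 4)) m c p, syY Y m c (Pm σ p) = syY Y (σ m) c p)

/-- SY2: the value of the symmetrised data. Uses RLP, RLS, PMV, SCB. -/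
def Stmt_SY2 : Prop := ∀ φ : E × E → ℝ, Scat φ → ∀ (u : Fin 4 → W4 → ℝ) (l C : ℝ)
  (Y : Fin 4 → Fin 3 → W4 → ℝ) (g : W4 → ℝ), 0 < l → (∀ m, TF (u m)) → Du0 φ u l C Y g →
  be2 φ Y u g ≤ be2 φ (syY Y) (syu u) (syg g)

/-- SY3: fields with mean 0. Uses RLD, ALG. -/
def Stmt_SY3 : Prop := ∀ (φ : E × E → ℝ) (u : Fin 4 → W4 → ℝ) (l C : ℝ)
  (Y : Fin 4 → Fin 3 → W4 → ℝ) (g : W4 → ℝ), 0 < l → Du0 φ u l C Y g →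
  Du0 φ u l (2 * C) (s0 Y) g ∧ (∀ c p, ∑ m, s0 Y m c p = 0) ∧ be2 φ Y u g ≤ be2 φ (s0 Y) u g ∧
  ((∀ (σ : Equiv.Perm (Fin 4)) m c p, Y m c (Pm σ p) = Y (σ m) c p) →
    ∀ (σ : Equiv.Perm (Fin 4)) m c p, s0 Y m c (Pm σ p) = s0 Y (σ m) c p)

/-- BFM: the two forms of the value. Uses RLP, DER, ALG, SCB, DIT, IBT, IBD. -/
def Stmt_BFM : Prop := ∀ φ : E × E → ℝ, Scat φ → ∀ (y : W4 → ℝ) (l C : ℝ)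
  (Y : Fin 4 → Fin 3 → W4 → ℝ) (g : W4 → ℝ), 0 < l → TF y → Du0 φ (ym y) l C Y g →
  bet φ y Y g = be2 φ Y (ym y) g

/-- OB2: the dual output. Uses RLS, B20, SY1, SY2, SY3, BFM. -/
def Stmt_OB2 : Prop := ∀ φ : E × E → ℝ, Scat φ → Dil (fun z => VV φ z.1 z.2) → ∀ ε : ℝ, 0 < ε →
  ∃ (y : W4 → ℝ) (r₀ C : ℝ), TF y ∧ Sym3 y ∧ 0 < r₀ ∧ ∀ l : ℝ, r₀ ≤ l →
    ∃ (Y : Fin 4 → Fin 3 → W4 → ℝ) (g : W4 → ℝ), Dua φ y l C Y g ∧ b4 φ - ε ≤ bet φ y Y g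

/-! ## G. The family -/

/-- the family -/
noncomputable def pl (lam : ℝ) (z : E × E) : ℝ := lam * phi0 z

/-- PLS: the family. Uses nothing (the proofs of TBG and TBL may be used). -/
def Stmt_PLS : Prop := ∀ lam : ℝ, 0 < lam → lam ≤ 1 → Scat (pl lam) ∧
  (∀ z, ww (pl lam) z = lam * W1 (QQ z)) ∧
  (∀ z : E × E, VV (pl lam) z.1 z.2 = lam * W1 (QQ z) / (1 - lam * P1 (QQ z))) ∧
  (∀ z, 0 < phi0 z ∧ phi0 z ≤ 1 / 8)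

/-- DIL: the family decreases along rays. Uses PLS. -/
def Stmt_DIL : Prop := ∀ lam : ℝ, 0 < lam → lam ≤ 1 → Dil (fun z => VV (pl lam) z.1 z.2)

/-- B3P: positivity. Uses RLP, SCB, SDW, DIT, PLS. -/
def Stmt_B3P : Prop := 0 < B40 phi0 ∧ ∀ lam : ℝ, 0 < lam → lam ≤ 1 → B40 (pl lam) = lam ^ 2 * B40 phi0

/-- OB3: the coefficient of the family. Uses ALG, SCB, DIT, PLS, B3P. -/
def Stmt_OB3 : Prop := ∃ C : ℝ, 0 < C ∧ ∀ lam : ℝ, 0 < lam → lam ≤ 1 →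
  -(lam ^ 2 * B40 phi0) ≤ b4 (pl lam) ∧ b4 (pl lam) ≤ -(lam ^ 2 * B40 phi0) + C * lam ^ 3 ∧ b4 (pl lam) < 0

/-- SC4: scaling. Uses RLP, ALG. -/
def Stmt_SC4 : Prop := ∀ (φ : E × E → ℝ) (r : ℝ), Scat φ → 0 < r → b4 (fun z => φ (r⁻¹ • z)) = r ^ 7 * b4 φ

end Pool.Agent.TBF
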