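import Pool.Agent.TBF.Stmts

set_option autoImplicit false

open MeasureTheory Filter Topology
open scoped ContDiff

namespace Pool.Agent.TBF

open Pool.Agent.TBG Pool.Agent.TBL

namespace TR2_

theorem finrank_W4 : Module.finrank ℝ W4 = 9 := by
  simp [W4, E, Module.finrank_prod]

/-- the kernel, extended continuously to all `s` -/
noncomputable def kr (n : ℕ) (s : ℝ) : ℝ := ((max 1 s) ^ n)⁻¹

theorem max_pos (s : ℝ) : 0 < max 1 s := lt_of_lt_of_le one_pos (le_max_left _ _)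

theorem kr_pos (n : ℕ) (s : ℝ) : 0 < kr n s := by
  unfold kr; have := max_pos s; positivity

theorem kr_le (n : ℕ) (s : ℝ) : kr n s ≤ 1 := by
  unfold kr
  exact inv_le_one_of_one_le₀ (one_le_pow₀ (le_max_left _ _))

theorem kr_cont (n : ℕ) : Continuous (kr n) := by
  unfold kr
  exact Continuous.inv₀ (by fun_prop) (fun s => (pow_pos (max_pos s) n).ne')

theorem kr_mul (n m : ℕ) (s : ℝ) : kr n s * kr m s = kr (n + m) s := by
  unfold kr; rw [← mul_inv, ← pow_add]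

theorem kr_eq (n : ℕ) (s : ℝ) (hs : 1 ≤ s) : kr n s = (s ^ n)⁻¹ := by
  unfold kr; rw [max_eq_right hs]

noncomputable def gs (g : W4 → ℝ) (p : W4) (s : ℝ) : ℝ := g ((max 1 s)⁻¹ • p)

theorem gs_cont (g : W4 → ℝ) (hg : Continuous g) : Continuous (fun x : W4 × ℝ => gs g x.1 x.2) := by
  unfold gs
  refine hg.comp (Continuous.smul (Continuous.inv₀ (by fun_prop) (fun x => (max_pos _).ne')) continuous_fst)

theorem gs_cont' (g : W4 → ℝ) (hg : Continuous g) (p : W4) : Continuous (fun s : ℝ => gs g p s) :=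
  (gs_cont g hg).comp (Continuous.prodMk continuous_const continuous_id)

theorem Ag_eq (Λ : ℝ) (hΛ : 1 ≤ Λ) (g : W4 → ℝ) (p : W4) :
    Ag Λ g p = ∫ s in (1 : ℝ)..Λ, kr 10 s * gs g p s := by
  unfold Ag
  refine intervalIntegral.integral_congr (fun s hs => ?_)
  rw [Set.uIcc_of_le hΛ] at hs
  simp only [kr_eq 10 s hs.1, gs, max_eq_right hs.1]

theorem Ag_cont (Λ : ℝ) (hΛ : 1 ≤ Λ) (g : W4 → ℝ) (hg : Continuous g) : Continuous (Ag Λ g) := by
  have : Ag Λ g = fun p => ∫ s in (1 : ℝ)..Λ, kr 10 s * gs g p s := funext (Ag_eq Λ hΛ g)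
  rw [this]
  refine intervalIntegral.continuous_parametric_intervalIntegral_of_continuous' ?_ 1 Λ
  exact ((kr_cont 10).comp continuous_snd).mul (gs_cont g hg)

theorem Ag_zero (r Λ : ℝ) (hΛ : 1 ≤ Λ) (g : W4 → ℝ)
    (hz : ∀ p : W4, ‖p‖ < r ∨ 4 * r < ‖p‖ → g p = 0) (p : W4) (hp : 4 * r * Λ < ‖p‖) : Ag Λ g p = 0 := by
  unfold Ag
  have : ∀ s ∈ Set.uIcc (1 : ℝ) Λ, (s ^ 10)⁻¹ * g (s⁻¹ • p) = 0 := by
    intro s hs
    rw [Set.uIcc_of_le hΛ] at hs
    have hs0 : 0 < s := by linarith [hs.1]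
    rw [hz (s⁻¹ • p) (Or.inr ?_), mul_zero]
    rw [norm_smul, Real.norm_of_nonneg (by positivity), inv_mul_eq_div, lt_div_iff₀ hs0]
    rcases le_or_gt 0 r with hr | hr
    · nlinarith [hs.2]
    · nlinarith [norm_nonneg p, hs.1]
  rw [intervalIntegral.integral_congr this]
  simp

theorem int_shift (b Λ : ℝ) (hb : 0 ≤ b) (hΛ : 1 ≤ Λ) :
    ∫ s in (1 : ℝ)..Λ, ((s + b) ^ 10)⁻¹ ≤ ((1 + b) ^ 9)⁻¹ := by
  have hd : ∀ s ∈ Set.uIcc (1 : ℝ) Λ, HasDerivAt (fun s : ℝ => -(1 / 9) * ((s + b) ^ 9)⁻¹) (((s + b) ^ 10)⁻¹) s := by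
    intro s hs
    rw [Set.uIcc_of_le hΛ] at hs
    have hp : 0 < s + b := by linarith [hs.1]
    have h1 : HasDerivAt (fun s : ℝ => (s + b) ^ 9) ((9 : ℕ) * (s + b) ^ (9 - 1) * 1) s :=
      ((hasDerivAt_id s).add_const b).pow 9
    have h2 := (h1.inv (by positivity)).const_mul (-(1 / 9 : ℝ))
    have hne : s + b ≠ 0 := hp.ne'
    refine HasDerivAt.congr_deriv (f := fun s : ℝ => -(1 / 9) * ((s + b) ^ 9)⁻¹) h2 ?_
    norm_num
    field_simp
  have hI : IntervalIntegrable (fun s : ℝ => ((s + b) ^ 10)⁻¹) volume 1 Λ := by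
    refine ContinuousOn.intervalIntegrable (fun s hs => ?_)
    rw [Set.uIcc_of_le hΛ] at hs
    have hp : 0 < s + b := by linarith [hs.1]
    exact (ContinuousAt.inv₀ (by fun_prop) (by positivity)).continuousWithinAt
  rw [intervalIntegral.integral_eq_sub_of_hasDerivAt hd hI]
  have h1 : 0 ≤ ((Λ + b) ^ 9)⁻¹ := by
    have : 0 < Λ + b := by linarith
    positivity
  have h2 : 0 ≤ ((1 + b) ^ 9)⁻¹ := by positivity
  linarith

theorem int_kr (n : ℕ) (hn : 1 ≤ n) (Λ : ℝ) (hΛ : 1 ≤ Λ) :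
    ∫ s in (1 : ℝ)..Λ, kr (n + 1) s ≤ 1 / n := by
  have hn0 : (0 : ℝ) < n := by exact_mod_cast hn
  have e : ∫ s in (1 : ℝ)..Λ, kr (n + 1) s = ∫ s in (1 : ℝ)..Λ, ((s) ^ (n + 1))⁻¹ := by
    refine intervalIntegral.integral_congr (fun s hs => ?_)
    rw [Set.uIcc_of_le hΛ] at hs
    exact kr_eq _ s hs.1
  rw [e]
  have hd : ∀ s ∈ Set.uIcc (1 : ℝ) Λ, HasDerivAt (fun s : ℝ => -(1 / n) * ((s) ^ n)⁻¹) (((s) ^ (n + 1))⁻¹) s := by
    intro s hs
    rw [Set.uIcc_of_le hΛ] at hs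
    have hp : 0 < s := by linarith [hs.1]
    have h1 : HasDerivAt (fun s : ℝ => (s) ^ n) ((n : ℕ) * (s) ^ (n - 1)) s := hasDerivAt_pow n s
    have h2 := (h1.inv (by positivity)).const_mul (-(1 / (n : ℝ)))
    refine HasDerivAt.congr_deriv (f := fun s : ℝ => -(1 / (n : ℝ)) * ((s) ^ n)⁻¹) h2 ?_
    obtain ⟨k, rfl⟩ : ∃ k, n = k + 1 := ⟨n - 1, by omega⟩
    have hne : s ≠ 0 := hp.ne'
    have hk : ((k + 1 : ℕ) : ℝ) ≠ 0 := by exact_mod_cast hn0.ne'
    rw [show k + 1 - 1 = k from rfl]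
    generalize ((k + 1 : ℕ) : ℝ) = m at hk
    field_simp
    ring
  have hI : IntervalIntegrable (fun s : ℝ => ((s) ^ (n + 1))⁻¹) volume 1 Λ := by
    refine ContinuousOn.intervalIntegrable (fun s hs => ?_)
    rw [Set.uIcc_of_le hΛ] at hs
    have hp : 0 < s := by linarith [hs.1]
    exact (ContinuousAt.inv₀ (by fun_prop) (by positivity)).continuousWithinAt
  rw [intervalIntegral.integral_eq_sub_of_hasDerivAt hd hI]
  have h1 : 0 ≤ 1 / (n : ℝ) * ((Λ) ^ n)⁻¹ := by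
    have : 0 < Λ := by linarith
    positivity
  simp only [one_pow, inv_one]
  linarith

/-- pointwise bound -/
theorem Ag_bd (r : ℝ) (hr : 0 < r) (g : W4 → ℝ) (hg : TF g)
    (hz : ∀ p : W4, ‖p‖ < r ∨ 4 * r < ‖p‖ → g p = 0) :
    ∃ C : ℝ, ∀ Λ : ℝ, 1 ≤ Λ → ∀ p : W4, (1 + ‖p‖) ^ 8 * (‖p‖ * |Ag Λ g p|) ≤ C := by
  obtain ⟨G, hG⟩ := hg.1.continuous.bounded_above_of_compact_support hg.2
  have hG0 : 0 ≤ G := (norm_nonneg _).trans (hG 0)
  refine ⟨(1 + 4 * r) ^ 9 * (1024 * G), fun Λ hΛ p => ?_⟩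
  set b : ℝ := ‖p‖ / (4 * r) with hb
  have hb0 : 0 ≤ b := by positivity
  have hA : |Ag Λ g p| ≤ 1024 * G * ((1 + b) ^ 9)⁻¹ := by
    have h1 : |Ag Λ g p| ≤ ∫ s in (1 : ℝ)..Λ, 1024 * G * ((s + b) ^ 10)⁻¹ := by
      unfold Ag
      have hI : IntervalIntegrable (fun s : ℝ => 1024 * G * ((s + b) ^ 10)⁻¹) volume 1 Λ := by
        refine ContinuousOn.intervalIntegrable (fun s hs => ?_)
        rw [Set.uIcc_of_le hΛ] at hs
        have hp : 0 < s + b := by linarith [hs.1]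
        exact (continuousAt_const.mul (ContinuousAt.inv₀ (by fun_prop) (by positivity))).continuousWithinAt
      have := intervalIntegral.norm_integral_le_of_norm_le (f := fun s : ℝ => (s ^ 10)⁻¹ * g (s⁻¹ • p))
        hΛ (ae_of_all _ (fun s hs => ?_)) hI
      · simpa [Real.norm_eq_abs] using this
      · have hs1 : 1 < s := hs.1
        have hs0 : 0 < s := by linarith
        have hsb : 0 < s + b := by linarith
        by_cases hc : b ≤ s
        · rw [norm_mul, Real.norm_of_nonneg (by positivity : (0:ℝ) ≤ (s ^ 10)⁻¹)]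
          have e1 : (s ^ 10)⁻¹ ≤ 1024 * ((s + b) ^ 10)⁻¹ := by
            have : (s + b) ^ 10 ≤ 1024 * s ^ 10 := by
              calc (s + b) ^ 10 ≤ (2 * s) ^ 10 := pow_le_pow_left₀ hsb.le (by linarith) 10
                _ = 1024 * s ^ 10 := by ring
            rw [← div_eq_mul_inv, inv_eq_one_div, div_le_div_iff₀ (by positivity) (by positivity)]
            linarith
          calc (s ^ 10)⁻¹ * ‖g (s⁻¹ • p)‖ ≤ (1024 * ((s + b) ^ 10)⁻¹) * G :=
                mul_le_mul e1 (hG _) (norm_nonneg _) (by positivity)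
            _ = _ := by ring
        · have : g (s⁻¹ • p) = 0 := by
            refine hz _ (Or.inr ?_)
            rw [norm_smul, Real.norm_of_nonneg (by positivity), inv_mul_eq_div, lt_div_iff₀ hs0]
            push Not at hc
            rw [hb, lt_div_iff₀ (by positivity)] at hc
            linarith
          rw [this, mul_zero, norm_zero]
          positivity
    refine h1.trans ?_
    rw [intervalIntegral.integral_const_mul]
    exact mul_le_mul_of_nonneg_left (int_shift b Λ hb0 hΛ) (by positivity)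
  have h2 : (1 + ‖p‖) ^ 8 * (‖p‖ * |Ag Λ g p|) ≤ (1 + ‖p‖) ^ 9 * |Ag Λ g p| := by
    have : ‖p‖ ≤ 1 + ‖p‖ := by linarith
    calc (1 + ‖p‖) ^ 8 * (‖p‖ * |Ag Λ g p|) ≤ (1 + ‖p‖) ^ 8 * ((1 + ‖p‖) * |Ag Λ g p|) := by gcongr
      _ = _ := by ring
  refine h2.trans ?_
  have h3 : 1 + ‖p‖ ≤ (1 + 4 * r) * (1 + b) := by
    have : 4 * r * b = ‖p‖ := by rw [hb]; field_simp
    nlinarith
  have h4 : (1 + ‖p‖) ^ 9 ≤ (1 + 4 * r) ^ 9 * (1 + b) ^ 9 := by
    rw [← mul_pow]; exact pow_le_pow_left₀ (by positivity) h3 9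
  calc (1 + ‖p‖) ^ 9 * |Ag Λ g p| ≤ ((1 + 4 * r) ^ 9 * (1 + b) ^ 9) * (1024 * G * ((1 + b) ^ 9)⁻¹) :=
        mul_le_mul h4 hA (abs_nonneg _) (by positivity)
    _ = (1 + 4 * r) ^ 9 * (1024 * G) := by
        have : (1 + b) ^ 9 ≠ 0 := by positivity
        field_simp

/-- Cauchy-Schwarz -/
theorem cs (Λ : ℝ) (hΛ : 1 ≤ Λ) (g : W4 → ℝ) (hg : Continuous g) (p : W4) :
    Ag Λ g p ^ 2 ≤ 1 / 3 * ∫ s in (1 : ℝ)..Λ, kr 16 s * gs g p s ^ 2 := by
  have hgc := gs_cont' g hg p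
  set X := ∫ s in (1 : ℝ)..Λ, kr 4 s with hX
  set Y := ∫ s in (1 : ℝ)..Λ, kr 10 s * gs g p s with hY
  set Z := ∫ s in (1 : ℝ)..Λ, kr 16 s * gs g p s ^ 2 with hZ
  have hX3 : X ≤ 1 / 3 := by
    have := int_kr 3 (by norm_num) Λ hΛ
    simpa using this
  have hZ0 : 0 ≤ Z := intervalIntegral.integral_nonneg hΛ (fun s _ =>
    mul_nonneg (kr_pos _ _).le (sq_nonneg _))
  have hX0 : 0 ≤ X := intervalIntegral.integral_nonneg hΛ (fun s _ => (kr_pos _ _).le)
  rw [Ag_eq Λ hΛ, ← hY]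
  rcases hΛ.eq_or_lt with h | h
  · have : Y = 0 := by rw [hY, ← h]; simp
    rw [this]
    have : 0 ≤ 1 / 3 * Z := by positivity
    simpa using this
  · have hXp : 0 < X := by
      rw [hX]
      exact intervalIntegral.intervalIntegral_pos_of_pos_on ((kr_cont 4).intervalIntegrable _ _)
        (fun s _ => kr_pos 4 s) h
    have hnn : 0 ≤ ∫ s in (1 : ℝ)..Λ, (X * (kr 8 s * gs g p s) - Y * kr 2 s) ^ 2 :=
      intervalIntegral.integral_nonneg hΛ (fun s _ => sq_nonneg _)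
    have e : ∫ s in (1 : ℝ)..Λ, (X * (kr 8 s * gs g p s) - Y * kr 2 s) ^ 2 =
        X ^ 2 * Z - 2 * X * Y * Y + Y ^ 2 * X := by
      have e1 : ∀ s : ℝ, (X * (kr 8 s * gs g p s) - Y * kr 2 s) ^ 2 =
          X ^ 2 * (kr 16 s * gs g p s ^ 2) - 2 * X * Y * (kr 10 s * gs g p s) + Y ^ 2 * kr 4 s := by
        intro s
        rw [← kr_mul 8 8 s, ← kr_mul 8 2 s, ← kr_mul 2 2 s]
        ring
      rw [intervalIntegral.integral_congr (fun s _ => e1 s)]
      have c16 := kr_cont 16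
      have c10 := kr_cont 10
      have c4 := kr_cont 4
      rw [intervalIntegral.integral_add, intervalIntegral.integral_sub, intervalIntegral.integral_const_mul,
        intervalIntegral.integral_const_mul, intervalIntegral.integral_const_mul]
      · exact (Continuous.intervalIntegrable (by fun_prop) _ _)
      · exact (Continuous.intervalIntegrable (by fun_prop) _ _)
      · exact (Continuous.intervalIntegrable (by fun_prop) _ _)
      · exact (Continuous.intervalIntegrable (by fun_prop) _ _)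
    rw [e] at hnn
    have h5 : 0 ≤ X * (X * Z - Y ^ 2) := by nlinarith
    have h6 : 0 ≤ X * Z - Y ^ 2 := by
      by_contra hcon
      push Not at hcon
      nlinarith
    nlinarith

end TR2_

open TR2_ in
theorem tr2_proof : Stmt_TR2 := by
  intro r g hr hg hz
  refine ⟨Ag_bd r hr g hg hz, fun Λ hΛ => ⟨Ag_zero r Λ hΛ g hz, ?_⟩⟩
  have hgc := hg.1.continuous
  have hAc := Ag_cont Λ hΛ g hgc
  have hR : 0 ≤ 4 * r * Λ := by positivity
  have hcpt : HasCompactSupport (fun p : W4 => ‖p‖ ^ 2 * Ag Λ g p ^ 2) := by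
    refine HasCompactSupport.intro (isCompact_closedBall (0 : W4) (4 * r * Λ)) (fun p hp => ?_)
    have : 4 * r * Λ < ‖p‖ := by simpa using hp
    rw [Ag_zero r Λ hΛ g hz p this]; simp
  have hint : Integrable (fun p : W4 => ‖p‖ ^ 2 * Ag Λ g p ^ 2) :=
    (by fun_prop : Continuous (fun p : W4 => ‖p‖ ^ 2 * Ag Λ g p ^ 2)).integrable_of_hasCompactSupport hcpt
  refine ⟨hint, ?_⟩
  -- the kernel
  set K : W4 → ℝ → ℝ := fun p s => ‖p‖ ^ 2 * (kr 16 s * gs g p s ^ 2) with hK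
  obtain ⟨G, hG⟩ := hgc.bounded_above_of_compact_support hg.2
  have hG0 : 0 ≤ G := (norm_nonneg _).trans (hG 0)
  have hKc : Continuous (Function.uncurry K) := by
    have h1 := gs_cont g hgc
    have h2 := (kr_cont 16).comp (continuous_snd (X := W4) (Y := ℝ))
    have : Function.uncurry K = fun x : W4 × ℝ => ‖x.1‖ ^ 2 * (kr 16 x.2 * gs g x.1 x.2 ^ 2) := by
      funext x; rfl
    rw [this]
    exact (by fun_prop : Continuous (fun x : W4 × ℝ => ‖x.1‖ ^ 2)).mul (h2.mul (h1.pow 2))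
  have hKz : ∀ p : W4, ∀ s : ℝ, s ∈ Set.Ioc 1 Λ → 4 * r * Λ < ‖p‖ → K p s = 0 := by
    intro p s hs hp
    have hs0 : 0 < s := by linarith [hs.1]
    have : gs g p s = 0 := by
      unfold gs
      rw [max_eq_right hs.1.le]
      refine hz _ (Or.inr ?_)
      rw [norm_smul, Real.norm_of_nonneg (by positivity), inv_mul_eq_div, lt_div_iff₀ hs0]
      nlinarith [hs.2]
    simp [hK, this]
  have hKI : Integrable (Function.uncurry K) (volume.prod (volume.restrict (Set.Ioc 1 Λ))) := by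
    have hB : Integrable (fun x : W4 × ℝ => ((Metric.closedBall (0 : W4) (4 * r * Λ)).indicator
        (fun _ => (4 * r * Λ) ^ 2 * G ^ 2) x.1) * 1) (volume.prod (volume.restrict (Set.Ioc 1 Λ))) := by
      refine Integrable.mul_prod (f := (Metric.closedBall (0 : W4) (4 * r * Λ)).indicator
        (fun _ => (4 * r * Λ) ^ 2 * G ^ 2)) (g := fun _ : ℝ => (1 : ℝ)) ?_ ?_
      · rw [integrable_indicator_iff Metric.isClosed_closedBall.measurableSet]
        exact integrableOn_const (measure_closedBall_lt_top.ne) enorm_ne_top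
      · exact integrable_const _
    refine hB.mono' hKc.aestronglyMeasurable ?_
    have hae : ∀ᵐ x : W4 × ℝ ∂(volume.prod (volume.restrict (Set.Ioc 1 Λ))), x.2 ∈ Set.Ioc 1 Λ := by
      have h0 : ∀ᵐ s ∂(volume.restrict (Set.Ioc 1 Λ)), s ∈ Set.Ioc (1 : ℝ) Λ :=
        ae_restrict_mem measurableSet_Ioc
      exact Measure.quasiMeasurePreserving_snd.ae h0
    filter_upwards [hae] with x hx
    by_cases hp : 4 * r * Λ < ‖x.1‖
    · have : Function.uncurry K x = 0 := hKz x.1 x.2 hx hp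
      rw [this, norm_zero]
      refine mul_nonneg (Set.indicator_nonneg (fun _ _ => by positivity) _) one_pos.le
    · push Not at hp
      rw [Set.indicator_of_mem (by simpa using hp), mul_one]
      show ‖‖x.1‖ ^ 2 * (kr 16 x.2 * gs g x.1 x.2 ^ 2)‖ ≤ _
      rw [Real.norm_of_nonneg (mul_nonneg (by positivity) (mul_nonneg (kr_pos _ _).le (sq_nonneg _)))]
      have e1 : ‖x.1‖ ^ 2 ≤ (4 * r * Λ) ^ 2 := pow_le_pow_left₀ (norm_nonneg _) hp 2
      have e2 : gs g x.1 x.2 ^ 2 ≤ G ^ 2 := by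
        rw [← sq_abs]
        exact pow_le_pow_left₀ (abs_nonneg _) (hG ((max 1 x.2)⁻¹ • x.1)) 2
      have e3 : kr 16 x.2 * gs g x.1 x.2 ^ 2 ≤ 1 * G ^ 2 :=
        mul_le_mul (kr_le _ _) e2 (sq_nonneg _) one_pos.le
      rw [one_mul] at e3
      exact mul_le_mul e1 e3 (mul_nonneg (kr_pos _ _).le (sq_nonneg _)) (by positivity)
  have hinner : ∀ s ∈ Set.Ioc (1 : ℝ) Λ, ∫ p, K p s = kr 5 s * ∫ p : W4, ‖p‖ ^ 2 * g p ^ 2 := by
    intro s hs
    have hs0 : 0 < s := by linarith [hs.1]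
    have i1 : (volume : Measure (E × E)).IsAddHaarMeasure :=
      Measure.prod.instIsAddHaarMeasure (volume : Measure E) (volume : Measure E)
    have i2 : (volume : Measure W4).IsAddHaarMeasure :=
      Measure.prod.instIsAddHaarMeasure (volume : Measure E) (volume : Measure (E × E))
    have h1 := Measure.integral_comp_smul (volume : Measure W4) (fun x : W4 => ‖x‖ ^ 2 * g x ^ 2) s⁻¹
    rw [finrank_W4] at h1
    have h2 : ∀ p : W4, K p s = kr 16 s * s ^ 2 * (‖s⁻¹ • p‖ ^ 2 * g (s⁻¹ • p) ^ 2) := by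
      intro p
      simp only [hK, gs, max_eq_right hs.1.le]
      rw [norm_smul, Real.norm_of_nonneg (by positivity : (0 : ℝ) ≤ s⁻¹), mul_pow, inv_pow]
      field_simp
    rw [integral_congr_ae (ae_of_all _ h2), integral_const_mul, h1, kr_eq 16 s hs.1.le, kr_eq 5 s hs.1.le,
      abs_of_pos (by positivity), smul_eq_mul, inv_pow, inv_inv, ← mul_assoc]
    congr 1
    field_simp
  have hle : (∫ p : W4, ‖p‖ ^ 2 * Ag Λ g p ^ 2) ≤ ∫ p : W4, 1 / 3 * ∫ s in Set.Ioc 1 Λ, K p s := by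
    refine integral_mono_of_nonneg (ae_of_all _ (fun p => by positivity)) ?_ (ae_of_all _ (fun p => ?_))
    · exact (hKI.integral_prod_left).const_mul _
    · show ‖p‖ ^ 2 * Ag Λ g p ^ 2 ≤ 1 / 3 * ∫ s in Set.Ioc 1 Λ, K p s
      rw [integral_const_mul, ← intervalIntegral.integral_of_le hΛ]
      have := mul_le_mul_of_nonneg_left (cs Λ hΛ g hgc p) (by positivity : 0 ≤ ‖p‖ ^ 2)
      linarith
  refine hle.trans ?_
  rw [integral_const_mul, integral_integral_swap hKI]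
  have e : ∫ s in Set.Ioc 1 Λ, ∫ p, K p s = (∫ s in (1 : ℝ)..Λ, kr 5 s) * ∫ p : W4, ‖p‖ ^ 2 * g p ^ 2 := by
    rw [intervalIntegral.integral_of_le hΛ, ← integral_mul_const]
    exact setIntegral_congr_fun measurableSet_Ioc (fun s hs => hinner s hs)
  rw [e]
  have h5 : ∫ s in (1 : ℝ)..Λ, kr 5 s ≤ 1 / 4 := by
    have := int_kr 4 (by norm_num) Λ hΛ
    simpa using this
  have hI0 : 0 ≤ ∫ p : W4, ‖p‖ ^ 2 * g p ^ 2 := integral_nonneg (fun p => by positivity)
  nlinarith [mul_le_mul_of_nonneg_right h5 hI0]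

end Pool.Agent.TBF
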